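import Pool.Agent.H90.MA

/-!
# Positivity of the Monge-Ampère operator
-/

open Complex MeasureTheory Metric Real Set InnerProductSpace Topology Filter

namespace Pool.Agent.H90

theorem levi_def' (f : ℂ × ℂ → ℝ) (p w : ℂ × ℂ) :
    levi f p w = hess f p w w + hess f p (I • w) (I • w) := rfl

theorem decomp (w : ℂ × ℂ) : w = w.1.re • ((1, 0) : ℂ × ℂ) + w.1.im • ((I, 0) : ℂ × ℂ) +
    w.2.re • ((0, 1) : ℂ × ℂ) + w.2.im • ((0, I) : ℂ × ℂ) := by
  ext <;> simp

theorem hess_expand {f : ℂ × ℂ → ℝ} (p : ℂ × ℂ) (a b c d a' b' c' d' : ℝ) :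
    hess f p (a • ((1, 0) : ℂ × ℂ) + b • ((I, 0) : ℂ × ℂ) + c • ((0, 1) : ℂ × ℂ) +
      d • ((0, I) : ℂ × ℂ)) (a' • ((1, 0) : ℂ × ℂ) + b' • ((I, 0) : ℂ × ℂ) +
      c' • ((0, 1) : ℂ × ℂ) + d' • ((0, I) : ℂ × ℂ)) =
    a * a' * hess f p (1, 0) (1, 0) + a * b' * hess f p (1, 0) (I, 0) +
    a * c' * hess f p (1, 0) (0, 1) + a * d' * hess f p (1, 0) (0, I) +
    b * a' * hess f p (I, 0) (1, 0) + b * b' * hess f p (I, 0) (I, 0) +
    b * c' * hess f p (I, 0) (0, 1) + b * d' * hess f p (I, 0) (0, I) +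
    c * a' * hess f p (0, 1) (1, 0) + c * b' * hess f p (0, 1) (I, 0) +
    c * c' * hess f p (0, 1) (0, 1) + c * d' * hess f p (0, 1) (0, I) +
    d * a' * hess f p (0, I) (1, 0) + d * b' * hess f p (0, I) (I, 0) +
    d * c' * hess f p (0, I) (0, 1) + d * d' * hess f p (0, I) (0, I) := by
  unfold hess
  simp only [map_add, map_smul, add_apply, smul_apply, smul_eq_mul]
  ring

/-- The Levi form in coordinates. -/
theorem levi_expand {f : ℂ × ℂ → ℝ} (hf : Sm f) (p w : ℂ × ℂ) :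
    levi f p w = (w.1.re ^ 2 + w.1.im ^ 2) * (hess f p (1, 0) (1, 0) + hess f p (I, 0) (I, 0)) +
      (w.2.re ^ 2 + w.2.im ^ 2) * (hess f p (0, 1) (0, 1) + hess f p (0, I) (0, I)) +
      2 * ((w.1.re * w.2.re + w.1.im * w.2.im) *
        (hess f p (1, 0) (0, 1) + hess f p (I, 0) (0, I)) +
        (w.1.re * w.2.im - w.1.im * w.2.re) *
        (hess f p (1, 0) (0, I) - hess f p (I, 0) (0, 1))) := by
  rw [levi_def']
  have h1 := decomp w
  have h2 := decomp (I • w)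
  have e1 : (I • w).1.re = -w.1.im := by simp
  have e2 : (I • w).1.im = w.1.re := by simp
  have e3 : (I • w).2.re = -w.2.im := by simp
  have e4 : (I • w).2.im = w.2.re := by simp
  rw [e1, e2, e3, e4] at h2
  have h3 := hess_expand (f := f) p w.1.re w.1.im w.2.re w.2.im w.1.re w.1.im w.2.re w.2.im
  rw [← h1] at h3
  have h4 := hess_expand (f := f) p (-w.1.im) w.1.re (-w.2.im) w.2.re (-w.1.im) w.1.re
    (-w.2.im) w.2.re
  rw [← h2] at h4
  rw [h3, h4, hess_symm hf p (I, 0) (1, 0), hess_symm hf p (0, 1) (1, 0),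
    hess_symm hf p (0, 1) (I, 0), hess_symm hf p (0, I) (1, 0), hess_symm hf p (0, I) (I, 0),
    hess_symm hf p (0, I) (0, 1)]
  ring

/-- A lower bound for the Levi form gives a lower bound for the Monge-Ampère operator. -/
theorem ma_ge {f : ℂ × ℂ → ℝ} (hf : Sm f) (p : ℂ × ℂ) {κ : ℝ} (hκ : 0 ≤ κ)
    (h : ∀ w : ℂ × ℂ, 4 * κ * (‖w.1‖ ^ 2 + ‖w.2‖ ^ 2) ≤ levi f p w) : 16 * κ ^ 2 ≤ ma f p := by
  set P := hess f p (1, 0) (1, 0) + hess f p (I, 0) (I, 0) with hP
  set Q := hess f p (0, 1) (0, 1) + hess f p (0, I) (0, I) with hQ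
  set R := hess f p (1, 0) (0, 1) + hess f p (I, 0) (0, I) with hR
  set S := hess f p (1, 0) (0, I) - hess f p (I, 0) (0, 1) with hS
  have hma : ma f p = P * Q - R ^ 2 - S ^ 2 := rfl
  have key : ∀ x y c : ℝ, 4 * κ * (x ^ 2 + y ^ 2 + c ^ 2) ≤
      (x ^ 2 + y ^ 2) * P + c ^ 2 * Q + 2 * (x * c * R - y * c * S) := by
    intro x y c
    have h1 := h (((x : ℂ) + y * I), (c : ℂ))
    rw [levi_expand hf, ← Complex.normSq_eq_norm_sq, ← Complex.normSq_eq_norm_sq,
      Complex.normSq_apply, Complex.normSq_apply] at h1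
    simp only [add_re, ofReal_re, mul_re, ofReal_im, I_re, I_im, mul_zero, mul_one, sub_self,
      add_zero, add_im, mul_im, zero_add, zero_sub] at h1
    rw [← hP, ← hQ, ← hR, ← hS] at h1
    nlinarith
  have hP4 : 4 * κ ≤ P := by
    have := key 1 0 0
    linarith
  have hQ4 : 4 * κ ≤ Q := by
    have := key 0 0 1
    linarith
  have hN : R ^ 2 + S ^ 2 ≤ (P - 4 * κ) * (Q - 4 * κ) := by
    set N := R ^ 2 + S ^ 2 with hNdef
    have hN0 : 0 ≤ N := by positivity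
    have h2 : ∀ t : ℝ, 0 ≤ (P - 4 * κ) * N * (t * t) + (-2 * N) * t + (Q - 4 * κ) := by
      intro t
      have := key (-t * R) (t * S) 1
      have e : ((-t * R) ^ 2 + (t * S) ^ 2) = t * t * N := by rw [hNdef]; ring
      rw [e] at this
      have e2 : 2 * (-t * R * 1 * R - t * S * 1 * S) = -2 * N * t := by rw [hNdef]; ring
      rw [e2] at this
      nlinarith
    have h3 := discrim_le_zero h2
    unfold discrim at h3
    have h4 : N * N ≤ N * ((P - 4 * κ) * (Q - 4 * κ)) := by nlinarith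
    rcases hN0.lt_or_eq with hpos | hzero
    · exact le_of_mul_le_mul_left h4 hpos
    · rw [← hzero]
      exact mul_nonneg (by linarith) (by linarith)
  rw [hma]
  nlinarith

theorem ma_nonneg {f : ℂ × ℂ → ℝ} (hf : Sm f) (p : ℂ × ℂ) (h : ∀ w : ℂ × ℂ, 0 ≤ levi f p w) :
    0 ≤ ma f p := by
  have := ma_ge hf p le_rfl (fun w => by simpa using h w)
  simpa using this

/-- A smooth convex cut-off function. -/
theorem exists_g (s₀ : ℝ) {τ : ℝ} (hτ : 0 < τ) : ∃ g : ℝ → ℝ, ContDiff ℝ (⊤ : ℕ∞) g ∧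
    (∀ s ≤ s₀, g s = 0) ∧ (∀ s, 0 ≤ deriv g s) ∧ (∀ s, deriv g s ≤ 1) ∧
    (∀ s, 0 ≤ deriv (deriv g) s) ∧ (∀ s, s₀ + τ ≤ s → deriv g s = 1) := by
  let g' : ℝ → ℝ := fun x => smoothTransition ((x - s₀) / τ)
  have hg'c : Continuous g' :=
    smoothTransition.continuous.comp ((continuous_id.sub continuous_const).div_const τ)
  let g : ℝ → ℝ := fun s => ∫ x in s₀..s, g' x
  have hd : ∀ s, HasDerivAt g (g' s) s := fun s =>
    intervalIntegral.integral_hasDerivAt_right (hg'c.intervalIntegrable _ _)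
      (hg'c.stronglyMeasurableAtFilter _ _) hg'c.continuousAt
  have hderiv : deriv g = g' := by
    ext s
    exact (hd s).deriv
  have hg'smooth : ContDiff ℝ (⊤ : ℕ∞) g' :=
    (smoothTransition.contDiff (n := ⊤)).comp ((contDiff_id.sub contDiff_const).div_const τ)
  refine ⟨g, ?_, ?_, ?_, ?_, ?_, ?_⟩
  · rw [contDiff_infty_iff_deriv]
    refine ⟨fun s => (hd s).differentiableAt, ?_⟩
    rw [hderiv]
    exact hg'smooth
  · intro s hs
    have : g s = ∫ x in s₀..s, (0 : ℝ) := by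
      apply intervalIntegral.integral_congr
      intro x hx
      rw [uIcc_of_ge hs] at hx
      exact smoothTransition.zero_of_nonpos
        (div_nonpos_of_nonpos_of_nonneg (by linarith [hx.2]) hτ.le)
    rw [this]
    simp
  · intro s
    rw [hderiv]
    exact smoothTransition.nonneg _
  · intro s
    rw [hderiv]
    exact smoothTransition.le_one _
  · intro s
    rw [hderiv]
    have : Monotone g' := by
      intro x y hxy
      exact smoothTransition.monotone (div_le_div_of_nonneg_right (by linarith) hτ.le)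
    exact this.deriv_nonneg
  · intro s hs
    rw [hderiv]
    exact smoothTransition.one_of_one_le ((one_le_div hτ).mpr (by linarith))

theorem D_comp {g : ℝ → ℝ} (hg : ContDiff ℝ (⊤ : ℕ∞) g) {h : ℂ × ℂ → ℝ} (hh : Sm h)
    (a : ℂ × ℂ) : D a (fun q => g (h q)) = fun q => deriv g (h q) * D a h q := by
  ext q
  have h1 : HasDerivAt g (deriv g (h q)) (h q) :=
    ((hg.differentiable (by simp)) (h q)).hasDerivAt
  have h2 := h1.comp_hasFDerivAt q (hh.diff q).hasFDerivAt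
  have h3 : fderiv ℝ (g ∘ h) q = _ := h2.fderiv
  have h4 : D a (fun q => g (h q)) q = fderiv ℝ (g ∘ h) q a := rfl
  rw [h4, h3]
  rfl

theorem D_mul {f h : ℂ × ℂ → ℝ} (hf : Sm f) (hh : Sm h) (a : ℂ × ℂ) (q : ℂ × ℂ) :
    D a (fun q => f q * h q) q = f q * D a h q + D a f q * h q := by
  unfold D
  rw [fderiv_fun_mul (hf.diff q) (hh.diff q)]
  simp only [add_apply, smul_apply, smul_eq_mul]
  ring

theorem hess_comp {g : ℝ → ℝ} (hg : ContDiff ℝ (⊤ : ℕ∞) g) {h : ℂ × ℂ → ℝ} (hh : Sm h)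
    (p a b : ℂ × ℂ) : hess (fun q => g (h q)) p a b =
      deriv g (h p) * hess h p a b + deriv (deriv g) (h p) * (D a h p * D b h p) := by
  have hgh : Sm (fun q => g (h q)) := hg.comp hh
  have hg' : ContDiff ℝ (⊤ : ℕ∞) (deriv g) := (contDiff_infty_iff_deriv.mp hg).2
  have hg'h : Sm (fun q => deriv g (h q)) := hg'.comp hh
  rw [hess_eq_D hgh, D_comp hg hh, D_mul hg'h (hh.D b), D_comp hg' hh, hess_eq_D hh]
  ring

theorem levi_comp {g : ℝ → ℝ} (hg : ContDiff ℝ (⊤ : ℕ∞) g) {h : ℂ × ℂ → ℝ} (hh : Sm h)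
    (p w : ℂ × ℂ) : levi (fun q => g (h q)) p w =
      deriv g (h p) * levi h p w + deriv (deriv g) (h p) * (D w h p ^ 2 + D (I • w) h p ^ 2) := by
  rw [levi_def', levi_def', hess_comp hg hh, hess_comp hg hh]
  ring

theorem levi_add {f g : ℂ × ℂ → ℝ} (hf : Sm f) (hg : Sm g) (p w : ℂ × ℂ) :
    levi (fun q => f q + g q) p w = levi f p w + levi g p w := by
  rw [levi_def', levi_def', levi_def', hess_add hf hg, hess_add hf hg]
  ring

theorem levi_const_mul {f : ℂ × ℂ → ℝ} (hf : Sm f) (c : ℝ) (p w : ℂ × ℂ) :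
    levi (fun q => c * f q) p w = c * levi f p w := by
  rw [levi_def', levi_def', hess_const_mul hf, hess_const_mul hf]
  ring

theorem circleAverage_norm_sq_line (a b : ℂ) (s : ℝ) :
    circleAverage (fun ξ : ℂ => ‖a + ξ * b‖ ^ 2) 0 s = ‖a‖ ^ 2 + s ^ 2 * ‖b‖ ^ 2 := by
  have e : (fun ξ : ℂ => ‖a + ξ * b‖ ^ 2) = fun ξ : ℂ => ‖a‖ ^ 2 +
      ((2 * (a.re * b.re + a.im * b.im)) * ξ.re + (2 * (a.im * b.re - a.re * b.im)) * ξ.im +
        ‖b‖ ^ 2 * ξ.re ^ 2 + 0 * (ξ.re * ξ.im) + ‖b‖ ^ 2 * ξ.im ^ 2) := by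
    ext z
    rw [← Complex.normSq_eq_norm_sq, ← Complex.normSq_eq_norm_sq, ← Complex.normSq_eq_norm_sq,
      Complex.normSq_apply, Complex.normSq_apply, Complex.normSq_apply]
    simp only [add_re, add_im, mul_re, mul_im]
    ring
  rw [e, circleAverage_fun_add (circleIntegrable_const _ _ _), circleAverage_const,
    circleAverage_quad]
  · ring
  · apply ContinuousOn.circleIntegrable'
    apply Continuous.continuousOn
    fun_prop

/-- the squared Euclidean norm -/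
noncomputable def N2 (p : ℂ × ℂ) : ℝ := ‖p.1‖ ^ 2 + ‖p.2‖ ^ 2

theorem N2_nonneg (p : ℂ × ℂ) : 0 ≤ N2 p := by unfold N2; positivity

theorem Sm_N2 : Sm N2 := by
  unfold N2
  exact (contDiff_fst.norm_sq ℝ).add (contDiff_snd.norm_sq ℝ)

theorem circleAverage_N2 (p w : ℂ × ℂ) (s : ℝ) :
    circleAverage (fun ξ : ℂ => N2 (p + ξ • w)) 0 s = N2 p + s ^ 2 * N2 w := by
  have e : (fun ξ : ℂ => N2 (p + ξ • w)) = fun ξ : ℂ => ‖p.1 + ξ * w.1‖ ^ 2 + ‖p.2 + ξ * w.2‖ ^ 2 := by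
    ext ξ
    simp [N2]
  have hi : ∀ a b : ℂ, CircleIntegrable (fun ξ : ℂ => ‖a + ξ * b‖ ^ 2) 0 s := by
    intro a b
    apply ContinuousOn.circleIntegrable'
    apply Continuous.continuousOn
    fun_prop
  rw [e, circleAverage_fun_add (hi _ _) (hi _ _), circleAverage_norm_sq_line,
    circleAverage_norm_sq_line]
  unfold N2
  ring

theorem levi_ge {V : ℂ × ℂ → ℝ} (hV : ContDiff ℝ 2 V) {p w : ℂ × ℂ} {c : ℝ}
    (h : ∃ s₀ > 0, ∀ s, 0 < s → s < s₀ →
      V p + c * s ^ 2 ≤ circleAverage (fun ξ : ℂ => V (p + ξ • w)) 0 s) : 4 * c ≤ levi V p w := by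
  by_contra hneg
  push Not at hneg
  obtain ⟨δ, hδ, h1⟩ := circleAverage_expansion hV p w (ε := (4 * c - levi V p w) / 8) (by linarith)
  obtain ⟨s₀, hs₀, h2⟩ := h
  set s := min (δ / 2) (s₀ / 2) with hs
  have hspos : 0 < s := by positivity
  have h3 := h1 s hspos ((min_le_left _ _).trans_lt (by linarith))
  have h4 := h2 s hspos ((min_le_right _ _).trans_lt (by linarith))
  have h5 := (abs_le.mp h3).2
  have : 0 < s ^ 2 := by positivity
  nlinarith

theorem levi_of_strict {V₀ : ℂ × ℂ → ℝ} {N : Set (ℂ × ℂ)} (hN : IsOpen N) (hV : Sm V₀)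
    (hp : PshOn V₀ N) {c : ℝ} {p : ℂ × ℂ} (hpN : p ∈ N) (w : ℂ × ℂ) :
    4 * (c * N2 w) ≤ levi (fun q => V₀ q + c * N2 q) p w := by
  apply levi_ge
  · exact contDiff_infty.mp (hV.add (contDiff_const.mul Sm_N2)) 2
  · obtain ⟨s₀, hs₀, h⟩ := hp.LSM hN hpN w
    refine ⟨s₀, hs₀, fun s hs hs' => ?_⟩
    have h1 := h s hs hs'
    simp only [zero_smul, add_zero] at h1
    have hVc : Continuous V₀ := hV.continuous
    have hNc : Continuous N2 := Sm_N2.continuous
    rw [circleAverage_fun_add, circleAverage_const_mul (fun ξ : ℂ => N2 (p + ξ • w)),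
      circleAverage_N2]
    · linarith
    · apply ContinuousOn.circleIntegrable'
      apply Continuous.continuousOn
      fun_prop
    · apply ContinuousOn.circleIntegrable'
      apply Continuous.continuousOn
      fun_prop

end Pool.Agent.H90
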