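import Mathlib

/-!
# Definitions for the problem on strict positivity of weak geodesics

The compact Kähler manifold is the flat torus `X = ℂ / (ℤ + iℤ)` with the Kähler form
`ω = dd^c |ζ|^2`.  Functions on `X` (on `X` times an annulus) are functions on `ℂ` (on `ℂ` times the
annulus) that are invariant under `ζ ↦ ζ + 1` and `ζ ↦ ζ + i`.
-/

open Complex MeasureTheory Metric Real Set Topology Filter

namespace Pool.Agent.H90

/-- `u` is a continuous plurisubharmonic function on `Ω`: it is continuous on `Ω` and satisfies the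
sub-mean value inequality on every (affine) complex disc contained in `Ω`. -/
structure PshOn {E : Type*} [NormedAddCommGroup E] [NormedSpace ℂ E] (u : E → ℝ) (Ω : Set E) :
    Prop where
  cont : ContinuousOn u Ω
  submean : ∀ p w : E, (∀ ξ ∈ closedBall (0 : ℂ) 1, p + ξ • w ∈ Ω) →
    u p ≤ circleAverage (fun ξ : ℂ => u (p + ξ • w)) 0 1

/-- The second derivative of `f` at `p` in the (real) directions `a`, `b`. -/
noncomputable def hess (f : ℂ × ℂ → ℝ) (p a b : ℂ × ℂ) : ℝ := fderiv ℝ (fderiv ℝ f) p a b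

/-- Sixteen times the determinant of the complex Hessian `(∂²f/∂z_j∂\bar z_k)`, that is, the
density of `(dd^c f)^2` up to a positive constant: with `z₁ = x + iy`, `z₂ = s + it` it is
`(f_xx + f_yy)(f_ss + f_tt) - (f_xs + f_yt)² - (f_xt - f_ys)²`. -/
noncomputable def ma (f : ℂ × ℂ → ℝ) (p : ℂ × ℂ) : ℝ :=
  (hess f p (1, 0) (1, 0) + hess f p (I, 0) (I, 0)) *
    (hess f p (0, 1) (0, 1) + hess f p (0, I) (0, I)) -
  (hess f p (1, 0) (0, 1) + hess f p (I, 0) (0, I)) ^ 2 -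
  (hess f p (1, 0) (0, I) - hess f p (I, 0) (0, 1)) ^ 2

/-- `(dd^c u)^2 = 0` on `Ω` in the sense of Bedford-Taylor (for continuous `u`): near every compact
subset `K` of `Ω` the function `u` is a uniform limit of smooth plurisubharmonic functions whose
Monge-Ampère masses on `K` tend to zero. -/
def BTZero (u : ℂ × ℂ → ℝ) (Ω : Set (ℂ × ℂ)) : Prop :=
  ∀ K : Set (ℂ × ℂ), IsCompact K → K ⊆ Ω →
    ∃ (N : Set (ℂ × ℂ)) (v : ℕ → ℂ × ℂ → ℝ), IsOpen N ∧ K ⊆ N ∧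
      (∀ j, ContDiffOn ℝ (⊤ : ℕ∞) (v j) N) ∧ (∀ j, PshOn (v j) N) ∧
      TendstoUniformlyOn v u atTop N ∧
      Tendsto (fun j => ∫ p in K, ma (v j) p) atTop (𝓝 0)

/-- The open domain `ℂ × {a < |z| < b}`. -/
def Dom (a b : ℝ) : Set (ℂ × ℂ) := {p | a < ‖p.2‖ ∧ ‖p.2‖ < b}

/-- The closed domain `ℂ × {a ≤ |z| ≤ b}`. -/
def Cl (a b : ℝ) : Set (ℂ × ℂ) := {p | a ≤ ‖p.2‖ ∧ ‖p.2‖ ≤ b}

/-- `ψ` is a smooth function on the torus `ℂ / (ℤ + iℤ)` and `ω + dd^c ψ` is a Kähler form, where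
`ω = dd^c |ζ|^2`, that is, the Laplacian of `|ζ|^2 + ψ` is positive. -/
structure KahlerPotential (ψ : ℂ → ℝ) : Prop where
  smooth : ContDiff ℝ (⊤ : ℕ∞) ψ
  periodic : ∀ ζ, ψ (ζ + 1) = ψ ζ ∧ ψ (ζ + I) = ψ ζ
  pos : ∀ ζ, 0 < fderiv ℝ (fderiv ℝ fun ζ : ℂ => ‖ζ‖ ^ 2 + ψ ζ) ζ 1 1 +
    fderiv ℝ (fderiv ℝ fun ζ : ℂ => ‖ζ‖ ^ 2 + ψ ζ) ζ I I

/-- `φ` is the weak geodesic joining `ω + dd^c φ₁` and `ω + dd^c φ₂`, `ω = dd^c |ζ|^2`, on
`ℂ / (ℤ + iℤ)`: it is a bounded function on `X × {a ≤ |z| ≤ b}`, continuous up to the boundary, with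
`π^*ω + dd^c φ ≥ 0` and `(π^*ω + dd^c φ)^2 = 0` over the open annulus and boundary values `φ₁`, `φ₂`. -/
structure WeakGeodesic (a b : ℝ) (φ₁ φ₂ : ℂ → ℝ) (φ : ℂ × ℂ → ℝ) : Prop where
  periodic : ∀ ζ z : ℂ, (ζ, z) ∈ Cl a b → φ (ζ + 1, z) = φ (ζ, z) ∧ φ (ζ + I, z) = φ (ζ, z)
  bounded : ∃ C, ∀ p ∈ Cl a b, |φ p| ≤ C
  cont : ContinuousOn φ (Cl a b)
  left : ∀ ζ z : ℂ, ‖z‖ = a → φ (ζ, z) = φ₁ ζ
  right : ∀ ζ z : ℂ, ‖z‖ = b → φ (ζ, z) = φ₂ ζ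
  psh : PshOn (fun p => ‖p.1‖ ^ 2 + φ p) (Dom a b)
  mongeAmpere : BTZero (fun p => ‖p.1‖ ^ 2 + φ p) (Dom a b)

/-- `ω + dd^c ψ ≥ ε ω` for some `ε > 0`, where `ω = dd^c |ζ|^2`. -/
def StrictlyPositive (ψ : ℂ → ℝ) : Prop :=
  ∃ ε > 0, PshOn (fun ζ : ℂ => (1 - ε) * ‖ζ‖ ^ 2 + ψ ζ) univ

end Pool.Agent.H90
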