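import Pool.Agent.H90.Kis

/-!
# Partial minimisation (Kiselev's minimum principle)
-/

open Complex MeasureTheory Metric Real Set InnerProductSpace Topology Filter

namespace Pool.Agent.H90

/-- partial minimum over a compact set of parameters -/
noncomputable def pmin (F : ℂ → ℝ → ℝ) (K : Set ℝ) (ζ : ℂ) : ℝ := sInf (F ζ '' K)

theorem continuous_pmin {F : ℂ → ℝ → ℝ} (hF : Continuous (Function.uncurry F)) {K : Set ℝ}
    (hK : IsCompact K) : Continuous (pmin F K) :=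
  hK.continuous_sInf hF

theorem pmin_le {F : ℂ → ℝ → ℝ} (hF : Continuous (Function.uncurry F)) {K : Set ℝ}
    (hK : IsCompact K) (ζ : ℂ) {t : ℝ} (ht : t ∈ K) : pmin F K ζ ≤ F ζ t := by
  have hc : Continuous (F ζ) := hF.comp (by fun_prop : Continuous fun t : ℝ => ((ζ, t) : ℂ × ℝ))
  apply csInf_le
  · exact (hK.image hc).bddBelow
  · exact mem_image_of_mem _ ht

theorem exists_pmin {F : ℂ → ℝ → ℝ} (hF : Continuous (Function.uncurry F)) {K : Set ℝ}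
    (hK : IsCompact K) (hne : K.Nonempty) (ζ : ℂ) : ∃ t ∈ K, pmin F K ζ = F ζ t := by
  have hc : Continuous (F ζ) := hF.comp (by fun_prop : Continuous fun t : ℝ => ((ζ, t) : ℂ × ℝ))
  obtain ⟨t, ht, h⟩ := hK.exists_sInf_image_eq hne hc.continuousOn
  exact ⟨t, ht, h⟩

/-- A family with unique minimisers has a continuous minimiser. -/
theorem exists_continuous_minimizer {F : ℂ → ℝ → ℝ} (hF : Continuous (Function.uncurry F))
    (huniq : ∀ ζ, ∀ s ∈ Icc (0 : ℝ) 1, ∀ t ∈ Icc (0 : ℝ) 1,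
      F ζ s = pmin F (Icc 0 1) ζ → F ζ t = pmin F (Icc 0 1) ζ → s = t) :
    ∃ m : ℂ → ℝ, Continuous m ∧ ∀ ζ, m ζ ∈ Icc (0 : ℝ) 1 ∧ F ζ (m ζ) = pmin F (Icc 0 1) ζ := by
  have hne : (Icc (0 : ℝ) 1).Nonempty := ⟨0, by simp⟩
  choose m hm1 hm2 using fun ζ => exists_pmin hF isCompact_Icc hne ζ
  refine ⟨m, ?_, fun ζ => ⟨hm1 ζ, (hm2 ζ).symm⟩⟩
  rw [continuous_iff_isClosed]
  intro C hC
  set K := Icc (0 : ℝ) 1 ∩ C with hKdef
  have hK : IsCompact K := isCompact_Icc.inter_right hC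
  rcases K.eq_empty_or_nonempty with hemp | hKne
  · have : m ⁻¹' C = ∅ := by
      rw [eq_empty_iff_forall_notMem]
      intro ζ hζ
      have : m ζ ∈ K := ⟨hm1 ζ, hζ⟩
      rw [hemp] at this
      exact this
    rw [this]
    exact isClosed_empty
  · have : m ⁻¹' C = {ζ | pmin F K ζ ≤ pmin F (Icc 0 1) ζ} := by
      ext ζ
      constructor
      · intro hζ
        have h1 : m ζ ∈ K := ⟨hm1 ζ, hζ⟩
        have h2 := pmin_le hF hK ζ h1
        rw [← hm2 ζ] at h2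
        exact h2
      · intro hζ
        obtain ⟨t, ht, hte⟩ := exists_pmin hF hK hKne ζ
        have h1 : F ζ t ≤ pmin F (Icc 0 1) ζ := by
          rw [← hte]
          exact hζ
        have h2 := pmin_le hF isCompact_Icc ζ ht.1
        have h3 := huniq ζ t ht.1 (m ζ) (hm1 ζ) (le_antisymm h1 h2) (hm2 ζ).symm
        change m ζ ∈ C
        rw [← h3]
        exact ht.2
    rw [this]
    exact isClosed_le (continuous_pmin hF hK) (continuous_pmin hF isCompact_Icc)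

/-- `E_σ(ζ) = min_{t ∈ [0,1]} (W(ζ,t) - σ t)` -/
noncomputable def E (a b : ℝ) (u : ℂ × ℂ → ℝ) (σ : ℝ) : ℂ → ℝ :=
  pmin (fun ζ t => W a b u ζ t - σ * t) (Icc 0 1)

variable {a b B : ℝ} {u : ℂ × ℂ → ℝ}

theorem Geo.cF (h : Geo a b B u) (σ : ℝ) :
    Continuous (Function.uncurry fun ζ t => W a b u ζ t - σ * t) := by
  have h1 := h.continuous_W
  have : Continuous fun q : ℂ × ℝ => W a b u q.1 q.2 - σ * q.2 := by fun_prop
  exact this

theorem Geo.continuous_E (h : Geo a b B u) (σ : ℝ) : Continuous (E a b u σ) :=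
  continuous_pmin (h.cF σ) isCompact_Icc

theorem Geo.E_le (h : Geo a b B u) (σ : ℝ) (ζ : ℂ) {t : ℝ} (ht : t ∈ Icc (0 : ℝ) 1) :
    E a b u σ ζ ≤ W a b u ζ t - σ * t :=
  pmin_le (h.cF σ) isCompact_Icc ζ ht

theorem Geo.exists_E (h : Geo a b B u) (σ : ℝ) (ζ : ℂ) :
    ∃ t ∈ Icc (0 : ℝ) 1, E a b u σ ζ = W a b u ζ t - σ * t :=
  exists_pmin (h.cF σ) isCompact_Icc ⟨0, by simp⟩ ζ

theorem Geo.E_neg (h : Geo a b B u) (σ : ℝ) (ζ : ℂ) : E a b u σ (-ζ) = E a b u σ ζ := by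
  unfold E pmin
  simp only [h.W_neg]

theorem Geo.E_symm_le (h : Geo a b B u) (σ : ℝ) (ζ : ℂ) :
    E a b u (-σ) (I * ζ) ≤ E a b u σ ζ + σ := by
  obtain ⟨t, ht, hte⟩ := h.exists_E σ ζ
  have ht' : 1 - t ∈ Icc (0 : ℝ) 1 := ⟨by linarith [ht.2], by linarith [ht.1]⟩
  have h1 := h.E_le (-σ) (I * ζ) ht'
  rw [h.W_sym ζ ht] at h1
  rw [hte]
  linarith

theorem Geo.E_symm_zero (h : Geo a b B u) (σ : ℝ) : E a b u (-σ) 0 = E a b u σ 0 + σ := by
  have h1 := h.E_symm_le σ 0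
  have h2 := h.E_symm_le (-σ) 0
  rw [neg_neg] at h2
  simp only [mul_zero] at h1 h2
  linarith

theorem Geo.E_lip (h : Geo a b B u) (σ σ' : ℝ) (ζ : ℂ) :
    E a b u σ ζ ≤ E a b u σ' ζ + |σ - σ'| := by
  obtain ⟨t, ht, hte⟩ := h.exists_E σ' ζ
  have h1 := h.E_le σ ζ ht
  rw [hte]
  have h2 : -(σ - σ') * t ≤ |σ - σ'| := by
    calc -(σ - σ') * t ≤ |-(σ - σ')| * t := by
          apply mul_le_mul_of_nonneg_right (le_abs_self _) ht.1
      _ ≤ |-(σ - σ')| * 1 := by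
          apply mul_le_mul_of_nonneg_left ht.2 (abs_nonneg _)
      _ = _ := by rw [mul_one, abs_neg]
  linarith

theorem Geo.E_concave (h : Geo a b B u) {σ σ' c d : ℝ} (hc : 0 ≤ c) (hd : 0 ≤ d) (hcd : c + d = 1)
    (ζ : ℂ) : c * E a b u σ ζ + d * E a b u σ' ζ ≤ E a b u (c * σ + d * σ') ζ := by
  obtain ⟨t, ht, hte⟩ := h.exists_E (c * σ + d * σ') ζ
  rw [hte]
  have h1 := mul_le_mul_of_nonneg_left (h.E_le σ ζ ht) hc
  have h2 := mul_le_mul_of_nonneg_left (h.E_le σ' ζ ht) hd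
  have e : W a b u ζ t - (c * σ + d * σ') * t =
      c * (W a b u ζ t - σ * t) + d * (W a b u ζ t - σ' * t) := by
    linear_combination (-(W a b u ζ t)) * hcd
  linarith

/-- Kiselev's minimum principle: `E_σ` is subharmonic. -/
theorem Geo.kiselev (h : Geo a b B u) (σ : ℝ) (ζ₀ : ℂ) (r : ℝ) :
    E a b u σ ζ₀ ≤ circleAverage (E a b u σ) ζ₀ r := by
  apply le_of_forall_pos_le_add
  intro ε hε
  have hWc := h.continuous_W
  let F : ℂ → ℝ → ℝ := fun ζ t => W a b u ζ t - σ * t + ε * t ^ 2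
  have hF : Continuous (Function.uncurry F) := by
    have : Continuous fun q : ℂ × ℝ => W a b u q.1 q.2 - σ * q.2 + ε * q.2 ^ 2 := by fun_prop
    exact this
  have huniq : ∀ ζ, ∀ s ∈ Icc (0 : ℝ) 1, ∀ t ∈ Icc (0 : ℝ) 1,
      F ζ s = pmin F (Icc 0 1) ζ → F ζ t = pmin F (Icc 0 1) ζ → s = t := by
    intro ζ s hs t ht hs' ht'
    by_contra hne
    have hconv := (h.convex_W ζ).2 hs ht (by norm_num : (0 : ℝ) ≤ 1 / 2)
      (by norm_num : (0 : ℝ) ≤ 1 / 2) (by norm_num)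
    simp only [smul_eq_mul] at hconv
    have hmid : 1 / 2 * s + 1 / 2 * t ∈ Icc (0 : ℝ) 1 :=
      ⟨by linarith [hs.1, ht.1], by linarith [hs.2, ht.2]⟩
    have h1 := pmin_le hF isCompact_Icc ζ hmid
    have h2 : 0 < ε * (s - t) ^ 2 := by
      have : 0 < (s - t) ^ 2 := by
        have : s - t ≠ 0 := sub_ne_zero.mpr hne
        positivity
      positivity
    simp only [F] at h1 hs' ht'
    nlinarith
  obtain ⟨m, hm, hm'⟩ := exists_continuous_minimizer hF huniq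
  have hs : Continuous fun ξ : ℂ => m (ζ₀ + r * ξ) := by fun_prop
  have hsi : CircleIntegrable (fun ξ : ℂ => m (ζ₀ + r * ξ)) 0 1 :=
    circleIntegrable_of_continuousOn one_pos hs.continuousOn
  have h1 := h.KL hs.continuousOn (fun ξ _ => (hm' (ζ₀ + r * ξ)).1) ζ₀ r
  set s := circleAverage (fun ξ : ℂ => m (ζ₀ + r * ξ)) 0 1 with hsdef
  have hs0 : 0 ≤ s := by
    have := circleAverage_mono (circleIntegrable_const (0 : ℝ) (0 : ℂ) 1) hsi
      (fun ξ _ => (hm' (ζ₀ + r * ξ)).1.1)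
    rwa [circleAverage_const] at this
  have hs1 : s ≤ 1 := by
    have := circleAverage_mono hsi (circleIntegrable_const (1 : ℝ) (0 : ℂ) 1)
      (fun ξ _ => (hm' (ζ₀ + r * ξ)).1.2)
    rwa [circleAverage_const] at this
  have h2 := h.E_le σ ζ₀ (t := s) ⟨hs0, hs1⟩
  have hWi : CircleIntegrable (fun ξ : ℂ => W a b u (ζ₀ + r * ξ) (m (ζ₀ + r * ξ))) 0 1 := by
    apply circleIntegrable_of_continuousOn one_pos
    apply Continuous.continuousOn
    exact hWc.comp (by fun_prop : Continuous fun ξ : ℂ =>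
      ((ζ₀ + r * ξ, m (ζ₀ + r * ξ)) : ℂ × ℝ))
  have h3 : circleAverage (fun ξ : ℂ => W a b u (ζ₀ + r * ξ) (m (ζ₀ + r * ξ)) -
      σ * m (ζ₀ + r * ξ)) 0 1 =
      circleAverage (fun ξ : ℂ => W a b u (ζ₀ + r * ξ) (m (ζ₀ + r * ξ))) 0 1 - σ * s := by
    rw [circleAverage_fun_sub hWi (CircleIntegrable.const_mul' hsi σ), circleAverage_const_mul]
  have hEc : Continuous fun ξ : ℂ => E a b u σ (ζ₀ + r * ξ) := by
    have := h.continuous_E σ
    fun_prop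
  have hEi : CircleIntegrable (fun ξ : ℂ => E a b u σ (ζ₀ + r * ξ)) 0 1 :=
    circleIntegrable_of_continuousOn one_pos hEc.continuousOn
  have h4 : circleAverage (fun ξ : ℂ => W a b u (ζ₀ + r * ξ) (m (ζ₀ + r * ξ)) -
      σ * m (ζ₀ + r * ξ)) 0 1 ≤ circleAverage (fun ξ : ℂ => E a b u σ (ζ₀ + r * ξ) + ε) 0 1 := by
    apply circleAverage_mono (hWi.sub (CircleIntegrable.const_mul' hsi σ))
      (hEi.add (circleIntegrable_const _ _ _))
    intro ξ _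
    obtain ⟨t, ht, hte⟩ := h.exists_E σ (ζ₀ + r * ξ)
    have h5 := pmin_le hF isCompact_Icc (ζ₀ + r * ξ) ht
    rw [← (hm' (ζ₀ + r * ξ)).2] at h5
    simp only [F] at h5
    change W a b u (ζ₀ + r * ξ) (m (ζ₀ + r * ξ)) - σ * m (ζ₀ + r * ξ) ≤
      E a b u σ (ζ₀ + r * ξ) + ε
    rw [hte]
    have h6 : ε * t ^ 2 ≤ ε := by
      have : t ^ 2 ≤ 1 := by nlinarith [ht.1, ht.2]
      nlinarith
    have h7 : 0 ≤ ε * m (ζ₀ + r * ξ) ^ 2 := by positivity
    linarith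
  rw [circleAverage_fun_add hEi (circleIntegrable_const _ _ _), circleAverage_const, h3] at h4
  have h5 : circleAverage (E a b u σ) ζ₀ r =
      circleAverage (fun ξ : ℂ => E a b u σ (ζ₀ + r * ξ)) 0 1 := by
    rw [circleAverage_translate, circleAverage_scale]
  rw [h5]
  linarith

theorem Geo.LSM_E (h : Geo a b B u) (σ : ℝ) (ζ₀ : ℂ) : LSM (E a b u σ) ζ₀ :=
  ⟨1, one_pos, fun s _ _ => h.kiselev σ ζ₀ s⟩

/-- Duality at interior times: `W(ζ,t) = E_σ(ζ) + σ t` for some `σ`. -/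
theorem Geo.dual (h : Geo a b B u) (ζ : ℂ) : ∃ σ, W a b u ζ (1 / 2) = E a b u σ ζ + σ / 2 := by
  have hconv := h.convex_W ζ
  set f := W a b u ζ with hf
  -- slopes
  let L : Set ℝ := (fun s => (f (1 / 2) - f s) / (1 / 2 - s)) '' Ico 0 (1 / 2)
  have hslope : ∀ s ∈ Ico (0 : ℝ) (1 / 2), ∀ t ∈ Ioc (1 / 2 : ℝ) 1,
      (f (1 / 2) - f s) / (1 / 2 - s) ≤ (f t - f (1 / 2)) / (t - 1 / 2) := by
    intro s hs t ht
    exact hconv.slope_mono_adjacent ⟨hs.1, by linarith [hs.2]⟩ ⟨by linarith [ht.1], ht.2⟩ hs.2 ht.1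
  have hLb : BddAbove L := by
    refine ⟨(f 1 - f (1 / 2)) / (1 - 1 / 2), ?_⟩
    rintro _ ⟨s, hs, rfl⟩
    exact hslope s hs 1 ⟨by norm_num, le_rfl⟩
  have hLne : L.Nonempty := ⟨_, 0, ⟨le_rfl, by norm_num⟩, rfl⟩
  refine ⟨sSup L, ?_⟩
  set σ := sSup L with hσ
  have key : ∀ t ∈ Icc (0 : ℝ) 1, f (1 / 2) + σ * (t - 1 / 2) ≤ f t := by
    intro t ht
    rcases lt_trichotomy t (1 / 2) with h1 | h1 | h1
    · have h2 : (f (1 / 2) - f t) / (1 / 2 - t) ≤ σ := le_csSup hLb ⟨t, ⟨ht.1, h1⟩, rfl⟩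
      rw [div_le_iff₀ (by linarith)] at h2
      linarith
    · rw [h1]
      simp
    · have h2 : σ ≤ (f t - f (1 / 2)) / (t - 1 / 2) := by
        apply csSup_le hLne
        rintro _ ⟨s, hs, rfl⟩
        exact hslope s hs t ⟨h1, ht.2⟩
      rw [le_div_iff₀ (by linarith)] at h2
      linarith
  have hhalf : (1 / 2 : ℝ) ∈ Icc (0 : ℝ) 1 := ⟨by norm_num, by norm_num⟩
  have h1 := h.E_le σ ζ hhalf
  obtain ⟨t, ht, hte⟩ := h.exists_E σ ζ
  have h2 := key t ht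
  rw [← hf] at h1 hte
  linarith

end Pool.Agent.H90
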