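import Pool.Agent.H90.LocalComp

/-!
# Scaled mollifiers and their second derivatives
-/

open Complex MeasureTheory Metric Real Set InnerProductSpace Topology Filter
open scoped Convolution

namespace Pool.Agent.H90

theorem moll_eq (φ g : ℂ × ℂ → ℝ) :
    moll φ g = (g ⋆[ContinuousLinearMap.mul ℝ ℝ, volume] φ : ℂ × ℂ → ℝ) := by
  ext x
  rw [convolution_mul_swap, moll]
  congr 1
  ext t
  ring

theorem Sm_moll {φ g : ℂ × ℂ → ℝ} (hφ : Sm φ) (hc : HasCompactSupport φ) (hg : Continuous g) :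
    Sm (moll φ g) := by
  rw [moll_eq]
  exact hc.contDiff_convolution_right _ hg.locallyIntegrable hφ

theorem D_moll {φ g : ℂ × ℂ → ℝ} (hφ : Sm φ) (hc : HasCompactSupport φ) (hg : Continuous g)
    (a : ℂ × ℂ) : D a (moll φ g) = moll (D a φ) g := by
  ext x
  have hφ1 : ContDiff ℝ 1 φ := contDiff_infty.mp hφ 1
  have h1 := hc.hasFDerivAt_convolution_right (ContinuousLinearMap.mul ℝ ℝ)
    (hg.locallyIntegrable (μ := volume)) hφ1 x
  unfold D
  rw [moll_eq, h1.fderiv, convolution_precompR_apply _ hg.locallyIntegrable (hc.fderiv ℝ)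
    (hφ1.continuous_fderiv one_ne_zero), moll_eq]

theorem hess_moll {φ g : ℂ × ℂ → ℝ} (hφ : Sm φ) (hc : HasCompactSupport φ) (hg : Continuous g)
    (p a b : ℂ × ℂ) : hess (moll φ g) p a b = moll (D a (D b φ)) g p := by
  rw [hess_eq_D (Sm_moll hφ hc hg), D_moll hφ hc hg,
    D_moll (hφ.D b) (HasCompactSupport.D hc b) hg]

/-- the base kernel -/
noncomputable def bump0 : ContDiffBump (0 : ℂ × ℂ) := ⟨1 / 2, 1, by norm_num, by norm_num⟩

/-- the normalised base kernel -/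
noncomputable def ker0 : ℂ × ℂ → ℝ := bump0.normed volume

theorem Sm_ker0 : Sm ker0 := bump0.contDiff_normed

theorem hasCompactSupport_ker0 : HasCompactSupport ker0 := bump0.hasCompactSupport_normed

theorem ker0_nonneg (t : ℂ × ℂ) : 0 ≤ ker0 t := bump0.nonneg_normed t

theorem integral_ker0 : ∫ t, ker0 t = 1 := bump0.integral_normed

theorem ker0_support {t : ℂ × ℂ} (ht : ker0 t ≠ 0) : ‖t‖ < 1 := by
  have h1 : t ∈ Function.support ker0 := ht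
  rw [show Function.support ker0 = ball 0 bump0.rOut from bump0.support_normed_eq] at h1
  have : bump0.rOut = 1 := rfl
  rw [this] at h1
  simpa using h1

/-- the kernel of radius `ε` -/
noncomputable def ker (ε : ℝ) (t : ℂ × ℂ) : ℝ := ε⁻¹ ^ 4 * ker0 (ε⁻¹ • t)

theorem Sm_ker (ε : ℝ) : Sm (ker ε) :=
  contDiff_const.mul (Sm_ker0.comp (contDiff_const_smul ε⁻¹))

theorem ker_support {ε : ℝ} (hε : 0 < ε) {t : ℂ × ℂ} (ht : ker ε t ≠ 0) : ‖t‖ < ε := by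
  have h1 : ker0 (ε⁻¹ • t) ≠ 0 := by
    intro h
    apply ht
    simp [ker, h]
  have h2 := ker0_support h1
  rw [norm_smul, norm_inv, Real.norm_eq_abs, abs_of_pos hε, inv_mul_lt_iff₀ hε, mul_one] at h2
  exact h2

theorem hasCompactSupport_of_ball {f : ℂ × ℂ → ℝ} {ε : ℝ} (h : ∀ t, f t ≠ 0 → ‖t‖ < ε) :
    HasCompactSupport f := by
  apply HasCompactSupport.intro (isCompact_closedBall (0 : ℂ × ℂ) ε)
  intro t ht
  by_contra h0
  exact ht (by simpa using (h t h0).le)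

theorem hasCompactSupport_ker {ε : ℝ} (hε : 0 < ε) : HasCompactSupport (ker ε) :=
  hasCompactSupport_of_ball fun _ ht => ker_support hε ht

theorem ker_nonneg {ε : ℝ} (hε : 0 < ε) (t : ℂ × ℂ) : 0 ≤ ker ε t := by
  unfold ker
  have := ker0_nonneg (ε⁻¹ • t)
  positivity

theorem finrank4 : Module.finrank ℝ (ℂ × ℂ) = 4 := by
  simp [Module.finrank_prod, Complex.finrank_real_complex]

theorem integral_ker {ε : ℝ} (hε : 0 < ε) : ∫ t, ker ε t = 1 := by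
  unfold ker
  rw [integral_const_mul, Measure.integral_comp_inv_smul_of_nonneg volume ker0 hε.le, integral_ker0,
    finrank4, smul_eq_mul, mul_one]
  field_simp

theorem D_scale {f : ℂ × ℂ → ℝ} (hf : Sm f) (c k : ℝ) (a : ℂ × ℂ) :
    D a (fun t => c * f (k • t)) = fun t => (c * k) * D a f (k • t) := by
  ext t
  unfold D
  have h1 : HasFDerivAt (fun t : ℂ × ℂ => k • t) (k • ContinuousLinearMap.id ℝ (ℂ × ℂ)) t :=
    (hasFDerivAt_id t).const_smul k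
  have h2 := ((hf.diff (k • t)).hasFDerivAt.comp t h1).const_mul c
  have h3 : fderiv ℝ (fun t => c * f (k • t)) t = _ := h2.fderiv
  rw [h3]
  simp only [smul_apply, ContinuousLinearMap.comp_apply, ContinuousLinearMap.id_apply, map_smul,
    smul_eq_mul]
  ring

theorem D_D_ker (ε : ℝ) (a b : ℂ × ℂ) :
    D a (D b (ker ε)) = fun t => ε⁻¹ ^ 6 * D a (D b ker0) (ε⁻¹ • t) := by
  have h1 : D b (ker ε) = fun t => (ε⁻¹ ^ 4 * ε⁻¹) * D b ker0 (ε⁻¹ • t) :=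
    D_scale Sm_ker0 (ε⁻¹ ^ 4) ε⁻¹ b
  rw [h1, D_scale (Sm_ker0.D b)]
  ext t
  ring

theorem exists_bound_DD (a b : ℂ × ℂ) : ∃ C, 0 ≤ C ∧ ∀ t, |D a (D b ker0) t| ≤ C := by
  have hc : HasCompactSupport (D a (D b ker0)) :=
    HasCompactSupport.D (HasCompactSupport.D hasCompactSupport_ker0 b) a
  obtain ⟨C, hC⟩ := ((Sm_ker0.D b).D a).continuous.bounded_above_of_compact_support hc
  exact ⟨C, (norm_nonneg _).trans (hC 0), fun t => by simpa using hC t⟩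

theorem tsupport_D_subset (f : ℂ × ℂ → ℝ) (a : ℂ × ℂ) : tsupport (D a f) ⊆ tsupport f :=
  tsupport_fderiv_apply_subset ℝ a

theorem tsupport_ker {ε : ℝ} (hε : 0 < ε) : tsupport (ker ε) ⊆ closedBall 0 ε := by
  apply closure_minimal _ isClosed_closedBall
  intro t ht
  simpa using (ker_support hε ht).le

theorem DD_ker_support {ε : ℝ} (hε : 0 < ε) (a b : ℂ × ℂ) {t : ℂ × ℂ}
    (ht : D a (D b (ker ε)) t ≠ 0) : ‖t‖ ≤ ε := by
  have h1 : t ∈ tsupport (D a (D b (ker ε))) := subset_tsupport _ ht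
  have h2 := tsupport_ker hε (tsupport_D_subset _ _ (tsupport_D_subset _ _ h1))
  simpa using h2

/-- The key estimate: the second derivative of the mollification of a function which is
`≤ θ |h|^2` near the point is at most a constant times `θ`. -/
theorem exists_DD_bound (a b : ℂ × ℂ) : ∃ C, 0 ≤ C ∧ ∀ ε > 0, ∀ θ ≥ 0, ∀ R : ℂ × ℂ → ℝ,
    Continuous R → (∀ h : ℂ × ℂ, ‖h‖ ≤ ε → |R h| ≤ θ * ‖h‖ ^ 2) →
    |moll (D a (D b (ker ε))) R 0| ≤ C * θ := by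
  obtain ⟨C₀, hC₀, hC₀'⟩ := exists_bound_DD a b
  set V : ℝ := (volume (ball (0 : ℂ × ℂ) 1)).toReal with hV
  have hV0 : 0 ≤ V := ENNReal.toReal_nonneg
  refine ⟨C₀ * V, by positivity, fun ε hε θ hθ R hR hRb => ?_⟩
  unfold moll
  have hvol : (volume (closedBall (0 : ℂ × ℂ) ε)).toReal = ε ^ 4 * V := by
    rw [Measure.addHaar_closedBall volume (0 : ℂ × ℂ) hε.le, finrank4, ENNReal.toReal_mul,
      ENNReal.toReal_ofReal (by positivity)]
  have hfin : volume (closedBall (0 : ℂ × ℂ) ε) < ⊤ := (isCompact_closedBall _ _).measure_lt_top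
  have hset : ∫ t, D a (D b (ker ε)) t * R (0 - t) =
      ∫ t in closedBall (0 : ℂ × ℂ) ε, D a (D b (ker ε)) t * R (0 - t) := by
    symm
    apply setIntegral_eq_integral_of_forall_compl_eq_zero
    intro t ht
    by_contra h0
    apply ht
    have : D a (D b (ker ε)) t ≠ 0 := fun h => h0 (by rw [h, zero_mul])
    simpa using DD_ker_support hε a b this
  rw [hset]
  have hbound : ∀ t ∈ closedBall (0 : ℂ × ℂ) ε,
      ‖D a (D b (ker ε)) t * R (0 - t)‖ ≤ ε⁻¹ ^ 6 * C₀ * (θ * ε ^ 2) := by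
    intro t ht
    have ht' : ‖t‖ ≤ ε := by simpa using ht
    rw [norm_mul, Real.norm_eq_abs, Real.norm_eq_abs]
    apply mul_le_mul _ _ (abs_nonneg _) (by positivity)
    · rw [D_D_ker, abs_mul, abs_of_nonneg (by positivity : (0 : ℝ) ≤ ε⁻¹ ^ 6)]
      gcongr
      exact hC₀' _
    · have h1 := hRb (0 - t) (by simpa using ht')
      refine h1.trans ?_
      simp only [zero_sub, norm_neg]
      gcongr
  have h2 := norm_setIntegral_le_of_norm_le_const hfin hbound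
  rw [Measure.real, hvol, Real.norm_eq_abs] at h2
  refine h2.trans_eq ?_
  field_simp

/-- the quadratic polynomial -/
noncomputable def quad (c : ℝ) (ℓ : ℂ × ℂ →L[ℝ] ℝ) (Q : ℂ × ℂ →L[ℝ] ℂ × ℂ →L[ℝ] ℝ)
    (h : ℂ × ℂ) : ℝ := c + ℓ h + (1 / 2) * Q h h

theorem Sm_quad (c : ℝ) (ℓ : ℂ × ℂ →L[ℝ] ℝ) (Q : ℂ × ℂ →L[ℝ] ℂ × ℂ →L[ℝ] ℝ) : Sm (quad c ℓ Q) := by
  unfold quad
  have h1 : ContDiff ℝ (⊤ : ℕ∞) fun h : ℂ × ℂ => Q h h := Q.contDiff.clm_apply contDiff_id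
  exact (contDiff_const.add ℓ.contDiff).add (contDiff_const.mul h1)

theorem quad_neg (c : ℝ) (ℓ : ℂ × ℂ →L[ℝ] ℝ) (Q : ℂ × ℂ →L[ℝ] ℂ × ℂ →L[ℝ] ℝ) (h : ℂ × ℂ) :
    quad c ℓ Q (-h) = quad c (-ℓ) Q h := by
  simp [quad]

theorem D_quad (c : ℝ) (ℓ : ℂ × ℂ →L[ℝ] ℝ) {Q : ℂ × ℂ →L[ℝ] ℂ × ℂ →L[ℝ] ℝ}
    (hQ : ∀ x y, Q x y = Q y x) (a : ℂ × ℂ) : D a (quad c ℓ Q) = fun h => ℓ a + Q a h := by
  ext h
  unfold D quad
  have h1 : HasFDerivAt (fun h : ℂ × ℂ => ℓ h) ℓ h := ℓ.hasFDerivAt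
  have h2 := (Q.hasFDerivAt (x := h)).clm_apply (hasFDerivAt_id h)
  have h3 := (h1.const_add c).add (h2.const_mul (1 / 2 : ℝ))
  have h4 : fderiv ℝ (fun h => c + ℓ h + (1 / 2) * Q h h) h = _ := h3.fderiv
  rw [h4]
  simp only [add_apply, smul_apply, ContinuousLinearMap.comp_apply,
    ContinuousLinearMap.flip_apply, id, ContinuousLinearMap.id_apply, smul_eq_mul]
  rw [hQ h a]
  ring

theorem D_D_quad (c : ℝ) (ℓ : ℂ × ℂ →L[ℝ] ℝ) {Q : ℂ × ℂ →L[ℝ] ℂ × ℂ →L[ℝ] ℝ}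
    (hQ : ∀ x y, Q x y = Q y x) (a b : ℂ × ℂ) (h : ℂ × ℂ) : D b (D a (quad c ℓ Q)) h = Q a b := by
  rw [D_quad c ℓ hQ]
  unfold D
  have h1 : HasFDerivAt (fun h : ℂ × ℂ => ℓ a + Q a h) (Q a) h := (Q a).hasFDerivAt.const_add _
  rw [h1.fderiv]

theorem moll_DD_quad {ε : ℝ} (hε : 0 < ε) (c : ℝ) (ℓ : ℂ × ℂ →L[ℝ] ℝ)
    {Q : ℂ × ℂ →L[ℝ] ℂ × ℂ →L[ℝ] ℝ} (hQ : ∀ x y, Q x y = Q y x) (a b : ℂ × ℂ) :
    moll (D a (D b (ker ε))) (quad c ℓ Q) 0 = Q a b := by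
  have hk := Sm_ker ε
  have hkc := hasCompactSupport_ker hε
  have hq := Sm_quad c (-ℓ) Q
  have h1 : moll (D a (D b (ker ε))) (quad c ℓ Q) 0 =
      ∫ t, quad c (-ℓ) Q t * D a (D b (ker ε)) t := by
    unfold moll
    congr 1
    ext t
    rw [zero_sub, quad_neg]
    ring
  rw [h1, ibp hq (hk.D b) (HasCompactSupport.D hkc b), ibp (hq.D a) hk hkc, neg_neg]
  simp only [D_D_quad c (-ℓ) hQ]
  rw [integral_const_mul, integral_ker hε, mul_one]

/-- Second order Taylor expansion at a point. -/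
def HasTaylor2 (f : ℂ × ℂ → ℝ) (p : ℂ × ℂ) (ℓ : ℂ × ℂ →L[ℝ] ℝ)
    (Q : ℂ × ℂ →L[ℝ] ℂ × ℂ →L[ℝ] ℝ) : Prop :=
  (∀ x y, Q x y = Q y x) ∧
    ∀ ε > 0, ∃ δ > 0, ∀ h : ℂ × ℂ, ‖h‖ < δ → |f (p + h) - quad (f p) ℓ Q h| ≤ ε * ‖h‖ ^ 2

theorem moll_translate (φ g : ℂ × ℂ → ℝ) (p : ℂ × ℂ) : moll φ g p = moll φ (fun x => g (p + x)) 0 := by
  unfold moll
  congr 1
  ext t
  rw [zero_sub, sub_eq_add_neg]

theorem moll_sub {φ g₁ g₂ : ℂ × ℂ → ℝ} (hφ : Continuous φ) (hc : HasCompactSupport φ)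
    (h1 : Continuous g₁) (h2 : Continuous g₂) (p : ℂ × ℂ) :
    moll φ (fun x => g₁ x - g₂ x) p = moll φ g₁ p - moll φ g₂ p := by
  unfold moll
  rw [← integral_sub]
  · congr 1
    ext t
    ring
  · exact Continuous.integrable_of_hasCompactSupport (by fun_prop) hc.mul_right
  · exact Continuous.integrable_of_hasCompactSupport (by fun_prop) hc.mul_right

/-- At a point of second order differentiability the Hessians of the mollifications converge. -/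
theorem tendsto_hess_moll {f : ℂ × ℂ → ℝ} (hf : Continuous f) {p : ℂ × ℂ} {ℓ : ℂ × ℂ →L[ℝ] ℝ}
    {Q : ℂ × ℂ →L[ℝ] ℂ × ℂ →L[ℝ] ℝ} (h : HasTaylor2 f p ℓ Q) (a b : ℂ × ℂ) :
    Tendsto (fun ε => hess (moll (ker ε) f) p a b) (𝓝[>] 0) (𝓝 (Q a b)) := by
  obtain ⟨hQ, hT⟩ := h
  obtain ⟨C, hC, hC'⟩ := exists_DD_bound a b
  rw [Metric.tendsto_nhdsWithin_nhds]
  intro η hη
  obtain ⟨δ, hδ, hδ'⟩ := hT (η / (2 * (C + 1))) (by positivity)
  refine ⟨δ, hδ, fun {ε} hε hεδ => ?_⟩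
  have hε0 : 0 < ε := hε
  have hεδ' : ε < δ := by
    rw [Real.dist_eq, sub_zero, abs_of_pos hε0] at hεδ
    exact hεδ
  have hk := Sm_ker ε
  have hkc := hasCompactSupport_ker hε0
  have hDc : HasCompactSupport (D a (D b (ker ε))) :=
    HasCompactSupport.D (HasCompactSupport.D hkc b) a
  have hDs : Continuous (D a (D b (ker ε))) := ((hk.D b).D a).continuous
  have hfp : Continuous fun x => f (p + x) := by fun_prop
  have hqc := (Sm_quad (f p) ℓ Q).continuous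
  have h1 : hess (moll (ker ε) f) p a b - Q a b =
      moll (D a (D b (ker ε))) (fun x => f (p + x) - quad (f p) ℓ Q x) 0 := by
    rw [moll_sub hDs hDc hfp hqc, moll_DD_quad hε0 (f p) ℓ hQ, ← moll_translate,
      hess_moll hk hkc hf]
  rw [Real.dist_eq, h1]
  have h2 := hC' ε hε0 (η / (2 * (C + 1))) (by positivity) (fun x => f (p + x) - quad (f p) ℓ Q x)
    (hfp.sub hqc) fun h hh => hδ' h (hh.trans_lt hεδ')
  refine h2.trans_lt ?_
  rw [mul_div_assoc', div_lt_iff₀ (by positivity)]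
  nlinarith

end Pool.Agent.H90
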