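import Pool.Agent.H90.Ex1

/-!
# Second order Taylor expansions almost everywhere for `C^{1,1}` functions
-/

open Complex MeasureTheory Metric Real Set InnerProductSpace Topology Filter

namespace Pool.Agent.H90

theorem hess_le {V : ℂ × ℂ → ℝ} (hV : Sm V) {p w : ℂ × ℂ} {c : ℝ}
    (h : ∃ s₀ > 0, ∀ s : ℝ, 0 < s → s < s₀ →
      V (p + s • w) + V (p - s • w) - 2 * V p ≤ c * s ^ 2) : hess V p w w ≤ c := by
  by_contra hneg
  push Not at hneg
  set d := hess V p w w - c with hd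
  have hdpos : 0 < d := by linarith
  have hw0 := norm_nonneg w
  obtain ⟨δ, hδ, h1⟩ := taylor2 (contDiff_infty.mp hV 2) p (ε := d / (4 * (‖w‖ ^ 2 + 1)))
    (by positivity)
  obtain ⟨s₀, hs₀, h2⟩ := h
  set s := min (δ / (2 * (‖w‖ + 1))) (s₀ / 2) with hs
  have hspos : 0 < s := by positivity
  have hs1 : s ≤ δ / (2 * (‖w‖ + 1)) := min_le_left _ _
  have hs2 : s < s₀ := (min_le_right _ _).trans_lt (by linarith)
  have hsw : ‖s • w‖ < δ := by
    rw [norm_smul, Real.norm_eq_abs, abs_of_pos hspos]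
    rw [le_div_iff₀ (by positivity)] at hs1
    nlinarith
  have h3 := h1 (s • w) hsw
  have h4 := h1 (-(s • w)) (by rwa [norm_neg])
  have h5 := h2 s hspos hs2
  simp only [map_neg, neg_apply, map_smul, smul_apply, smul_eq_mul, norm_neg] at h3 h4
  rw [← sub_eq_add_neg] at h4
  have h6 : ‖s • w‖ ^ 2 = s ^ 2 * ‖w‖ ^ 2 := by
    rw [norm_smul, mul_pow, Real.norm_eq_abs, sq_abs]
  rw [h6] at h3 h4
  have h7 := (abs_le.mp h3).1
  have h8 := (abs_le.mp h4).1
  have h9 : d / (4 * (‖w‖ ^ 2 + 1)) * (s ^ 2 * ‖w‖ ^ 2) ≤ d * s ^ 2 / 4 := by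
    rw [div_mul_eq_mul_div, div_le_div_iff₀ (by positivity) (by norm_num)]
    have : 0 ≤ d * s ^ 2 := by positivity
    nlinarith
  have h10 : hess V p w w = fderiv ℝ (fderiv ℝ V) p w w := rfl
  have h11 : 0 < s ^ 2 := by positivity
  nlinarith

/-- Two-sided Hessian bounds from an upper bound and nonnegativity of the Levi form. -/
theorem norm_hess_le {V : ℂ × ℂ → ℝ} (hV : Sm V) {p : ℂ × ℂ} {C : ℝ} (hC : 0 ≤ C)
    (hup : ∀ w, hess V p w w ≤ C * ‖w‖ ^ 2) (hlevi : ∀ w, 0 ≤ levi V p w) :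
    ‖fderiv ℝ (fderiv ℝ V) p‖ ≤ 2 * C := by
  have habs : ∀ w, |hess V p w w| ≤ C * ‖w‖ ^ 2 := by
    intro w
    rw [abs_le]
    refine ⟨?_, hup w⟩
    have h1 := hlevi w
    rw [levi_def'] at h1
    have h2 := hup (I • w)
    have h3 : ‖I • w‖ = ‖w‖ := by rw [norm_smul, norm_I, one_mul]
    rw [h3] at h2
    linarith
  have hunit : ∀ a b, ‖a‖ = 1 → ‖b‖ = 1 → |hess V p a b| ≤ 2 * C := by
    intro a b ha hb
    have e : hess V p a b = (1 / 4) * (hess V p (a + b) (a + b) - hess V p (a - b) (a - b)) := by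
      have h1 := hess_symm hV p b a
      unfold hess at h1 ⊢
      simp only [map_add, map_sub, add_apply, sub_apply]
      linarith
    have h1 := abs_le.mp (habs (a + b))
    have h2 := abs_le.mp (habs (a - b))
    have h3 : ‖a + b‖ ≤ 2 := (norm_add_le a b).trans (by linarith)
    have h4 : ‖a - b‖ ≤ 2 := (norm_sub_le a b).trans (by linarith)
    have h5 : C * ‖a + b‖ ^ 2 ≤ C * 4 := by
      have : ‖a + b‖ ^ 2 ≤ 4 := by nlinarith [norm_nonneg (a + b)]
      gcongr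
    have h6 : C * ‖a - b‖ ^ 2 ≤ C * 4 := by
      have : ‖a - b‖ ^ 2 ≤ 4 := by nlinarith [norm_nonneg (a - b)]
      gcongr
    rw [e, abs_le]
    constructor <;> linarith [h1.1, h1.2, h2.1, h2.2]
  apply ContinuousLinearMap.opNorm_le_bound₂ _ (by positivity)
  intro a b
  by_cases ha : a = 0
  · simp [ha]
  by_cases hb : b = 0
  · simp [hb]
  have ha' : 0 < ‖a‖ := norm_pos_iff.mpr ha
  have hb' : 0 < ‖b‖ := norm_pos_iff.mpr hb
  have h1 := hunit (‖a‖⁻¹ • a) (‖b‖⁻¹ • b)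
    (by rw [norm_smul, norm_inv, norm_norm, inv_mul_cancel₀ ha'.ne'])
    (by rw [norm_smul, norm_inv, norm_norm, inv_mul_cancel₀ hb'.ne'])
  unfold hess at h1
  simp only [map_smul, smul_apply, smul_eq_mul] at h1
  rw [abs_mul, abs_mul, abs_of_pos (by positivity : (0 : ℝ) < ‖a‖⁻¹),
    abs_of_pos (by positivity : (0 : ℝ) < ‖b‖⁻¹)] at h1
  rw [Real.norm_eq_abs]
  have h2 : |fderiv ℝ (fderiv ℝ V) p a b| =
      ‖a‖ * ‖b‖ * (‖b‖⁻¹ * (‖a‖⁻¹ * |fderiv ℝ (fderiv ℝ V) p a b|)) := by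
    field_simp
  rw [h2]
  calc _ ≤ ‖a‖ * ‖b‖ * (2 * C) := by
        apply mul_le_mul_of_nonneg_left _ (by positivity)
        linarith
    _ = _ := by ring

/-- Functions with Lipschitz gradient have second order Taylor expansions almost everywhere. -/
theorem ae_taylor2 {p₀ : ℂ × ℂ} {r : ℝ} {f : ℂ × ℂ → ℝ} {V : ℕ → ℂ × ℂ → ℝ} (hV : ∀ n, Sm (V n))
    (hconv : ∀ x ∈ ball p₀ r, Tendsto (fun n => V n x) atTop (𝓝 (f x))) {M : ℝ}
    (hM : ∀ n, ∀ x ∈ ball p₀ r, |V n x| ≤ M) {C : ℝ}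
    (hC : ∀ n, ∀ x ∈ ball p₀ r, ‖fderiv ℝ (fderiv ℝ (V n)) x‖ ≤ C) :
    ∀ᵐ x : ℂ × ℂ, x ∈ ball p₀ r → ∃ ℓ Q, HasTaylor2 f x ℓ Q := by
  by_cases hr : 0 < r
  swap
  · filter_upwards with x hx
    rw [ball_eq_empty.mpr (not_lt.mp hr)] at hx
    exact absurd hx (notMem_empty x)
  have hC0 : 0 ≤ C :=
    le_trans (norm_nonneg (fderiv ℝ (fderiv ℝ (V 0)) p₀)) (hC 0 p₀ (mem_ball_self hr))
  have hM0 : 0 ≤ M := (abs_nonneg _).trans (hM 0 p₀ (mem_ball_self hr))
  have hconvex : Convex ℝ (ball p₀ r) := convex_ball p₀ r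
  -- Lipschitz gradients
  have hLip : ∀ n, ∀ x ∈ ball p₀ r, ∀ y ∈ ball p₀ r,
      ‖fderiv ℝ (V n) y - fderiv ℝ (V n) x‖ ≤ C * ‖y - x‖ := by
    intro n x hx y hy
    have hd := (hV n).fderiv.differentiable (by simp)
    exact hconvex.norm_image_sub_le_of_norm_fderiv_le (fun z _ => hd z) (fun z hz => hC n z hz)
      hx hy
  -- first order estimate
  have hfirst : ∀ n, ∀ x ∈ ball p₀ r, ∀ y ∈ ball p₀ r,
      |V n y - V n x - fderiv ℝ (V n) x (y - x)| ≤ C * ‖y - x‖ ^ 2 := by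
    intro n x hx y hy
    set S := ball p₀ r ∩ closedBall x ‖y - x‖ with hS
    have hSc : Convex ℝ S := hconvex.inter (convex_closedBall _ _)
    have hxS : x ∈ S := ⟨hx, mem_closedBall_self (norm_nonneg _)⟩
    have hyS : y ∈ S := ⟨hy, by rw [mem_closedBall, dist_eq_norm]⟩
    have hder : ∀ z ∈ S, HasFDerivWithinAt (fun z => V n z - fderiv ℝ (V n) x z)
        (fderiv ℝ (V n) z - fderiv ℝ (V n) x) S z := by
      intro z _
      exact (((hV n).diff z).hasFDerivAt.sub (fderiv ℝ (V n) x).hasFDerivAt).hasFDerivWithinAt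
    have hb : ∀ z ∈ S, ‖fderiv ℝ (V n) z - fderiv ℝ (V n) x‖ ≤ C * ‖y - x‖ := by
      intro z hz
      refine (hLip n x hx z hz.1).trans ?_
      have : ‖z - x‖ ≤ ‖y - x‖ := by
        rw [← dist_eq_norm z x]
        exact mem_closedBall.mp hz.2
      gcongr
    have h1 := hSc.norm_image_sub_le_of_norm_hasFDerivWithin_le hder hb hxS hyS
    rw [Real.norm_eq_abs] at h1
    have e : V n y - V n x - fderiv ℝ (V n) x (y - x) =
        V n y - fderiv ℝ (V n) x y - (V n x - fderiv ℝ (V n) x x) := by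
      rw [map_sub]
      ring
    rw [e]
    refine h1.trans_eq ?_
    ring
  -- bounded gradients
  have hbdd : ∀ x ∈ ball p₀ r, ∃ R, ∀ n, ‖fderiv ℝ (V n) x‖ ≤ R := by
    intro x hx
    obtain ⟨ρ, hρ, hρB⟩ := Metric.isOpen_iff.mp isOpen_ball x hx
    set s := ρ / 2 with hs
    have hspos : 0 < s := by positivity
    refine ⟨(2 * M + C * s ^ 2) / s, fun n => ?_⟩
    apply ContinuousLinearMap.opNorm_le_bound _ (by positivity)
    intro h
    by_cases hh : h = 0
    · simp [hh]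
    have hh' : 0 < ‖h‖ := norm_pos_iff.mpr hh
    set k := (s / ‖h‖) • h with hk
    have hkn : ‖k‖ = s := by
      rw [hk, norm_smul, Real.norm_eq_abs, abs_of_pos (by positivity)]
      field_simp
    have hxk : x + k ∈ ball p₀ r := by
      apply hρB
      rw [mem_ball, dist_eq_norm, add_sub_cancel_left, hkn]
      linarith
    have h1 := hfirst n x hx (x + k) hxk
    rw [add_sub_cancel_left, hkn] at h1
    have h2 := abs_le.mp (hM n (x + k) hxk)
    have h3 := abs_le.mp (hM n x hx)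
    have h4 := abs_le.mp h1
    have h5 : |fderiv ℝ (V n) x k| ≤ 2 * M + C * s ^ 2 := by
      rw [abs_le]
      constructor <;> linarith [h2.1, h2.2, h3.1, h3.2, h4.1, h4.2]
    have h6 : h = (‖h‖ / s) • k := by
      rw [hk, smul_smul]
      have : ‖h‖ / s * (s / ‖h‖) = 1 := by field_simp
      rw [this, one_smul]
    have h7 : fderiv ℝ (V n) x h = (‖h‖ / s) * fderiv ℝ (V n) x k := by
      conv_lhs => rw [h6]
      rw [map_smul, smul_eq_mul]
    rw [h7, Real.norm_eq_abs, abs_mul, abs_of_pos (by positivity : 0 < ‖h‖ / s)]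
    calc ‖h‖ / s * |fderiv ℝ (V n) x k| ≤ ‖h‖ / s * (2 * M + C * s ^ 2) := by gcongr
      _ = _ := by ring
  -- the limit gradient along an ultrafilter
  have hlim : ∀ x ∈ ball p₀ r, ∃ g : ℂ × ℂ →L[ℝ] ℝ,
      Tendsto (fun n => fderiv ℝ (V n) x) (hyperfilter ℕ : Filter ℕ) (𝓝 g) := by
    intro x hx
    obtain ⟨R, hR⟩ := hbdd x hx
    have hcomp : IsCompact (closedBall (0 : ℂ × ℂ →L[ℝ] ℝ) R) := isCompact_closedBall _ _
    obtain ⟨g, -, hg⟩ := hcomp.ultrafilter_le_nhds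
      ((hyperfilter ℕ).map fun n => fderiv ℝ (V n) x) (by
        rw [le_principal_iff]
        apply Filter.mem_map.mpr
        filter_upwards with n
        simpa using hR n)
    exact ⟨g, hg⟩
  choose! G hG using hlim
  have hle : (hyperfilter ℕ : Filter ℕ) ≤ atTop := Nat.hyperfilter_le_atTop
  -- first order estimate for the limit
  have hfirst' : ∀ x ∈ ball p₀ r, ∀ y ∈ ball p₀ r, |f y - f x - G x (y - x)| ≤ C * ‖y - x‖ ^ 2 := by
    intro x hx y hy
    have h1 : Tendsto (fun n => |V n y - V n x - fderiv ℝ (V n) x (y - x)|)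
        (hyperfilter ℕ : Filter ℕ) (𝓝 |f y - f x - G x (y - x)|) := by
      have h2 := ((hconv y hy).mono_left hle).sub ((hconv x hx).mono_left hle)
      have h3 : Tendsto (fun n => fderiv ℝ (V n) x (y - x)) (hyperfilter ℕ : Filter ℕ)
          (𝓝 (G x (y - x))) :=
        ((ContinuousLinearMap.apply ℝ ℝ (y - x)).continuous.tendsto _).comp (hG x hx)
      exact (h2.sub h3).abs
    exact le_of_tendsto h1 (Eventually.of_forall fun n => hfirst n x hx y hy)
  have hGder : ∀ x ∈ ball p₀ r, HasFDerivAt f (G x) x := by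
    intro x hx
    rw [hasFDerivAt_iff_isLittleO_nhds_zero, Asymptotics.isLittleO_iff]
    intro c hc
    obtain ⟨ρ, hρ, hρB⟩ := Metric.isOpen_iff.mp isOpen_ball x hx
    have hev : ∀ᶠ h : ℂ × ℂ in 𝓝 0, ‖h‖ < min ρ (c / (C + 1)) := by
      have : ball (0 : ℂ × ℂ) (min ρ (c / (C + 1))) ∈ 𝓝 (0 : ℂ × ℂ) :=
        ball_mem_nhds _ (by positivity)
      filter_upwards [this] with h hh
      simpa using hh
    filter_upwards [hev] with h hh
    have h1 : ‖h‖ < ρ := hh.trans_le (min_le_left _ _)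
    have h2 : ‖h‖ < c / (C + 1) := hh.trans_le (min_le_right _ _)
    rw [lt_div_iff₀ (by positivity)] at h2
    have hxh : x + h ∈ ball p₀ r := hρB (by simpa using h1)
    have h3 := hfirst' x hx (x + h) hxh
    rw [add_sub_cancel_left] at h3
    rw [Real.norm_eq_abs]
    refine h3.trans ?_
    have := norm_nonneg h
    nlinarith
  have hGlip : LipschitzOnWith ⟨C, hC0⟩ G (ball p₀ r) := by
    rw [lipschitzOnWith_iff_dist_le_mul]
    intro x hx y hy
    rw [dist_eq_norm, dist_eq_norm]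
    have h1 : Tendsto (fun n => ‖fderiv ℝ (V n) x - fderiv ℝ (V n) y‖)
        (hyperfilter ℕ : Filter ℕ) (𝓝 ‖G x - G y‖) := ((hG x hx).sub (hG y hy)).norm
    exact le_of_tendsto h1 (Eventually.of_forall fun n => hLip n y hy x hx)
  have hrad := hGlip.ae_differentiableWithinAt_of_mem (μ := volume)
  filter_upwards [hrad] with x hx hxB
  have hd : DifferentiableAt ℝ G x := (hx hxB).differentiableAt (isOpen_ball.mem_nhds hxB)
  set Q := fderiv ℝ G x with hQ
  have hGQ : HasFDerivAt G Q x := hd.hasFDerivAt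
  have hev : ∀ᶠ y in 𝓝 x, HasFDerivAt f (G y) y := by
    filter_upwards [isOpen_ball.mem_nhds hxB] with y hy using hGder y hy
  have hsymm : ∀ v w, Q v w = Q w v := fun v w =>
    second_derivative_symmetric_of_eventually hev hGQ v w
  refine ⟨G x, Q, hsymm, fun ε hε => ?_⟩
  have h3 := (hasFDerivAt_iff_isLittleO_nhds_zero.mp hGQ).def hε
  obtain ⟨δ₁, hδ₁, hδ₁'⟩ := Metric.eventually_nhds_iff.mp h3
  obtain ⟨δ₂, hδ₂, hδ₂'⟩ := Metric.eventually_nhds_iff.mp hev
  refine ⟨min δ₁ δ₂, by positivity, fun h hh => ?_⟩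
  have hh1 : ‖h‖ < δ₁ := hh.trans_le (min_le_left _ _)
  have hh2 : ‖h‖ < δ₂ := hh.trans_le (min_le_right _ _)
  let R : ℂ × ℂ → ℝ := fun y => f (x + y) - G x y - (1 / 2) * Q y y
  have hR : ∀ y ∈ closedBall (0 : ℂ × ℂ) ‖h‖, HasFDerivWithinAt R
      (G (x + y) - G x - Q y) (closedBall (0 : ℂ × ℂ) ‖h‖) y := by
    intro y hy
    have hy' : ‖y‖ ≤ ‖h‖ := by simpa using hy
    apply HasFDerivAt.hasFDerivWithinAt
    have e1 : HasFDerivAt (fun y => f (x + y)) (G (x + y)) y := by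
      have h4 : HasFDerivAt f (G (x + y)) (x + y) := hδ₂' (by
        rw [dist_eq_norm, add_sub_cancel_left]
        exact hy'.trans_lt hh2)
      have := h4.comp y ((hasFDerivAt_id y).const_add x)
      refine HasFDerivAt.congr_fderiv this ?_
      ext z <;> simp
    have e2 : HasFDerivAt (fun y => G x y) (G x) y := (G x).hasFDerivAt
    have e3 := (Q.hasFDerivAt (x := y)).clm_apply (hasFDerivAt_id y)
    have e4 := (e1.sub e2).sub (e3.const_mul (1 / 2 : ℝ))
    refine e4.congr_fderiv ?_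
    ext z
    all_goals
      simp only [sub_apply, smul_apply, add_apply, ContinuousLinearMap.comp_apply,
        ContinuousLinearMap.flip_apply, id, ContinuousLinearMap.id_apply, smul_eq_mul,
        ContinuousLinearMap.inl_apply, ContinuousLinearMap.inr_apply]
      rw [hsymm _ y]
      ring
  have hbound : ∀ y ∈ closedBall (0 : ℂ × ℂ) ‖h‖, ‖G (x + y) - G x - Q y‖ ≤ ε * ‖h‖ := by
    intro y hy
    have hy' : ‖y‖ ≤ ‖h‖ := by simpa using hy
    have := hδ₁' (y := y) (by simpa using hy'.trans_lt hh1)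
    exact this.trans (by gcongr)
  have h4 := (convex_closedBall (0 : ℂ × ℂ) ‖h‖).norm_image_sub_le_of_norm_hasFDerivWithin_le hR
    hbound (mem_closedBall_self (norm_nonneg h)) (show h ∈ closedBall (0 : ℂ × ℂ) ‖h‖ by simp)
  simp only [R] at h4
  simp only [add_zero, map_zero, mul_zero, sub_zero, Real.norm_eq_abs] at h4
  have h5 : f (x + h) - quad (f x) (G x) Q h = f (x + h) - G x h - 1 / 2 * (Q h) h - f x := by
    unfold quad
    ring
  rw [h5]
  calc _ ≤ ε * ‖h‖ * ‖h‖ := h4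
    _ = _ := by ring

end Pool.Agent.H90
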