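import Pool.Agent.H90.LocalComp

/-!
# The global comparison principle on `ℂ × annulus`
-/

open Complex MeasureTheory Metric Real Set InnerProductSpace Topology Filter

namespace Pool.Agent.H90

theorem isOpen_Dom (a b : ℝ) : IsOpen (Dom a b) := by
  have h1 : IsOpen {p : ℂ × ℂ | a < ‖p.2‖} := isOpen_lt continuous_const (by fun_prop)
  have h2 : IsOpen {p : ℂ × ℂ | ‖p.2‖ < b} := isOpen_lt (by fun_prop) continuous_const
  exact h1.inter h2

theorem isClosed_Cl (a b : ℝ) : IsClosed (Cl a b) := by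
  have h1 : IsClosed {p : ℂ × ℂ | a ≤ ‖p.2‖} := isClosed_le continuous_const (by fun_prop)
  have h2 : IsClosed {p : ℂ × ℂ | ‖p.2‖ ≤ b} := isClosed_le (by fun_prop) continuous_const
  exact h1.inter h2

theorem Dom_subset_Cl (a b : ℝ) : Dom a b ⊆ Cl a b := fun _ h => ⟨h.1.le, h.2.le⟩

theorem pshOn_norm_sq_snd (Ω : Set (ℂ × ℂ)) : PshOn (fun p : ℂ × ℂ => ‖p.2‖ ^ 2) Ω := by
  refine ⟨Continuous.continuousOn (by fun_prop), fun p w _ => ?_⟩
  have := circleAverage_norm_sq_line p.2 w.2 1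
  simp only [Prod.snd_add, Prod.smul_snd, smul_eq_mul]
  rw [this]
  have := sq_nonneg ‖w.2‖
  linarith

theorem pshOn_norm_sq_fst (Ω : Set (ℂ × ℂ)) : PshOn (fun p : ℂ × ℂ => ‖p.1‖ ^ 2) Ω := by
  refine ⟨Continuous.continuousOn (by fun_prop), fun p w _ => ?_⟩
  have := circleAverage_norm_sq_line p.1 w.1 1
  simp only [Prod.fst_add, Prod.smul_fst, smul_eq_mul]
  rw [this]
  have := sq_nonneg ‖w.1‖
  linarith

theorem circleAverage_re_mul (c d : ℂ) (s : ℝ) :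
    circleAverage (fun ξ : ℂ => (c + ξ * d).re) 0 s = c.re := by
  have e : (fun ξ : ℂ => (c + ξ * d).re) = fun ξ : ℂ => c.re + (d.re * ξ.re + (-d.im) * ξ.im +
      0 * ξ.re ^ 2 + 0 * (ξ.re * ξ.im) + 0 * ξ.im ^ 2) := by
    ext ξ
    simp only [add_re, mul_re]
    ring
  rw [e, circleAverage_fun_add (circleIntegrable_const _ _ _), circleAverage_const,
    circleAverage_quad]
  · ring
  · apply ContinuousOn.circleIntegrable'
    apply Continuous.continuousOn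
    fun_prop

theorem pshOn_re (L : ℂ × ℂ →L[ℂ] ℂ) (Ω : Set (ℂ × ℂ)) : PshOn (fun p : ℂ × ℂ => (L p).re) Ω := by
  refine ⟨Continuous.continuousOn (by fun_prop), fun p w _ => ?_⟩
  simp only [map_add, map_smul, smul_eq_mul]
  rw [circleAverage_re_mul]

theorem comparison {a b : ℝ} {u v : ℂ × ℂ → ℝ} (hb : 0 < b)
    (hu : ContinuousOn u (Cl a b)) (hBT : BTZero u (Dom a b)) {C : ℝ}
    (hub : ∀ p ∈ Cl a b, |u p - ‖p.1‖ ^ 2| ≤ C)
    (hvc : ContinuousOn v (Cl a b)) (hv : PshOn v (Dom a b)) {C' : ℝ}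
    (hvb : ∀ p ∈ Cl a b, v p - u p ≤ C')
    (hbd : ∀ p : ℂ × ℂ, p ∈ Cl a b → (‖p.2‖ = a ∨ ‖p.2‖ = b) → v p ≤ u p) :
    ∀ p ∈ Cl a b, v p ≤ u p := by
  intro p₀ hp₀
  by_cases hint : p₀ ∈ Dom a b
  swap
  · apply hbd p₀ hp₀
    by_contra h
    push Not at h
    exact hint ⟨lt_of_le_of_ne hp₀.1 (Ne.symm h.1), lt_of_le_of_ne hp₀.2 h.2⟩
  obtain ⟨ζ₀, z₀⟩ := p₀
  set M : ℝ := C + b ^ 2 + 1 with hM
  set X : ℝ := ‖ζ₀‖ ^ 2 + ‖z₀‖ ^ 2 - M with hX
  -- it suffices to prove a perturbed inequality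
  suffices hsuff : ∀ ε : ℝ, 0 < ε → ε < 1 → (1 - ε) * v (ζ₀, z₀) + ε * X ≤ u (ζ₀, z₀) by
    apply le_of_forall_pos_le_add
    intro η hη
    set Y := |v (ζ₀, z₀) - X| with hY
    have hY0 : 0 ≤ Y := abs_nonneg _
    set ε := min (1 / 2) (η / (Y + 1)) with hε
    have hεpos : 0 < ε := by positivity
    have hε1 : ε < 1 := (min_le_left _ _).trans_lt (by norm_num)
    have hεη : ε * (Y + 1) ≤ η := by
      rw [← le_div_iff₀ (by positivity)]
      exact min_le_right _ _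
    have h1 := hsuff ε hεpos hε1
    have h2 : v (ζ₀, z₀) - X ≤ Y := le_abs_self _
    nlinarith
  intro ε hε hε1
  set v' : ℂ × ℂ → ℝ := fun p => (1 - ε) * v p + ε * (‖p.1‖ ^ 2 + ‖p.2‖ ^ 2 - M) -
    (ε / 2) * ‖p.1 - ζ₀‖ ^ 2 with hv'
  have hbound : ∀ p ∈ Cl a b, v' p - u p ≤ (1 - ε) * (v p - u p) - ε - (ε / 2) * ‖p.1 - ζ₀‖ ^ 2 := by
    intro p hp
    have h1 := (abs_le.mp (hub p hp)).1
    have h2 : ‖p.2‖ ^ 2 ≤ b ^ 2 := by
      have := norm_nonneg p.2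
      have := hp.2
      gcongr
    have e : v' p - u p = (1 - ε) * (v p - u p) + ε * (‖p.1‖ ^ 2 - u p + ‖p.2‖ ^ 2 - M) -
        (ε / 2) * ‖p.1 - ζ₀‖ ^ 2 := by
      simp only [hv']
      ring
    rw [e]
    have h3 : ε * (‖p.1‖ ^ 2 - u p + ‖p.2‖ ^ 2 - M) ≤ ε * (-1) := by
      apply mul_le_mul_of_nonneg_left _ hε.le
      linarith
    linarith
  have hv'c : ContinuousOn v' (Cl a b) := by
    have h1 : Continuous fun p : ℂ × ℂ => ε * (‖p.1‖ ^ 2 + ‖p.2‖ ^ 2 - M) := by fun_prop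
    have h2 : Continuous fun p : ℂ × ℂ => (ε / 2) * ‖p.1 - ζ₀‖ ^ 2 := by fun_prop
    exact ((continuousOn_const.mul hvc).add h1.continuousOn).sub h2.continuousOn
  let F : Set (ℂ × ℂ) := Cl a b ∩ {p | 0 ≤ v' p - u p}
  have hFcl : IsClosed F :=
    (hv'c.sub hu).preimage_isClosed_of_isClosed (isClosed_Cl a b) isClosed_Ici
  have hFb : Bornology.IsBounded F := by
    have hC' : F ⊆ closedBall (ζ₀, 0) (|C'| * (2 / ε) + 1 + b) := by
      intro p hp
      have h1 := hbound p hp.1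
      have h2 : 0 ≤ v' p - u p := hp.2
      have h3 := hvb p hp.1
      have h4 : (ε / 2) * ‖p.1 - ζ₀‖ ^ 2 ≤ |C'| := by
        have h5 : (1 - ε) * (v p - u p) ≤ |C'| := by
          have h6 : v p - u p ≤ |C'| := h3.trans (le_abs_self _)
          have h7 : 0 ≤ |C'| := abs_nonneg _
          nlinarith
        linarith
      have h5 : ‖p.1 - ζ₀‖ ^ 2 ≤ |C'| * (2 / ε) := by
        have : ‖p.1 - ζ₀‖ ^ 2 = (ε / 2 * ‖p.1 - ζ₀‖ ^ 2) * (2 / ε) := by
          field_simp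
        rw [this]
        gcongr
      have h6 : ‖p.1 - ζ₀‖ ≤ |C'| * (2 / ε) + 1 := by
        nlinarith [norm_nonneg (p.1 - ζ₀)]
      have h7 : 0 ≤ |C'| * (2 / ε) := by positivity
      have h8 := hp.1.2
      rw [mem_closedBall, dist_eq_norm, Prod.norm_def]
      simp only [Prod.fst_sub, Prod.snd_sub, sub_zero]
      apply max_le
      · linarith
      · linarith
    exact isBounded_closedBall.subset hC'
  have hF : IsCompact F := Metric.isCompact_of_isClosed_isBounded hFcl hFb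
  have hFΩ : F ⊆ Dom a b := by
    intro p hp
    by_contra h
    have hbp : ‖p.2‖ = a ∨ ‖p.2‖ = b := by
      by_contra h'
      push Not at h'
      exact h ⟨lt_of_le_of_ne hp.1.1 (Ne.symm h'.1), lt_of_le_of_ne hp.1.2 h'.2⟩
    have h1 := hbound p hp.1
    have h2 : 0 ≤ v' p - u p := hp.2
    have h3 := hbd p hp.1 hbp
    have h4 : 0 ≤ (ε / 2) * ‖p.1 - ζ₀‖ ^ 2 := by positivity
    nlinarith
  have hpsh : PshOn (fun p => v' p - (ε / 2) * N2 p) (Dom a b) := by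
    have h1 : PshOn (fun p => (1 - ε) * v p) (Dom a b) := hv.const_mul (by linarith)
    have h2 : PshOn (fun p : ℂ × ℂ => (ε / 2) * ‖p.2‖ ^ 2) (Dom a b) :=
      (pshOn_norm_sq_snd _).const_mul (by positivity)
    have h3 := (pshOn_re (((ε * starRingEnd ℂ ζ₀ : ℂ)) • ContinuousLinearMap.fst ℂ ℂ ℂ) (Dom a b))
    have h4 := (h1.add h2).add (h3.add (pshOn_const (-(ε / 2) * ‖ζ₀‖ ^ 2 - ε * M) (Dom a b)))
    refine h4.congr fun p _ => ?_
    simp only [hv', N2]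
    rw [← Complex.normSq_eq_norm_sq (p.1 - ζ₀), ← Complex.normSq_eq_norm_sq p.1,
      ← Complex.normSq_eq_norm_sq ζ₀]
    simp only [Complex.normSq_apply, sub_re, sub_im, FunLike.coe_smul, Pi.smul_apply,
      ContinuousLinearMap.coe_fst', smul_eq_mul, mul_re, mul_im, ofReal_re, ofReal_im, conj_re,
      conj_im]
    ring
  have hle : ∀ p ∈ Dom a b \ F, v' p ≤ u p := by
    intro p hp
    by_contra h
    push Not at h
    exact hp.2 ⟨Dom_subset_Cl a b hp.1, by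
      change 0 ≤ v' p - u p
      linarith⟩
  have hfin := local_comparison (isOpen_Dom a b) (hu.mono (Dom_subset_Cl a b)) hBT
    (by positivity : (0 : ℝ) < ε / 2) hpsh hF hFΩ hle (ζ₀, z₀) hint
  simp only [hv', sub_self, norm_zero] at hfin
  rw [hX]
  simpa using hfin

end Pool.Agent.H90
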