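import Pool.Agent.H90.Ex2
import Pool.Agent.H90.Global

/-!
# Maximal plurisubharmonic functions have degenerate complex Hessian
-/

open Complex MeasureTheory Metric Real Set InnerProductSpace Topology Filter

namespace Pool.Agent.H90

/-- the Monge-Ampère expression of a bilinear form -/
noncomputable def maQ (Q : ℂ × ℂ →L[ℝ] ℂ × ℂ →L[ℝ] ℝ) : ℝ :=
  (Q (1, 0) (1, 0) + Q (I, 0) (I, 0)) * (Q (0, 1) (0, 1) + Q (0, I) (0, I)) -
  (Q (1, 0) (0, 1) + Q (I, 0) (0, I)) ^ 2 - (Q (1, 0) (0, I) - Q (I, 0) (0, 1)) ^ 2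

/-- the Levi form of a bilinear form -/
noncomputable def leviQ (Q : ℂ × ℂ →L[ℝ] ℂ × ℂ →L[ℝ] ℝ) (w : ℂ × ℂ) : ℝ :=
  Q w w + Q (I • w) (I • w)

theorem Q_expand (Q : ℂ × ℂ →L[ℝ] ℂ × ℂ →L[ℝ] ℝ) (a b c d a' b' c' d' : ℝ) :
    Q (a • ((1, 0) : ℂ × ℂ) + b • ((I, 0) : ℂ × ℂ) + c • ((0, 1) : ℂ × ℂ) +
      d • ((0, I) : ℂ × ℂ)) (a' • ((1, 0) : ℂ × ℂ) + b' • ((I, 0) : ℂ × ℂ) +
      c' • ((0, 1) : ℂ × ℂ) + d' • ((0, I) : ℂ × ℂ)) =
    a * a' * Q (1, 0) (1, 0) + a * b' * Q (1, 0) (I, 0) +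
    a * c' * Q (1, 0) (0, 1) + a * d' * Q (1, 0) (0, I) +
    b * a' * Q (I, 0) (1, 0) + b * b' * Q (I, 0) (I, 0) +
    b * c' * Q (I, 0) (0, 1) + b * d' * Q (I, 0) (0, I) +
    c * a' * Q (0, 1) (1, 0) + c * b' * Q (0, 1) (I, 0) +
    c * c' * Q (0, 1) (0, 1) + c * d' * Q (0, 1) (0, I) +
    d * a' * Q (0, I) (1, 0) + d * b' * Q (0, I) (I, 0) +
    d * c' * Q (0, I) (0, 1) + d * d' * Q (0, I) (0, I) := by
  simp only [map_add, map_smul, add_apply, smul_apply, smul_eq_mul]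
  ring

theorem leviQ_expand {Q : ℂ × ℂ →L[ℝ] ℂ × ℂ →L[ℝ] ℝ} (hQ : ∀ x y, Q x y = Q y x) (w : ℂ × ℂ) :
    leviQ Q w = (w.1.re ^ 2 + w.1.im ^ 2) * (Q (1, 0) (1, 0) + Q (I, 0) (I, 0)) +
      (w.2.re ^ 2 + w.2.im ^ 2) * (Q (0, 1) (0, 1) + Q (0, I) (0, I)) +
      2 * ((w.1.re * w.2.re + w.1.im * w.2.im) * (Q (1, 0) (0, 1) + Q (I, 0) (0, I)) +
        (w.1.re * w.2.im - w.1.im * w.2.re) * (Q (1, 0) (0, I) - Q (I, 0) (0, 1))) := by
  unfold leviQ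
  have h1 := decomp w
  have h2 := decomp (I • w)
  have e1 : (I • w).1.re = -w.1.im := by simp
  have e2 : (I • w).1.im = w.1.re := by simp
  have e3 : (I • w).2.re = -w.2.im := by simp
  have e4 : (I • w).2.im = w.2.re := by simp
  rw [e1, e2, e3, e4] at h2
  have h3 := Q_expand Q w.1.re w.1.im w.2.re w.2.im w.1.re w.1.im w.2.re w.2.im
  rw [← h1] at h3
  have h4 := Q_expand Q (-w.1.im) w.1.re (-w.2.im) w.2.re (-w.1.im) w.1.re
    (-w.2.im) w.2.re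
  rw [← h2] at h4
  rw [h3, h4, hQ (I, 0) (1, 0), hQ (0, 1) (1, 0), hQ (0, 1) (I, 0), hQ (0, I) (1, 0),
    hQ (0, I) (I, 0), hQ (0, I) (0, 1)]
  ring

theorem leviQ_e1 (Q : ℂ × ℂ →L[ℝ] ℂ × ℂ →L[ℝ] ℝ) :
    leviQ Q (1, 0) = Q (1, 0) (1, 0) + Q (I, 0) (I, 0) := by
  unfold leviQ
  have : I • ((1, 0) : ℂ × ℂ) = (I, 0) := by ext <;> simp
  rw [this]

theorem leviQ_e2 (Q : ℂ × ℂ →L[ℝ] ℂ × ℂ →L[ℝ] ℝ) :
    leviQ Q (0, 1) = Q (0, 1) (0, 1) + Q (0, I) (0, I) := by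
  unfold leviQ
  have : I • ((0, 1) : ℂ × ℂ) = (0, I) := by ext <;> simp
  rw [this]

/-- trace times Levi form dominates determinant times the square of the norm -/
theorem tr_mul_leviQ {Q : ℂ × ℂ →L[ℝ] ℂ × ℂ →L[ℝ] ℝ} (hQ : ∀ x y, Q x y = Q y x) (w : ℂ × ℂ) :
    maQ Q * N2 w ≤ (leviQ Q (1, 0) + leviQ Q (0, 1)) * leviQ Q w := by
  rw [leviQ_expand hQ w, leviQ_e1, leviQ_e2]
  unfold maQ N2
  rw [← Complex.normSq_eq_norm_sq, ← Complex.normSq_eq_norm_sq, Complex.normSq_apply,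
    Complex.normSq_apply]
  set P := Q (1, 0) (1, 0) + Q (I, 0) (I, 0)
  set Q' := Q (0, 1) (0, 1) + Q (0, I) (0, I)
  set R := Q (1, 0) (0, 1) + Q (I, 0) (0, I)
  set S := Q (1, 0) (0, I) - Q (I, 0) (0, 1)
  set a := w.1.re
  set b := w.1.im
  set c := w.2.re
  set d := w.2.im
  have key : (P + Q') * ((a ^ 2 + b ^ 2) * P + (c ^ 2 + d ^ 2) * Q' +
      2 * ((a * c + b * d) * R + (a * d - b * c) * S)) -
      (P * Q' - R ^ 2 - S ^ 2) * (a * a + b * b + (c * c + d * d)) =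
      (P * a + (R * c + S * d)) ^ 2 + (P * b + (R * d - S * c)) ^ 2 +
      (Q' * c + (R * a - S * b)) ^ 2 + (Q' * d + (R * b + S * a)) ^ 2 := by ring
  nlinarith [sq_nonneg (P * a + (R * c + S * d)), sq_nonneg (P * b + (R * d - S * c)),
    sq_nonneg (Q' * c + (R * a - S * b)), sq_nonneg (Q' * d + (R * b + S * a))]

theorem maQ_nonneg {Q : ℂ × ℂ →L[ℝ] ℂ × ℂ →L[ℝ] ℝ} (hQ : ∀ x y, Q x y = Q y x)
    (h : ∀ w, 0 ≤ leviQ Q w) : 0 ≤ maQ Q := by
  -- evaluate the Levi form at suitable vectors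
  set P := Q (1, 0) (1, 0) + Q (I, 0) (I, 0) with hP
  set Q' := Q (0, 1) (0, 1) + Q (0, I) (0, I) with hQ'
  set R := Q (1, 0) (0, 1) + Q (I, 0) (0, I) with hR
  set S := Q (1, 0) (0, I) - Q (I, 0) (0, 1) with hS
  have hma : maQ Q = P * Q' - R ^ 2 - S ^ 2 := rfl
  have hP0 : 0 ≤ P := by
    have := h (1, 0)
    rwa [leviQ_e1] at this
  have hQ0 : 0 ≤ Q' := by
    have := h (0, 1)
    rwa [leviQ_e2] at this
  set N := R ^ 2 + S ^ 2 with hN
  have hN0 : 0 ≤ N := by positivity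
  have h2 : ∀ t : ℝ, 0 ≤ P * N * (t * t) + (-2 * N) * t + Q' := by
    intro t
    have h1 := h (((-t * R : ℝ) : ℂ) + ((t * S : ℝ) : ℂ) * I, 1)
    rw [leviQ_expand hQ] at h1
    simp only [add_re, ofReal_re, mul_re, ofReal_im, I_re, I_im, mul_zero, mul_one, sub_self,
      add_zero, add_im, mul_im, zero_add, one_re, one_im, zero_sub] at h1
    rw [← hP, ← hQ', ← hR, ← hS] at h1
    rw [hN]
    nlinarith
  have h3 := discrim_le_zero h2
  unfold discrim at h3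
  have h4 : N * N ≤ N * (P * Q') := by nlinarith
  have h5 : N ≤ P * Q' := by
    rcases hN0.lt_or_eq with hpos | hzero
    · exact le_of_mul_le_mul_left h4 hpos
    · rw [← hzero]
      positivity
  rw [hma]
  linarith

theorem circleAverage_quadQ (c : ℝ) (ℓ : ℂ × ℂ →L[ℝ] ℝ) (Q : ℂ × ℂ →L[ℝ] ℂ × ℂ →L[ℝ] ℝ)
    (w : ℂ × ℂ) (s : ℝ) :
    circleAverage (fun ξ : ℂ => quad c ℓ Q (ξ • w)) 0 s = c + s ^ 2 / 4 * leviQ Q w := by
  have e : (fun ξ : ℂ => quad c ℓ Q (ξ • w)) = fun ξ : ℂ => c + (ℓ w * ξ.re + ℓ (I • w) * ξ.im +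
      (1 / 2 * Q w w) * ξ.re ^ 2 + (1 / 2 * (Q w (I • w) + Q (I • w) w)) * (ξ.re * ξ.im) +
      (1 / 2 * Q (I • w) (I • w)) * ξ.im ^ 2) := by
    ext ξ
    unfold quad
    rw [smul_eq_re_im ξ w]
    simp only [map_add, map_smul, add_apply, smul_apply, smul_eq_mul]
    ring
  rw [e, circleAverage_fun_add (circleIntegrable_const _ _ _), circleAverage_const,
    circleAverage_quad]
  · unfold leviQ
    ring
  · apply ContinuousOn.circleIntegrable'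
    apply Continuous.continuousOn
    fun_prop

theorem HasTaylor2.leviQ_nonneg {f : ℂ × ℂ → ℝ} {Ω : Set (ℂ × ℂ)} (hΩ : IsOpen Ω) (hf : PshOn f Ω)
    {p : ℂ × ℂ} (hp : p ∈ Ω) {ℓ : ℂ × ℂ →L[ℝ] ℝ} {Q : ℂ × ℂ →L[ℝ] ℂ × ℂ →L[ℝ] ℝ}
    (hT : HasTaylor2 f p ℓ Q) (w : ℂ × ℂ) : 0 ≤ leviQ Q w := by
  by_contra hneg
  push Not at hneg
  have hw0 := norm_nonneg w
  obtain ⟨δ, hδ, h1⟩ := hT.2 (-leviQ Q w / (8 * (‖w‖ ^ 2 + 1)))
    (by have : 0 < -leviQ Q w := by linarith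
        positivity)
  obtain ⟨s₁, hs₁, h2⟩ := hf.LSM hΩ hp w
  obtain ⟨s₂, hs₂, h3⟩ := exists_disc_subset hΩ hp w
  set s := min (δ / (2 * (‖w‖ + 1))) (min (s₁ / 2) (s₂ / 2)) with hs
  have hspos : 0 < s := by positivity
  have t1 : s ≤ δ / (2 * (‖w‖ + 1)) := min_le_left _ _
  have t2 : s < s₁ := ((min_le_right _ _).trans (min_le_left _ _)).trans_lt (by linarith)
  have t3 : s < s₂ := ((min_le_right _ _).trans (min_le_right _ _)).trans_lt (by linarith)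
  have hcb : ∀ ξ ∈ closedBall (0 : ℂ) s, p + ξ • w ∈ Ω := by
    intro ξ hξ
    apply h3
    have : ‖ξ‖ ≤ s := by simpa using hξ
    linarith
  have hi := circleIntegrable_line hf.cont hspos hcb
  have h4 := h2 s hspos t2
  simp only [zero_smul, add_zero] at h4
  have hqi : CircleIntegrable (fun ξ : ℂ => quad (f p) ℓ Q (ξ • w)) 0 s := by
    apply ContinuousOn.circleIntegrable'
    apply Continuous.continuousOn
    have := (Sm_quad (f p) ℓ Q).continuous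
    fun_prop
  have h5 : circleAverage (fun ξ : ℂ => f (p + ξ • w)) 0 s ≤
      circleAverage (fun ξ : ℂ => quad (f p) ℓ Q (ξ • w) + (-leviQ Q w / 8 * s ^ 2)) 0 s := by
    apply circleAverage_mono hi (hqi.add (circleIntegrable_const _ _ _))
    intro ξ hξ
    rw [abs_of_pos hspos] at hξ
    have hξ' : ‖ξ‖ = s := by simpa using hξ
    have hn : ‖ξ • w‖ = s * ‖w‖ := by rw [norm_smul, hξ']
    have hlt : ‖ξ • w‖ < δ := by
      rw [hn]
      rw [le_div_iff₀ (by positivity)] at t1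
      nlinarith
    have h6 := (abs_le.mp (h1 _ hlt)).2
    rw [hn] at h6
    have h7 : -leviQ Q w / (8 * (‖w‖ ^ 2 + 1)) * (s * ‖w‖) ^ 2 ≤ -leviQ Q w / 8 * s ^ 2 := by
      rw [div_mul_eq_mul_div, div_le_iff₀ (by positivity)]
      have : 0 ≤ -leviQ Q w * s ^ 2 := mul_nonneg (by linarith) (by positivity)
      nlinarith
    change f (p + ξ • w) ≤ quad (f p) ℓ Q (ξ • w) + (-leviQ Q w / 8 * s ^ 2)
    linarith
  rw [circleAverage_fun_add hqi (circleIntegrable_const _ _ _), circleAverage_const,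
    circleAverage_quadQ] at h5
  have h6 : 0 < s ^ 2 := by positivity
  nlinarith

theorem PshOn.of_local {v : ℂ × ℂ → ℝ} {Ω : Set (ℂ × ℂ)} (hΩ : IsOpen Ω)
    (h : ∀ x ∈ Ω, ∃ U : Set (ℂ × ℂ), IsOpen U ∧ x ∈ U ∧ PshOn v (U ∩ Ω)) : PshOn v Ω := by
  apply PshOn.of_LSM
  · intro x hx
    obtain ⟨U, hU, hxU, hv⟩ := h x hx
    have := (hv.cont.continuousAt ((hU.inter hΩ).mem_nhds ⟨hxU, hx⟩))
    exact this.continuousWithinAt
  · intro x hx w
    obtain ⟨U, hU, hxU, hv⟩ := h x hx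
    exact hv.LSM (hU.inter hΩ) ⟨hxU, hx⟩ w

/-- the pluriharmonic part of a quadratic polynomial -/
noncomputable def pluri (c : ℝ) (ℓ : ℂ × ℂ →L[ℝ] ℝ) (Q : ℂ × ℂ →L[ℝ] ℂ × ℂ →L[ℝ] ℝ)
    (h : ℂ × ℂ) : ℝ := c + ℓ h + (1 / 4) * (Q h h - Q (I • h) (I • h))

theorem continuous_pluri (c : ℝ) (ℓ : ℂ × ℂ →L[ℝ] ℝ) (Q : ℂ × ℂ →L[ℝ] ℂ × ℂ →L[ℝ] ℝ) :
    Continuous (pluri c ℓ Q) := by
  unfold pluri
  fun_prop

theorem quad_eq_pluri (c : ℝ) (ℓ : ℂ × ℂ →L[ℝ] ℝ) (Q : ℂ × ℂ →L[ℝ] ℂ × ℂ →L[ℝ] ℝ) (h : ℂ × ℂ) :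
    quad c ℓ Q h = pluri c ℓ Q h + (1 / 4) * leviQ Q h := by
  unfold quad pluri leviQ
  ring

theorem pshOn_pluri (c : ℝ) (ℓ : ℂ × ℂ →L[ℝ] ℝ) (Q : ℂ × ℂ →L[ℝ] ℂ × ℂ →L[ℝ] ℝ) (p : ℂ × ℂ)
    (Ω : Set (ℂ × ℂ)) : PshOn (fun x => pluri c ℓ Q (x - p)) Ω := by
  have hc := continuous_pluri c ℓ Q
  refine ⟨Continuous.continuousOn (by fun_prop), fun x w _ => ?_⟩
  set h := x - p with hh
  have e : (fun ξ : ℂ => pluri c ℓ Q (x + ξ • w - p)) = fun ξ : ℂ => pluri c ℓ Q h +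
      ((ℓ w + 1 / 4 * (Q h w + Q w h - Q (I • h) (I • w) - Q (I • w) (I • h))) * ξ.re +
      (ℓ (I • w) + 1 / 4 * (Q h (I • w) + Q (I • w) h + Q (I • h) w + Q w (I • h))) * ξ.im +
      (1 / 4 * (Q w w - Q (I • w) (I • w))) * ξ.re ^ 2 +
      (1 / 2 * (Q w (I • w) + Q (I • w) w)) * (ξ.re * ξ.im) +
      (-(1 / 4 * (Q w w - Q (I • w) (I • w)))) * ξ.im ^ 2) := by
    ext ξ
    have e1 : x + ξ • w - p = h + (ξ.re • w + ξ.im • (I • w)) := by
      rw [← smul_eq_re_im, hh]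
      abel
    have e2 : I • (h + (ξ.re • w + ξ.im • (I • w))) = I • h + (ξ.re • (I • w) + (-ξ.im) • w) := by
      ext
      · simp only [Prod.smul_fst, Prod.fst_add, smul_eq_mul, Complex.real_smul]
        push_cast
        linear_combination (ξ.im : ℂ) * w.1 * I_mul_I
      · simp only [Prod.smul_snd, Prod.snd_add, smul_eq_mul, Complex.real_smul]
        push_cast
        linear_combination (ξ.im : ℂ) * w.2 * I_mul_I
    rw [e1]
    unfold pluri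
    rw [e2]
    simp only [map_add, map_smul, add_apply, smul_apply, smul_eq_mul]
    ring
  rw [e, circleAverage_fun_add (circleIntegrable_const _ _ _), circleAverage_const,
    circleAverage_quad]
  · ring_nf
    exact le_rfl
  · apply ContinuousOn.circleIntegrable'
    apply Continuous.continuousOn
    fun_prop

theorem norm_sq_le_N2 (h : ℂ × ℂ) : ‖h‖ ^ 2 ≤ N2 h := by
  unfold N2
  rw [Prod.norm_def]
  rcases le_total ‖h.1‖ ‖h.2‖ with h1 | h1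
  · rw [max_eq_right h1]
    nlinarith [sq_nonneg ‖h.1‖]
  · rw [max_eq_left h1]
    nlinarith [sq_nonneg ‖h.2‖]

/-- At points where a maximal psh function lies strictly below the obstacle and is twice
differentiable, its complex Hessian is degenerate. -/
theorem maQ_eq_zero {Ω : Set (ℂ × ℂ)} (hΩ : IsOpen Ω) {f ψ : ℂ × ℂ → ℝ} (hf : PshOn f Ω)
    (hψ : ContinuousOn ψ Ω) (hle : ∀ p ∈ Ω, f p ≤ ψ p)
    (hmax : ∀ v : ℂ × ℂ → ℝ, PshOn v Ω → (∀ p ∈ Ω, v p ≤ ψ p) → ∀ p ∈ Ω, v p ≤ f p)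
    {p : ℂ × ℂ} (hp : p ∈ Ω) (hlt : f p < ψ p) {ℓ : ℂ × ℂ →L[ℝ] ℝ}
    {Q : ℂ × ℂ →L[ℝ] ℂ × ℂ →L[ℝ] ℝ} (hT : HasTaylor2 f p ℓ Q) : maQ Q = 0 := by
  have hQ := hT.1
  have hlevi := hT.leviQ_nonneg hΩ hf hp
  have hma0 := maQ_nonneg hQ hlevi
  by_contra hne
  have hmapos : 0 < maQ Q := lt_of_le_of_ne hma0 (Ne.symm hne)
  set tr := leviQ Q (1, 0) + leviQ Q (0, 1) with htr
  have htr0 : 0 ≤ tr := add_nonneg (hlevi _) (hlevi _)
  have htrpos : 0 < tr := by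
    rcases htr0.lt_or_eq with h1 | h1
    · exact h1
    · exfalso
      have h2 := tr_mul_leviQ hQ (1, 0)
      rw [← htr, ← h1, zero_mul] at h2
      have h3 : N2 ((1, 0) : ℂ × ℂ) = 1 := by simp [N2]
      rw [h3] at h2
      linarith
  set κ := maQ Q / tr with hκ
  have hκpos : 0 < κ := div_pos hmapos htrpos
  have hlow : ∀ w, κ * ‖w‖ ^ 2 ≤ leviQ Q w := by
    intro w
    have h1 := tr_mul_leviQ hQ w
    rw [← htr] at h1
    have h2 := norm_sq_le_N2 w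
    have h3 : κ * N2 w ≤ leviQ Q w := by
      rw [hκ, div_mul_eq_mul_div, div_le_iff₀ htrpos]
      linarith
    have h4 : κ * ‖w‖ ^ 2 ≤ κ * N2 w := by gcongr
    linarith
  obtain ⟨δ, hδ, h1⟩ := hT.2 (κ / 8) (by positivity)
  obtain ⟨r₀, hr₀, hr₀Ω⟩ := Metric.isOpen_iff.mp hΩ p hp
  set g := ψ p - f p with hg
  have hgpos : 0 < g := by linarith
  have hmc := continuous_pluri (f p) ℓ Q
  -- closeness to the obstacle
  have hcont : ContinuousAt (fun x => ψ x - pluri (f p) ℓ Q (x - p)) p := by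
    apply ContinuousAt.sub
    · exact hψ.continuousAt (hΩ.mem_nhds hp)
    · exact (by fun_prop : Continuous fun x => pluri (f p) ℓ Q (x - p)).continuousAt
  have hval : ψ p - pluri (f p) ℓ Q (p - p) = g := by
    simp [pluri, hg]
  have hev : ∀ᶠ x in 𝓝 p, g / 2 < ψ x - pluri (f p) ℓ Q (x - p) := by
    apply hcont.eventually_const_lt
    change g / 2 < ψ p - pluri (f p) ℓ Q (p - p)
    rw [hval]
    linarith
  obtain ⟨r₁, hr₁, hr₁'⟩ := Metric.eventually_nhds_iff.mp hev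
  set ρ := min (min (δ / 2) (r₀ / 2)) (min (r₁ / 2) (min 1 (g / (κ + 1)))) with hρ
  have hρpos : 0 < ρ := by positivity
  have ρ1 : ρ ≤ δ / 2 := (min_le_left _ _).trans (min_le_left _ _)
  have ρ2 : ρ ≤ r₀ / 2 := (min_le_left _ _).trans (min_le_right _ _)
  have ρ3 : ρ ≤ r₁ / 2 := (min_le_right _ _).trans (min_le_left _ _)
  have ρ4 : ρ ≤ 1 := (min_le_right _ _).trans ((min_le_right _ _).trans (min_le_left _ _))
  have ρ5 : ρ ≤ g / (κ + 1) := (min_le_right _ _).trans ((min_le_right _ _).trans (min_le_right _ _))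
  rw [le_div_iff₀ (by positivity)] at ρ5
  set η := κ / 32 * ρ ^ 2 with hη
  have hηpos : 0 < η := by positivity
  have hηg : η ≤ g / 2 := by
    have : ρ ^ 2 ≤ ρ := by nlinarith
    rw [hη]
    nlinarith
  -- lower bound for f away from p
  have hflow : ∀ x, ρ / 2 ≤ ‖x - p‖ → ‖x - p‖ < ρ → pluri (f p) ℓ Q (x - p) + η ≤ f x := by
    intro x hx1 hx2
    have h2 := (abs_le.mp (h1 (x - p) (by linarith))).1
    rw [add_sub_cancel, quad_eq_pluri] at h2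
    have h3 := hlow (x - p)
    have h4 : (ρ / 2) ^ 2 ≤ ‖x - p‖ ^ 2 := by gcongr
    rw [hη]
    nlinarith
  classical
  let v : ℂ × ℂ → ℝ := fun x => if ‖x - p‖ < ρ then max (f x) (pluri (f p) ℓ Q (x - p) + η) else f x
  have hv1 : ∀ x, ‖x - p‖ < ρ → v x = max (f x) (pluri (f p) ℓ Q (x - p) + η) := fun x hx => if_pos hx
  have hv2 : ∀ x, ρ / 2 < ‖x - p‖ → v x = f x := by
    intro x hx
    by_cases h2 : ‖x - p‖ < ρ
    · rw [hv1 x h2]
      exact max_eq_left (hflow x hx.le h2)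
    · exact if_neg h2
  have hvpsh : PshOn v Ω := by
    apply PshOn.of_local hΩ
    intro x hx
    by_cases h2 : ‖x - p‖ < ρ
    · refine ⟨ball p ρ, isOpen_ball, by rwa [mem_ball, dist_eq_norm], ?_⟩
      have h3 := (hf.mono (inter_subset_right (s := ball p ρ) (t := Ω))).max
        ((pshOn_pluri (f p) ℓ Q p (ball p ρ ∩ Ω)).add (pshOn_const η _))
      refine h3.congr fun y hy => ?_
      have : ‖y - p‖ < ρ := by
        rw [← dist_eq_norm]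
        exact hy.1
      exact hv1 y this
    · refine ⟨{y | ρ / 2 < ‖y - p‖}, isOpen_lt continuous_const (by fun_prop), ?_, ?_⟩
      · change ρ / 2 < ‖x - p‖
        push Not at h2
        linarith
      · exact (hf.mono inter_subset_right).congr fun y hy => hv2 y hy.1
  have hvle : ∀ x ∈ Ω, v x ≤ ψ x := by
    intro x hx
    by_cases h2 : ‖x - p‖ < ρ
    · rw [hv1 x h2]
      apply max_le (hle x hx)
      have h3 := hr₁' (show dist x p < r₁ by rw [dist_eq_norm]; linarith)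
      linarith
    · have : v x = f x := if_neg h2
      rw [this]
      exact hle x hx
  have hfin := hmax v hvpsh hvle p hp
  rw [hv1 p (by simpa using hρpos)] at hfin
  have h2 := (le_max_right (f p) (pluri (f p) ℓ Q (p - p) + η)).trans hfin
  simp only [sub_self, pluri, map_zero, smul_zero, mul_zero, add_zero] at h2
  linarith

end Pool.Agent.H90
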