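import Pool.Agent.H90.Ex3

/-!
# Smooth approximations with small Monge-Ampère mass
-/

open Complex MeasureTheory Metric Real Set InnerProductSpace Topology Filter

namespace Pool.Agent.H90

theorem moll_le_of_le {φ : ℂ × ℂ → ℝ} (hφ : Continuous φ) (hc : HasCompactSupport φ)
    (hφ0 : ∀ t, 0 ≤ φ t) {g₁ g₂ : ℂ × ℂ → ℝ} (h1 : Continuous g₁) (h2 : Continuous g₂)
    (h : ∀ t, φ t ≠ 0 → g₁ t ≤ g₂ t) : ∫ t, φ t * g₁ t ≤ ∫ t, φ t * g₂ t := by
  apply integral_mono
  · exact Continuous.integrable_of_hasCompactSupport (by fun_prop) hc.mul_right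
  · exact Continuous.integrable_of_hasCompactSupport (by fun_prop) hc.mul_right
  · intro t
    by_cases ht : φ t = 0
    · simp [ht]
    · exact mul_le_mul_of_nonneg_left (h t ht) (hφ0 t)

theorem integral_ker_mul_const {ε : ℝ} (hε : 0 < ε) (c : ℝ) : ∫ t, ker ε t * c = c := by
  rw [integral_mul_const, integral_ker hε, one_mul]

theorem moll_ker_le {ε : ℝ} (hε : 0 < ε) {g : ℂ × ℂ → ℝ} (hg : Continuous g) {p : ℂ × ℂ} {c : ℝ}
    (h : ∀ t, ‖t‖ < ε → g (p - t) ≤ c) : moll (ker ε) g p ≤ c := by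
  have h1 := moll_le_of_le (Sm_ker ε).continuous (hasCompactSupport_ker hε) (ker_nonneg hε)
    (g₁ := fun t => g (p - t)) (g₂ := fun _ => c) (by fun_prop) continuous_const
    (fun t ht => h t (ker_support hε ht))
  rw [integral_ker_mul_const hε] at h1
  exact h1

theorem le_moll_ker {ε : ℝ} (hε : 0 < ε) {g : ℂ × ℂ → ℝ} (hg : Continuous g) {p : ℂ × ℂ} {c : ℝ}
    (h : ∀ t, ‖t‖ < ε → c ≤ g (p - t)) : c ≤ moll (ker ε) g p := by
  have h1 := moll_le_of_le (Sm_ker ε).continuous (hasCompactSupport_ker hε) (ker_nonneg hε)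
    (g₁ := fun _ => c) (g₂ := fun t => g (p - t)) continuous_const (by fun_prop)
    (fun t ht => h t (ker_support hε ht))
  rw [integral_ker_mul_const hε] at h1
  exact h1

theorem moll_second_difference {ε : ℝ} (hε : 0 < ε) {g : ℂ × ℂ → ℝ} (hg : Continuous g)
    {p h : ℂ × ℂ} {c : ℝ} (hb : ∀ t, ‖t‖ < ε → g (p - t + h) + g (p - t - h) - 2 * g (p - t) ≤ c) :
    moll (ker ε) g (p + h) + moll (ker ε) g (p - h) - 2 * moll (ker ε) g p ≤ c := by
  have hk := (Sm_ker ε).continuous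
  have hc := hasCompactSupport_ker hε
  have i : ∀ q : ℂ × ℂ, Integrable fun t => ker ε t * g (q - t) := fun q =>
    Continuous.integrable_of_hasCompactSupport (by fun_prop) hc.mul_right
  have e : moll (ker ε) g (p + h) + moll (ker ε) g (p - h) - 2 * moll (ker ε) g p =
      ∫ t, ker ε t * (g (p - t + h) + g (p - t - h) - 2 * g (p - t)) := by
    unfold moll
    rw [← integral_const_mul, ← integral_add (i _) (i _)]
    have i2 : Integrable fun t => 2 * (ker ε t * g (p - t)) := (i p).const_mul 2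
    have i1 : Integrable fun t => ker ε t * g (p + h - t) + ker ε t * g (p - h - t) :=
      (i _).add (i _)
    rw [← integral_sub i1 i2]
    congr 1
    ext t
    have e1 : p + h - t = p - t + h := by abel
    have e2 : p - h - t = p - t - h := by abel
    rw [e1, e2]
    ring
  rw [e]
  have h1 := moll_le_of_le hk hc (ker_nonneg hε)
    (g₁ := fun t => g (p - t + h) + g (p - t - h) - 2 * g (p - t)) (g₂ := fun _ => c)
    (by fun_prop) continuous_const (fun t ht => hb t (ker_support hε ht))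
  rw [integral_ker_mul_const hε] at h1
  exact h1

theorem HasTaylor2.congr {f g : ℂ × ℂ → ℝ} {p : ℂ × ℂ} {ℓ : ℂ × ℂ →L[ℝ] ℝ}
    {Q : ℂ × ℂ →L[ℝ] ℂ × ℂ →L[ℝ] ℝ} (h : HasTaylor2 f p ℓ Q) (hfg : f =ᶠ[𝓝 p] g) :
    HasTaylor2 g p ℓ Q := by
  refine ⟨h.1, fun ε hε => ?_⟩
  obtain ⟨δ₁, hδ₁, h1⟩ := h.2 ε hε
  obtain ⟨δ₂, hδ₂, h2⟩ := Metric.eventually_nhds_iff.mp hfg
  refine ⟨min δ₁ δ₂, by positivity, fun k hk => ?_⟩
  have h3 := h1 k (hk.trans_le (min_le_left _ _))
  have h4 : f (p + k) = g (p + k) := h2 (by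
    rw [dist_eq_norm, add_sub_cancel_left]
    exact hk.trans_le (min_le_right _ _))
  have h5 : f p = g p := h2 (by simpa using hδ₂)
  rwa [h4, h5] at h3

theorem ma_eq_maQ (f : ℂ × ℂ → ℝ) (p : ℂ × ℂ) : ma f p = maQ (fderiv ℝ (fderiv ℝ f) p) := rfl

theorem abs_ma_le {f : ℂ × ℂ → ℝ} {p : ℂ × ℂ} {C : ℝ} (hC : 0 ≤ C)
    (h : ‖fderiv ℝ (fderiv ℝ f) p‖ ≤ C) : |ma f p| ≤ 12 * C ^ 2 := by
  have hb : ∀ a b : ℂ × ℂ, ‖a‖ ≤ 1 → ‖b‖ ≤ 1 → |hess f p a b| ≤ C := by
    intro a b ha hb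
    have h1 := ContinuousLinearMap.le_opNorm₂ (fderiv ℝ (fderiv ℝ f) p) a b
    rw [Real.norm_eq_abs] at h1
    unfold hess
    refine h1.trans ?_
    calc ‖fderiv ℝ (fderiv ℝ f) p‖ * ‖a‖ * ‖b‖ ≤ C * 1 * 1 := by gcongr
      _ = C := by ring
  have n1 : ‖((1, 0) : ℂ × ℂ)‖ ≤ 1 := by simp [Prod.norm_def]
  have n2 : ‖((I, 0) : ℂ × ℂ)‖ ≤ 1 := by simp [Prod.norm_def]
  have n3 : ‖((0, 1) : ℂ × ℂ)‖ ≤ 1 := by simp [Prod.norm_def]
  have n4 : ‖((0, I) : ℂ × ℂ)‖ ≤ 1 := by simp [Prod.norm_def]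
  have b1 := abs_le.mp (hb _ _ n1 n1)
  have b2 := abs_le.mp (hb _ _ n2 n2)
  have b3 := abs_le.mp (hb _ _ n3 n3)
  have b4 := abs_le.mp (hb _ _ n4 n4)
  have b5 := abs_le.mp (hb _ _ n1 n3)
  have b6 := abs_le.mp (hb _ _ n2 n4)
  have b7 := abs_le.mp (hb _ _ n1 n4)
  have b8 := abs_le.mp (hb _ _ n2 n3)
  unfold ma
  set x1 := hess f p (1, 0) (1, 0) + hess f p (I, 0) (I, 0)
  set x2 := hess f p (0, 1) (0, 1) + hess f p (0, I) (0, I)
  set x3 := hess f p (1, 0) (0, 1) + hess f p (I, 0) (0, I)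
  set x4 := hess f p (1, 0) (0, I) - hess f p (I, 0) (0, 1)
  have c1 : |x1| ≤ 2 * C := abs_le.mpr ⟨by linarith [b1.1, b2.1], by linarith [b1.2, b2.2]⟩
  have c2 : |x2| ≤ 2 * C := abs_le.mpr ⟨by linarith [b3.1, b4.1], by linarith [b3.2, b4.2]⟩
  have c3 : |x3| ≤ 2 * C := abs_le.mpr ⟨by linarith [b5.1, b6.1], by linarith [b5.2, b6.2]⟩
  have c4 : |x4| ≤ 2 * C := abs_le.mpr ⟨by linarith [b7.1, b8.2], by linarith [b7.2, b8.1]⟩
  have d1 : |x1 * x2| ≤ 2 * C * (2 * C) := by
    rw [abs_mul]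
    exact mul_le_mul c1 c2 (abs_nonneg _) (by positivity)
  have d3 : x3 ^ 2 ≤ 4 * C ^ 2 := by
    rw [← sq_abs]
    nlinarith [abs_nonneg x3]
  have d4 : x4 ^ 2 ≤ 4 * C ^ 2 := by
    rw [← sq_abs]
    nlinarith [abs_nonneg x4]
  have d1' := abs_le.mp d1
  rw [abs_le]
  constructor <;> nlinarith [sq_nonneg x3, sq_nonneg x4, d1'.1, d1'.2]

/-- Local regularisation with small Monge-Ampère mass. -/
theorem exists_small_ma {Ω K K₃ K₂ : Set (ℂ × ℂ)} {f : ℂ × ℂ → ℝ} (hf : PshOn f Ω)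
    (hK₂ : IsCompact K₂) (hK₂Ω : K₂ ⊆ Ω) (hK₃ : IsCompact K₃) (h32 : K₃ ⊆ interior K₂)
    (hK : IsCompact K) (hK3 : K ⊆ interior K₃) {C ρ : ℝ} (hC : 0 ≤ C) (hρ : 0 < ρ)
    (hsc : ∀ p ∈ K₂, ∀ h : ℂ × ℂ, ‖h‖ ≤ ρ → p + h ∈ K₂ → p - h ∈ K₂ →
      f (p + h) + f (p - h) ≤ 2 * f p + C * ‖h‖ ^ 2)
    (hae : ∀ p ∈ interior K₃, ∀ ℓ Q, HasTaylor2 f p ℓ Q → maQ Q = 0) {η : ℝ} (hη : 0 < η) :
    ∃ v : ℂ × ℂ → ℝ, Sm v ∧ PshOn v (interior K₃) ∧ (∀ p ∈ interior K₃, |v p - f p| ≤ η) ∧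
      |∫ p in K, ma v p| ≤ η := by
  -- the extension
  obtain ⟨G, hG⟩ := ContinuousMap.exists_restrict_eq hK₂.isClosed
    (⟨K₂.domRestrict f, (hf.cont.mono hK₂Ω).domRestrict⟩ : C(K₂, ℝ))
  have hGf : ∀ p ∈ K₂, G p = f p := fun p hp =>
    congrArg (fun g : C(K₂, ℝ) => g ⟨p, hp⟩) hG
  have hGc : Continuous G := G.continuous
  obtain ⟨δ, hδ, hδK⟩ := hK₃.exists_cthickening_subset_open isOpen_interior h32
  have hnear : ∀ p ∈ K₃, ∀ t : ℂ × ℂ, ‖t‖ < δ → p + t ∈ K₂ := by
    intro p hp t ht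
    apply interior_subset
    apply hδK
    apply thickening_subset_cthickening
    rw [mem_thickening_iff]
    exact ⟨p, hp, by simpa using ht⟩
  have hint3 : interior K₃ ⊆ K₃ := interior_subset
  let ε : ℕ → ℝ := fun n => δ / 2 / (n + 1)
  have hε0 : ∀ n, 0 < ε n := fun n => by simp only [ε]; positivity
  have hεδ : ∀ n, ε n ≤ δ / 2 := by
    intro n
    simp only [ε]
    apply div_le_self (by positivity)
    have : (0 : ℝ) ≤ n := Nat.cast_nonneg n
    linarith
  have hεlim : Tendsto ε atTop (𝓝 0) := by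
    have h1 := (tendsto_one_div_add_atTop_nhds_zero_nat (𝕜 := ℝ)).const_mul (δ / 2)
    rw [mul_zero] at h1
    refine h1.congr fun n => ?_
    simp only [ε]
    rw [mul_one_div]
  have hεlim' : Tendsto ε atTop (𝓝[>] 0) :=
    tendsto_nhdsWithin_iff.mpr ⟨hεlim, Eventually.of_forall hε0⟩
  let V : ℕ → ℂ × ℂ → ℝ := fun n => moll (ker (ε n)) G
  have hVs : ∀ n, Sm (V n) := fun n => Sm_moll (Sm_ker _) (hasCompactSupport_ker (hε0 n)) hGc
  have hsub : ∀ n, ∀ p ∈ K₃, ∀ t : ℂ × ℂ, ‖t‖ < ε n → p - t ∈ K₂ := by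
    intro n p hp t ht
    rw [sub_eq_add_neg]
    apply hnear p hp
    rw [norm_neg]
    linarith [hεδ n]
  have hVp : ∀ n, PshOn (V n) (interior K₃) := by
    intro n
    refine ⟨(hVs n).continuous.continuousOn, fun p w hpw => ?_⟩
    apply moll_submean (Sm_ker _).continuous (hasCompactSupport_ker (hε0 n)) (ker_nonneg (hε0 n)) hGc
    intro t ht
    have ht' := ker_support (hε0 n) ht
    have hin : ∀ ξ ∈ closedBall (0 : ℂ) 1, p - t + ξ • w ∈ K₂ := by
      intro ξ hξ
      have : p - t + ξ • w = p + ξ • w - t := by abel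
      rw [this]
      exact hsub n _ (hint3 (hpw ξ hξ)) t ht'
    have h0 : p - t ∈ K₂ := by simpa using hin 0 (by simp)
    rw [hGf _ h0]
    have : circleAverage (fun ξ : ℂ => G (p - t + ξ • w)) 0 1 =
        circleAverage (fun ξ : ℂ => f (p - t + ξ • w)) 0 1 := by
      apply circleAverage_congr_sphere
      intro ξ hξ
      rw [abs_one] at hξ
      exact hGf _ (hin ξ (sphere_subset_closedBall hξ))
    rw [this]
    exact hf.submean _ _ fun ξ hξ => hK₂Ω (hin ξ hξ)
  -- uniform convergence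
  have huc : UniformContinuousOn G K₂ := hK₂.uniformContinuousOn_of_continuous hGc.continuousOn
  have hclose : ∀ η' > 0, ∀ᶠ n in atTop, ∀ p ∈ K₃, |V n p - f p| ≤ η' := by
    intro η' hη'
    obtain ⟨δ', hδ', hδ''⟩ := Metric.uniformContinuousOn_iff.mp huc η' hη'
    have hev : ∀ᶠ n in atTop, ε n < δ' := hεlim.eventually_lt_const hδ'
    filter_upwards [hev] with n hn p hp
    have hpK : p ∈ K₂ := by simpa using hnear p hp 0 (by simpa using hδ)
    have hb : ∀ t : ℂ × ℂ, ‖t‖ < ε n → |G (p - t) - G p| < η' := by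
      intro t ht
      rw [← Real.dist_eq]
      apply hδ'' _ (hsub n p hp t ht) _ hpK
      rw [dist_eq_norm]
      simp only [sub_sub_cancel_left, norm_neg]
      linarith
    rw [← hGf p hpK, abs_le]
    constructor
    · have := le_moll_ker (hε0 n) hGc (p := p) (c := G p - η') (fun t ht => by
        have := (abs_lt.mp (hb t ht)).1
        linarith)
      linarith
    · have := moll_ker_le (hε0 n) hGc (p := p) (c := G p + η') (fun t ht => by
        have := (abs_lt.mp (hb t ht)).2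
        linarith)
      linarith
  -- Hessian bounds
  have hVhess : ∀ n, ∀ p ∈ interior K₃, ‖fderiv ℝ (fderiv ℝ (V n)) p‖ ≤ 2 * C := by
    intro n p hp
    apply norm_hess_le (hVs n) hC
    · intro w
      apply hess_le (hVs n)
      have hw := norm_nonneg w
      refine ⟨min (δ / 2 / (‖w‖ + 1)) (ρ / (‖w‖ + 1)), by positivity, fun s hs hs' => ?_⟩
      have hs1 : s < δ / 2 / (‖w‖ + 1) := hs'.trans_le (min_le_left _ _)
      have hs2 : s < ρ / (‖w‖ + 1) := hs'.trans_le (min_le_right _ _)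
      rw [lt_div_iff₀ (by positivity)] at hs1 hs2
      have hn : ‖s • w‖ = s * ‖w‖ := by rw [norm_smul, Real.norm_eq_abs, abs_of_pos hs]
      have hn1 : ‖s • w‖ < δ / 2 := by rw [hn]; linarith
      have hn2 : ‖s • w‖ ≤ ρ := by rw [hn]; linarith
      have hp3 := hint3 hp
      have key := moll_second_difference (hε0 n) hGc (p := p) (h := s • w)
        (c := C * ‖s • w‖ ^ 2) ?_
      · refine key.trans_eq ?_
        rw [hn]
        ring
      · intro t ht
        have m0 : p - t ∈ K₂ := hsub n p hp3 t ht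
        have hεn := hεδ n
        have m1 : p - t + s • w ∈ K₂ := by
          have : p - t + s • w = p + (s • w - t) := by abel
          rw [this]
          apply hnear p hp3
          exact (norm_sub_le _ _).trans_lt (by linarith)
        have m2 : p - t - s • w ∈ K₂ := by
          have : p - t - s • w = p + (-(s • w) - t) := by abel
          rw [this]
          apply hnear p hp3
          refine (norm_sub_le _ _).trans_lt ?_
          rw [norm_neg]
          linarith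
        rw [hGf _ m0, hGf _ m1, hGf _ m2]
        have := hsc _ m0 _ hn2 m1 m2
        linarith
    · intro w
      exact levi_nonneg' (hVs n) isOpen_interior (hVp n) hp w
  -- almost everywhere second order differentiability
  have hbound : ∃ M, ∀ n, ∀ p ∈ K₃, |V n p| ≤ M := by
    obtain ⟨M, hM⟩ := hK₂.exists_bound_of_continuousOn hGc.continuousOn
    refine ⟨M, fun n p hp => ?_⟩
    rw [abs_le]
    constructor
    · apply le_moll_ker (hε0 n) hGc
      intro t ht
      have := hM _ (hsub n p hp t ht)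
      rw [Real.norm_eq_abs] at this
      exact (abs_le.mp this).1
    · apply moll_ker_le (hε0 n) hGc
      intro t ht
      have := hM _ (hsub n p hp t ht)
      rw [Real.norm_eq_abs] at this
      exact (abs_le.mp this).2
  obtain ⟨M, hM⟩ := hbound
  have hconv : ∀ p ∈ K₃, Tendsto (fun n => V n p) atTop (𝓝 (f p)) := by
    intro p hp
    rw [Metric.tendsto_atTop]
    intro η' hη'
    obtain ⟨N, hN⟩ := eventually_atTop.mp (hclose (η' / 2) (by positivity))
    refine ⟨N, fun n hn => ?_⟩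
    rw [Real.dist_eq]
    have := hN n hn p hp
    linarith
  have haeT : ∀ᵐ x : ℂ × ℂ, x ∈ interior K₃ → ∃ ℓ Q, HasTaylor2 f x ℓ Q := by
    rw [ae_iff]
    apply measure_null_of_locally_null
    intro x hx
    simp only [not_forall, mem_ofPred_eq] at hx
    obtain ⟨hxK, -⟩ := hx
    obtain ⟨r, hr, hrK⟩ := Metric.isOpen_iff.mp isOpen_interior x hxK
    have h1 := ae_taylor2 (p₀ := x) (r := r) (f := f) hVs
      (fun y hy => hconv y (hint3 (hrK hy))) (fun n y hy => hM n y (hint3 (hrK hy)))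
      (fun n y hy => hVhess n y (hrK hy))
    refine ⟨_, inter_mem_nhdsWithin _ (ball_mem_nhds x hr), ?_⟩
    rw [ae_iff] at h1
    refine measure_mono_null ?_ h1
    rintro y ⟨hy1, hy2⟩
    simp only [not_forall, mem_ofPred_eq] at hy1 ⊢
    exact ⟨hy2, hy1.2⟩
  -- dominated convergence
  have hlim : Tendsto (fun n => ∫ p in K, ma (V n) p) atTop (𝓝 (∫ _ in K, (0 : ℝ))) := by
    apply tendsto_integral_of_dominated_convergence (fun _ => 12 * (2 * C) ^ 2)
    · intro n
      exact (continuous_ma (hVs n)).aestronglyMeasurable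
    · exact integrableOn_const hK.measure_lt_top.ne
    · intro n
      rw [ae_restrict_iff' hK.measurableSet]
      filter_upwards with p hp
      exact abs_ma_le (by positivity) (hVhess n p (hK3 hp))
    · rw [ae_restrict_iff' hK.measurableSet]
      filter_upwards [haeT] with p hp hpK
      obtain ⟨ℓ, Q, hT⟩ := hp (hK3 hpK)
      have hma0 := hae p (hK3 hpK) ℓ Q hT
      have hGT : HasTaylor2 G p ℓ Q := by
        apply hT.congr
        have hpK₂ : p ∈ interior K₂ := h32 (hint3 (hK3 hpK))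
        filter_upwards [isOpen_interior.mem_nhds hpK₂] with q hq using (hGf q (interior_subset hq)).symm
      have hh : ∀ a b, Tendsto (fun n => hess (V n) p a b) atTop (𝓝 (Q a b)) := fun a b =>
        (tendsto_hess_moll hGc hGT a b).comp hεlim'
      have h1 : Tendsto (fun n => ma (V n) p) atTop (𝓝 (maQ Q)) := by
        unfold ma maQ
        exact ((((hh _ _).add (hh _ _)).mul ((hh _ _).add (hh _ _))).sub
          (((hh _ _).add (hh _ _)).pow 2)).sub (((hh _ _).sub (hh _ _)).pow 2)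
      rwa [hma0] at h1
  rw [integral_zero] at hlim
  have hev1 : ∀ᶠ n in atTop, |∫ p in K, ma (V n) p| < η := by
    have := Metric.tendsto_atTop.mp hlim η hη
    obtain ⟨N, hN⟩ := this
    filter_upwards [eventually_ge_atTop N] with n hn
    have := hN n hn
    rwa [Real.dist_eq, sub_zero] at this
  obtain ⟨n, hn1, hn2⟩ := (hev1.and (hclose η hη)).exists
  exact ⟨V n, hVs n, hVp n, fun p hp => hn2 p (hint3 hp), hn1.le⟩

end Pool.Agent.H90
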