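import Pool.Agent.H90.Ex4

/-!
# Envelopes on `ℂ × ℂ^*`
-/

open Complex MeasureTheory Metric Real Set InnerProductSpace Topology Filter

namespace Pool.Agent.H90

/-- `ℂ × ℂ^*` -/
def Om : Set (ℂ × ℂ) := {p | p.2 ≠ 0}

theorem isOpen_Om : IsOpen Om := by
  have : IsOpen {z : ℂ | z ≠ 0} := isOpen_ne
  exact this.preimage continuous_snd

/-- competitors below an obstacle -/
def Cmp (ψ v : ℂ × ℂ → ℝ) : Prop := PshOn v Om ∧ ∀ p ∈ Om, v p ≤ ψ p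

/-- the envelope -/
noncomputable def env (ψ : ℂ × ℂ → ℝ) (p : ℂ × ℂ) : ℝ := sSup {x | ∃ v, Cmp ψ v ∧ x = v p}

theorem le_env {ψ v : ℂ × ℂ → ℝ} (h : Cmp ψ v) {p : ℂ × ℂ} (hp : p ∈ Om) : v p ≤ env ψ p := by
  apply le_csSup
  · refine ⟨ψ p, ?_⟩
    rintro x ⟨w, hw, rfl⟩
    exact hw.2 p hp
  · exact ⟨v, h, rfl⟩

theorem env_le {ψ : ℂ × ℂ → ℝ} (h : ∃ v, Cmp ψ v) {p : ℂ × ℂ} {c : ℝ}
    (hc : ∀ v, Cmp ψ v → v p ≤ c) : env ψ p ≤ c := by
  obtain ⟨v, hv⟩ := h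
  refine csSup_le (Set.nonempty_of_mem (x := v p) ⟨v, hv, rfl⟩) ?_
  rintro x ⟨w, hw, rfl⟩
  exact hc w hw

theorem env_le_obstacle {ψ : ℂ × ℂ → ℝ} (h : ∃ v, Cmp ψ v) {p : ℂ × ℂ} (hp : p ∈ Om) :
    env ψ p ≤ ψ p := env_le h fun _ hv => hv.2 p hp

theorem pshOn_shift {v : ℂ × ℂ → ℝ} (hv : PshOn v Om) (l : ℂ) {κ : ℂ} (hκ : κ ≠ 0) (c : ℝ) :
    PshOn (fun p => v (p.1 + l, κ * p.2) - 2 * (p.1 * starRingEnd ℂ l).re - c) Om := by
  let L : ℂ × ℂ →L[ℂ] ℂ × ℂ :=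
    (ContinuousLinearMap.fst ℂ ℂ ℂ).prod (κ • ContinuousLinearMap.snd ℂ ℂ ℂ)
  have hL : ∀ p : ℂ × ℂ, (l, 0) + L p = (p.1 + l, κ * p.2) := by
    intro p
    ext
    · simp [L, add_comm]
    · simp [L]
  have h1 : PshOn (fun p => v ((l, 0) + L p)) Om := hv.comp_affine L (l, 0) (by
    intro p hp
    rw [hL]
    exact mul_ne_zero hκ hp)
  have h2 := pshOn_re (((-2 * starRingEnd ℂ l : ℂ)) • ContinuousLinearMap.fst ℂ ℂ ℂ) Om
  have h3 := (h1.add h2).add (pshOn_const (-c) Om)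
  refine h3.congr fun p _ => ?_
  rw [hL]
  simp only [FunLike.coe_smul, Pi.smul_apply, ContinuousLinearMap.coe_fst', smul_eq_mul, mul_re,
    mul_im, conj_re, conj_im, neg_re, neg_im, re_ofNat, im_ofNat]
  ring

theorem env_shift {ψ : ℂ × ℂ → ℝ} (h0 : ∃ v, Cmp ψ v) {l κ : ℂ} (hκ : κ ≠ 0) {c : ℝ}
    (h : ∀ p ∈ Om, ψ (p.1 + l, κ * p.2) ≤ ψ p + 2 * (p.1 * starRingEnd ℂ l).re + c) :
    ∀ p ∈ Om, env ψ (p.1 + l, κ * p.2) ≤ env ψ p + 2 * (p.1 * starRingEnd ℂ l).re + c := by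
  intro p hp
  apply env_le h0
  intro v hv
  have h1 : Cmp ψ (fun p => v (p.1 + l, κ * p.2) - 2 * (p.1 * starRingEnd ℂ l).re - c) :=
    ⟨pshOn_shift hv.1 l hκ c, fun q hq => by
      have h2 := hv.2 (q.1 + l, κ * q.2) (mul_ne_zero hκ hq)
      have h3 := h q hq
      linarith⟩
  have h4 := le_env h1 hp
  linarith

theorem env_semi {ψ : ℂ × ℂ → ℝ} (h0 : ∃ v, Cmp ψ v) {l κ κ' : ℂ} (hκ : κ ≠ 0) (hκ' : κ' ≠ 0)
    {c : ℝ} (h : ∀ p ∈ Om, ψ (p.1 + l, κ * p.2) + ψ (p.1 - l, κ' * p.2) ≤ 2 * ψ p + c) :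
    ∀ p ∈ Om, env ψ (p.1 + l, κ * p.2) + env ψ (p.1 - l, κ' * p.2) ≤ 2 * env ψ p + c := by
  intro p hp
  have key : ∀ v₁ v₂, Cmp ψ v₁ → Cmp ψ v₂ →
      v₁ (p.1 + l, κ * p.2) + v₂ (p.1 - l, κ' * p.2) ≤ 2 * env ψ p + c := by
    intro v₁ v₂ h1 h2
    have h3 : Cmp ψ (fun p => 1 / 2 * ((v₁ (p.1 + l, κ * p.2) - 2 * (p.1 * starRingEnd ℂ l).re - c) +
        (v₂ (p.1 + -l, κ' * p.2) - 2 * (p.1 * starRingEnd ℂ (-l)).re - 0))) := by
      refine ⟨((pshOn_shift h1.1 l hκ c).add (pshOn_shift h2.1 (-l) hκ' 0)).const_mul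
        (by norm_num), fun q hq => ?_⟩
      have h4 := h1.2 (q.1 + l, κ * q.2) (mul_ne_zero hκ hq)
      have h5 := h2.2 (q.1 + -l, κ' * q.2) (mul_ne_zero hκ' hq)
      have h6 := h q hq
      rw [sub_eq_add_neg] at h6
      have h7 : (q.1 * starRingEnd ℂ (-l)).re = -(q.1 * starRingEnd ℂ l).re := by
        rw [map_neg, mul_neg, neg_re]
      simp only [h7]
      linarith
    have h4 := le_env h3 hp
    have h7 : (p.1 * starRingEnd ℂ (-l)).re = -(p.1 * starRingEnd ℂ l).re := by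
      rw [map_neg, mul_neg, neg_re]
    simp only [h7, ← sub_eq_add_neg p.1 l] at h4
    linarith
  have h1 : ∀ v₂, Cmp ψ v₂ → env ψ (p.1 + l, κ * p.2) ≤ 2 * env ψ p + c - v₂ (p.1 - l, κ' * p.2) := by
    intro v₂ h2
    apply env_le h0
    intro v₁ h1
    have := key v₁ v₂ h1 h2
    linarith
  have h2 : env ψ (p.1 - l, κ' * p.2) ≤ 2 * env ψ p + c - env ψ (p.1 + l, κ * p.2) := by
    apply env_le h0
    intro v₂ h2
    have := h1 v₂ h2
    linarith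
  linarith

theorem env_continuousOn {ψ : ℂ × ℂ → ℝ} (h0 : ∃ v, Cmp ψ v) {C : ℝ}
    (h : ∀ l κ : ℂ, κ ≠ 0 → ∀ p ∈ Om, ψ (p.1 + l, κ * p.2) ≤
      ψ p + 2 * (p.1 * starRingEnd ℂ l).re + (‖l‖ ^ 2 + C * (‖l‖ + |Real.log ‖κ‖|))) :
    ContinuousOn (env ψ) Om := by
  intro p₀ hp₀
  apply ContinuousAt.continuousWithinAt
  have hp₀' : p₀.2 ≠ 0 := hp₀
  have hev : ∀ᶠ q in 𝓝 p₀, q ∈ Om := isOpen_Om.mem_nhds hp₀
  let e : ℂ × ℂ → ℝ := fun q => 2 * (p₀.1 * starRingEnd ℂ (q.1 - p₀.1)).re +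
    (‖q.1 - p₀.1‖ ^ 2 + C * (‖q.1 - p₀.1‖ + |Real.log ‖q.2 / p₀.2‖|))
  let e' : ℂ × ℂ → ℝ := fun q => 2 * (q.1 * starRingEnd ℂ (p₀.1 - q.1)).re +
    (‖p₀.1 - q.1‖ ^ 2 + C * (‖p₀.1 - q.1‖ + |Real.log ‖p₀.2 / q.2‖|))
  have hlog1 : ContinuousAt (fun q : ℂ × ℂ => Real.log ‖q.2 / p₀.2‖) p₀ := by
    apply ContinuousAt.log
    · exact (continuousAt_snd.div_const _).norm
    · simp [div_self hp₀']
  have hlog2 : ContinuousAt (fun q : ℂ × ℂ => Real.log ‖p₀.2 / q.2‖) p₀ := by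
    apply ContinuousAt.log
    · exact (continuousAt_const.div continuousAt_snd hp₀').norm
    · simp [div_self hp₀']
  have he : Tendsto (fun q => env ψ p₀ + e q) (𝓝 p₀) (𝓝 (env ψ p₀)) := by
    have h1 : ContinuousAt (fun q => env ψ p₀ + e q) p₀ := by
      apply continuousAt_const.add
      apply ContinuousAt.add
      · exact Continuous.continuousAt (by fun_prop)
      · apply ContinuousAt.add
        · exact Continuous.continuousAt (by fun_prop)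
        · apply continuousAt_const.mul
          apply ContinuousAt.add
          · exact Continuous.continuousAt (by fun_prop)
          · exact hlog1.abs
    have h2 : env ψ p₀ + e p₀ = env ψ p₀ := by
      simp [e]
    have h3 := h1.tendsto
    rwa [h2] at h3
  have he' : Tendsto (fun q => env ψ p₀ - e' q) (𝓝 p₀) (𝓝 (env ψ p₀)) := by
    have h1 : ContinuousAt (fun q => env ψ p₀ - e' q) p₀ := by
      apply continuousAt_const.sub
      apply ContinuousAt.add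
      · exact Continuous.continuousAt (by fun_prop)
      · apply ContinuousAt.add
        · exact Continuous.continuousAt (by fun_prop)
        · apply continuousAt_const.mul
          apply ContinuousAt.add
          · exact Continuous.continuousAt (by fun_prop)
          · exact hlog2.abs
    have h2 : env ψ p₀ - e' p₀ = env ψ p₀ := by
      simp [e']
    have h3 := h1.tendsto
    rwa [h2] at h3
  refine tendsto_of_tendsto_of_tendsto_of_le_of_le' he' he ?_ ?_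
  · filter_upwards [hev] with q hq
    have hq' : q.2 ≠ 0 := hq
    have h1 := env_shift h0 (l := p₀.1 - q.1) (κ := p₀.2 / q.2) (div_ne_zero hp₀' hq')
      (h _ _ (div_ne_zero hp₀' hq')) q hq
    rw [add_sub_cancel, div_mul_cancel₀ _ hq'] at h1
    simp only [e']
    linarith
  · filter_upwards [hev] with q hq
    have hq' : q.2 ≠ 0 := hq
    have h1 := env_shift h0 (l := q.1 - p₀.1) (κ := q.2 / p₀.2) (div_ne_zero hq' hp₀')
      (h _ _ (div_ne_zero hq' hp₀')) p₀ hp₀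
    rw [add_sub_cancel, div_mul_cancel₀ _ hp₀'] at h1
    simp only [e]
    linarith

theorem env_psh {ψ : ℂ × ℂ → ℝ} (h0 : ∃ v, Cmp ψ v) (hc : ContinuousOn (env ψ) Om) :
    PshOn (env ψ) Om := by
  refine ⟨hc, fun p w hpw => ?_⟩
  apply env_le h0
  intro v hv
  refine (hv.1.submean p w hpw).trans (circleAverage_mono
    (circleIntegrable_line hv.1.cont one_pos hpw) (circleIntegrable_line hc one_pos hpw)
    fun ξ hξ => ?_)
  rw [abs_one] at hξ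
  exact le_env hv (hpw ξ (sphere_subset_closedBall hξ))

theorem env_lin {ψ : ℂ × ℂ → ℝ} (h0 : ∃ v, Cmp ψ v) {C : ℝ} (hC : 0 ≤ C)
    (h : ∀ l c : ℂ, ‖c‖ ≤ 1 / 2 → ∀ p ∈ Om, ψ (p.1 + l, (1 + c) * p.2) +
      ψ (p.1 - l, (1 - c) * p.2) ≤ 2 * ψ p + C * (‖l‖ ^ 2 + ‖c‖ ^ 2)) {a : ℝ} (ha : 0 < a) :
    ∀ p : ℂ × ℂ, a ≤ ‖p.2‖ → ∀ k : ℂ × ℂ, ‖k‖ ≤ a / 2 →
      env ψ (p + k) + env ψ (p - k) ≤ 2 * env ψ p + (C * (1 + a⁻¹ ^ 2)) * ‖k‖ ^ 2 := by
  intro p hp k hk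
  have hp2 : p.2 ≠ 0 := by
    intro h
    rw [h, norm_zero] at hp
    linarith
  have hk1 : ‖k.1‖ ≤ ‖k‖ := norm_fst_le k
  have hk2 : ‖k.2‖ ≤ ‖k‖ := norm_snd_le k
  have hc1 : ‖k.2 / p.2‖ ≤ a⁻¹ * ‖k‖ := by
    rw [norm_div, div_eq_inv_mul]
    gcongr
  have hc2 : ‖k.2 / p.2‖ ≤ 1 / 2 := by
    refine hc1.trans ?_
    rw [inv_mul_le_iff₀ ha]
    linarith
  have hne1 : 1 + k.2 / p.2 ≠ 0 := by
    intro h
    have : k.2 / p.2 = -1 := by linear_combination h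
    rw [this, norm_neg, norm_one] at hc2
    norm_num at hc2
  have hne2 : 1 - k.2 / p.2 ≠ 0 := by
    intro h
    have : k.2 / p.2 = 1 := by linear_combination -h
    rw [this, norm_one] at hc2
    norm_num at hc2
  have h1 := env_semi h0 hne1 hne2 (h k.1 (k.2 / p.2) hc2) p hp2
  have e1 : (p.1 + k.1, (1 + k.2 / p.2) * p.2) = p + k := by
    ext
    · simp
    · simp only [Prod.snd_add]
      field_simp
  have e2 : (p.1 - k.1, (1 - k.2 / p.2) * p.2) = p - k := by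
    ext
    · simp
    · simp only [Prod.snd_sub]
      field_simp
  rw [e1, e2] at h1
  refine h1.trans ?_
  have h2 : ‖k.1‖ ^ 2 ≤ ‖k‖ ^ 2 := by gcongr
  have h3 : ‖k.2 / p.2‖ ^ 2 ≤ (a⁻¹ * ‖k‖) ^ 2 := by gcongr
  have h4 : C * (‖k.1‖ ^ 2 + ‖k.2 / p.2‖ ^ 2) ≤ C * (‖k‖ ^ 2 + (a⁻¹ * ‖k‖) ^ 2) := by gcongr
  have h5 : C * (‖k‖ ^ 2 + (a⁻¹ * ‖k‖) ^ 2) = (C * (1 + a⁻¹ ^ 2)) * ‖k‖ ^ 2 := by ring
  linarith

/-- The maximum principle on compact subsets of the plane. -/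
theorem max_principle_compact {K : Set ℂ} (hK : IsCompact K) {g : ℂ → ℝ} (hg : ContinuousOn g K)
    (h : ∀ z ∈ K, g z ≤ 0 ∨ ∃ s > 0, (∀ ξ ∈ closedBall (0 : ℂ) s, z + ξ ∈ K) ∧
      g z ≤ circleAverage (fun ξ => g (z + ξ)) 0 s) : ∀ z ∈ K, g z ≤ 0 := by
  intro z hz
  obtain ⟨R, hR⟩ := hK.isBounded.exists_norm_le
  apply le_of_forall_pos_le_add
  intro ε hε
  have hR0 : 0 ≤ R := (norm_nonneg z).trans (hR z hz)
  set ε' := ε / (R ^ 2 + 1) with hε'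
  have hε'0 : 0 < ε' := by positivity
  have hε'R : ε' * R ^ 2 ≤ ε := by
    rw [hε', div_mul_eq_mul_div, div_le_iff₀ (by positivity)]
    nlinarith
  let G : ℂ → ℝ := fun z => g z + ε' * ‖z‖ ^ 2
  have hG : ContinuousOn G K := hg.add (Continuous.continuousOn (by fun_prop))
  obtain ⟨z₀, hz₀, hmax⟩ := hK.exists_isMaxOn ⟨z, hz⟩ hG
  have hz₀R := hR z₀ hz₀
  rcases h z₀ hz₀ with h1 | ⟨s, hs, hsK, h1⟩
  · have h2 : G z ≤ G z₀ := hmax hz
    simp only [G] at h2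
    have h3 : ε' * ‖z₀‖ ^ 2 ≤ ε' * R ^ 2 := by gcongr
    have h4 : 0 ≤ ε' * ‖z‖ ^ 2 := by positivity
    linarith
  · exfalso
    have hline : ContinuousOn (fun ξ : ℂ => g (z₀ + ξ)) (sphere 0 s) :=
      hg.comp (Continuous.continuousOn (by fun_prop)) fun ξ hξ =>
        hsK ξ (sphere_subset_closedBall hξ)
    have i1 : CircleIntegrable (fun ξ : ℂ => g (z₀ + ξ)) 0 s :=
      circleIntegrable_of_continuousOn hs hline
    have i2 : CircleIntegrable (fun ξ : ℂ => ε' * ‖z₀ + ξ * 1‖ ^ 2) 0 s :=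
      circleIntegrable_of_continuousOn hs (Continuous.continuousOn (by fun_prop))
    have h2 : circleAverage (fun ξ : ℂ => g (z₀ + ξ) + ε' * ‖z₀ + ξ * 1‖ ^ 2) 0 s ≤ G z₀ := by
      have h3 := circleAverage_mono (f₁ := fun ξ : ℂ => g (z₀ + ξ) + ε' * ‖z₀ + ξ * 1‖ ^ 2)
        (f₂ := fun _ => G z₀) (c := 0) (R := s) (i1.add i2) (circleIntegrable_const _ _ _) ?_
      · rwa [circleAverage_const] at h3
      · intro ξ hξ
        rw [abs_of_pos hs] at hξ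
        have h4 : G (z₀ + ξ) ≤ G z₀ := hmax (hsK ξ (sphere_subset_closedBall hξ))
        simpa [G] using h4
    rw [circleAverage_fun_add i1 i2, circleAverage_const_mul (fun ξ : ℂ => ‖z₀ + ξ * 1‖ ^ 2),
      circleAverage_norm_sq_line] at h2
    simp only [G, norm_one] at h2
    have h3 : 0 < ε' * s ^ 2 := by positivity
    nlinarith

end Pool.Agent.H90
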