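import Pool.Agent.H90.Final

/-!
# The main theorem: failure of strict positivity
-/

open Complex MeasureTheory Metric Real Set InnerProductSpace Topology Filter

namespace Pool.Agent.H90

/-- the amplitude -/
noncomputable def amp : ℝ := 9 / (10 * π ^ 2)

theorem amp_pos : 0 < amp := by
  unfold amp
  positivity

theorem fderiv_norm_sq_add {ψ : ℂ → ℝ} (hψ : ContDiff ℝ (⊤ : ℕ∞) ψ) (ζ a b : ℂ) :
    fderiv ℝ (fderiv ℝ fun ζ : ℂ => ‖ζ‖ ^ 2 + ψ ζ) ζ a b =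
      fderiv ℝ (fderiv ℝ fun ζ : ℂ => ‖ζ‖ ^ 2) ζ a b + fderiv ℝ (fderiv ℝ ψ) ζ a b := by
  have hn : ContDiff ℝ (⊤ : ℕ∞) fun ζ : ℂ => ‖ζ‖ ^ 2 := contDiff_id.norm_sq ℝ
  have h1 : fderiv ℝ (fun ζ : ℂ => ‖ζ‖ ^ 2 + ψ ζ) =
      fun ζ => fderiv ℝ (fun ζ : ℂ => ‖ζ‖ ^ 2) ζ + fderiv ℝ ψ ζ := by
    ext1 q
    exact fderiv_fun_add (hn.differentiable (by simp) q) (hψ.differentiable (by simp) q)
  have hn' : Differentiable ℝ (fderiv ℝ fun ζ : ℂ => ‖ζ‖ ^ 2) :=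
    (hn.fderiv_right (m := (⊤ : ℕ∞)) (by simp)).differentiable (by simp)
  have hψ' : Differentiable ℝ (fderiv ℝ ψ) :=
    (hψ.fderiv_right (m := (⊤ : ℕ∞)) (by simp)).differentiable (by simp)
  rw [h1, fderiv_fun_add (hn' ζ) (hψ' ζ)]
  rfl

/-- The second derivative in one variable. -/
theorem second_deriv_dir {f : ℂ → ℝ} (hf : ContDiff ℝ (⊤ : ℕ∞) f) (ζ a : ℂ) {g g' : ℝ → ℝ} {c : ℝ}
    (hg : ∀ t : ℝ, f (ζ + t • a) = g t) (hg' : ∀ t, HasDerivAt g (g' t) t)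
    (hc : HasDerivAt g' c 0) : fderiv ℝ (fderiv ℝ f) ζ a a = c := by
  have hd : Differentiable ℝ f := hf.differentiable (by simp)
  have hd' : Differentiable ℝ (fderiv ℝ f) :=
    (hf.fderiv_right (m := (⊤ : ℕ∞)) (by simp)).differentiable (by simp)
  have hline : ∀ t : ℝ, HasDerivAt (fun t : ℝ => ζ + t • a) a t := by
    intro t
    have := ((hasDerivAt_id t).smul_const a).const_add ζ
    simpa using this
  have h1 : ∀ t : ℝ, fderiv ℝ f (ζ + t • a) a = g' t := by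
    intro t
    have h2 : HasDerivAt (fun t : ℝ => f (ζ + t • a)) (fderiv ℝ f (ζ + t • a) a) t :=
      (hd (ζ + t • a)).hasFDerivAt.comp_hasDerivAt t (hline t)
    have h3 : (fun t : ℝ => f (ζ + t • a)) = g := funext hg
    rw [h3] at h2
    exact h2.unique (hg' t)
  have h4 : HasDerivAt (fun t : ℝ => fderiv ℝ f (ζ + t • a) a)
      (fderiv ℝ (fderiv ℝ f) (ζ + (0 : ℝ) • a) a a) 0 := by
    have h5 : HasDerivAt (fun t : ℝ => fderiv ℝ f (ζ + t • a))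
        (fderiv ℝ (fderiv ℝ f) (ζ + (0 : ℝ) • a) a) 0 :=
      (hd' (ζ + (0 : ℝ) • a)).hasFDerivAt.comp_hasDerivAt (0 : ℝ) (hline 0)
    have h6 := h5.clm_apply (hasDerivAt_const (0 : ℝ) a)
    simpa using h6
  have h7 : (fun t : ℝ => fderiv ℝ f (ζ + t • a) a) = g' := funext h1
  rw [h7] at h4
  simpa using h4.unique hc

theorem fderiv2_norm_sq (ζ a : ℂ) : fderiv ℝ (fderiv ℝ fun ζ : ℂ => ‖ζ‖ ^ 2) ζ a a =
    2 * ‖a‖ ^ 2 := by
  have hn : ContDiff ℝ (⊤ : ℕ∞) fun ζ : ℂ => ‖ζ‖ ^ 2 := contDiff_id.norm_sq ℝ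
  have hsq : ∀ z : ℂ, ‖z‖ ^ 2 = z.re ^ 2 + z.im ^ 2 := by
    intro z
    rw [← Complex.normSq_eq_norm_sq, Complex.normSq_apply]
    ring
  apply second_deriv_dir hn ζ a (g := fun t => ‖ζ‖ ^ 2 + (2 * (ζ.re * a.re + ζ.im * a.im)) * t +
    ‖a‖ ^ 2 * t ^ 2) (g' := fun t => (2 * (ζ.re * a.re + ζ.im * a.im)) + ‖a‖ ^ 2 * (2 * t))
  · intro t
    simp only [hsq, add_re, add_im, Complex.real_smul, mul_re, mul_im, ofReal_re, ofReal_im]
    ring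
  · intro t
    have h1 := ((hasDerivAt_id t).const_mul (2 * (ζ.re * a.re + ζ.im * a.im))).const_add (‖ζ‖ ^ 2)
    have h2 := ((hasDerivAt_id t).pow 2).const_mul (‖a‖ ^ 2)
    refine (h1.add h2).congr_deriv ?_
    simp
  · have h1 := (((hasDerivAt_id (0 : ℝ)).const_mul 2).const_mul (‖a‖ ^ 2)).const_add
      (2 * (ζ.re * a.re + ζ.im * a.im))
    refine h1.congr_deriv ?_
    ring

theorem fderiv2_cos (ℓ : ℂ →L[ℝ] ℝ) (B ω : ℝ) (ζ a : ℂ) :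
    fderiv ℝ (fderiv ℝ fun ζ : ℂ => B * Real.cos (ω * ℓ ζ)) ζ a a =
      -(B * (ω * ℓ a) ^ 2 * Real.cos (ω * ℓ ζ)) := by
  have hs : ContDiff ℝ (⊤ : ℕ∞) fun ζ : ℂ => B * Real.cos (ω * ℓ ζ) := by
    have : ContDiff ℝ (⊤ : ℕ∞) fun ζ : ℂ => ℓ ζ := ℓ.contDiff
    exact contDiff_const.mul (Real.contDiff_cos.comp (contDiff_const.mul this))
  apply second_deriv_dir hs ζ a (g := fun t => B * Real.cos (ω * ℓ ζ + (ω * ℓ a) * t))
    (g' := fun t => B * (-Real.sin (ω * ℓ ζ + (ω * ℓ a) * t) * (ω * ℓ a)))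
  · intro t
    simp only [map_add, map_smul, smul_eq_mul]
    congr 2
    ring
  · intro t
    have h1 := ((hasDerivAt_id t).const_mul (ω * ℓ a)).const_add (ω * ℓ ζ)
    have h2 := (h1.cos).const_mul B
    simpa using h2
  · have h1 := ((hasDerivAt_id (0 : ℝ)).const_mul (ω * ℓ a)).const_add (ω * ℓ ζ)
    have h2 := ((h1.sin.neg).mul_const (ω * ℓ a)).const_mul B
    refine h2.congr_deriv ?_
    simp
    ring

theorem kahler_of_clm (ℓ : ℂ →L[ℝ] ℝ) (h1 : (ℓ 1) ^ 2 + (ℓ I) ^ 2 = 1)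
    (hp1 : ∃ n : ℤ, ℓ 1 = n) (hp2 : ∃ n : ℤ, ℓ I = n) :
    KahlerPotential fun ζ => amp * Real.cos (2 * π * ℓ ζ) := by
  have hs : ContDiff ℝ (⊤ : ℕ∞) fun ζ : ℂ => amp * Real.cos (2 * π * ℓ ζ) := by
    have : ContDiff ℝ (⊤ : ℕ∞) fun ζ : ℂ => ℓ ζ := ℓ.contDiff
    exact contDiff_const.mul (Real.contDiff_cos.comp (contDiff_const.mul this))
  refine ⟨hs, fun ζ => ?_, fun ζ => ?_⟩
  · obtain ⟨n, hn⟩ := hp1
    obtain ⟨m, hm⟩ := hp2
    constructor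
    · simp only [map_add, hn]
      rw [show 2 * π * (ℓ ζ + n) = 2 * π * ℓ ζ + n * (2 * π) by ring, Real.cos_add_int_mul_two_pi]
    · simp only [map_add, hm]
      rw [show 2 * π * (ℓ ζ + m) = 2 * π * ℓ ζ + m * (2 * π) by ring, Real.cos_add_int_mul_two_pi]
  · rw [fderiv_norm_sq_add hs, fderiv_norm_sq_add hs, fderiv2_norm_sq, fderiv2_norm_sq,
      fderiv2_cos, fderiv2_cos]
    simp only [norm_one, one_pow, mul_one, norm_I]
    have e : 2 + -(amp * (2 * π * ℓ 1) ^ 2 * Real.cos (2 * π * ℓ ζ)) +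
        (2 + -(amp * (2 * π * ℓ I) ^ 2 * Real.cos (2 * π * ℓ ζ))) =
        4 - amp * (2 * π) ^ 2 * Real.cos (2 * π * ℓ ζ) * ((ℓ 1) ^ 2 + (ℓ I) ^ 2) := by ring
    rw [e, h1]
    have h2 : amp * (2 * π) ^ 2 = 18 / 5 := by
      unfold amp
      field_simp
      ring
    rw [h2]
    have := Real.cos_le_one (2 * π * ℓ ζ)
    linarith

theorem kahler_left : KahlerPotential fun ζ => amp * Real.cos (2 * π * ζ.im) :=
  kahler_of_clm Complex.imCLM (by simp) ⟨0, by simp⟩ ⟨1, by simp⟩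

theorem kahler_right : KahlerPotential fun ζ => amp * Real.cos (2 * π * ζ.re) :=
  kahler_of_clm Complex.reCLM (by simp) ⟨1, by simp⟩ ⟨0, by simp⟩

theorem WeakGeodesic.geo {a b : ℝ} (ha : 0 < a) (hab : a < b) {φ : ℂ × ℂ → ℝ}
    (h : WeakGeodesic a b (fun ζ => amp * Real.cos (2 * π * ζ.im))
      (fun ζ => amp * Real.cos (2 * π * ζ.re)) φ) :
    Geo a b (9 / (10 * π ^ 2)) fun p => ‖p.1‖ ^ 2 + φ p := by
  refine ⟨ha, hab, amp_pos.le, ?_, h.psh, h.mongeAmpere, ?_, ?_, ?_⟩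
  · exact ContinuousOn.add (Continuous.continuousOn (by fun_prop)) h.cont
  · obtain ⟨C, hC⟩ := h.bounded
    refine ⟨C, fun p hp => ?_⟩
    have := hC p hp
    simpa using this
  · intro ζ z hz
    simp only
    rw [h.left ζ z hz]
    rfl
  · intro ζ z hz
    simp only
    rw [h.right ζ z hz]
    rfl

theorem not_strictlyPositive {a b : ℝ} (ha : 0 < a) (hab : a < b) {φ : ℂ × ℂ → ℝ}
    (h : WeakGeodesic a b (fun ζ => amp * Real.cos (2 * π * ζ.im))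
      (fun ζ => amp * Real.cos (2 * π * ζ.re)) φ) {z : ℂ} (hz : ‖z‖ ^ 2 = a * b) :
    ¬ StrictlyPositive fun ζ => φ (ζ, z) := by
  rintro ⟨ε, hε, hpsh⟩
  have hg := h.geo ha hab
  have hb := ha.trans hab
  have hzr : ‖z‖ = rad a b (1 / 2) := by
    have h1 : rad a b (1 / 2) ^ 2 = a * b := by
      have h2 := rad_symm ha hab half_mem
      have h3 : (1 : ℝ) - 1 / 2 = 1 / 2 := by norm_num
      rw [h3, div_eq_iff (rad_pos ha _).ne'] at h2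
      rw [h2]
      ring
    have h2 : ‖z‖ ^ 2 = rad a b (1 / 2) ^ 2 := by rw [hz, h1]
    exact (pow_left_inj₀ (norm_nonneg z) (rad_pos ha _).le two_ne_zero).mp h2
  apply hg.not_strict hε
  intro ρ hρ
  have h1 := hpsh.submean 0 (ρ : ℂ) (fun _ _ => mem_univ _)
  have e : ∀ ζ : ℂ, (1 - ε) * ‖ζ‖ ^ 2 + φ (ζ, z) =
      W a b (fun p => ‖p.1‖ ^ 2 + φ p) ζ (1 / 2) - ε * ‖ζ‖ ^ 2 := by
    intro ζ
    have h2 := hg.u_eq_W (ζ := ζ) hzr
    rw [← h2]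
    simp only
    ring
  simp only [e, norm_zero, zero_add] at h1
  have h3 : circleAverage (fun ζ => W a b (fun p => ‖p.1‖ ^ 2 + φ p) ζ (1 / 2) - ε * ‖ζ‖ ^ 2) 0 ρ =
      circleAverage (fun ξ : ℂ => W a b (fun p => ‖p.1‖ ^ 2 + φ p) (ξ • (ρ : ℂ)) (1 / 2) -
        ε * ‖ξ • (ρ : ℂ)‖ ^ 2) 0 1 := by
    rw [circleAverage_scale]
    simp only [smul_eq_mul, mul_comm]
  rw [h3]
  refine le_trans ?_ h1
  have h4 := e 0
  simp only [norm_zero] at h4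
  linarith

end Pool.Agent.H90
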