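import Pool.Agent.H90.Ex5
import Pool.Agent.H90.Main

/-!
# The obstacles
-/

open Complex MeasureTheory Metric Real Set InnerProductSpace Topology Filter

namespace Pool.Agent.H90

/-- A `C^{1,1}` function: `0` for `t ≤ 0`, `t ^ 2` on `[0, 1]`, `2 t - 1` for `t ≥ 1`. -/
noncomputable def hub (t : ℝ) : ℝ := 2 * t * cl t - cl t ^ 2

theorem cl_of_nonpos {t : ℝ} (ht : t ≤ 0) : cl t = 0 := by
  unfold cl
  rw [min_eq_right (by linarith), max_eq_left ht]

theorem cl_of_ge {t : ℝ} (ht : 1 ≤ t) : cl t = 1 := by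
  unfold cl
  rw [min_eq_left ht, max_eq_right zero_le_one]

theorem cl_one_sub (t : ℝ) : cl (1 - t) = 1 - cl t := by
  rcases le_total t 0 with h | h
  · rw [cl_of_nonpos h, cl_of_ge (by linarith)]
    ring
  · rcases le_total t 1 with h' | h'
    · rw [cl_of_mem ⟨h, h'⟩, cl_of_mem ⟨by linarith, by linarith⟩]
    · rw [cl_of_ge h', cl_of_nonpos (by linarith)]
      ring

theorem hub_of_nonpos {t : ℝ} (ht : t ≤ 0) : hub t = 0 := by
  unfold hub
  rw [cl_of_nonpos ht]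
  ring

theorem hub_of_mem {t : ℝ} (ht : t ∈ Icc (0 : ℝ) 1) : hub t = t ^ 2 := by
  unfold hub
  rw [cl_of_mem ht]
  ring

theorem hub_of_ge {t : ℝ} (ht : 1 ≤ t) : hub t = 2 * t - 1 := by
  unfold hub
  rw [cl_of_ge ht]
  ring

theorem le_hub {c : ℝ} (h0 : 0 ≤ c) (h1 : c ≤ 1) (t : ℝ) : 2 * t * c - c ^ 2 ≤ hub t := by
  rcases le_total t 0 with h | h
  · rw [hub_of_nonpos h]
    nlinarith [mul_nonneg (neg_nonneg.mpr h) h0]
  · rcases le_total t 1 with h' | h'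
    · rw [hub_of_mem ⟨h, h'⟩]
      nlinarith [sq_nonneg (t - c)]
    · rw [hub_of_ge h']
      nlinarith [mul_nonneg (sub_nonneg.mpr h') (sub_nonneg.mpr h1), sq_nonneg (1 - c)]

theorem hub_nonneg (t : ℝ) : 0 ≤ hub t := by
  have := le_hub le_rfl zero_le_one t
  linarith

theorem hub_lip (t s : ℝ) : hub (t + s) ≤ hub t + 2 * |s| := by
  obtain ⟨h0, h1⟩ := cl_mem (t + s)
  have h2 := le_hub h0 h1 t
  have h3 : hub (t + s) = 2 * (t + s) * cl (t + s) - cl (t + s) ^ 2 := rfl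
  have h4 : s * cl (t + s) ≤ |s| := by
    have h5 : s * cl (t + s) ≤ |s| * cl (t + s) := mul_le_mul_of_nonneg_right (le_abs_self s) h0
    have h6 : |s| * cl (t + s) ≤ |s| * 1 := mul_le_mul_of_nonneg_left h1 (abs_nonneg s)
    linarith
  rw [h3]
  nlinarith

theorem hub_semi (t s s' : ℝ) :
    hub (t + s) + hub (t + s') ≤ 2 * hub t + ((s - s') ^ 2 / 2 + 2 * |s + s'|) := by
  obtain ⟨h0, h1⟩ := cl_mem (t + s)
  obtain ⟨h0', h1'⟩ := cl_mem (t + s')
  set c := cl (t + s) with hc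
  set c' := cl (t + s') with hc'
  have h2 := le_hub (c := (c + c') / 2) (by linarith) (by linarith) t
  have h3 : hub (t + s) = 2 * (t + s) * c - c ^ 2 := rfl
  have h3' : hub (t + s') = 2 * (t + s') * c' - c' ^ 2 := rfl
  have h4 : (s + s') * (c + c') ≤ 2 * |s + s'| := by
    have h5 : (s + s') * (c + c') ≤ |s + s'| * (c + c') :=
      mul_le_mul_of_nonneg_right (le_abs_self _) (by linarith)
    have h6 : |s + s'| * (c + c') ≤ |s + s'| * 2 :=
      mul_le_mul_of_nonneg_left (by linarith) (abs_nonneg _)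
    linarith
  rw [h3, h3']
  nlinarith [sq_nonneg ((s - s') - (c - c'))]

/-- Regularity of the time dependence. -/
def GG (g : ℝ → ℝ) (G : ℝ) : Prop :=
  (∀ t s, g (t + s) ≤ g t + G * |s|) ∧
    ∀ t s s', g (t + s) + g (t + s') ≤ 2 * g t + G * ((s - s') ^ 2 + |s + s'|)

/-- the time dependence -/
noncomputable def gf (K M t : ℝ) : ℝ := -K * t + M * hub t

theorem GG_gf {K M : ℝ} (hK : 0 ≤ K) (hM : 0 ≤ M) : GG (gf K M) (K + 2 * M) := by
  constructor
  · intro t s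
    have h1 := mul_le_mul_of_nonneg_left (hub_lip t s) hM
    have h2 : -K * s ≤ K * |s| := by
      have := mul_le_mul_of_nonneg_left (neg_abs_le s) hK
      linarith
    unfold gf
    nlinarith
  · intro t s s'
    have h1 := mul_le_mul_of_nonneg_left (hub_semi t s s') hM
    have h2 : -K * (s + s') ≤ K * |s + s'| := by
      have := mul_le_mul_of_nonneg_left (neg_abs_le (s + s')) hK
      linarith
    have h3 : 0 ≤ (K + 3 / 2 * M) * (s - s') ^ 2 := by positivity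
    unfold gf
    nlinarith

theorem GG.symm {g : ℝ → ℝ} {G : ℝ} (h : GG g G) : GG (fun t => g (1 - t)) G := by
  constructor
  · intro t s
    have := h.1 (1 - t) (-s)
    rw [abs_neg] at this
    simp only
    rwa [show 1 - (t + s) = 1 - t + -s by ring]
  · intro t s s'
    have := h.2 (1 - t) (-s) (-s')
    simp only
    rw [show 1 - (t + s) = 1 - t + -s by ring, show 1 - (t + s') = 1 - t + -s' by ring]
    refine this.trans_eq ?_
    rw [show -s + -s' = -(s + s') by ring, abs_neg]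
    ring

/-- Regularity of an obstacle on `ℂ × ℂ^*`. -/
def Good (ψ : ℂ × ℂ → ℝ) (C : ℝ) : Prop :=
  (∀ l κ : ℂ, κ ≠ 0 → ∀ p ∈ Om, ψ (p.1 + l, κ * p.2) ≤
      ψ p + 2 * (p.1 * starRingEnd ℂ l).re + (‖l‖ ^ 2 + C * (‖l‖ + |Real.log ‖κ‖|))) ∧
    ∀ l c : ℂ, ‖c‖ ≤ 1 / 2 → ∀ p ∈ Om, ψ (p.1 + l, (1 + c) * p.2) +
      ψ (p.1 - l, (1 - c) * p.2) ≤ 2 * ψ p + C * (‖l‖ ^ 2 + ‖c‖ ^ 2)

theorem Good.mono {ψ : ℂ × ℂ → ℝ} {C C' : ℝ} (h : Good ψ C) (hC : C ≤ C') : Good ψ C' := by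
  constructor
  · intro l κ hκ p hp
    refine (h.1 l κ hκ p hp).trans ?_
    gcongr
  · intro l c hc p hp
    refine (h.2 l c hc p hp).trans ?_
    gcongr

theorem Good.min {ψ₁ ψ₂ : ℂ × ℂ → ℝ} {C : ℝ} (h₁ : Good ψ₁ C) (h₂ : Good ψ₂ C) :
    Good (fun p => min (ψ₁ p) (ψ₂ p)) C := by
  constructor
  · intro l κ hκ p hp
    have h1 := h₁.1 l κ hκ p hp
    have h2 := h₂.1 l κ hκ p hp
    simp only
    rcases le_total (ψ₁ p) (ψ₂ p) with h | h
    · rw [min_eq_left h]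
      exact (min_le_left _ _).trans h1
    · rw [min_eq_right h]
      exact (min_le_right _ _).trans h2
  · intro l c hc p hp
    have h1 := h₁.2 l c hc p hp
    have h2 := h₂.2 l c hc p hp
    simp only
    rcases le_total (ψ₁ p) (ψ₂ p) with h | h
    · rw [min_eq_left h]
      exact (add_le_add (min_le_left _ _) (min_le_left _ _)).trans h1
    · rw [min_eq_right h]
      exact (add_le_add (min_le_right _ _) (min_le_right _ _)).trans h2

theorem log_norm_one_add {c : ℂ} (hc : ‖c‖ ≤ 1 / 2) : |Real.log ‖1 + c‖| ≤ 2 * ‖c‖ := by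
  have h0 := norm_nonneg c
  have h1 : ‖1 + c‖ ≤ 1 + ‖c‖ := by
    have := norm_add_le 1 c
    rwa [norm_one] at this
  have h2 : 1 - ‖c‖ ≤ ‖1 + c‖ := by
    have := norm_sub_norm_le 1 (-c)
    rwa [norm_one, norm_neg, sub_neg_eq_add] at this
  have hpos : 0 < ‖1 + c‖ := by linarith
  rw [abs_le]
  constructor
  · have h3 := Real.one_sub_inv_le_log_of_pos hpos
    have h4 : ‖1 + c‖⁻¹ ≤ 1 + 2 * ‖c‖ := by
      rw [inv_le_comm₀ hpos (by positivity), inv_le_iff_one_le_mul₀ (by positivity)]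
      nlinarith
    linarith
  · have h3 := Real.log_le_sub_one_of_pos hpos
    linarith

theorem log_norm_one_add' {c : ℂ} (hc : ‖c‖ ≤ 1 / 2) :
    |Real.log ‖1 + c‖ + Real.log ‖1 - c‖| ≤ 2 * ‖c‖ ^ 2 := by
  have h0 := norm_nonneg c
  have hne : 1 + c ≠ 0 := by
    intro h
    have : c = -1 := by linear_combination h
    rw [this, norm_neg, norm_one] at hc
    norm_num at hc
  have hne' : 1 - c ≠ 0 := by
    intro h
    have : c = 1 := by linear_combination -h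
    rw [this, norm_one] at hc
    norm_num at hc
  rw [← Real.log_mul (norm_ne_zero_iff.mpr hne) (norm_ne_zero_iff.mpr hne'), ← norm_mul]
  have e : (1 + c) * (1 - c) = 1 + -(c ^ 2) := by ring
  rw [e]
  have h1 := log_norm_one_add (c := -(c ^ 2)) (by
    rw [norm_neg, norm_pow]
    nlinarith)
  rwa [norm_neg, norm_pow] at h1

/-- Regularity of a potential on `ℂ`. -/
structure UU (u : ℂ → ℝ) (S : ℝ) : Prop where
  lip : ∀ ζ l : ℂ, u (ζ + l) ≤ u ζ + 2 * (ζ * starRingEnd ℂ l).re + (‖l‖ ^ 2 + S * ‖l‖)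
  semi : ∀ ζ l : ℂ, u (ζ + l) + u (ζ - l) ≤ 2 * u ζ + S * ‖l‖ ^ 2

theorem tau_mul {a b : ℝ} {κ z : ℂ} (hκ : κ ≠ 0) (hz : z ≠ 0) :
    tau a b (κ * z) = tau a b z + Real.log ‖κ‖ / Real.log (b / a) := by
  unfold tau
  rw [norm_mul, Real.log_mul (norm_ne_zero_iff.mpr hκ) (norm_ne_zero_iff.mpr hz)]
  ring

theorem good_add {a b : ℝ} (ha : 0 < a) (hab : a < b) {u : ℂ → ℝ} {S : ℝ} (hu : UU u S)
    {g : ℝ → ℝ} {G : ℝ} (hG : 0 ≤ G) (hg : GG g G) :
    ∃ C, 0 ≤ C ∧ Good (fun p => u p.1 + g (tau a b p.2)) C := by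
  set L := Real.log (b / a) with hL
  have hL0 : 0 < L := log_pos' ha hab
  refine ⟨|S| + G * L⁻¹ + G * (16 * L⁻¹ ^ 2 + 2 * L⁻¹), by positivity, ?_, ?_⟩
  · intro l κ hκ p hp
    have hp' : p.2 ≠ 0 := hp
    simp only
    rw [tau_mul hκ hp']
    have h1 := hu.lip p.1 l
    have h2 := hg.1 (tau a b p.2) (Real.log ‖κ‖ / L)
    rw [abs_div, abs_of_pos hL0, div_eq_inv_mul |Real.log ‖κ‖| L] at h2
    rw [← hL]
    have h3 : S * ‖l‖ ≤ |S| * ‖l‖ := mul_le_mul_of_nonneg_right (le_abs_self S) (norm_nonneg l)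
    have h4 : 0 ≤ |S| * |Real.log ‖κ‖| := by positivity
    have h5 : 0 ≤ (G * L⁻¹) * ‖l‖ := by positivity
    have h6 : 0 ≤ (G * (16 * L⁻¹ ^ 2 + 2 * L⁻¹)) * (‖l‖ + |Real.log ‖κ‖|) := by positivity
    nlinarith
  · intro l c hc p hp
    have hp' : p.2 ≠ 0 := hp
    have hne : 1 + c ≠ 0 := by
      intro h
      have : c = -1 := by linear_combination h
      rw [this, norm_neg, norm_one] at hc
      norm_num at hc
    have hne' : 1 - c ≠ 0 := by
      intro h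
      have : c = 1 := by linear_combination -h
      rw [this, norm_one] at hc
      norm_num at hc
    simp only
    rw [tau_mul hne hp', tau_mul hne' hp', ← hL]
    have h1 := hu.semi p.1 l
    have h2 := hg.2 (tau a b p.2) (Real.log ‖1 + c‖ / L) (Real.log ‖1 - c‖ / L)
    have hx := log_norm_one_add hc
    have hy := log_norm_one_add (c := -c) (by rwa [norm_neg])
    rw [norm_neg, ← sub_eq_add_neg] at hy
    have hxy := log_norm_one_add' hc
    set x := Real.log ‖1 + c‖ with hxdef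
    set y := Real.log ‖1 - c‖ with hydef
    have e1 : (x / L - y / L) ^ 2 = L⁻¹ ^ 2 * (x - y) ^ 2 := by
      rw [← sub_div, div_eq_inv_mul]
      ring
    have e2 : |x / L + y / L| = L⁻¹ * |x + y| := by
      rw [← add_div, abs_div, abs_of_pos hL0, div_eq_inv_mul]
    have h3 : (x - y) ^ 2 ≤ 16 * ‖c‖ ^ 2 := by
      have h4 : |x - y| ≤ 4 * ‖c‖ := (abs_sub _ _).trans (by linarith)
      have h5 : (x - y) ^ 2 = |x - y| ^ 2 := (sq_abs _).symm
      rw [h5]
      have h6 := abs_nonneg (x - y)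
      nlinarith
    rw [e1, e2] at h2
    have h4 : G * (L⁻¹ ^ 2 * (x - y) ^ 2 + L⁻¹ * |x + y|) ≤
        G * (L⁻¹ ^ 2 * (16 * ‖c‖ ^ 2) + L⁻¹ * (2 * ‖c‖ ^ 2)) := by gcongr
    have h5 : S * ‖l‖ ^ 2 ≤ |S| * ‖l‖ ^ 2 := mul_le_mul_of_nonneg_right (le_abs_self S) (by positivity)
    have h6 : 0 ≤ |S| * ‖c‖ ^ 2 := by positivity
    have h7 : 0 ≤ (G * L⁻¹) * (‖l‖ ^ 2 + ‖c‖ ^ 2) := by positivity
    have h8 : 0 ≤ (G * (16 * L⁻¹ ^ 2 + 2 * L⁻¹)) * ‖l‖ ^ 2 := by positivity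
    nlinarith

/-- the obstacle as a function of the values `α`, `β` of the end potentials and the time -/
noncomputable def obs (K M α β t : ℝ) : ℝ := min (α + gf K M t) (β + gf K M (1 - t))

/-- the limit obstacle -/
noncomputable def Obs (K α β t : ℝ) : ℝ := (1 - cl t) * α + cl t * β + K * |t - cl t|

theorem obs_symm (K M α β t : ℝ) : obs K M β α (1 - t) = obs K M α β t := by
  unfold obs
  rw [min_comm, sub_sub_cancel]

theorem Obs_symm (K α β t : ℝ) : Obs K β α (1 - t) = Obs K α β t := by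
  unfold Obs
  rw [cl_one_sub, show 1 - t - (1 - cl t) = -(t - cl t) by ring, abs_neg]
  ring

theorem Obs_of_nonpos {K α β t : ℝ} (ht : t ≤ 0) : Obs K α β t = α - K * t := by
  unfold Obs
  rw [cl_of_nonpos ht, sub_zero, sub_zero, abs_of_nonpos ht]
  ring

theorem Obs_of_mem {K α β t : ℝ} (ht : t ∈ Icc (0 : ℝ) 1) : Obs K α β t = (1 - t) * α + t * β := by
  unfold Obs
  rw [cl_of_mem ht, sub_self, abs_zero]
  ring

theorem Obs_of_ge {K α β t : ℝ} (ht : 1 ≤ t) : Obs K α β t = β - K * (1 - t) := by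
  unfold Obs
  rw [cl_of_ge ht, abs_of_nonneg (by linarith)]
  ring

theorem Obs_sub_le_half {K M α β : ℝ} (hK : 1 ≤ K) (hM : 4 * K ^ 2 ≤ M) (h : |α - β| ≤ K - 1)
    (t : ℝ) : Obs K α β t - K ^ 2 / M ≤ α + gf K M t := by
  have hM0 : 0 < M := by nlinarith
  have hM2 : 2 * K ≤ M := by nlinarith
  have hq : 0 ≤ K ^ 2 / M := by positivity
  obtain ⟨h1, h2⟩ := abs_le.mp h
  unfold gf
  rcases le_total t 0 with h' | h'
  · rw [Obs_of_nonpos h', hub_of_nonpos h']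
    linarith
  · rcases le_total t 1 with h'' | h''
    · rw [Obs_of_mem ⟨h', h''⟩, hub_of_mem ⟨h', h''⟩]
      have e : M * t ^ 2 - 2 * K * t + K ^ 2 / M = (M * t - K) ^ 2 / M := by
        field_simp
        ring
      have h3 : 0 ≤ (M * t - K) ^ 2 / M := by positivity
      have h4 : t * (β - α) ≤ t * (K - 1) := mul_le_mul_of_nonneg_left (by linarith) h'
      linarith
    · rw [Obs_of_ge h'', hub_of_ge h'']
      nlinarith

theorem Obs_sub_le {K M α β : ℝ} (hK : 1 ≤ K) (hM : 4 * K ^ 2 ≤ M) (h : |α - β| ≤ K - 1)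
    (t : ℝ) : Obs K α β t - K ^ 2 / M ≤ obs K M α β t := by
  apply le_min
  · exact Obs_sub_le_half hK hM h t
  · rw [← Obs_symm]
    apply Obs_sub_le_half hK hM
    rwa [abs_sub_comm]

theorem Obs_lt_half {K M α β t : ℝ} (hM : 0 < M) (h : |α - β| ≤ K - 1)
    (h1 : 2 * K / M < t) (h0 : 0 < t) (h2 : t ≤ 1) : Obs K α β t < α + gf K M t := by
  obtain ⟨h3, h4⟩ := abs_le.mp h
  unfold gf
  rw [Obs_of_mem ⟨h0.le, h2⟩, hub_of_mem ⟨h0.le, h2⟩]
  rw [div_lt_iff₀ hM] at h1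
  have h5 : t * (β - α) ≤ t * (K - 1) := mul_le_mul_of_nonneg_left (by linarith) h0.le
  have h6 : 0 < t * (t * M - 2 * K) := mul_pos h0 (by linarith)
  nlinarith

theorem Obs_lt {K M α β t : ℝ} (hM : 0 < M) (h : |α - β| ≤ K - 1)
    (h1 : 2 * K / M < t) (h0 : 0 < t) (h2 : t < 1) (h3 : t < 1 - 2 * K / M) :
    Obs K α β t < obs K M α β t := by
  apply lt_min
  · exact Obs_lt_half hM h h1 h0 h2.le
  · rw [← Obs_symm]
    apply Obs_lt_half hM _ (by linarith) (by linarith) (by linarith)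
    rwa [abs_sub_comm]

theorem v0_le_half {K M α β : ℝ} (hK : 1 ≤ K) (hM : 4 * K ^ 2 ≤ M) (h : |α - β| ≤ K - 1)
    (t : ℝ) : max (α - K * t) (β - K * (1 - t)) ≤ α + gf K M t := by
  have hM0 : 0 < M := by nlinarith
  obtain ⟨h1, h2⟩ := abs_le.mp h
  unfold gf
  apply max_le
  · have := mul_nonneg hM0.le (hub_nonneg t)
    linarith
  · have h3 : K / M ≤ 1 := by
      rw [div_le_one hM0]
      nlinarith
    have h4 := mul_le_mul_of_nonneg_left (le_hub (c := K / M) (by positivity) h3 t) hM0.le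
    have e : M * (2 * t * (K / M) - (K / M) ^ 2) = 2 * K * t - K ^ 2 / M := by
      field_simp
    rw [e] at h4
    have h5 : K ^ 2 / M ≤ 1 := by
      rw [div_le_one hM0]
      nlinarith
    nlinarith

theorem v0_le {K M α β : ℝ} (hK : 1 ≤ K) (hM : 4 * K ^ 2 ≤ M) (h : |α - β| ≤ K - 1)
    (t : ℝ) : max (α - K * t) (β - K * (1 - t)) ≤ obs K M α β t := by
  apply le_min
  · exact v0_le_half hK hM h t
  · have h1 := v0_le_half (α := β) (β := α) hK hM (by rwa [abs_sub_comm]) (1 - t)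
    rwa [max_comm, sub_sub_cancel] at h1

end Pool.Agent.H90
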