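import Pool.Agent.H90.Ex6

/-!
# Approximate geodesics and their limit
-/

open Complex MeasureTheory Metric Real Set InnerProductSpace Topology Filter

namespace Pool.Agent.H90

/-- The data of the Dirichlet problem. -/
structure Dat (a b K S : ℝ) (u₁ u₂ : ℂ → ℝ) : Prop where
  ha : 0 < a
  hab : a < b
  hK : 1 ≤ K
  hdiff : ∀ ζ, |u₁ ζ - u₂ ζ| ≤ K - 1
  reg₁ : UU u₁ S
  reg₂ : UU u₂ S
  psh₁ : PshOn u₁ univ
  psh₂ : PshOn u₂ univ

/-- the obstacle with parameter `M` -/
noncomputable def psi (a b K M : ℝ) (u₁ u₂ : ℂ → ℝ) (p : ℂ × ℂ) : ℝ :=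
  obs K M (u₁ p.1) (u₂ p.1) (tau a b p.2)

/-- the limit obstacle -/
noncomputable def Psi (a b K : ℝ) (u₁ u₂ : ℂ → ℝ) (p : ℂ × ℂ) : ℝ :=
  Obs K (u₁ p.1) (u₂ p.1) (tau a b p.2)

/-- the basic competitor -/
noncomputable def v0 (a b K : ℝ) (u₁ u₂ : ℂ → ℝ) (p : ℂ × ℂ) : ℝ :=
  max (u₁ p.1 - K * tau a b p.2) (u₂ p.1 - K * (1 - tau a b p.2))

theorem continuousOn_tau (a b : ℝ) : ContinuousOn (fun p : ℂ × ℂ => tau a b p.2) Om := by
  unfold tau
  apply ContinuousOn.div_const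
  apply ContinuousOn.sub _ continuousOn_const
  apply ContinuousOn.log
  · exact Continuous.continuousOn (by fun_prop)
  · intro p hp
    exact norm_ne_zero_iff.mpr hp

theorem pshOn_tau (a b c : ℝ) : PshOn (fun p : ℂ × ℂ => c * tau a b p.2) Om := by
  have hcont : ContinuousOn (fun p : ℂ × ℂ => c * tau a b p.2) Om :=
    continuousOn_const.mul (continuousOn_tau a b)
  apply PshOn.of_LSM hcont
  intro p hp w
  obtain ⟨s₀, hs₀, h⟩ := circleAverage_log (z := p.2) hp w.2
  obtain ⟨s₁, hs₁, h'⟩ := exists_disc_subset isOpen_Om hp w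
  refine ⟨min s₀ s₁, by positivity, fun s hs hs' => ?_⟩
  have h1 := h s hs (hs'.trans_le (min_le_left _ _))
  have hi : CircleIntegrable (fun ξ : ℂ => Real.log ‖p.2 + ξ * w.2‖) 0 s := by
    apply circleIntegrable_of_continuousOn hs
    apply ContinuousOn.log
    · exact Continuous.continuousOn (by fun_prop)
    · intro ξ hξ
      have h5 := h' ξ (by
        have : ‖ξ‖ = s := by simpa using hξ
        rw [this]
        exact hs'.trans_le (min_le_right _ _))
      exact norm_ne_zero_iff.mpr h5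
  have e : (fun ξ : ℂ => c * tau a b (p + ξ • w).2) = fun ξ : ℂ =>
      (c / Real.log (b / a)) * Real.log ‖p.2 + ξ * w.2‖ +
        (-(c * Real.log a / Real.log (b / a))) := by
    ext ξ
    unfold tau
    simp only [Prod.snd_add, Prod.smul_snd, smul_eq_mul]
    ring
  have hi' : CircleIntegrable
      (fun ξ : ℂ => c / Real.log (b / a) * Real.log ‖p.2 + ξ * w.2‖) 0 s :=
    hi.const_fun_smul (a := c / Real.log (b / a))
  rw [e, circleAverage_fun_add hi' (circleIntegrable_const _ _ _), circleAverage_const_mul (fun ξ : ℂ => Real.log ‖p.2 + ξ * w.2‖),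
    circleAverage_const, h1]
  simp only [zero_mul, add_zero]
  apply le_of_eq
  ring

theorem pshOn_fst {u : ℂ → ℝ} (hu : PshOn u univ) : PshOn (fun p : ℂ × ℂ => u p.1) Om := by
  have h1 : PshOn (fun p : ℂ × ℂ => u (0 + ContinuousLinearMap.fst ℂ ℂ ℂ p)) Om :=
    hu.comp_affine (ContinuousLinearMap.fst ℂ ℂ ℂ) 0 fun _ _ => mem_univ _
  simpa using h1

theorem continuous_hub : Continuous hub := by
  unfold hub
  have := continuous_cl
  fun_prop

variable {a b K S M : ℝ} {u₁ u₂ : ℂ → ℝ}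

theorem Dat.continuous₁ (h : Dat a b K S u₁ u₂) : Continuous u₁ :=
  continuousOn_univ.mp h.psh₁.cont

theorem Dat.continuous₂ (h : Dat a b K S u₁ u₂) : Continuous u₂ :=
  continuousOn_univ.mp h.psh₂.cont

theorem Dat.continuousOn_psi (h : Dat a b K S u₁ u₂) : ContinuousOn (psi a b K M u₁ u₂) Om := by
  have h1 := (h.continuous₁.comp continuous_fst).continuousOn (s := Om)
  have h2 := (h.continuous₂.comp continuous_fst).continuousOn (s := Om)
  have h3 := continuousOn_tau a b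
  have h4 : ContinuousOn (fun p : ℂ × ℂ => u₁ p.1 + gf K M (tau a b p.2)) Om := by
    unfold gf
    apply h1.add
    apply (continuousOn_const.mul h3).add
    exact continuousOn_const.mul (continuous_hub.comp_continuousOn h3)
  have h5 : ContinuousOn (fun p : ℂ × ℂ => u₂ p.1 + gf K M (1 - tau a b p.2)) Om := by
    unfold gf
    apply h2.add
    apply (continuousOn_const.mul (continuousOn_const.sub h3)).add
    exact continuousOn_const.mul (continuous_hub.comp_continuousOn (continuousOn_const.sub h3))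
  exact h4.inf h5

theorem Dat.pshOn_v0 (h : Dat a b K S u₁ u₂) : PshOn (v0 a b K u₁ u₂) Om := by
  have h1 := (pshOn_fst h.psh₁).add (pshOn_tau a b (-K))
  have h2 := ((pshOn_fst h.psh₂).add (pshOn_tau a b K)).add (pshOn_const (-K) Om)
  refine (h1.max h2).congr fun p _ => ?_
  unfold v0
  congr 1
  · ring
  · ring

theorem Dat.cmp_v0 (h : Dat a b K S u₁ u₂) (hM : 4 * K ^ 2 ≤ M) :
    Cmp (psi a b K M u₁ u₂) (v0 a b K u₁ u₂) :=
  ⟨h.pshOn_v0, fun p _ => v0_le h.hK hM (h.hdiff p.1) _⟩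

theorem Dat.good_psi (h : Dat a b K S u₁ u₂) (hM : 0 ≤ M) :
    ∃ C, 0 ≤ C ∧ Good (psi a b K M u₁ u₂) C := by
  have hK : 0 ≤ K := by linarith [h.hK]
  obtain ⟨C₁, hC₁, h1⟩ := good_add h.ha h.hab h.reg₁ (by positivity) (GG_gf hK hM)
  obtain ⟨C₂, hC₂, h2⟩ := good_add h.ha h.hab h.reg₂ (by positivity) (GG_gf hK hM).symm
  exact ⟨max C₁ C₂, hC₁.trans (le_max_left _ _),
    (h1.mono (le_max_left _ _)).min (h2.mono (le_max_right _ _))⟩

theorem Dat.V_cont (h : Dat a b K S u₁ u₂) (hM : 4 * K ^ 2 ≤ M) :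
    ContinuousOn (env (psi a b K M u₁ u₂)) Om := by
  have hM0 : 0 ≤ M := by nlinarith [sq_nonneg K]
  obtain ⟨C, _, h1⟩ := h.good_psi hM0
  exact env_continuousOn ⟨_, h.cmp_v0 hM⟩ h1.1

theorem Dat.V_psh (h : Dat a b K S u₁ u₂) (hM : 4 * K ^ 2 ≤ M) :
    PshOn (env (psi a b K M u₁ u₂)) Om :=
  env_psh ⟨_, h.cmp_v0 hM⟩ (h.V_cont hM)

theorem Dat.V_semi (h : Dat a b K S u₁ u₂) (hM : 4 * K ^ 2 ≤ M) :
    ∃ C, 0 ≤ C ∧ ∀ p : ℂ × ℂ, a ≤ ‖p.2‖ → ∀ k : ℂ × ℂ, ‖k‖ ≤ a / 2 →
      env (psi a b K M u₁ u₂) (p + k) + env (psi a b K M u₁ u₂) (p - k) ≤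
        2 * env (psi a b K M u₁ u₂) p + C * ‖k‖ ^ 2 := by
  have hM0 : 0 ≤ M := by nlinarith [sq_nonneg K]
  obtain ⟨C, hC, h1⟩ := h.good_psi hM0
  have ha := h.ha
  exact ⟨C * (1 + a⁻¹ ^ 2), by positivity, env_lin ⟨_, h.cmp_v0 hM⟩ hC h1.2 h.ha⟩

theorem tau_lt_iff (ha : 0 < a) (hab : a < b) {z : ℂ} (hz : z ≠ 0) :
    0 < tau a b z ↔ a < ‖z‖ := by
  have hL := log_pos' ha hab
  unfold tau
  rw [div_pos_iff_of_pos_right hL, sub_pos, Real.log_lt_log_iff ha (norm_pos_iff.mpr hz)]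

theorem lt_tau_iff (ha : 0 < a) (hab : a < b) {z : ℂ} (hz : z ≠ 0) :
    tau a b z < 1 ↔ ‖z‖ < b := by
  have hL := log_pos' ha hab
  have hb := ha.trans hab
  unfold tau
  rw [div_lt_one hL, Real.log_div hb.ne' ha.ne', sub_lt_sub_iff_right,
    Real.log_lt_log_iff (norm_pos_iff.mpr hz) hb]

/-- The upper bound for the approximate geodesics. -/
theorem Dat.V_le (h : Dat a b K S u₁ u₂) (hM : 4 * K ^ 2 ≤ M) {p : ℂ × ℂ} (hp : p ∈ Om) :
    env (psi a b K M u₁ u₂) p ≤ Psi a b K u₁ u₂ p := by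
  have h0 : ∃ v, Cmp (psi a b K M u₁ u₂) v := ⟨_, h.cmp_v0 hM⟩
  have hleft : ∀ q ∈ Om, tau a b q.2 ≤ 0 →
      env (psi a b K M u₁ u₂) q ≤ u₁ q.1 - K * tau a b q.2 := by
    intro q hq hq'
    refine (env_le_obstacle h0 hq).trans ((min_le_left _ _).trans_eq ?_)
    unfold gf
    rw [hub_of_nonpos hq']
    ring
  have hright : ∀ q ∈ Om, 1 ≤ tau a b q.2 →
      env (psi a b K M u₁ u₂) q ≤ u₂ q.1 - K * (1 - tau a b q.2) := by
    intro q hq hq'
    refine (env_le_obstacle h0 hq).trans ((min_le_right _ _).trans_eq ?_)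
    unfold gf
    rw [hub_of_nonpos (t := 1 - tau a b q.2) (by linarith)]
    ring
  unfold Psi
  rcases le_total (tau a b p.2) 0 with ht | ht
  · rw [Obs_of_nonpos ht]
    exact hleft p hp ht
  rcases le_total 1 (tau a b p.2) with ht' | ht'
  · rw [Obs_of_ge ht']
    exact hright p hp ht'
  rw [Obs_of_mem ⟨ht, ht'⟩]
  obtain ⟨ζ, z⟩ := p
  simp only at ht ht' ⊢
  set V := env (psi a b K M u₁ u₂) with hV
  -- the maximum principle
  let Ann : Set ℂ := {z | a ≤ ‖z‖ ∧ ‖z‖ ≤ b}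
  have hAnn : IsCompact Ann := by
    apply Metric.isCompact_of_isClosed_isBounded
    · exact (isClosed_le continuous_const continuous_norm).inter
        (isClosed_le continuous_norm continuous_const)
    · apply isBounded_closedBall (x := (0 : ℂ)) (r := b) |>.subset
      intro z hz
      simpa using hz.2
  have hAnn0 : ∀ z ∈ Ann, z ≠ 0 := by
    intro z hz h'
    have h1 := hz.1
    have h2 := h.ha
    rw [h', norm_zero] at h1
    linarith
  let w : ℂ × ℂ → ℝ := fun q => V q + ((u₁ ζ - u₂ ζ) * tau a b q.2 + -u₁ ζ)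
  have hw : PshOn w Om := (h.V_psh hM).add ((pshOn_tau a b _).add (pshOn_const _ Om))
  have hL : Continuous fun z : ℂ => (ζ, z) := by fun_prop
  have key := max_principle_compact hAnn (g := fun z => w (ζ, z)) ?_ ?_ z ?_
  · simp only [w] at key
    linarith
  · exact hw.cont.comp hL.continuousOn fun z hz => hAnn0 z hz
  · intro z hz
    have hz0 := hAnn0 z hz
    by_cases h1 : 0 < tau a b z
    · by_cases h2 : tau a b z < 1
      · right
        rw [tau_lt_iff h.ha h.hab hz0] at h1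
        rw [lt_tau_iff h.ha h.hab hz0] at h2
        have hint : (ζ, z) ∈ Dom a b := ⟨h1, h2⟩
        obtain ⟨s₁, hs₁, h3⟩ := hw.LSM isOpen_Om (p := (ζ, z)) hz0 (0, 1)
        obtain ⟨s₂, hs₂, h4⟩ := exists_disc_subset (isOpen_Dom a b) hint (0, 1)
        have e : ∀ ξ : ℂ, ((ζ, z) : ℂ × ℂ) + ξ • ((0, 1) : ℂ × ℂ) = (ζ, z + ξ) := by
          intro ξ
          ext <;> simp
        simp only [e] at h3 h4
        refine ⟨min s₁ s₂ / 2, by positivity, ?_, ?_⟩
        · intro ξ hξ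
          have h5 : ‖ξ‖ ≤ min s₁ s₂ / 2 := by simpa using hξ
          have h6 := h4 ξ (by
            have := min_le_right s₁ s₂
            have : 0 < min s₁ s₂ := by positivity
            linarith)
          exact ⟨h6.1.le, h6.2.le⟩
        · have h5 := h3 (min s₁ s₂ / 2) (by positivity) (by
            have := min_le_left s₁ s₂
            have : 0 < min s₁ s₂ := by positivity
            linarith)
          simpa using h5
      · left
        have h3 : tau a b z = 1 := by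
          apply le_antisymm _ (not_lt.mp h2)
          by_contra h4
          push Not at h4
          have h5 := Real.log_le_log (norm_pos_iff.mpr hz0) hz.2
          have hL' := log_pos' h.ha h.hab
          unfold tau at h4
          rw [lt_div_iff₀ hL', Real.log_div (h.ha.trans h.hab).ne' h.ha.ne'] at h4
          linarith
        have h4 := hright (ζ, z) hz0 h3.ge
        simp only [h3] at h4
        simp only [w, h3]
        linarith
    · left
      have h3 : tau a b z = 0 := by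
        apply le_antisymm (not_lt.mp h1)
        unfold tau
        apply div_nonneg _ (log_pos' h.ha h.hab).le
        have := Real.log_le_log h.ha hz.1
        linarith
      have h4 := hleft (ζ, z) hz0 h3.le
      simp only [h3] at h4
      simp only [w, h3]
      linarith
  · have hz0 : z ≠ 0 := hp
    have hL' := log_pos' h.ha h.hab
    unfold tau at ht ht'
    have ht2 := mul_nonneg ht hL'.le
    rw [div_mul_cancel₀ _ hL'.ne', sub_nonneg,
      Real.log_le_log_iff h.ha (norm_pos_iff.mpr hz0)] at ht2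
    rw [div_le_one hL', Real.log_div (h.ha.trans h.hab).ne' h.ha.ne', sub_le_sub_iff_right,
      Real.log_le_log_iff (norm_pos_iff.mpr hz0) (h.ha.trans h.hab)] at ht'
    exact ⟨ht2, ht'⟩

theorem Dat.cmp_Psi (h : Dat a b K S u₁ u₂) (hM : 4 * K ^ 2 ≤ M) :
    Cmp (Psi a b K u₁ u₂) (env (psi a b K M u₁ u₂)) :=
  ⟨h.V_psh hM, fun _ hp => h.V_le hM hp⟩

theorem Dat.V_le_U (h : Dat a b K S u₁ u₂) (hM : 4 * K ^ 2 ≤ M) {p : ℂ × ℂ} (hp : p ∈ Om) :
    env (psi a b K M u₁ u₂) p ≤ env (Psi a b K u₁ u₂) p :=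
  le_env (h.cmp_Psi hM) hp

theorem Dat.U_le (h : Dat a b K S u₁ u₂) (hM : 4 * K ^ 2 ≤ M) {p : ℂ × ℂ} (hp : p ∈ Om) :
    env (Psi a b K u₁ u₂) p ≤ env (psi a b K M u₁ u₂) p + K ^ 2 / M := by
  apply env_le ⟨_, h.cmp_Psi hM⟩
  intro v hv
  have h1 : Cmp (psi a b K M u₁ u₂) (fun p => v p + -(K ^ 2 / M)) := by
    refine ⟨hv.1.add (pshOn_const _ Om), fun q hq => ?_⟩
    have h2 := hv.2 q hq
    have h3 := Obs_sub_le h.hK hM (h.hdiff q.1) (tau a b q.2)
    unfold Psi at h2
    unfold psi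
    linarith
  have := le_env h1 hp
  linarith

end Pool.Agent.H90
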