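import Pool.Agent.H90.Ex7

/-!
# The limit geodesic
-/

open Complex MeasureTheory Metric Real Set InnerProductSpace Topology Filter

namespace Pool.Agent.H90

variable {a b K S : ℝ} {u₁ u₂ : ℂ → ℝ}

/-- the parameters -/
noncomputable def Mn (K : ℝ) (n : ℕ) : ℝ := 4 * K ^ 2 * (n + 1)

theorem le_Mn (K : ℝ) (n : ℕ) : 4 * K ^ 2 ≤ Mn K n := by
  unfold Mn
  have h1 : 0 ≤ 4 * K ^ 2 := by positivity
  have h2 : (0 : ℝ) ≤ n := Nat.cast_nonneg n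
  nlinarith

theorem Mn_pos (hK : 1 ≤ K) (n : ℕ) : 0 < Mn K n := by
  unfold Mn
  positivity

theorem div_Mn (hK : 1 ≤ K) (n : ℕ) : K ^ 2 / Mn K n ≤ 1 / (n + 1) := by
  rw [div_le_div_iff₀ (Mn_pos hK n) (by positivity)]
  unfold Mn
  have : 0 ≤ K ^ 2 * ((n : ℝ) + 1) := by positivity
  linarith

theorem div_Mn' (hK : 1 ≤ K) (n : ℕ) : 2 * K / Mn K n ≤ 1 / (n + 1) := by
  rw [div_le_div_iff₀ (Mn_pos hK n) (by positivity)]
  unfold Mn
  have h1 : (0 : ℝ) ≤ (n : ℝ) + 1 := by positivity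
  have h2 : 2 * K ≤ 4 * K ^ 2 := by nlinarith
  nlinarith

theorem Dat.abs_V_sub_U (h : Dat a b K S u₁ u₂) (n : ℕ) {p : ℂ × ℂ} (hp : p ∈ Om) :
    |env (psi a b K (Mn K n) u₁ u₂) p - env (Psi a b K u₁ u₂) p| ≤ 1 / (n + 1) := by
  have h1 := h.V_le_U (le_Mn K n) hp
  have h2 := h.U_le (le_Mn K n) hp
  have h3 := div_Mn h.hK n
  rw [abs_le]
  constructor <;> linarith

theorem Dat.tendsto_U (h : Dat a b K S u₁ u₂) :
    TendstoUniformlyOn (fun n => env (psi a b K (Mn K n) u₁ u₂)) (env (Psi a b K u₁ u₂))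
      atTop Om := by
  rw [Metric.tendstoUniformlyOn_iff]
  intro ε hε
  have h1 : ∀ᶠ n : ℕ in atTop, 1 / ((n : ℝ) + 1) < ε :=
    tendsto_one_div_add_atTop_nhds_zero_nat.eventually_lt_const hε
  filter_upwards [h1] with n hn p hp
  rw [dist_comm, Real.dist_eq]
  exact (h.abs_V_sub_U n hp).trans_lt hn

theorem Dat.U_cont (h : Dat a b K S u₁ u₂) : ContinuousOn (env (Psi a b K u₁ u₂)) Om :=
  h.tendsto_U.continuousOn (Frequently.of_forall fun n => h.V_cont (le_Mn K n))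

theorem Dat.U_psh (h : Dat a b K S u₁ u₂) : PshOn (env (Psi a b K u₁ u₂)) Om :=
  env_psh ⟨_, h.cmp_Psi (le_Mn K 0)⟩ h.U_cont

theorem Dat.U_le_Psi (h : Dat a b K S u₁ u₂) {p : ℂ × ℂ} (hp : p ∈ Om) :
    env (Psi a b K u₁ u₂) p ≤ Psi a b K u₁ u₂ p :=
  env_le_obstacle ⟨_, h.cmp_Psi (le_Mn K 0)⟩ hp

theorem Dat.v0_le_U (h : Dat a b K S u₁ u₂) {p : ℂ × ℂ} (hp : p ∈ Om) :
    v0 a b K u₁ u₂ p ≤ env (Psi a b K u₁ u₂) p :=
  (le_env (h.cmp_v0 (le_Mn K 0)) hp).trans (h.V_le_U (le_Mn K 0) hp)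

theorem Dat.U_left (h : Dat a b K S u₁ u₂) {ζ z : ℂ} (hz : ‖z‖ = a) :
    env (Psi a b K u₁ u₂) (ζ, z) = u₁ ζ := by
  have hz0 : z ≠ 0 := by
    intro h'
    rw [h', norm_zero] at hz
    exact h.ha.ne hz
  have ht : tau a b z = 0 := by
    unfold tau
    rw [hz, sub_self, zero_div]
  apply le_antisymm
  · refine (h.U_le_Psi (p := (ζ, z)) hz0).trans_eq ?_
    unfold Psi
    simp only
    rw [ht, Obs_of_nonpos le_rfl]
    ring
  · refine le_trans ?_ (h.v0_le_U (p := (ζ, z)) hz0)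
    unfold v0
    simp only
    rw [ht]
    refine le_trans (le_of_eq ?_) (le_max_left _ _)
    ring

theorem Dat.U_right (h : Dat a b K S u₁ u₂) {ζ z : ℂ} (hz : ‖z‖ = b) :
    env (Psi a b K u₁ u₂) (ζ, z) = u₂ ζ := by
  have hb := h.ha.trans h.hab
  have hz0 : z ≠ 0 := by
    intro h'
    rw [h', norm_zero] at hz
    exact hb.ne hz
  have ht : tau a b z = 1 := by
    unfold tau
    rw [hz, ← Real.log_div hb.ne' h.ha.ne', div_self (log_pos' h.ha h.hab).ne']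
  apply le_antisymm
  · refine (h.U_le_Psi (p := (ζ, z)) hz0).trans_eq ?_
    unfold Psi
    simp only
    rw [ht, Obs_of_ge le_rfl]
    ring
  · refine le_trans ?_ (h.v0_le_U (p := (ζ, z)) hz0)
    unfold v0
    simp only
    rw [ht]
    refine le_trans (le_of_eq ?_) (le_max_right _ _)
    ring

theorem Cl_subset_Om (ha : 0 < a) : Cl a b ⊆ Om := by
  intro p hp h'
  have h1 := hp.1
  rw [h', norm_zero] at h1
  linarith

/-- Translation by a period. -/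
theorem Dat.U_period (h : Dat a b K S u₁ u₂) {l : ℂ}
    (h1 : ∀ ζ, u₁ (ζ + l) = u₁ ζ + 2 * (ζ * starRingEnd ℂ l).re + ‖l‖ ^ 2)
    (h2 : ∀ ζ, u₂ (ζ + l) = u₂ ζ + 2 * (ζ * starRingEnd ℂ l).re + ‖l‖ ^ 2) {p : ℂ × ℂ}
    (hp : p ∈ Om) : env (Psi a b K u₁ u₂) (p.1 + l, p.2) =
      env (Psi a b K u₁ u₂) p + 2 * (p.1 * starRingEnd ℂ l).re + ‖l‖ ^ 2 := by
  have h0 : ∃ v, Cmp (Psi a b K u₁ u₂) v := ⟨_, h.cmp_Psi (le_Mn K 0)⟩
  have e0 : (l * starRingEnd ℂ l).re = ‖l‖ ^ 2 := by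
    rw [Complex.mul_conj, Complex.ofReal_re, Complex.normSq_eq_norm_sq]
  have key : ∀ q : ℂ × ℂ, Psi a b K u₁ u₂ (q.1 + l, q.2) =
      Psi a b K u₁ u₂ q + 2 * (q.1 * starRingEnd ℂ l).re + ‖l‖ ^ 2 := by
    intro q
    unfold Psi Obs
    simp only
    rw [h1, h2]
    ring
  apply le_antisymm
  · have h3 := env_shift h0 (l := l) (κ := 1) one_ne_zero (c := ‖l‖ ^ 2) (fun q _ => by
      rw [one_mul, key q]) p hp
    rwa [one_mul] at h3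
  · have h3 := env_shift h0 (l := -l) (κ := 1) one_ne_zero (c := ‖l‖ ^ 2) (fun q _ => by
      have h4 := key (q.1 + -l, q.2)
      simp only [neg_add_cancel_right] at h4
      rw [one_mul, map_neg, mul_neg, neg_re]
      have h5 : ((q.1 + -l) * starRingEnd ℂ l).re = (q.1 * starRingEnd ℂ l).re - ‖l‖ ^ 2 := by
        rw [← e0, ← sub_re]
        congr 1
        ring
      rw [h5] at h4
      have h6 : Psi a b K u₁ u₂ q = Psi a b K u₁ u₂ (q.1, q.2) := rfl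
      rw [h6, h4]
      linarith) (p.1 + l, p.2) hp
    simp only [one_mul, add_neg_cancel_right, map_neg, mul_neg, neg_re] at h3
    have h5 : ((p.1 + l) * starRingEnd ℂ l).re = (p.1 * starRingEnd ℂ l).re + ‖l‖ ^ 2 := by
      rw [← e0, ← add_re]
      congr 1
      ring
    rw [h5] at h3
    have h6 : env (Psi a b K u₁ u₂) (p.1, p.2) = env (Psi a b K u₁ u₂) p := rfl
    rw [h6] at h3
    linarith

theorem Dat.U_bounded (h : Dat a b K S u₁ u₂) {B : ℝ} (h1 : ∀ ζ, |u₁ ζ - ‖ζ‖ ^ 2| ≤ B)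
    (h2 : ∀ ζ, |u₂ ζ - ‖ζ‖ ^ 2| ≤ B) {p : ℂ × ℂ} (hp : p ∈ Cl a b) :
    |env (Psi a b K u₁ u₂) p - ‖p.1‖ ^ 2| ≤ B + K := by
  have hpO := Cl_subset_Om h.ha hp
  obtain ⟨ht, -⟩ := tau_mem h.ha h.hab hp.1 hp.2
  have h3 := h.U_le_Psi hpO
  have h4 := h.v0_le_U hpO
  have h5 : u₁ p.1 - K * tau a b p.2 ≤ v0 a b K u₁ u₂ p := le_max_left _ _
  have hK := h.hK
  have h6 : K * tau a b p.2 ≤ K := by nlinarith [ht.2]
  have e3 : Psi a b K u₁ u₂ p = Obs K (u₁ p.1) (u₂ p.1) (tau a b p.2) := rfl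
  rw [e3, Obs_of_mem ht] at h3
  obtain ⟨a1, a2⟩ := abs_le.mp (h1 p.1)
  obtain ⟨b1, b2⟩ := abs_le.mp (h2 p.1)
  rw [abs_le]
  constructor
  · linarith
  · have h7 : (1 - tau a b p.2) * u₁ p.1 ≤ (1 - tau a b p.2) * (‖p.1‖ ^ 2 + B) :=
      mul_le_mul_of_nonneg_left (by linarith) (by linarith [ht.2])
    have h8 : tau a b p.2 * u₂ p.1 ≤ tau a b p.2 * (‖p.1‖ ^ 2 + B) :=
      mul_le_mul_of_nonneg_left (by linarith) ht.1
    linarith

/-- The Monge-Ampère equation for the limit. -/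
theorem Dat.bt (h : Dat a b K S u₁ u₂) : BTZero (env (Psi a b K u₁ u₂)) (Dom a b) := by
  intro Kc hKc hKD
  obtain ⟨K₂, hK₂, h12, h2D⟩ := exists_compact_between hKc (isOpen_Dom a b) hKD
  obtain ⟨K₃, hK₃, h13, h32⟩ := exists_compact_between hKc isOpen_interior h12
  have hDO : Dom a b ⊆ Om := (Dom_subset_Cl a b).trans (Cl_subset_Om h.ha)
  have h2O : K₂ ⊆ Om := h2D.trans hDO
  have htc := (continuousOn_tau a b).mono h2O
  obtain ⟨δ, hδ, hδK⟩ := hK₂.exists_forall_le' (a := 0)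
    (f := fun p : ℂ × ℂ => min (tau a b p.2) (1 - tau a b p.2))
    (htc.inf (continuousOn_const.sub htc)) (by
      intro p hp
      have h1 := h2D hp
      have h2 : p.2 ≠ 0 := h2O hp
      apply lt_min
      · exact (tau_lt_iff h.ha h.hab h2).mpr h1.1
      · have := (lt_tau_iff h.ha h.hab h2).mpr h1.2
        linarith)
  obtain ⟨n₀, hn₀⟩ : ∃ n₀ : ℕ, ∀ n ≥ n₀, 1 / ((n : ℝ) + 1) < δ := by
    have h1 : ∀ᶠ n : ℕ in atTop, 1 / ((n : ℝ) + 1) < δ :=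
      tendsto_one_div_add_atTop_nhds_zero_nat.eventually_lt_const hδ
    exact eventually_atTop.mp h1
  have key : ∀ j : ℕ, ∃ v : ℂ × ℂ → ℝ, Sm v ∧ PshOn v (interior K₃) ∧
      (∀ p ∈ interior K₃, |v p - env (psi a b K (Mn K (n₀ + j)) u₁ u₂) p| ≤ 1 / ((j : ℝ) + 1)) ∧
      |∫ p in Kc, ma v p| ≤ 1 / ((j : ℝ) + 1) := by
    intro j
    have hM := le_Mn K (n₀ + j)
    obtain ⟨C, hC, hsemi⟩ := h.V_semi hM
    apply exists_small_ma (h.V_psh hM) hK₂ h2O hK₃ h32 hKc h13 hC (half_pos h.ha)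
    · intro p hp k hk _ _
      exact hsemi p (h2D hp).1.le k hk
    · intro p hp ℓ Q hT
      have hpK₂ : p ∈ K₂ := interior_subset (h32 (interior_subset hp))
      have hpO := h2O hpK₂
      refine maQ_eq_zero isOpen_Om (h.V_psh hM) h.continuousOn_psi
        (fun q hq => env_le_obstacle ⟨_, h.cmp_v0 hM⟩ hq)
        (fun v hv hv' q hq => le_env ⟨hv, hv'⟩ hq) hpO ?_ hT
      have h3 := hδK p hpK₂
      have h4 := (div_Mn' h.hK (n₀ + j)).trans_lt (hn₀ (n₀ + j) (Nat.le_add_right _ _))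
      have h5 := h3.trans (min_le_left _ _)
      have h6 := h3.trans (min_le_right _ _)
      refine (h.V_le hM hpO).trans_lt (Obs_lt (Mn_pos h.hK _) (h.hdiff p.1) ?_ ?_ ?_ ?_)
      all_goals linarith
    · positivity
  choose v hv1 hv2 hv3 hv4 using key
  refine ⟨interior K₃, v, isOpen_interior, h13, fun j => (hv1 j).contDiffOn, hv2, ?_, ?_⟩
  · rw [Metric.tendstoUniformlyOn_iff]
    intro ε hε
    have h1 : ∀ᶠ n : ℕ in atTop, 1 / ((n : ℝ) + 1) < ε / 2 :=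
      tendsto_one_div_add_atTop_nhds_zero_nat.eventually_lt_const (by positivity)
    filter_upwards [h1] with j hj p hp
    have hpO : p ∈ Om := h2O (interior_subset (h32 (interior_subset hp)))
    have h2 := abs_le.mp (h.abs_V_sub_U (n₀ + j) hpO)
    have h3 := abs_le.mp (hv3 j p hp)
    have h4 : 1 / (((n₀ + j : ℕ) : ℝ) + 1) ≤ 1 / ((j : ℝ) + 1) := by
      apply one_div_le_one_div_of_le (by positivity)
      push_cast
      have : (0 : ℝ) ≤ n₀ := Nat.cast_nonneg _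
      linarith
    rw [dist_comm, Real.dist_eq, abs_lt]
    constructor <;> linarith [h2.1, h2.2, h3.1, h3.2]
  · rw [Metric.tendsto_atTop]
    intro ε hε
    have h1 : ∀ᶠ n : ℕ in atTop, 1 / ((n : ℝ) + 1) < ε :=
      tendsto_one_div_add_atTop_nhds_zero_nat.eventually_lt_const hε
    obtain ⟨N, hN⟩ := eventually_atTop.mp h1
    refine ⟨N, fun j hj => ?_⟩
    rw [Real.dist_eq, sub_zero]
    exact (hv4 j).trans_lt (hN j hj)

/-- Existence of the weak geodesic. -/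
theorem Dat.exists_weakGeodesic {φ₁ φ₂ : ℂ → ℝ}
    (h : Dat a b K S (fun ζ => ‖ζ‖ ^ 2 + φ₁ ζ) (fun ζ => ‖ζ‖ ^ 2 + φ₂ ζ))
    (p₁ : ∀ ζ, φ₁ (ζ + 1) = φ₁ ζ ∧ φ₁ (ζ + I) = φ₁ ζ)
    (p₂ : ∀ ζ, φ₂ (ζ + 1) = φ₂ ζ ∧ φ₂ (ζ + I) = φ₂ ζ) {B : ℝ} (b₁ : ∀ ζ, |φ₁ ζ| ≤ B)
    (b₂ : ∀ ζ, |φ₂ ζ| ≤ B) : ∃ φ, WeakGeodesic a b φ₁ φ₂ φ := by
  set U := env (Psi a b K (fun ζ => ‖ζ‖ ^ 2 + φ₁ ζ) (fun ζ => ‖ζ‖ ^ 2 + φ₂ ζ)) with hU
  have e : ∀ p : ℂ × ℂ, ‖p.1‖ ^ 2 + (U p - ‖p.1‖ ^ 2) = U p := fun p => by ring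
  have hnorm : ∀ ζ l : ℂ, ‖ζ + l‖ ^ 2 = ‖ζ‖ ^ 2 + 2 * (ζ * starRingEnd ℂ l).re + ‖l‖ ^ 2 := by
    intro ζ l
    rw [← Complex.normSq_eq_norm_sq, ← Complex.normSq_eq_norm_sq, ← Complex.normSq_eq_norm_sq]
    simp only [Complex.normSq_apply, add_re, add_im, mul_re, conj_re, conj_im]
    ring
  have hper : ∀ l : ℂ, (∀ ζ, φ₁ (ζ + l) = φ₁ ζ) → (∀ ζ, φ₂ (ζ + l) = φ₂ ζ) → ∀ ζ z : ℂ,
      (ζ, z) ∈ Cl a b → U (ζ + l, z) - ‖ζ + l‖ ^ 2 = U (ζ, z) - ‖ζ‖ ^ 2 := by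
    intro l h1 h2 ζ z hz
    have h3 := h.U_period (l := l) (fun ζ => by rw [h1, hnorm]; ring)
      (fun ζ => by rw [h2, hnorm]; ring) (Cl_subset_Om h.ha hz)
    rw [← hU] at h3
    simp only at h3
    rw [h3, hnorm]
    ring
  refine ⟨fun p => U p - ‖p.1‖ ^ 2, ⟨fun ζ z hz => ?_, ⟨B + K, fun p hp => ?_⟩, ?_, fun ζ z hz => ?_,
    fun ζ z hz => ?_, ?_, ?_⟩⟩
  · exact ⟨hper 1 (fun ζ => (p₁ ζ).1) (fun ζ => (p₂ ζ).1) ζ z hz,
      hper I (fun ζ => (p₁ ζ).2) (fun ζ => (p₂ ζ).2) ζ z hz⟩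
  · apply h.U_bounded _ _ hp
    · intro ζ
      simpa using b₁ ζ
    · intro ζ
      simpa using b₂ ζ
  · exact (h.U_cont.mono (Cl_subset_Om h.ha)).sub (Continuous.continuousOn (by fun_prop))
  · have := h.U_left (ζ := ζ) hz
    simp only
    rw [hU, this]
    ring
  · have := h.U_right (ζ := ζ) hz
    simp only
    rw [hU, this]
    ring
  · simp only [e]
    exact h.U_psh.mono ((Dom_subset_Cl a b).trans (Cl_subset_Om h.ha))
  · simp only [e]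
    exact h.bt

end Pool.Agent.H90
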