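import Pool.Agent.H90.Ex8

/-!
# Existence of the weak geodesic for the trigonometric potentials
-/

open Complex MeasureTheory Metric Real Set InnerProductSpace Topology Filter

namespace Pool.Agent.H90

theorem cos_semiconvex {B : ℝ} (hB : 0 ≤ B) (x h : ℝ) :
    2 * (B * Real.cos (2 * π * x)) - B * (2 * π * h) ^ 2 ≤
      B * Real.cos (2 * π * (x + h)) + B * Real.cos (2 * π * (x - h)) := by
  have e1 : 2 * π * (x + h) = 2 * π * x + 2 * π * h := by ring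
  have e2 : 2 * π * (x - h) = 2 * π * x - 2 * π * h := by ring
  rw [e1, e2, Real.cos_add, Real.cos_sub]
  have h1 := Real.one_sub_sq_div_two_le_cos (x := 2 * π * h)
  have h2 := Real.cos_le_one (2 * π * h)
  have h3 := Real.cos_le_one (2 * π * x)
  have h4 : 0 ≤ (1 - Real.cos (2 * π * x)) * (1 - Real.cos (2 * π * h)) :=
    mul_nonneg (by linarith) (by linarith)
  have h5 : 0 ≤ B * ((1 - Real.cos (2 * π * x)) * (1 - Real.cos (2 * π * h))) :=
    mul_nonneg hB h4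
  have h6 : B * (1 - Real.cos (2 * π * h)) ≤ B * ((2 * π * h) ^ 2 / 2) :=
    mul_le_mul_of_nonneg_left (by linarith) hB
  nlinarith

theorem clm_expand (ℓ : ℂ →L[ℝ] ℝ) (z : ℂ) : ℓ z = z.re * ℓ 1 + z.im * ℓ I := by
  have h1 : z = z.re • (1 : ℂ) + z.im • I := by
    apply Complex.ext <;> simp
  conv_lhs => rw [h1]
  rw [map_add, map_smul, map_smul, smul_eq_mul, smul_eq_mul]

theorem norm_sq_eq (z : ℂ) : ‖z‖ ^ 2 = z.re ^ 2 + z.im ^ 2 := by
  rw [← Complex.normSq_eq_norm_sq, Complex.normSq_apply]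
  ring

theorem amp_mul : amp * (2 * π) ^ 2 = 18 / 5 := by
  unfold amp
  field_simp
  ring

theorem pshOn_cos (ℓ : ℂ →L[ℝ] ℝ) (h1 : (ℓ 1) ^ 2 + (ℓ I) ^ 2 = 1) :
    PshOn (fun ζ : ℂ => ‖ζ‖ ^ 2 + amp * Real.cos (2 * π * ℓ ζ)) univ := by
  refine ⟨Continuous.continuousOn (by fun_prop), fun p w _ => ?_⟩
  simp only [smul_eq_mul]
  set f : ℂ → ℝ := fun ξ => ‖p + ξ * w‖ ^ 2 + amp * Real.cos (2 * π * ℓ (p + ξ * w)) with hf
  have hfc : Continuous f := by fun_prop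
  have hneg : circleAverage (fun ξ => f (-ξ)) 0 1 = circleAverage f 0 1 := by
    have := circleAverage_scale f (-1)
    rw [circleAverage_neg_radius] at this
    simpa using this.symm
  have hi : CircleIntegrable f 0 1 :=
    circleIntegrable_of_continuousOn one_pos hfc.continuousOn
  have hi' : CircleIntegrable (fun ξ => f (-ξ)) 0 1 :=
    circleIntegrable_of_continuousOn one_pos (Continuous.continuousOn (by fun_prop))
  have hsum : 2 * circleAverage f 0 1 = circleAverage (fun ξ => f ξ + f (-ξ)) 0 1 := by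
    rw [circleAverage_fun_add hi hi', hneg]
    ring
  set α := w.re * ℓ 1 + w.im * ℓ I with hα
  set β := -w.im * ℓ 1 + w.re * ℓ I with hβ
  have hℓ : ∀ ξ : ℂ, ℓ (ξ * w) = ξ.re * α + ξ.im * β := by
    intro ξ
    rw [clm_expand ℓ (ξ * w), hα, hβ]
    simp only [mul_re, mul_im]
    ring
  have hαβ : α ^ 2 + β ^ 2 = ‖w‖ ^ 2 := by
    rw [norm_sq_eq, hα, hβ]
    linear_combination (w.re ^ 2 + w.im ^ 2) * h1
  have hf0 : f 0 = ‖p‖ ^ 2 + amp * Real.cos (2 * π * ℓ p) := by simp [hf]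
  have hlow : ∀ ξ : ℂ, 2 * f 0 + (0 * ξ.re + 0 * ξ.im + (2 * ‖w‖ ^ 2 - 18 / 5 * α ^ 2) * ξ.re ^ 2 +
      (-(36 / 5 * α * β)) * (ξ.re * ξ.im) + (2 * ‖w‖ ^ 2 - 18 / 5 * β ^ 2) * ξ.im ^ 2) ≤
      f ξ + f (-ξ) := by
    intro ξ
    have h2 := cos_semiconvex amp_pos.le (ℓ p) (ℓ (ξ * w))
    have h3 := norm_sq_add_sub p (ξ * w)
    have e1 : f ξ = ‖p + ξ * w‖ ^ 2 + amp * Real.cos (2 * π * (ℓ p + ℓ (ξ * w))) := by
      simp only [hf, map_add]
    have e2 : f (-ξ) = ‖p - ξ * w‖ ^ 2 + amp * Real.cos (2 * π * (ℓ p - ℓ (ξ * w))) := by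
      simp only [hf, neg_mul, ← sub_eq_add_neg, map_sub]
    have e3 : amp * (2 * π * ℓ (ξ * w)) ^ 2 = 18 / 5 * (ξ.re * α + ξ.im * β) ^ 2 := by
      rw [← hℓ, ← amp_mul]
      ring
    have e4 : ‖ξ * w‖ ^ 2 = (ξ.re ^ 2 + ξ.im ^ 2) * ‖w‖ ^ 2 := by
      rw [norm_mul, mul_pow, norm_sq_eq ξ]
    rw [e3] at h2
    rw [e4] at h3
    rw [e1, e2, hf0]
    linarith
  have hquad : circleAverage (fun ξ : ℂ => 2 * f 0 + (0 * ξ.re + 0 * ξ.im +
      (2 * ‖w‖ ^ 2 - 18 / 5 * α ^ 2) * ξ.re ^ 2 + (-(36 / 5 * α * β)) * (ξ.re * ξ.im) +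
        (2 * ‖w‖ ^ 2 - 18 / 5 * β ^ 2) * ξ.im ^ 2)) 0 1 = 2 * f 0 +
      1 ^ 2 * ((2 * ‖w‖ ^ 2 - 18 / 5 * α ^ 2) + (2 * ‖w‖ ^ 2 - 18 / 5 * β ^ 2)) / 2 := by
    rw [circleAverage_fun_add (circleIntegrable_const _ _ _), circleAverage_const,
      circleAverage_quad]
    exact circleIntegrable_of_continuousOn one_pos (Continuous.continuousOn (by fun_prop))
  have hmono := circleAverage_mono (c := 0) (R := 1)
    (circleIntegrable_of_continuousOn one_pos (Continuous.continuousOn (by fun_prop)))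
    (circleIntegrable_of_continuousOn one_pos (Continuous.continuousOn (by fun_prop)))
    fun ξ _ => hlow ξ
  rw [hquad, ← hsum] at hmono
  have h5 : 0 ≤ ‖w‖ ^ 2 := by positivity
  rw [← hf0]
  nlinarith

theorem abs_clm_le (ℓ : ℂ →L[ℝ] ℝ) (h1 : (ℓ 1) ^ 2 + (ℓ I) ^ 2 = 1) (l : ℂ) : |ℓ l| ≤ ‖l‖ := by
  apply abs_le_of_sq_le_sq _ (norm_nonneg l)
  rw [clm_expand, norm_sq_eq]
  nlinarith [sq_nonneg (l.re * ℓ I - l.im * ℓ 1)]

theorem UU_cos (ℓ : ℂ →L[ℝ] ℝ) (h1 : (ℓ 1) ^ 2 + (ℓ I) ^ 2 = 1) :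
    UU (fun ζ : ℂ => ‖ζ‖ ^ 2 + amp * Real.cos (2 * π * ℓ ζ)) (2 + 18 / 5) := by
  constructor
  · intro ζ l
    have h2 : ‖ζ + l‖ ^ 2 = ‖ζ‖ ^ 2 + 2 * (ζ * starRingEnd ℂ l).re + ‖l‖ ^ 2 := by
      rw [norm_sq_eq, norm_sq_eq, norm_sq_eq]
      simp only [add_re, add_im, mul_re, conj_re, conj_im]
      ring
    have h3 : Real.cos (2 * π * ℓ (ζ + l)) ≤ Real.cos (2 * π * ℓ ζ) + 2 * π * ‖l‖ := by
      have h4 : |Real.cos (2 * π * ℓ (ζ + l)) - Real.cos (2 * π * ℓ ζ)| ≤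
          |2 * π * ℓ (ζ + l) - 2 * π * ℓ ζ| := by
        have := Real.lipschitzWith_cos.dist_le_mul (2 * π * ℓ (ζ + l)) (2 * π * ℓ ζ)
        rwa [Real.dist_eq, Real.dist_eq, NNReal.coe_one, one_mul] at this
      have h5 : 2 * π * ℓ (ζ + l) - 2 * π * ℓ ζ = 2 * π * ℓ l := by
        rw [map_add]
        ring
      rw [h5, abs_mul, abs_of_pos (by positivity : 0 < 2 * π)] at h4
      have h6 := abs_clm_le ℓ h1 l
      have h7 : 2 * π * |ℓ l| ≤ 2 * π * ‖l‖ := by gcongr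
      have h8 := (abs_le.mp h4).2
      linarith
    have h9 : amp * (2 * π) ≤ 18 / 5 := by
      rw [← amp_mul]
      have := Real.pi_gt_three
      have := amp_pos
      gcongr
      nlinarith
    have h10 := mul_le_mul_of_nonneg_left h3 amp_pos.le
    have h11 := mul_le_mul_of_nonneg_right h9 (norm_nonneg l)
    have h12 := norm_nonneg l
    rw [h2]
    nlinarith
  · intro ζ l
    have h2 := cos_semiconcave amp_pos.le (ℓ ζ) (ℓ l)
    have h3 := norm_sq_add_sub ζ l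
    have e3 : amp * (2 * π * ℓ l) ^ 2 = 18 / 5 * (ℓ l) ^ 2 := by
      rw [← amp_mul]
      ring
    have h4 : (ℓ l) ^ 2 ≤ ‖l‖ ^ 2 := by
      rw [← sq_abs]
      have := abs_clm_le ℓ h1 l
      gcongr
    rw [e3] at h2
    simp only [map_add, map_sub]
    linarith

theorem exists_weakGeodesic {a b : ℝ} (ha : 0 < a) (hab : a < b) :
    ∃ φ, WeakGeodesic a b (fun ζ => amp * Real.cos (2 * π * ζ.im))
      (fun ζ => amp * Real.cos (2 * π * ζ.re)) φ := by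
  have hb : ∀ x : ℝ, |amp * Real.cos x| ≤ amp := by
    intro x
    rw [abs_mul, abs_of_pos amp_pos]
    exact mul_le_of_le_one_right amp_pos.le (Real.abs_cos_le_one x)
  have hd : Dat a b (1 + 2 * amp) (2 + 18 / 5)
      (fun ζ => ‖ζ‖ ^ 2 + (fun ζ : ℂ => amp * Real.cos (2 * π * ζ.im)) ζ)
      (fun ζ => ‖ζ‖ ^ 2 + (fun ζ : ℂ => amp * Real.cos (2 * π * ζ.re)) ζ) := by
    refine ⟨ha, hab, by linarith [amp_pos], fun ζ => ?_, UU_cos Complex.imCLM (by simp),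
      UU_cos Complex.reCLM (by simp), pshOn_cos Complex.imCLM (by simp),
      pshOn_cos Complex.reCLM (by simp)⟩
    have h1 := abs_le.mp (hb (2 * π * ζ.im))
    have h2 := abs_le.mp (hb (2 * π * ζ.re))
    rw [abs_le]
    constructor <;> linarith [h1.1, h1.2, h2.1, h2.2]
  exact hd.exists_weakGeodesic kahler_left.periodic kahler_right.periodic (fun ζ => hb _)
    fun ζ => hb _

theorem WeakGeodesic.le {a b : ℝ} (hb : 0 < b) {φ₁ φ₂ : ℂ → ℝ} {φ φ' : ℂ × ℂ → ℝ}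
    (h : WeakGeodesic a b φ₁ φ₂ φ) (h' : WeakGeodesic a b φ₁ φ₂ φ') :
    ∀ p ∈ Cl a b, φ' p ≤ φ p := by
  obtain ⟨C, hC⟩ := h.bounded
  obtain ⟨C', hC'⟩ := h'.bounded
  have hn : ContinuousOn (fun p : ℂ × ℂ => ‖p.1‖ ^ 2) (Cl a b) :=
    Continuous.continuousOn (by fun_prop)
  have key := comparison (u := fun p => ‖p.1‖ ^ 2 + φ p) (v := fun p => ‖p.1‖ ^ 2 + φ' p)
    (C := C) (C' := C' + C) hb (hn.add h.cont) h.mongeAmpere (fun p hp => by simpa using hC p hp)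
    (hn.add h'.cont) h'.psh (fun p hp => by
      have h1 := abs_le.mp (hC p hp)
      have h2 := abs_le.mp (hC' p hp)
      linarith [h1.1, h2.2]) (by
      rintro ⟨ζ, z⟩ _ (hz | hz)
      · simp only at hz ⊢
        rw [h.left ζ z hz, h'.left ζ z hz]
      · simp only at hz ⊢
        rw [h.right ζ z hz, h'.right ζ z hz])
  intro p hp
  have := key p hp
  linarith

end Pool.Agent.H90
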