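import Pool.Agent.H90.Start

/-!
# Failure of strict positivity at the middle time
-/

open Complex MeasureTheory Metric Real Set InnerProductSpace Topology Filter

namespace Pool.Agent.H90

variable {a b B : ℝ} {u : ℂ × ℂ → ℝ}

theorem Geo.E_zero_le_W (h : Geo a b B u) (ζ : ℂ) {t : ℝ} (ht : t ∈ Icc (0 : ℝ) 1) :
    E a b u 0 ζ ≤ W a b u ζ t := by
  have := h.E_le 0 ζ ht
  linarith

theorem half_mem : (1 / 2 : ℝ) ∈ Icc (0 : ℝ) 1 := ⟨by norm_num, by norm_num⟩

/-- `G(σ) = E_σ(0) + σ/2` is even. -/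
theorem Geo.G_even (h : Geo a b B u) (σ : ℝ) :
    E a b u (-σ) 0 + (-σ) / 2 = E a b u σ 0 + σ / 2 := by
  rw [h.E_symm_zero σ]
  ring

theorem Geo.G_le (h : Geo a b B u) (σ : ℝ) : E a b u σ 0 + σ / 2 ≤ E a b u 0 0 := by
  have h1 := h.E_concave (σ := σ) (σ' := -σ) (by norm_num : (0 : ℝ) ≤ 1 / 2)
    (by norm_num : (0 : ℝ) ≤ 1 / 2) (by norm_num) 0
  have h2 := h.E_symm_zero σ
  have h3 : 1 / 2 * σ + 1 / 2 * -σ = 0 := by ring
  rw [h3, h2] at h1
  linarith

theorem Geo.W_half_zero (h : Geo a b B u) : W a b u 0 (1 / 2) = E a b u 0 0 := by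
  apply le_antisymm
  · obtain ⟨σ, hσ⟩ := h.dual 0
    rw [hσ]
    exact h.G_le σ
  · exact h.E_zero_le_W 0 half_mem

/-- concavity of `σ ↦ E_σ(ζ) + σ/2`, in the form used below -/
theorem Geo.G_between (h : Geo a b B u) {σ η : ℝ} (hη : 0 < η) (hησ : η ≤ σ) {ζ : ℂ}
    (hG : E a b u 0 ζ ≤ E a b u σ ζ + σ / 2) : E a b u 0 ζ ≤ E a b u η ζ + η / 2 := by
  have hσ : 0 < σ := hη.trans_le hησ
  have hc : 0 ≤ η / σ := by positivity
  have hd : 0 ≤ 1 - η / σ := by
    rw [sub_nonneg, div_le_one hσ]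
    exact hησ
  have h1 := h.E_concave (σ := σ) (σ' := 0) hc hd (by ring) ζ
  have h2 : η / σ * σ + (1 - η / σ) * 0 = η := by field_simp; ring
  rw [h2] at h1
  have h3 := mul_le_mul_of_nonneg_left hG hc
  have h4 : η / σ * (E a b u σ ζ + σ / 2) = η / σ * E a b u σ ζ + η / 2 := by
    field_simp
  rw [h4] at h3
  linarith

theorem Geo.G_between_neg (h : Geo a b B u) {σ η : ℝ} (hη : 0 < η) (hησ : σ ≤ -η) {ζ : ℂ}
    (hG : E a b u 0 ζ ≤ E a b u σ ζ + σ / 2) : E a b u 0 ζ ≤ E a b u (-η) ζ + (-η) / 2 := by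
  have hσ : σ < 0 := by linarith
  have hc : 0 ≤ η / (-σ) := div_nonneg hη.le (by linarith)
  have hd : 0 ≤ 1 - η / (-σ) := by
    rw [sub_nonneg, div_le_one (by linarith)]
    linarith
  have h1 := h.E_concave (σ := σ) (σ' := 0) hc hd (by ring) ζ
  have h2 : η / (-σ) * σ + (1 - η / (-σ)) * 0 = -η := by
    have : σ ≠ 0 := hσ.ne
    field_simp
    ring
  rw [h2] at h1
  have h3 := mul_le_mul_of_nonneg_left hG hc
  have h4 : η / (-σ) * (E a b u σ ζ + σ / 2) = η / (-σ) * E a b u σ ζ + (-η) / 2 := by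
    have : σ ≠ 0 := hσ.ne
    field_simp
    ring
  rw [h4] at h3
  linarith

/-- Near the origin all `E_σ` with small `|σ|` are harmonic. -/
theorem Geo.exists_radius (h : Geo a b (9 / (10 * π ^ 2)) u) :
    ∃ δ > 0, ∃ r > 0, ∀ σ : ℝ, |σ| ≤ δ → E a b u σ = PE (E a b u σ) r := by
  set B : ℝ := 9 / (10 * π ^ 2) with hBdef
  have h0 := h.E_zero_lt
  set δ : ℝ := (B - E a b u 0 0) / 4 with hδ
  have hδpos : 0 < δ := by
    rw [hδ]
    linarith
  have hEc := h.continuous_E 0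
  have c1 : ∀ᶠ ζ in 𝓝 (0 : ℂ), E a b u 0 ζ < B - 3 * δ := by
    apply hEc.continuousAt.eventually_lt continuousAt_const
    rw [hδ]
    linarith
  have c2 : ∀ᶠ ζ in 𝓝 (0 : ℂ), B - δ < ‖ζ‖ ^ 2 + B * Real.cos (2 * π * ζ.im) := by
    have hc : Continuous fun ζ : ℂ => ‖ζ‖ ^ 2 + B * Real.cos (2 * π * ζ.im) := by fun_prop
    apply continuousAt_const.eventually_lt hc.continuousAt
    simp
    linarith
  have c3 : ∀ᶠ ζ in 𝓝 (0 : ℂ), B - δ < ‖ζ‖ ^ 2 + B * Real.cos (2 * π * ζ.re) := by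
    have hc : Continuous fun ζ : ℂ => ‖ζ‖ ^ 2 + B * Real.cos (2 * π * ζ.re) := by fun_prop
    apply continuousAt_const.eventually_lt hc.continuousAt
    simp
    linarith
  obtain ⟨r₀, hr₀, hr₀'⟩ := Metric.eventually_nhds_iff.mp (c1.and (c2.and c3))
  refine ⟨δ, hδpos, r₀ / 2, by positivity, fun σ hσ => ?_⟩
  apply h.E_eq_PE (c := B - 2 * δ) (by positivity)
  · intro ζ hζ
    have hd : dist ζ 0 < r₀ := by
      rw [mem_sphere] at hζ
      linarith
    have h1 := (hr₀' hd).1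
    have h2 := h.E_lip σ 0 ζ
    rw [sub_zero] at h2
    linarith
  · intro ζ hζ t ht
    have hd : dist ζ 0 < r₀ := by
      rw [mem_ball] at hζ
      linarith
    obtain ⟨-, h2, h3⟩ := hr₀' hd
    have h4 : σ * t ≤ δ := by
      calc σ * t ≤ |σ| * t := mul_le_mul_of_nonneg_right (le_abs_self _) ht.1
        _ ≤ |σ| * 1 := mul_le_mul_of_nonneg_left ht.2 (abs_nonneg _)
        _ ≤ δ := by linarith
    constructor <;> linarith

theorem circleAverage_sub_sq {f : ℂ → ℝ} (hf : Continuous f) (ε ρ : ℝ) :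
    circleAverage (fun ζ => f ζ - ε * ‖ζ‖ ^ 2) 0 ρ = circleAverage f 0 ρ - ε * ρ ^ 2 := by
  rw [circleAverage_fun_sub, circleAverage_const_mul, circleAverage_norm_sq]
  · simp
  · exact hf.continuousOn.circleIntegrable'
  · apply ContinuousOn.circleIntegrable'
    apply Continuous.continuousOn
    fun_prop

theorem Geo.not_strict (h : Geo a b (9 / (10 * π ^ 2)) u) {ε : ℝ} (hε : 0 < ε)
    (hs : ∀ ρ > 0, W a b u 0 (1 / 2) ≤
      circleAverage (fun ζ => W a b u ζ (1 / 2) - ε * ‖ζ‖ ^ 2) 0 ρ) : False := by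
  obtain ⟨δ, hδ, r, hr, hE⟩ := h.exists_radius
  have hWc : Continuous fun ζ : ℂ => W a b u ζ (1 / 2) :=
    h.continuous_W.comp (by fun_prop : Continuous fun ζ : ℂ => ((ζ, 1 / 2) : ℂ × ℝ))
  have hEc := fun σ => h.continuous_E σ
  -- mean values
  have hharm : ∀ σ, |σ| ≤ δ → HarmonicOnNhd (E a b u σ) (ball 0 r) := by
    intro σ hσ
    rw [hE σ hσ]
    exact harmonicOnNhd_PE (circleIntegrable_of_continuousOn hr (hEc σ).continuousOn)
  have hmean : ∀ σ, |σ| ≤ δ → ∀ ρ, 0 < ρ → ρ < r → circleAverage (E a b u σ) 0 ρ = E a b u σ 0 := by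
    intro σ hσ ρ hρ hρr
    apply InnerProductSpace.HarmonicOnNhd.circleAverage_eq
    rw [abs_of_pos hρ]
    exact (hharm σ hσ).mono (closedBall_subset_ball hρr)
  have h00 : |(0 : ℝ)| ≤ δ := by rw [abs_zero]; exact hδ.le
  have hW0 := h.W_half_zero
  -- a criterion for a contradiction
  have hcrit : ∀ ρ, 0 < ρ → ρ < r → ∀ κ < ε,
      (∀ ζ ∈ sphere (0 : ℂ) ρ, W a b u ζ (1 / 2) ≤ E a b u 0 ζ + κ * ρ ^ 2) → False := by
    intro ρ hρ hρr κ hκ hle
    have h1 := hs ρ hρ
    rw [circleAverage_sub_sq hWc] at h1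
    have h2 : circleAverage (fun ζ => W a b u ζ (1 / 2)) 0 ρ ≤
        circleAverage (fun ζ => E a b u 0 ζ + κ * ρ ^ 2) 0 ρ := by
      apply circleAverage_mono hWc.continuousOn.circleIntegrable'
      · exact (hEc 0).continuousOn.circleIntegrable'.add (circleIntegrable_const _ _ _)
      · intro ζ hζ
        rw [abs_of_pos hρ] at hζ
        exact hle ζ hζ
    rw [circleAverage_fun_add (hEc 0).continuousOn.circleIntegrable' (circleIntegrable_const _ _ _),
      circleAverage_const, hmean 0 h00 ρ hρ hρr] at h2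
    have : 0 < (ε - κ) * ρ ^ 2 := by
      have : 0 < ε - κ := by linarith
      positivity
    nlinarith
  by_cases hcase : ∃ σ₀ > 0, E a b u 0 0 ≤ E a b u σ₀ 0 + σ₀ / 2
  · -- Case II: a genuine segment of maximisers
    obtain ⟨σ₀, hσ₀, hG₀⟩ := hcase
    set σ₁ := min σ₀ δ with hσ₁
    have hσ₁pos : 0 < σ₁ := by positivity
    have hσ₁le : σ₁ ≤ σ₀ := min_le_left _ _
    have hσ₁δ : σ₁ ≤ δ := min_le_right _ _
    have hG₁ : E a b u σ₁ 0 + σ₁ / 2 = E a b u 0 0 :=
      le_antisymm (h.G_le σ₁) (h.G_between hσ₁pos hσ₁le hG₀)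
    have hG₁' : E a b u (-σ₁) 0 - σ₁ / 2 = E a b u 0 0 := by
      have := h.G_even σ₁
      linarith
    have habs : |σ₁| ≤ δ := by rw [abs_of_pos hσ₁pos]; exact hσ₁δ
    have habs' : |-σ₁| ≤ δ := by rw [abs_neg]; exact habs
    -- D = (E₊ + E₋)/2 - E₀ vanishes on the ball
    have hD : ∀ ζ ∈ ball (0 : ℂ) r,
        E a b u σ₁ ζ + E a b u (-σ₁) ζ - 2 * E a b u 0 ζ = 0 := by
      intro ζ hζ
      have hle : ∀ ζ : ℂ, E a b u σ₁ ζ + E a b u (-σ₁) ζ - 2 * E a b u 0 ζ ≤ 0 := by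
        intro ζ
        have h1 := h.E_concave (σ := σ₁) (σ' := -σ₁) (by norm_num : (0 : ℝ) ≤ 1 / 2)
          (by norm_num : (0 : ℝ) ≤ 1 / 2) (by norm_num) ζ
        have h3 : 1 / 2 * σ₁ + 1 / 2 * -σ₁ = 0 := by ring
        rw [h3] at h1
        linarith
      rcases (hle ζ).lt_or_eq with hlt | heq
      · exfalso
        set ρ := ‖ζ‖ with hρ
        have hρr : ρ < r := by simpa using hζ
        have hρpos : 0 < ρ := by
          rcases (norm_nonneg ζ).lt_or_eq with h1 | h1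
          · exact h1
          · have : ζ = 0 := norm_eq_zero.mp h1.symm
            rw [this] at hlt
            linarith
        have hc : Continuous fun ζ => E a b u σ₁ ζ + E a b u (-σ₁) ζ - 2 * E a b u 0 ζ := by
          have h1 := hEc σ₁
          have h2 := hEc (-σ₁)
          have h3 := hEc 0
          fun_prop
        have h1 := circleAverage_lt hρpos (hc.continuousOn (s := sphere (0 : ℂ) ρ))
          (fun z _ => hle z) (z₁ := ζ) (by simp [hρ]) hlt
        have i1 : CircleIntegrable (E a b u σ₁) 0 ρ := (hEc σ₁).continuousOn.circleIntegrable'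
        have i2 : CircleIntegrable (E a b u (-σ₁)) 0 ρ := (hEc (-σ₁)).continuousOn.circleIntegrable'
        have i3 : CircleIntegrable (E a b u 0) 0 ρ := (hEc 0).continuousOn.circleIntegrable'
        have i4 : CircleIntegrable (fun ζ => E a b u σ₁ ζ + E a b u (-σ₁) ζ) 0 ρ := i1.add i2
        rw [circleAverage_fun_sub i4 (CircleIntegrable.const_mul' i3 2),
          circleAverage_fun_add i1 i2, circleAverage_const_mul, hmean _ habs ρ hρpos hρr,
          hmean _ habs' ρ hρpos hρr, hmean 0 h00 ρ hρpos hρr] at h1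
        linarith
      · exact heq
    -- the slope function
    let w : ℂ → ℝ := fun ζ => (E a b u 0 ζ - E a b u σ₁ ζ) / σ₁
    have hEp : ∀ ζ, E a b u σ₁ ζ = E a b u 0 ζ - σ₁ * w ζ := by
      intro ζ
      simp only [w]
      field_simp
      ring
    have hEm : ∀ ζ ∈ ball (0 : ℂ) r, E a b u (-σ₁) ζ = E a b u 0 ζ + σ₁ * w ζ := by
      intro ζ hζ
      have h1 := hD ζ hζ
      have h2 := hEp ζ
      linarith
    have hlow : ∀ ζ ∈ ball (0 : ℂ) r, ∀ t ∈ Icc (0 : ℝ) 1,
        E a b u 0 ζ + σ₁ * |t - w ζ| ≤ W a b u ζ t := by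
      intro ζ hζ t ht
      have h1 := h.E_le σ₁ ζ ht
      have h2 := h.E_le (-σ₁) ζ ht
      rw [hEp ζ] at h1
      rw [hEm ζ hζ] at h2
      rcases abs_cases (t - w ζ) with ⟨h3, -⟩ | ⟨h3, -⟩
      · rw [h3]; linarith
      · rw [h3]; linarith
    have hatt : ∀ ζ ∈ ball (0 : ℂ) r, w ζ ∈ Icc (0 : ℝ) 1 ∧ W a b u ζ (w ζ) = E a b u 0 ζ := by
      intro ζ hζ
      obtain ⟨t, ht, hte⟩ := h.exists_E 0 ζ
      have h1 := hlow ζ hζ t ht
      have h2 : σ₁ * |t - w ζ| ≤ 0 := by linarith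
      have h3 : |t - w ζ| ≤ 0 := by
        by_contra h4
        push Not at h4
        have := mul_pos hσ₁pos h4
        linarith
      have h4 : t = w ζ := by
        have := abs_nonpos_iff.mp h3
        linarith
      rw [← h4]
      exact ⟨ht, by linarith⟩
    obtain ⟨C, hC0, hC⟩ := h.semiconcave
    -- w has zero derivative
    have hder : ∀ ζ ∈ ball (0 : ℂ) r, HasFDerivAt w (0 : ℂ →L[ℝ] ℝ) ζ := by
      intro ζ hζ
      obtain ⟨C₂, hC₂, δ₂, hδ₂, h2d⟩ := second_difference (hharm 0 h00 ζ hζ).1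
      obtain ⟨δ₃, hδ₃, hball⟩ := Metric.isOpen_iff.mp isOpen_ball ζ hζ
      obtain ⟨hwmem, hwatt⟩ := hatt ζ hζ
      have hbound : ∀ l : ℂ, ‖l‖ < min δ₂ δ₃ → |w (ζ + l) - w ζ| ≤ ((C + C₂) / σ₁) * ‖l‖ ^ 2 := by
        intro l hl
        have hl2 : ‖l‖ < δ₂ := hl.trans_le (min_le_left _ _)
        have hl3 : ‖l‖ < δ₃ := hl.trans_le (min_le_right _ _)
        have hp : ζ + l ∈ ball (0 : ℂ) r := hball (by simpa using hl3)
        have hm : ζ - l ∈ ball (0 : ℂ) r := hball (by simpa using hl3)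
        have k1 := hC l ζ (rad a b (w ζ) : ℂ) (rad_mem h.ha h.hab ζ (w ζ))
        have k2 := hlow (ζ + l) hp (w ζ) hwmem
        have k3 := h.E_zero_le_W (ζ - l) hwmem
        have k4 := (abs_le.mp (h2d l hl2)).1
        have k5 : W a b u (ζ + l) (w ζ) + W a b u (ζ - l) (w ζ) ≤
            2 * W a b u ζ (w ζ) + C * ‖l‖ ^ 2 := k1
        rw [hwatt] at k5
        have k6 : σ₁ * |w ζ - w (ζ + l)| ≤ (C + C₂) * ‖l‖ ^ 2 := by linarith
        rw [abs_sub_comm, div_mul_eq_mul_div, le_div_iff₀ hσ₁pos]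
        linarith
      rw [hasFDerivAt_iff_isLittleO_nhds_zero]
      rw [Asymptotics.isLittleO_iff]
      intro c hc
      set K := (C + C₂) / σ₁ with hK
      have hK0 : 0 ≤ K := by positivity
      have hev : ∀ᶠ l : ℂ in 𝓝 0, ‖l‖ < min (min δ₂ δ₃) (c / (K + 1)) := by
        have : ball (0 : ℂ) (min (min δ₂ δ₃) (c / (K + 1))) ∈ 𝓝 (0 : ℂ) :=
          ball_mem_nhds _ (by positivity)
        filter_upwards [this] with l hl
        simpa using hl
      filter_upwards [hev] with l hl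
      have hl1 := hl.trans_le (min_le_left _ _)
      have hl2 := hl.trans_le (min_le_right _ _)
      rw [lt_div_iff₀ (by positivity)] at hl2
      have h1 := hbound l hl1
      simp only [zero_apply, sub_zero, Real.norm_eq_abs]
      refine h1.trans ?_
      have := norm_nonneg l
      nlinarith
    have hw0 : w 0 = 1 / 2 := by
      simp only [w]
      rw [div_eq_iff hσ₁pos.ne']
      linarith
    have hconst : ∀ ζ ∈ ball (0 : ℂ) r, w ζ = 1 / 2 := by
      intro ζ hζ
      rw [← hw0]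
      apply (convex_ball (0 : ℂ) r).is_const_of_fderivWithin_eq_zero (𝕜 := ℝ) (f := w) (s := ball 0 r)
      · exact fun z hz => (hder z hz).differentiableAt.differentiableWithinAt
      · intro z hz
        exact ((hder z hz).hasFDerivWithinAt).fderivWithin (isOpen_ball.uniqueDiffWithinAt hz)
      · exact hζ
      · exact mem_ball_self hr
    apply hcrit (r / 2) (by positivity) (by linarith) 0 hε
    intro ζ hζ
    have hζ' : ζ ∈ ball (0 : ℂ) r := by
      rw [mem_sphere] at hζ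
      rw [mem_ball, hζ]
      linarith
    have h1 := (hatt ζ hζ').2
    rw [hconst ζ hζ'] at h1
    rw [h1]
    simp
  · -- Case I: 0 is the unique maximiser
    push Not at hcase
    set η := min δ (ε * r ^ 2 / 10) with hη
    have hηpos : 0 < η := by positivity
    have hηδ : η ≤ δ := min_le_left _ _
    have hηε : η ≤ ε * r ^ 2 / 10 := min_le_right _ _
    have c1 : ∀ᶠ ζ in 𝓝 (0 : ℂ), E a b u η ζ + η / 2 < E a b u 0 ζ := by
      have hc : Continuous fun ζ => E a b u η ζ + η / 2 := by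
        have := hEc η
        fun_prop
      exact hc.continuousAt.eventually_lt (hEc 0).continuousAt (hcase η hηpos)
    have c2 : ∀ᶠ ζ in 𝓝 (0 : ℂ), E a b u (-η) ζ + (-η) / 2 < E a b u 0 ζ := by
      have hc : Continuous fun ζ => E a b u (-η) ζ + (-η) / 2 := by
        have := hEc (-η)
        fun_prop
      apply hc.continuousAt.eventually_lt (hEc 0).continuousAt
      rw [h.G_even η]
      exact hcase η hηpos
    obtain ⟨ρ₀, hρ₀, hρ₀'⟩ := Metric.eventually_nhds_iff.mp (c1.and c2)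
    set ρ := min (ρ₀ / 2) (r / 2) with hρ
    have hρpos : 0 < ρ := by positivity
    have hρ1 : ρ ≤ ρ₀ / 2 := min_le_left _ _
    have hρ2 : ρ ≤ r / 2 := min_le_right _ _
    apply hcrit ρ hρpos (by linarith) (ε / 2) (by linarith)
    intro ζ hζ
    have hζn : ‖ζ‖ = ρ := by simpa using hζ
    have hζd : dist ζ 0 < ρ₀ := by
      rw [dist_zero_right, hζn]
      linarith
    have hζr : ‖ζ‖ ≤ r / 2 := by rw [hζn]; exact hρ2
    have hζb : ζ ∈ ball (0 : ℂ) r := by
      rw [mem_ball_zero_iff]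
      linarith
    have hζb' : -ζ ∈ ball (0 : ℂ) r := by
      rw [mem_ball_zero_iff, norm_neg]
      linarith
    obtain ⟨d1, d2⟩ := hρ₀' hζd
    obtain ⟨σ, hσ⟩ := h.dual ζ
    have hWE := h.E_zero_le_W ζ half_mem
    rw [hσ] at hWE
    have hσ1 : σ < η := by
      by_contra hcon
      push Not at hcon
      have := h.G_between hηpos hcon hWE
      linarith
    have hσ2 : -η < σ := by
      by_contra hcon
      push Not at hcon
      have := h.G_between_neg hηpos hcon hWE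
      linarith
    have hσabs : |σ| ≤ η := abs_le.mpr ⟨hσ2.le, hσ1.le⟩
    have hσδ : |σ| ≤ δ := hσabs.trans hηδ
    -- the harmonic even function q = E_σ - E_0
    let q : ℂ → ℝ := fun z => E a b u σ z - E a b u 0 z
    have hqc : Continuous q := (hEc σ).sub (hEc 0)
    have hqM : ∀ z ∈ sphere (0 : ℂ) r, |q z| ≤ |σ| := by
      intro z _
      have e1 := h.E_lip σ 0 z
      have e2 := h.E_lip 0 σ z
      rw [sub_zero] at e1
      rw [zero_sub, abs_neg] at e2
      rw [abs_le]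
      simp only [q]
      constructor <;> linarith
    have hqPI : ∀ z ∈ ball (0 : ℂ) r, q z = PI q r z := by
      intro z hz
      have e1 : E a b u σ z = PI (E a b u σ) r z := by
        rw [← PE_of_mem hz, ← hE σ hσδ]
      have e2 : E a b u 0 z = PI (E a b u 0) r z := by
        rw [← PE_of_mem hz, ← hE 0 h00]
      simp only [q]
      rw [e1, e2]
      unfold PI
      have i1 := circleIntegrable_poissonKernel_mul hz
        (circleIntegrable_of_continuousOn hr (hEc σ).continuousOn)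
      have i2 := circleIntegrable_poissonKernel_mul hz
        (circleIntegrable_of_continuousOn hr (hEc 0).continuousOn)
      rw [← circleAverage_fun_sub i1 i2]
      congr 1
      ext x
      ring
    have hqeven : q (-ζ) = q ζ := by
      simp only [q, h.E_neg]
    have hb := PI_even_bound hr hqc.continuousOn hqM hζr
    rw [← hqPI ζ hζb, ← hqPI (-ζ) hζb', ← hqPI 0 (mem_ball_self hr), hqeven] at hb
    have hb' := (abs_le.mp hb).2
    have hqζ : q ζ ≤ q 0 + 5 * ‖ζ‖ ^ 2 / r ^ 2 * |σ| := by linarith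
    have hG := h.G_le σ
    have hfin : 5 * ‖ζ‖ ^ 2 / r ^ 2 * |σ| ≤ ε / 2 * ρ ^ 2 := by
      rw [hζn]
      calc 5 * ρ ^ 2 / r ^ 2 * |σ| ≤ 5 * ρ ^ 2 / r ^ 2 * (ε * r ^ 2 / 10) := by
            gcongr
            exact hσabs.trans hηε
        _ = ε / 2 * ρ ^ 2 := by
            field_simp
            ring
    rw [hσ]
    simp only [q] at hqζ
    linarith

end Pool.Agent.H90
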