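import Pool.Agent.H90.Mollify

/-!
# Plurisubharmonic functions along holomorphic discs
-/

open Complex MeasureTheory Metric Real Set InnerProductSpace Topology Filter

namespace Pool.Agent.H90

theorem circleAverage_norm_sq (ξ₀ : ℂ) (s : ℝ) :
    circleAverage (fun ξ : ℂ => ‖ξ‖ ^ 2) ξ₀ s = ‖ξ₀‖ ^ 2 + s ^ 2 := by
  rw [circleAverage_translate]
  have e : (fun z : ℂ => ‖ξ₀ + z‖ ^ 2) = fun z : ℂ => ‖ξ₀‖ ^ 2 +
      ((2 * ξ₀.re) * z.re + (2 * ξ₀.im) * z.im + 1 * z.re ^ 2 + 0 * (z.re * z.im) + 1 * z.im ^ 2) := by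
    ext z
    rw [← Complex.normSq_eq_norm_sq, ← Complex.normSq_eq_norm_sq, Complex.normSq_apply,
      Complex.normSq_apply]
    simp only [add_re, add_im]
    ring
  rw [e, circleAverage_fun_add (circleIntegrable_const _ _ _), circleAverage_const,
    circleAverage_quad]
  · ring
  · apply ContinuousOn.circleIntegrable'
    apply Continuous.continuousOn
    fun_prop

/-- Local estimate: a smooth psh function composed with a holomorphic map. -/
theorem LSM_comp_holo {v : ℂ × ℂ → ℝ} {N : Set (ℂ × ℂ)} (hN : IsOpen N) (hv : ContDiff ℝ 2 v)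
    (hp : PshOn v N) {γ : ℂ → ℂ × ℂ} {U : Set ℂ} (hU : IsOpen U) (hγ : DifferentiableOn ℂ γ U)
    {ξ₀ : ℂ} (hξ₀ : ξ₀ ∈ U) (hγN : γ ξ₀ ∈ N) {ε : ℝ} (hε : 0 < ε) :
    LSM (fun ξ => v (γ ξ) + ε * ‖ξ‖ ^ 2) ξ₀ := by
  set p := γ ξ₀ with hpdef
  set w := deriv γ ξ₀ with hw
  have hd : Differentiable ℝ v := hv.differentiable (by norm_num)
  have hd1 : ContDiff ℝ 1 (fderiv ℝ v) := hv.fderiv_right (by norm_num)
  have hd2 : Differentiable ℝ (fderiv ℝ v) := hd1.differentiable (by norm_num)
  obtain ⟨C, hC⟩ := ((hd2 p).hasFDerivAt.isBigO_sub).bound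
  obtain ⟨δ, hδ, hδ'⟩ := Metric.eventually_nhds_iff.mp hC
  have hC0 : 0 ≤ |C| := abs_nonneg C
  -- differentiability of γ
  have hγd : HasDerivAt γ w ξ₀ := ((hγ.differentiableAt (hU.mem_nhds hξ₀))).hasDerivAt
  set C1 : ℝ := ‖w‖ + 1 with hC1
  have hC1pos : 0 < C1 := by positivity
  set ε₂ : ℝ := min 1 (ε / (|C| * C1 + 1)) with hε₂
  have hε₂pos : 0 < ε₂ := by positivity
  have hε₂1 : ε₂ ≤ 1 := min_le_left _ _
  have hε₂2 : ε₂ * (|C| * C1 + 1) ≤ ε := by
    rw [← le_div_iff₀ (by positivity)]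
    exact min_le_right _ _
  have hlo := (hasDerivAt_iff_isLittleO_nhds_zero.mp hγd).def hε₂pos
  obtain ⟨δ₂, hδ₂, hδ₂'⟩ := Metric.eventually_nhds_iff.mp hlo
  obtain ⟨r, hr, hrU⟩ := Metric.isOpen_iff.mp hU ξ₀ hξ₀
  obtain ⟨s₁, hs₁, hs₁'⟩ := hp.LSM hN hγN w
  refine ⟨min (min δ₂ r) (min s₁ (δ / C1)), by positivity, fun s hs hs' => ?_⟩
  have hsδ₂ : s < δ₂ := hs'.trans_le ((min_le_left _ _).trans (min_le_left _ _))
  have hsr : s < r := hs'.trans_le ((min_le_left _ _).trans (min_le_right _ _))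
  have hss₁ : s < s₁ := hs'.trans_le ((min_le_right _ _).trans (min_le_left _ _))
  have hsδ : s * C1 < δ := by
    rw [← lt_div_iff₀ hC1pos]
    exact hs'.trans_le ((min_le_right _ _).trans (min_le_right _ _))
  have hcb : closedBall ξ₀ s ⊆ U := (closedBall_subset_ball hsr).trans hrU
  have hvc : Continuous v := hv.continuous
  have hγc : ContinuousOn γ (closedBall ξ₀ s) := hγ.continuousOn.mono hcb
  -- the line average
  have hline := hs₁' s hs hss₁
  simp only [zero_smul, add_zero] at hline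
  have hline' : circleAverage (fun ξ : ℂ => v (p + (ξ - ξ₀) • w)) ξ₀ s =
      circleAverage (fun ξ : ℂ => v (p + ξ • w)) 0 s := by
    rw [circleAverage_translate]
    simp only [add_sub_cancel_left]
  -- the holomorphic remainder has zero average
  let F : ℂ → ℂ × ℂ := fun ξ => γ ξ - p - (ξ - ξ₀) • w
  have hFd : DifferentiableOn ℂ F U := by
    apply DifferentiableOn.sub
    · exact hγ.sub_const p
    · apply Differentiable.differentiableOn
      fun_prop
  have hFavg : circleAverage F ξ₀ s = 0 := by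
    have h1 : circleAverage F ξ₀ s = F ξ₀ := by
      apply circleAverage_of_differentiable_on_off_countable Set.countable_empty
      · rw [abs_of_pos hs]
        exact hFd.continuousOn.mono hcb
      · intro z hz
        rw [abs_of_pos hs] at hz
        exact hFd.differentiableAt (hU.mem_nhds (hcb (ball_subset_closedBall hz.1)))
    rw [h1]
    simp [F, hpdef]
  have hFint : CircleIntegrable F ξ₀ s := by
    apply ContinuousOn.circleIntegrable'
    rw [abs_of_pos hs]
    exact hFd.continuousOn.mono (sphere_subset_closedBall.trans hcb)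
  set D1 := fderiv ℝ v p with hD1
  have hDavg : circleAverage (fun ξ => D1 (F ξ)) ξ₀ s = 0 := by
    have := ContinuousLinearMap.circleAverage_comp_comm (L := D1) hFint
    have h2 : circleAverage (fun ξ => D1 (F ξ)) ξ₀ s = circleAverage (⇑D1 ∘ F) ξ₀ s := rfl
    rw [h2, this, hFavg, map_zero]
  have hDint : CircleIntegrable (fun ξ => D1 (F ξ)) ξ₀ s := by
    apply ContinuousOn.circleIntegrable'
    rw [abs_of_pos hs]
    exact D1.continuous.comp_continuousOn
      (hFd.continuousOn.mono (sphere_subset_closedBall.trans hcb))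
  have hlint : CircleIntegrable (fun ξ : ℂ => v (p + (ξ - ξ₀) • w)) ξ₀ s := by
    apply ContinuousOn.circleIntegrable'
    apply Continuous.continuousOn
    fun_prop
  have hgint : CircleIntegrable (fun ξ : ℂ => v (γ ξ)) ξ₀ s := by
    apply ContinuousOn.circleIntegrable'
    rw [abs_of_pos hs]
    exact hvc.comp_continuousOn (hγc.mono sphere_subset_closedBall)
  -- pointwise estimate
  have hpt : ∀ ξ ∈ sphere ξ₀ |s|, v (p + (ξ - ξ₀) • w) + D1 (F ξ) - ε * s ^ 2 ≤ v (γ ξ) := by
    intro ξ hξ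
    rw [abs_of_pos hs] at hξ
    have hξ' : ‖ξ - ξ₀‖ = s := by simpa [dist_eq_norm] using hξ
    have hF : ‖F ξ‖ ≤ ε₂ * s := by
      have := hδ₂' (y := ξ - ξ₀) (by simpa [hξ'] using hsδ₂)
      rw [hξ', add_sub_cancel] at this
      exact this
    have hq : ‖(ξ - ξ₀) • w‖ ≤ C1 * s := by
      rw [norm_smul, hξ', hC1]
      nlinarith
    have hγp : ‖γ ξ - p‖ ≤ C1 * s := by
      have : γ ξ - p = F ξ + (ξ - ξ₀) • w := by simp [F]
      rw [this]
      refine (norm_add_le _ _).trans ?_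
      rw [norm_smul, hξ', hC1]
      nlinarith
    have hb : ∀ x ∈ closedBall p (C1 * s), ‖fderiv ℝ v x - D1‖ ≤ |C| * (C1 * s) := by
      intro x hx
      have hx' : ‖x - p‖ ≤ C1 * s := by simpa [dist_eq_norm] using hx
      have hxδ : dist x p < δ := by
        rw [dist_eq_norm]
        linarith
      have h1 := hδ' hxδ
      refine h1.trans ?_
      calc C * ‖x - p‖ ≤ |C| * ‖x - p‖ := by
            gcongr
            exact le_abs_self C
        _ ≤ _ := by gcongr
    have hder : ∀ x ∈ closedBall p (C1 * s), HasFDerivWithinAt (fun x => v x - D1 x)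
        (fderiv ℝ v x - D1) (closedBall p (C1 * s)) x := by
      intro x _
      apply HasFDerivAt.hasFDerivWithinAt
      exact (hd x).hasFDerivAt.sub D1.hasFDerivAt
    have hm1 : p + (ξ - ξ₀) • w ∈ closedBall p (C1 * s) := by
      rw [mem_closedBall, dist_eq_norm, add_sub_cancel_left]
      exact hq
    have hm2 : γ ξ ∈ closedBall p (C1 * s) := by
      rw [mem_closedBall, dist_eq_norm]
      exact hγp
    have h3 := (convex_closedBall p (C1 * s)).norm_image_sub_le_of_norm_hasFDerivWithin_le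
      hder hb hm2 hm1
    have h4 : ‖p + (ξ - ξ₀) • w - γ ξ‖ = ‖F ξ‖ := by
      rw [← norm_neg]
      congr 1
      simp only [F]
      abel
    rw [h4, Real.norm_eq_abs] at h3
    have h5 : v (p + (ξ - ξ₀) • w) - D1 (p + (ξ - ξ₀) • w) - (v (γ ξ) - D1 (γ ξ)) =
        v (p + (ξ - ξ₀) • w) + D1 (F ξ) - v (γ ξ) := by
      simp only [F, map_sub, map_add]
      ring
    rw [h5] at h3
    have h6 := (abs_le.mp h3).2
    have h7 : |C| * (C1 * s) * ‖F ξ‖ ≤ ε * s ^ 2 := by
      calc |C| * (C1 * s) * ‖F ξ‖ ≤ |C| * (C1 * s) * (ε₂ * s) := by gcongr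
        _ = ε₂ * (|C| * C1) * s ^ 2 := by ring
        _ ≤ ε * s ^ 2 := by
          gcongr
          nlinarith
    linarith
  have hmono := circleAverage_mono (c := ξ₀) (R := s)
    ((hlint.add hDint).sub (circleIntegrable_const (ε * s ^ 2) ξ₀ s)) hgint hpt
  have hL : circleAverage (((fun ξ : ℂ => v (p + (ξ - ξ₀) • w)) + fun ξ => D1 (F ξ)) -
      fun _ => ε * s ^ 2) ξ₀ s = circleAverage (fun ξ : ℂ => v (p + ξ • w)) 0 s - ε * s ^ 2 := by
    rw [circleAverage_sub (hlint.add hDint) (circleIntegrable_const (ε * s ^ 2) ξ₀ s),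
      circleAverage_add hlint hDint, hDavg, hline', circleAverage_const, add_zero]
  rw [hL] at hmono
  rw [circleAverage_fun_add hgint, circleAverage_const_mul, circleAverage_norm_sq]
  · change v p + ε * ‖ξ₀‖ ^ 2 ≤ _
    linarith
  · apply ContinuousOn.circleIntegrable'
    apply Continuous.continuousOn
    fun_prop

/-- Sub-mean value property along holomorphic discs. -/
theorem PshOn.holo {u : ℂ × ℂ → ℝ} {Ω : Set (ℂ × ℂ)} (hΩ : IsOpen Ω) (hu : PshOn u Ω)
    {γ : ℂ → ℂ × ℂ} {U : Set ℂ} (hU : IsOpen U) (hcb : closedBall (0 : ℂ) 1 ⊆ U)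
    (hγ : DifferentiableOn ℂ γ U) (hmem : ∀ ξ ∈ closedBall (0 : ℂ) 1, γ ξ ∈ Ω) :
    u (γ 0) ≤ circleAverage (fun ξ => u (γ ξ)) 0 1 := by
  have hγc : ContinuousOn γ (closedBall 0 1) := hγ.continuousOn.mono hcb
  have hK : IsCompact (γ '' closedBall 0 1) := (isCompact_closedBall 0 1).image_of_continuousOn hγc
  have h0 : (0 : ℂ) ∈ closedBall (0 : ℂ) 1 := by simp
  have hui : CircleIntegrable (fun ξ => u (γ ξ)) 0 1 := by
    apply circleIntegrable_of_continuousOn one_pos
    exact hu.cont.comp (hγc.mono sphere_subset_closedBall)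
      fun ξ hξ => hmem ξ (sphere_subset_closedBall hξ)
  apply le_of_forall_pos_le_add
  intro η hη
  obtain ⟨v, N, hN, hKN, -, hvd, hvp, hvu⟩ := exists_smooth_approx hΩ hK
    (by rintro _ ⟨ξ, hξ, rfl⟩; exact hmem ξ hξ) hu (η := η / 3) (by positivity)
  have hmemN : ∀ ξ ∈ closedBall (0 : ℂ) 1, γ ξ ∈ N := fun ξ hξ => hKN ⟨ξ, hξ, rfl⟩
  have hv2 : ContDiff ℝ 2 v := contDiff_infty.mp hvd 2
  have hvc : Continuous v := hvd.continuous
  have hvi : CircleIntegrable (fun ξ => v (γ ξ)) 0 1 := by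
    apply circleIntegrable_of_continuousOn one_pos
    exact hvc.comp_continuousOn (hγc.mono sphere_subset_closedBall)
  have h1 := LSM.global (g := fun ξ => v (γ ξ) + η / 3 * ‖ξ‖ ^ 2) (c := 0) (R := 1) one_pos ?_ ?_
  · rw [circleAverage_fun_add hvi, circleAverage_const_mul, circleAverage_norm_sq] at h1
    · simp only [norm_zero] at h1
      have h2 : circleAverage (fun ξ => v (γ ξ)) 0 1 ≤
          circleAverage (fun ξ => u (γ ξ) + η / 3) 0 1 := by
        apply circleAverage_mono hvi (hui.add (circleIntegrable_const _ _ _))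
        intro ξ hξ
        rw [abs_one] at hξ
        have := (abs_le.mp (hvu _ (hmemN ξ (sphere_subset_closedBall hξ)))).2
        change v (γ ξ) ≤ u (γ ξ) + η / 3
        linarith
      rw [circleAverage_fun_add hui (circleIntegrable_const _ _ _), circleAverage_const] at h2
      have h3 := (abs_le.mp (hvu _ (hmemN 0 h0))).1
      linarith
    · apply ContinuousOn.circleIntegrable'
      apply Continuous.continuousOn
      fun_prop
  · apply ContinuousOn.add
    · exact hvc.comp_continuousOn hγc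
    · apply Continuous.continuousOn
      fun_prop
  · intro ξ hξ
    exact LSM_comp_holo hN hv2 hvp hU hγ (hcb (ball_subset_closedBall hξ))
      (hmemN ξ (ball_subset_closedBall hξ)) (by positivity)

end Pool.Agent.H90
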