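import Pool.Agent.H90.Global
import Pool.Agent.H90.Holo

/-!
# The weak geodesic with cosine data: symmetries and semiconcavity
-/

open Complex MeasureTheory Metric Real Set InnerProductSpace Topology Filter

namespace Pool.Agent.H90

/-- The potential `u = |ζ|^2 + φ` of a weak geodesic with the cosine boundary data. -/
structure Geo (a b B : ℝ) (u : ℂ × ℂ → ℝ) : Prop where
  ha : 0 < a
  hab : a < b
  hB : 0 ≤ B
  cont : ContinuousOn u (Cl a b)
  psh : PshOn u (Dom a b)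
  bt : BTZero u (Dom a b)
  bdd : ∃ C, ∀ p ∈ Cl a b, |u p - ‖p.1‖ ^ 2| ≤ C
  bd1 : ∀ ζ z : ℂ, ‖z‖ = a → u (ζ, z) = ‖ζ‖ ^ 2 + B * Real.cos (2 * π * ζ.im)
  bd2 : ∀ ζ z : ℂ, ‖z‖ = b → u (ζ, z) = ‖ζ‖ ^ 2 + B * Real.cos (2 * π * ζ.re)

variable {a b B : ℝ} {u : ℂ × ℂ → ℝ}

theorem Geo.hb (h : Geo a b B u) : 0 < b := h.ha.trans h.hab

/-- Every competitor with the right growth and boundary values lies below `u`. -/
theorem Geo.comparison (h : Geo a b B u) {v : ℂ × ℂ → ℝ} (hvc : ContinuousOn v (Cl a b))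
    (hv : PshOn v (Dom a b)) {C' : ℝ} (hvb : ∀ p ∈ Cl a b, v p ≤ ‖p.1‖ ^ 2 + C')
    (h1 : ∀ ζ z : ℂ, ‖z‖ = a → v (ζ, z) ≤ ‖ζ‖ ^ 2 + B * Real.cos (2 * π * ζ.im))
    (h2 : ∀ ζ z : ℂ, ‖z‖ = b → v (ζ, z) ≤ ‖ζ‖ ^ 2 + B * Real.cos (2 * π * ζ.re)) :
    ∀ p ∈ Cl a b, v p ≤ u p := by
  obtain ⟨C, hC⟩ := h.bdd
  apply Pool.Agent.H90.comparison h.hb h.cont h.bt hC hvc hv (C' := C + C')
  · intro p hp
    have h3 := (abs_le.mp (hC p hp)).1
    have h4 := hvb p hp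
    linarith
  · rintro ⟨ζ, z⟩ hp (h3 | h3)
    · rw [h.bd1 ζ z h3]
      exact h1 ζ z h3
    · rw [h.bd2 ζ z h3]
      exact h2 ζ z h3

theorem Geo.rot_le (h : Geo a b B u) {α : ℂ} (hα : ‖α‖ = 1) :
    ∀ p ∈ Cl a b, u (p.1, α * p.2) ≤ u p := by
  obtain ⟨C, hC⟩ := h.bdd
  have hmap : ∀ p ∈ Cl a b, ((p.1, α * p.2) : ℂ × ℂ) ∈ Cl a b := by
    intro p hp
    simpa [Cl, hα] using hp
  have hmap' : ∀ p ∈ Dom a b, ((p.1, α * p.2) : ℂ × ℂ) ∈ Dom a b := by
    intro p hp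
    simpa [Dom, hα] using hp
  have hc : ContinuousOn (fun p : ℂ × ℂ => u (p.1, α * p.2)) (Cl a b) :=
    h.cont.comp (Continuous.continuousOn (by fun_prop)) hmap
  apply h.comparison (C' := C) hc
  · have := h.psh.comp_affine (Ω' := Dom a b)
      ((ContinuousLinearMap.fst ℂ ℂ ℂ).prod (α • ContinuousLinearMap.snd ℂ ℂ ℂ)) 0 ?_
    · refine this.congr fun p _ => ?_
      simp
    · intro p hp
      simpa using hmap' p hp
  · intro p hp
    have := (abs_le.mp (hC _ (hmap p hp))).2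
    simp only at this
    linarith
  · intro ζ z hz
    rw [h.bd1]
    simp [hα, hz]
  · intro ζ z hz
    rw [h.bd2]
    simp [hα, hz]

theorem Geo.rot (h : Geo a b B u) {α : ℂ} (hα : ‖α‖ = 1) {ζ z : ℂ} (hp : (ζ, z) ∈ Cl a b) :
    u (ζ, α * z) = u (ζ, z) := by
  apply le_antisymm
  · exact h.rot_le hα (ζ, z) hp
  · have hα0 : α ≠ 0 := by
      intro h0
      rw [h0] at hα
      simp at hα
    have h1 := h.rot_le (α := α⁻¹) (by simp [hα]) (ζ, α * z) (by simpa [Cl, hα] using hp)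
    simp only at h1
    rwa [inv_mul_cancel_left₀ hα0] at h1

/-- `u` depends only on `|z|`. -/
theorem Geo.eq_of_norm (h : Geo a b B u) {ζ z z' : ℂ} (hp : (ζ, z) ∈ Cl a b) (hz : ‖z'‖ = ‖z‖) :
    u (ζ, z') = u (ζ, z) := by
  have hz0 : z ≠ 0 := by
    intro h0
    have := hp.1
    simp only [h0, norm_zero] at this
    linarith [h.ha]
  have hα : ‖z' / z‖ = 1 := by
    rw [norm_div, hz]
    exact div_self (norm_ne_zero_iff.mpr hz0)
  have := h.rot hα hp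
  rwa [div_mul_cancel₀ _ hz0] at this

theorem inv_mem_Cl (ha : 0 < a) (hab : a < b) {ζ ζ' z : ℂ} (hp : (ζ, z) ∈ Cl a b) :
    (ζ', (a * b : ℂ) / z) ∈ Cl a b := by
  obtain ⟨h1, h2⟩ := hp
  simp only at h1 h2
  have hz : 0 < ‖z‖ := ha.trans_le h1
  have hn : ‖(a * b : ℂ) / z‖ = a * b / ‖z‖ := by
    rw [norm_div, norm_mul, Complex.norm_real, Complex.norm_real, Real.norm_eq_abs,
      Real.norm_eq_abs, abs_of_pos ha, abs_of_pos (ha.trans hab)]
  have hb := ha.trans hab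
  constructor
  · simp only
    rw [hn, le_div_iff₀ hz]
    exact mul_le_mul_of_nonneg_left h2 ha.le
  · simp only
    rw [hn, div_le_iff₀ hz, mul_comm]
    exact mul_le_mul_of_nonneg_left h1 hb.le

theorem inv_mem_Dom (ha : 0 < a) (hab : a < b) {ζ ζ' z : ℂ} (hp : (ζ, z) ∈ Dom a b) :
    (ζ', (a * b : ℂ) / z) ∈ Dom a b := by
  obtain ⟨h1, h2⟩ := hp
  simp only at h1 h2
  have hz : 0 < ‖z‖ := ha.trans h1
  have hn : ‖(a * b : ℂ) / z‖ = a * b / ‖z‖ := by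
    rw [norm_div, norm_mul, Complex.norm_real, Complex.norm_real, Real.norm_eq_abs,
      Real.norm_eq_abs, abs_of_pos ha, abs_of_pos (ha.trans hab)]
  have hb := ha.trans hab
  constructor
  · simp only
    rw [hn, lt_div_iff₀ hz]
    exact mul_lt_mul_of_pos_left h2 ha
  · simp only
    rw [hn, div_lt_iff₀ hz, mul_comm]
    exact mul_lt_mul_of_pos_left h1 hb

theorem Geo.ne_zero (h : Geo a b B u) {ζ z : ℂ} (hp : (ζ, z) ∈ Cl a b) : z ≠ 0 := by
  intro h0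
  have := hp.1
  simp only [h0, norm_zero] at this
  linarith [h.ha]

theorem Geo.sym_le (h : Geo a b B u) : ∀ p ∈ Cl a b, u (I * p.1, (a * b : ℂ) / p.2) ≤ u p := by
  obtain ⟨C, hC⟩ := h.bdd
  have hab' : (a * b : ℂ) ≠ 0 := by
    have := h.ha.ne'
    have := h.hb.ne'
    simp [*]
  have hmap : ∀ p ∈ Cl a b, ((I * p.1, (a * b : ℂ) / p.2) : ℂ × ℂ) ∈ Cl a b := fun p hp =>
    inv_mem_Cl h.ha h.hab (ζ := p.1) hp
  have hmap' : ∀ p ∈ Dom a b, ((I * p.1, (a * b : ℂ) / p.2) : ℂ × ℂ) ∈ Dom a b := fun p hp =>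
    inv_mem_Dom h.ha h.hab (ζ := p.1) hp
  have hgc : ContinuousOn (fun p : ℂ × ℂ => ((I * p.1, (a * b : ℂ) / p.2) : ℂ × ℂ)) (Cl a b) := by
    apply ContinuousOn.prodMk
    · exact Continuous.continuousOn (by fun_prop)
    · apply ContinuousOn.div continuousOn_const continuous_snd.continuousOn
      intro p hp
      exact h.ne_zero (ζ := p.1) hp
  have hc : ContinuousOn (fun p : ℂ × ℂ => u (I * p.1, (a * b : ℂ) / p.2)) (Cl a b) :=
    h.cont.comp hgc hmap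
  apply h.comparison (C' := C) hc
  · refine ⟨hc.mono (Dom_subset_Cl a b), fun p w hpw => ?_⟩
    have hU : IsOpen {ξ : ℂ | p.2 + ξ * w.2 ≠ 0} :=
      isOpen_ne_fun (by fun_prop) continuous_const
    have hsub : closedBall (0 : ℂ) 1 ⊆ {ξ : ℂ | p.2 + ξ * w.2 ≠ 0} := by
      intro ξ hξ
      have := h.ne_zero (Dom_subset_Cl a b (hpw ξ hξ))
      simpa using this
    have := h.psh.holo (isOpen_Dom a b) (γ := fun ξ => (I * (p.1 + ξ * w.1),
      (a * b : ℂ) / (p.2 + ξ * w.2))) hU hsub ?_ ?_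
    · simpa using this
    · apply DifferentiableOn.prodMk
      · apply Differentiable.differentiableOn
        fun_prop
      · apply DifferentiableOn.div
        · exact differentiableOn_const _
        · apply Differentiable.differentiableOn
          fun_prop
        · intro ξ hξ
          exact hξ
    · intro ξ hξ
      have := hmap' _ (hpw ξ hξ)
      simpa using this
  · intro p hp
    have := (abs_le.mp (hC _ (hmap p hp))).2
    simp only [norm_mul, norm_I, one_mul] at this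
    linarith
  · intro ζ z hz
    rw [h.bd2]
    · simp only [norm_mul, norm_I, one_mul, mul_re, I_re, zero_mul, I_im, zero_sub]
      rw [mul_neg, Real.cos_neg]
    · rw [norm_div, norm_mul, Complex.norm_real, Complex.norm_real, Real.norm_eq_abs,
        Real.norm_eq_abs, abs_of_pos h.ha, abs_of_pos h.hb, hz]
      have := h.ha.ne'
      field_simp
  · intro ζ z hz
    rw [h.bd1]
    · simp only [norm_mul, norm_I, one_mul, mul_im, I_re, zero_mul, I_im, zero_add]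
      exact le_rfl
    · rw [norm_div, norm_mul, Complex.norm_real, Complex.norm_real, Real.norm_eq_abs,
        Real.norm_eq_abs, abs_of_pos h.ha, abs_of_pos h.hb, hz]
      have := h.hb.ne'
      field_simp

theorem Geo.neg_le (h : Geo a b B u) {ζ z : ℂ} (hp : (ζ, z) ∈ Cl a b) :
    u (-ζ, z) ≤ u (I * ζ, (a * b : ℂ) / z) := by
  have hz := h.ne_zero hp
  have hab' : (a * b : ℂ) ≠ 0 := by
    have := h.ha.ne'
    have := h.hb.ne'
    simp [*]
  have := h.sym_le (I * ζ, (a * b : ℂ) / z) (inv_mem_Cl h.ha h.hab hp)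
  simp only at this
  have e1 : I * (I * ζ) = -ζ := by
    rw [← mul_assoc, I_mul_I]
    ring
  have e2 : (a * b : ℂ) / ((a * b : ℂ) / z) = z := by
    field_simp
    exact div_self hab'
  rwa [e1, e2] at this

theorem Geo.neg (h : Geo a b B u) {ζ z : ℂ} (hp : (ζ, z) ∈ Cl a b) : u (-ζ, z) = u (ζ, z) := by
  have hp' : (-ζ, z) ∈ Cl a b := hp
  apply le_antisymm
  · exact (h.neg_le hp).trans (h.sym_le _ hp)
  · have := (h.neg_le hp').trans (h.sym_le _ hp')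
    rwa [neg_neg] at this

theorem Geo.sym (h : Geo a b B u) {ζ z : ℂ} (hp : (ζ, z) ∈ Cl a b) :
    u (I * ζ, (a * b : ℂ) / z) = u (ζ, z) := by
  apply le_antisymm (h.sym_le _ hp)
  rw [← h.neg hp]
  exact h.neg_le hp

theorem cos_semiconcave (hB : 0 ≤ B) (x h : ℝ) :
    B * Real.cos (2 * π * (x + h)) + B * Real.cos (2 * π * (x - h)) ≤
      2 * (B * Real.cos (2 * π * x)) + B * (2 * π * h) ^ 2 := by
  have e1 : 2 * π * (x + h) = 2 * π * x + 2 * π * h := by ring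
  have e2 : 2 * π * (x - h) = 2 * π * x - 2 * π * h := by ring
  rw [e1, e2, Real.cos_add, Real.cos_sub]
  have h1 := Real.one_sub_sq_div_two_le_cos (x := 2 * π * h)
  have h2 := Real.cos_le_one (2 * π * h)
  have h3 := Real.neg_one_le_cos (2 * π * x)
  have h4 : 0 ≤ (1 + Real.cos (2 * π * x)) * (1 - Real.cos (2 * π * h)) :=
    mul_nonneg (by linarith) (by linarith)
  have h5 : 2 * (Real.cos (2 * π * x) * Real.cos (2 * π * h)) ≤
      2 * Real.cos (2 * π * x) + (2 * π * h) ^ 2 := by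
    nlinarith
  have h6 := mul_le_mul_of_nonneg_left h5 hB
  linarith

theorem norm_sq_add_sub (ζ l : ℂ) : ‖ζ + l‖ ^ 2 + ‖ζ - l‖ ^ 2 = 2 * ‖ζ‖ ^ 2 + 2 * ‖l‖ ^ 2 := by
  rw [← Complex.normSq_eq_norm_sq, ← Complex.normSq_eq_norm_sq, ← Complex.normSq_eq_norm_sq,
    ← Complex.normSq_eq_norm_sq]
  simp only [Complex.normSq_apply, add_re, add_im, sub_re, sub_im]
  ring

theorem Geo.semiconcave (h : Geo a b B u) : ∃ C, 0 ≤ C ∧ ∀ l ζ z : ℂ, (ζ, z) ∈ Cl a b →
    u (ζ + l, z) + u (ζ - l, z) ≤ 2 * u (ζ, z) + C * ‖l‖ ^ 2 := by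
  obtain ⟨C, hC⟩ := h.bdd
  have hB := h.hB
  refine ⟨2 + B * (2 * π) ^ 2, by positivity, fun l ζ z hp => ?_⟩
  set C₁ : ℝ := 2 + B * (2 * π) ^ 2 with hC₁
  have hmap : ∀ l : ℂ, ∀ p ∈ Cl a b, ((p.1 + l, p.2) : ℂ × ℂ) ∈ Cl a b := fun l p hp => hp
  have hmap' : ∀ l : ℂ, ∀ p ∈ Dom a b, ((p.1 + l, p.2) : ℂ × ℂ) ∈ Dom a b := fun l p hp => hp
  have hc : ∀ l : ℂ, ContinuousOn (fun p : ℂ × ℂ => u (p.1 + l, p.2)) (Cl a b) := fun l =>
    h.cont.comp (Continuous.continuousOn (by fun_prop)) (hmap l)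
  have hps : ∀ l : ℂ, PshOn (fun p : ℂ × ℂ => u (p.1 + l, p.2)) (Dom a b) := by
    intro l
    have := h.psh.comp_affine (Ω' := Dom a b) (ContinuousLinearMap.id ℂ (ℂ × ℂ)) (l, 0) ?_
    · refine this.congr fun p _ => ?_
      congr 1
      ext <;> simp [add_comm]
    · intro p hp
      have : ((l, 0) : ℂ × ℂ) + (ContinuousLinearMap.id ℂ (ℂ × ℂ)) p = (p.1 + l, p.2) := by
        ext <;> simp [add_comm]
      rw [this]
      exact hmap' l p hp
  let v : ℂ × ℂ → ℝ := fun p => (1 / 2) * (u (p.1 + l, p.2) + u (p.1 + -l, p.2)) +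
    (-(C₁ / 2) * ‖l‖ ^ 2)
  have hC₁' : C₁ * ‖l‖ ^ 2 = 2 * ‖l‖ ^ 2 + B * (2 * π) ^ 2 * ‖l‖ ^ 2 := by rw [hC₁]; ring
  have hre : l.re ^ 2 ≤ ‖l‖ ^ 2 := by
    rw [← Complex.normSq_eq_norm_sq, Complex.normSq_apply]
    nlinarith [sq_nonneg l.im]
  have him : l.im ^ 2 ≤ ‖l‖ ^ 2 := by
    rw [← Complex.normSq_eq_norm_sq, Complex.normSq_apply]
    nlinarith [sq_nonneg l.re]
  have hBre : B * (2 * π * l.re) ^ 2 ≤ B * (2 * π) ^ 2 * ‖l‖ ^ 2 := by
    have : B * (2 * π * l.re) ^ 2 = B * (2 * π) ^ 2 * l.re ^ 2 := by ring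
    rw [this]
    gcongr
  have hBim : B * (2 * π * l.im) ^ 2 ≤ B * (2 * π) ^ 2 * ‖l‖ ^ 2 := by
    have : B * (2 * π * l.im) ^ 2 = B * (2 * π) ^ 2 * l.im ^ 2 := by ring
    rw [this]
    gcongr
  have key := h.comparison (v := v) (C' := C + ‖l‖ ^ 2) ?_ ?_ ?_ ?_ ?_ (ζ, z) hp
  · simp only [v] at key
    rw [← sub_eq_add_neg] at key
    linarith
  · exact (((hc l).add (hc (-l))).const_smul (1 / 2 : ℝ)).add continuousOn_const
  · exact (((hps l).add (hps (-l))).const_mul (by norm_num : (0 : ℝ) ≤ 1 / 2)).add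
      (pshOn_const _ _)
  · intro p hp
    have h1 := (abs_le.mp (hC _ (hmap l p hp))).2
    have h2 := (abs_le.mp (hC _ (hmap (-l) p hp))).2
    have h3 := norm_sq_add_sub p.1 l
    simp only [v]
    simp only [← sub_eq_add_neg] at h2 ⊢
    have h4 : 0 ≤ C₁ / 2 * ‖l‖ ^ 2 := by positivity
    linarith
  · intro ζ z hz
    simp only [v]
    rw [h.bd1 _ _ hz, h.bd1 _ _ hz]
    have h3 := norm_sq_add_sub ζ l
    have h4 := cos_semiconcave h.hB ζ.im l.im
    simp only [← sub_eq_add_neg, add_im, sub_im]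
    linarith
  · intro ζ z hz
    simp only [v]
    rw [h.bd2 _ _ hz, h.bd2 _ _ hz]
    have h3 := norm_sq_add_sub ζ l
    have h4 := cos_semiconcave h.hB ζ.re l.re
    simp only [← sub_eq_add_neg, add_re, sub_re]
    linarith

end Pool.Agent.H90
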