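import Pool.Agent.H90.Emin

/-!
# Harmonicity of `E_σ` near the origin
-/

open Complex MeasureTheory Metric Real Set InnerProductSpace Topology Filter

namespace Pool.Agent.H90

variable {a b B : ℝ} {u : ℂ × ℂ → ℝ}

theorem circleAverage_re_holo {H : ℂ → ℂ} {U : Set ℂ} (hU : IsOpen U) (hH : DifferentiableOn ℂ H U)
    {ζ w : ℂ} {s : ℝ} (hs : 0 < s) (hsub : ∀ ξ ∈ closedBall (0 : ℂ) s, ζ + ξ * w ∈ U) :
    circleAverage (fun ξ => (H (ζ + ξ * w)).re) 0 s = (H ζ).re := by
  let U' : Set ℂ := (fun ξ : ℂ => ζ + ξ * w) ⁻¹' U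
  have hU' : IsOpen U' := hU.preimage (by fun_prop)
  have hd : DifferentiableOn ℂ (fun ξ : ℂ => H (ζ + ξ * w)) U' :=
    hH.comp (Differentiable.differentiableOn (by fun_prop)) fun ξ hξ => hξ
  have h1 : circleAverage (fun ξ : ℂ => H (ζ + ξ * w)) 0 s = H ζ := by
    have : circleAverage (fun ξ : ℂ => H (ζ + ξ * w)) 0 s = H (ζ + 0 * w) := by
      apply circleAverage_of_differentiable_on_off_countable Set.countable_empty
      · rw [abs_of_pos hs]
        exact hd.continuousOn.mono hsub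
      · intro z hz
        rw [abs_of_pos hs] at hz
        exact hd.differentiableAt (hU'.mem_nhds (hsub z (ball_subset_closedBall hz.1)))
    simpa using this
  have hi : CircleIntegrable (fun ξ : ℂ => H (ζ + ξ * w)) 0 s := by
    apply ContinuousOn.circleIntegrable'
    rw [abs_of_pos hs]
    exact hd.continuousOn.mono (sphere_subset_closedBall.trans hsub)
  have h2 := ContinuousLinearMap.circleAverage_comp_comm (L := Complex.reCLM) hi
  have h3 : circleAverage (fun ξ => (H (ζ + ξ * w)).re) 0 s =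
      circleAverage (⇑Complex.reCLM ∘ fun ξ => H (ζ + ξ * w)) 0 s := rfl
  rw [h3, h2, h1]
  rfl

theorem exists_small {U : Set ℂ} (hU : IsOpen U) {ζ : ℂ} (hζ : ζ ∈ U) (w : ℂ) :
    ∃ s₀ > 0, ∀ s, 0 < s → s < s₀ → ∀ ξ ∈ closedBall (0 : ℂ) s, ζ + ξ * w ∈ U := by
  obtain ⟨s₀, hs₀, h⟩ := exists_disc_subset hU hζ w
  refine ⟨s₀, hs₀, fun s _ hs' ξ hξ => h ξ ?_⟩
  have : ‖ξ‖ ≤ s := by simpa using hξ
  linarith

/-- Averages of the Poisson modification over small line circles inside the disc. -/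
theorem circleAverage_PE {g : ℂ → ℝ} {R : ℝ} (hR : 0 < R) (hg : ContinuousOn g (sphere (0 : ℂ) R))
    {ζ : ℂ} (hζ : ζ ∈ ball (0 : ℂ) R) (w : ℂ) :
    ∃ s₀ > 0, ∀ s, 0 < s → s < s₀ → circleAverage (fun ξ => PE g R (ζ + ξ * w)) 0 s = PE g R ζ := by
  have hi := circleIntegrable_of_continuousOn hR hg
  let H : ℂ → ℂ := fun w => circleAverage (fun ζ ↦ herglotzRieszKernel 0 w ζ • (g ζ : ℂ)) 0 R
  have hH : DifferentiableOn ℂ H (ball 0 R) :=
    (analyticOnNhd_circleAverage_herglotzRieszKernel_smul (circleIntegrable_ofReal hi)).differentiableOn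
  have hre : ∀ w ∈ ball (0 : ℂ) R, PE g R w = (H w).re := fun w hw => by
    rw [PE_of_mem hw]
    exact PI_eq_re hw hi
  obtain ⟨s₀, hs₀, h⟩ := exists_small isOpen_ball hζ w
  refine ⟨s₀, hs₀, fun s hs hs' => ?_⟩
  have h1 := h s hs hs'
  rw [hre ζ hζ, ← circleAverage_re_holo isOpen_ball hH hs h1]
  apply circleAverage_congr_sphere
  intro ξ hξ
  rw [abs_of_pos hs] at hξ
  exact hre _ (h1 ξ (sphere_subset_closedBall hξ))

/-- Averages of `log |z|` over small line circles. -/
theorem circleAverage_log {z : ℂ} (hz : z ≠ 0) (w : ℂ) :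
    ∃ s₀ > 0, ∀ s, 0 < s → s < s₀ →
      circleAverage (fun ξ : ℂ => Real.log ‖z + ξ * w‖) 0 s = Real.log ‖z‖ := by
  have hU : IsOpen {x : ℂ | x ≠ 0} := isOpen_ne
  obtain ⟨s₀, hs₀, h⟩ := exists_small hU (ζ := z) hz w
  refine ⟨s₀, hs₀, fun s hs hs' => ?_⟩
  have h1 := h s hs hs'
  have h2 := AnalyticOnNhd.circleAverage_log_norm_of_ne_zero (R := s) (c := 0)
    (g := fun ξ : ℂ => z + ξ * w) ?_ ?_
  · simpa using h2
  · intro ξ _
    fun_prop
  · intro ξ hξ
    rw [abs_of_pos hs] at hξ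
    exact h1 ξ hξ

/-- logarithmic time -/
noncomputable def tau (a b : ℝ) (z : ℂ) : ℝ := (Real.log ‖z‖ - Real.log a) / Real.log (b / a)

theorem tau_mem (ha : 0 < a) (hab : a < b) {z : ℂ} (h1 : a ≤ ‖z‖) (h2 : ‖z‖ ≤ b) :
    tau a b z ∈ Icc (0 : ℝ) 1 ∧ ‖z‖ = rad a b (tau a b z) := by
  have hL := log_pos' ha hab
  have hb := ha.trans hab
  have hz : 0 < ‖z‖ := ha.trans_le h1
  have hmem : tau a b z ∈ Icc (0 : ℝ) 1 := by
    unfold tau
    constructor
    · apply div_nonneg _ hL.le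
      have := Real.log_le_log ha h1
      linarith
    · rw [div_le_one hL, Real.log_div hb.ne' ha.ne']
      have := Real.log_le_log hz h2
      linarith
  refine ⟨hmem, ?_⟩
  unfold rad
  rw [cl_of_mem hmem]
  unfold tau
  rw [div_mul_cancel₀ _ hL.ne', Real.exp_sub, Real.exp_log hz, Real.exp_log ha]
  field_simp

theorem tau_rad (ha : 0 < a) (hab : a < b) {t : ℝ} (ht : t ∈ Icc (0 : ℝ) 1) :
    tau a b (rad a b t : ℂ) = t := by
  have hL := log_pos' ha hab
  unfold tau
  rw [norm_rad ha]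
  unfold rad
  rw [cl_of_mem ht, Real.log_mul ha.ne' (Real.exp_pos _).ne', Real.log_exp]
  field_simp
  ring

/-- The competitor argument: the Poisson modification of `E_σ` in a small disc lies below `E_σ`. -/
theorem Geo.PE_le (h : Geo a b B u) {σ r c : ℝ} (hr : 0 < r)
    (hsph : ∀ ζ ∈ sphere (0 : ℂ) r, E a b u σ ζ ≤ c)
    (hbd : ∀ ζ ∈ ball (0 : ℂ) r, ∀ t ∈ Icc (0 : ℝ) 1,
      c + σ * t ≤ ‖ζ‖ ^ 2 + B * Real.cos (2 * π * ζ.im) ∧
      c + σ * t ≤ ‖ζ‖ ^ 2 + B * Real.cos (2 * π * ζ.re)) :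
    ∀ ζ : ℂ, PE (E a b u σ) r ζ ≤ E a b u σ ζ := by
  have hEc := h.continuous_E σ
  set P := PE (E a b u σ) r with hP
  have hPc : Continuous P := continuous_PE hr hEc
  have hEle : ∀ ζ z : ℂ, (ζ, z) ∈ Cl a b → E a b u σ ζ + σ * tau a b z ≤ u (ζ, z) := by
    intro ζ z hz
    obtain ⟨h1, h2⟩ := tau_mem h.ha h.hab hz.1 hz.2
    rw [h.u_eq_W h2]
    have := h.E_le σ ζ h1
    linarith
  have hPle : ∀ ζ ∈ ball (0 : ℂ) r, P ζ ≤ c := by
    intro ζ hζ
    rw [hP, PE_of_mem hζ]
    exact PI_const_mem hr hEc.continuousOn hζ hsph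
  -- the competitor
  let v : ℂ × ℂ → ℝ := fun p => max (u p) (P p.1 + σ * tau a b p.2)
  have htauc : ContinuousOn (fun p : ℂ × ℂ => tau a b p.2) (Cl a b) := by
    unfold tau
    apply ContinuousOn.div_const
    apply ContinuousOn.sub _ continuousOn_const
    apply ContinuousOn.log
    · exact Continuous.continuousOn (by fun_prop)
    · intro p hp
      have := hp.1
      have := h.ha
      linarith
  have hvc2 : ContinuousOn (fun p : ℂ × ℂ => P p.1 + σ * tau a b p.2) (Cl a b) := by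
    apply ContinuousOn.add
    · exact (hPc.comp continuous_fst).continuousOn
    · exact continuousOn_const.mul htauc
  have hvc : ContinuousOn v (Cl a b) := h.cont.sup hvc2
  have hout : ∀ p ∈ Cl a b, p.1 ∉ ball (0 : ℂ) r → v p = u p := by
    intro p hp hp1
    apply max_eq_left
    rw [hP, PE_of_not_mem hp1]
    exact hEle p.1 p.2 hp
  have hvpsh : PshOn v (Dom a b) := by
    apply PshOn.of_LSM (hvc.mono (Dom_subset_Cl a b))
    intro p hp w
    obtain ⟨s₁, hs₁, h1⟩ := h.psh.LSM (isOpen_Dom a b) hp w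
    obtain ⟨s₂, hs₂, h2⟩ := exists_disc_subset (isOpen_Dom a b) hp w
    have hsphD : ∀ s, 0 < s → s < s₂ → ∀ ξ ∈ closedBall (0 : ℂ) s, p + ξ • w ∈ Dom a b := by
      intro s hs hs' ξ hξ
      apply h2
      have : ‖ξ‖ ≤ s := by simpa using hξ
      linarith
    have hvi : ∀ s, 0 < s → s < s₂ → CircleIntegrable (fun ξ : ℂ => v (p + ξ • w)) 0 s :=
      fun s hs hs' => circleIntegrable_line (hvc.mono (Dom_subset_Cl a b)) hs (hsphD s hs hs')
    have hui : ∀ s, 0 < s → s < s₂ → CircleIntegrable (fun ξ : ℂ => u (p + ξ • w)) 0 s :=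
      fun s hs hs' => circleIntegrable_line h.psh.cont hs (hsphD s hs hs')
    have huv : ∀ s, 0 < s → s < s₁ → s < s₂ →
        u p ≤ circleAverage (fun ξ : ℂ => v (p + ξ • w)) 0 s := by
      intro s hs hs1 hs2
      have h3 := h1 s hs hs1
      simp only [zero_smul, add_zero] at h3
      exact h3.trans (circleAverage_mono (hui s hs hs2) (hvi s hs hs2) fun ξ _ => le_max_left _ _)
    by_cases hp1 : p.1 ∈ ball (0 : ℂ) r
    · obtain ⟨s₃, hs₃, h3⟩ := circleAverage_PE hr (hEc.continuousOn (s := sphere (0 : ℂ) r)) hp1 w.1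
      have hp2 : p.2 ≠ 0 := h.ne_zero (ζ := p.1) (Dom_subset_Cl a b hp)
      obtain ⟨s₄, hs₄, h4⟩ := circleAverage_log hp2 w.2
      refine ⟨min (min s₁ s₂) (min s₃ s₄), by positivity, fun s hs hs' => ?_⟩
      have t1 : s < s₁ := hs'.trans_le ((min_le_left _ _).trans (min_le_left _ _))
      have t2 : s < s₂ := hs'.trans_le ((min_le_left _ _).trans (min_le_right _ _))
      have t3 : s < s₃ := hs'.trans_le ((min_le_right _ _).trans (min_le_left _ _))
      have t4 : s < s₄ := hs'.trans_le ((min_le_right _ _).trans (min_le_right _ _))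
      simp only [zero_smul, add_zero]
      apply max_le
      · exact huv s hs t1 t2
      · have hPi : CircleIntegrable (fun ξ : ℂ => P (p.1 + ξ * w.1)) 0 s := by
          apply circleIntegrable_of_continuousOn hs
          apply Continuous.continuousOn
          fun_prop
        have hli : CircleIntegrable (fun ξ : ℂ => Real.log ‖p.2 + ξ * w.2‖) 0 s := by
          apply circleIntegrable_of_continuousOn hs
          apply ContinuousOn.log
          · exact Continuous.continuousOn (by fun_prop)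
          · intro ξ hξ
            have h5 := h.ne_zero (Dom_subset_Cl a b (hsphD s hs t2 ξ (sphere_subset_closedBall hξ)))
            exact norm_ne_zero_iff.mpr h5
        have e1 : (fun ξ : ℂ => P (p + ξ • w).1 + σ * tau a b (p + ξ • w).2) =
            fun ξ : ℂ => P (p.1 + ξ * w.1) + ((σ / Real.log (b / a)) *
              Real.log ‖p.2 + ξ * w.2‖ + (-(σ * Real.log a / Real.log (b / a)))) := by
          ext ξ
          simp only [tau, Prod.fst_add, Prod.smul_fst, Prod.snd_add, Prod.smul_snd, smul_eq_mul]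
          ring
        have e2 : circleAverage (fun ξ : ℂ => P (p + ξ • w).1 + σ * tau a b (p + ξ • w).2) 0 s =
            P p.1 + σ * tau a b p.2 := by
          have hi2 : CircleIntegrable (fun ξ : ℂ => (σ / Real.log (b / a)) *
              Real.log ‖p.2 + ξ * w.2‖ + (-(σ * Real.log a / Real.log (b / a)))) 0 s :=
            (CircleIntegrable.const_mul' hli _).add (circleIntegrable_const _ _ _)
          rw [e1, circleAverage_fun_add hPi hi2,
            circleAverage_fun_add (CircleIntegrable.const_mul' hli _) (circleIntegrable_const _ _ _), circleAverage_const_mul (fun ξ : ℂ =>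
              Real.log ‖p.2 + ξ * w.2‖), circleAverage_const, h4 s hs t4, hP, h3 s hs t3]
          unfold tau
          ring
        rw [← e2]
        apply circleAverage_mono _ (hvi s hs t2) fun ξ _ => le_max_right _ _
        exact circleIntegrable_line (hvc2.mono (Dom_subset_Cl a b)) hs (hsphD s hs t2)
    · refine ⟨min s₁ s₂, by positivity, fun s hs hs' => ?_⟩
      simp only [zero_smul, add_zero]
      rw [hout p (Dom_subset_Cl a b hp) hp1]
      exact huv s hs (hs'.trans_le (min_le_left _ _)) (hs'.trans_le (min_le_right _ _))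
  obtain ⟨C, hC⟩ := h.bdd
  have hcomp := h.comparison (v := v) (C' := max C (|c| + |σ|)) hvc hvpsh ?_ ?_ ?_
  · intro ζ
    obtain ⟨t, ht, hte⟩ := h.exists_E σ ζ
    have h1 := hcomp _ (rad_mem h.ha h.hab ζ t)
    have h2 : P ζ + σ * t ≤ v (ζ, (rad a b t : ℂ)) := by
      have : P ζ + σ * tau a b (rad a b t : ℂ) ≤ v (ζ, (rad a b t : ℂ)) := le_max_right _ _
      rwa [tau_rad h.ha h.hab ht] at this
    rw [hte]
    have h3 : u (ζ, (rad a b t : ℂ)) = W a b u ζ t := rfl
    linarith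
  · intro p hp
    by_cases hp1 : p.1 ∈ ball (0 : ℂ) r
    · apply max_le
      · have := (abs_le.mp (hC p hp)).2
        have := le_max_left C (|c| + |σ|)
        linarith
      · have h1 := hPle p.1 hp1
        obtain ⟨h2, -⟩ := tau_mem h.ha h.hab hp.1 hp.2
        have h3 : σ * tau a b p.2 ≤ |σ| := by
          calc σ * tau a b p.2 ≤ |σ| * tau a b p.2 :=
                mul_le_mul_of_nonneg_right (le_abs_self _) h2.1
            _ ≤ |σ| * 1 := mul_le_mul_of_nonneg_left h2.2 (abs_nonneg _)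
            _ = |σ| := mul_one _
        have h4 := le_abs_self c
        have h5 := le_max_right C (|c| + |σ|)
        have h6 : 0 ≤ ‖p.1‖ ^ 2 := by positivity
        linarith
    · rw [hout p hp hp1]
      have := (abs_le.mp (hC p hp)).2
      have := le_max_left C (|c| + |σ|)
      linarith
  · intro ζ z hz
    have hmem : (ζ, z) ∈ Cl a b := ⟨hz.ge, by simp only; rw [hz]; exact h.hab.le⟩
    by_cases hζ : ζ ∈ ball (0 : ℂ) r
    · apply max_le
      · rw [h.bd1 ζ z hz]
      · have h1 := hPle ζ hζ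
        obtain ⟨h2, -⟩ := tau_mem h.ha h.hab hmem.1 hmem.2
        have h3 := (hbd ζ hζ _ h2).1
        simp only
        linarith
    · rw [hout _ hmem hζ, h.bd1 ζ z hz]
  · intro ζ z hz
    have hmem : (ζ, z) ∈ Cl a b := ⟨by simp only; rw [hz]; exact h.hab.le, hz.le⟩
    by_cases hζ : ζ ∈ ball (0 : ℂ) r
    · apply max_le
      · rw [h.bd2 ζ z hz]
      · have h1 := hPle ζ hζ
        obtain ⟨h2, -⟩ := tau_mem h.ha h.hab hmem.1 hmem.2
        have h3 := (hbd ζ hζ _ h2).2
        simp only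
        linarith
    · rw [hout _ hmem hζ, h.bd2 ζ z hz]

theorem Geo.E_eq_PE (h : Geo a b B u) {σ r c : ℝ} (hr : 0 < r)
    (hsph : ∀ ζ ∈ sphere (0 : ℂ) r, E a b u σ ζ ≤ c)
    (hbd : ∀ ζ ∈ ball (0 : ℂ) r, ∀ t ∈ Icc (0 : ℝ) 1,
      c + σ * t ≤ ‖ζ‖ ^ 2 + B * Real.cos (2 * π * ζ.im) ∧
      c + σ * t ≤ ‖ζ‖ ^ 2 + B * Real.cos (2 * π * ζ.re)) :
    E a b u σ = PE (E a b u σ) r := by
  ext ζ
  apply le_antisymm _ (h.PE_le hr hsph hbd ζ)
  by_cases hζ : ζ ∈ closedBall (0 : ℂ) r
  · exact le_PE hr (h.continuous_E σ).continuousOn (fun w _ => h.LSM_E σ w) ζ hζ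
  · rw [PE_of_not_mem fun h' => hζ (ball_subset_closedBall h')]

end Pool.Agent.H90
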