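import Pool.Agent.H90.Geo

/-!
# The reduced function `W`, holomorphic discs and convexity
-/

open Complex MeasureTheory Metric Real Set InnerProductSpace Topology Filter

namespace Pool.Agent.H90

/-- clamp to `[0,1]` -/
noncomputable def cl (t : ℝ) : ℝ := max 0 (min 1 t)

theorem continuous_cl : Continuous cl := by unfold cl; fun_prop

theorem cl_mem (t : ℝ) : cl t ∈ Icc (0 : ℝ) 1 := by
  unfold cl
  exact ⟨le_max_left _ _, max_le zero_le_one (min_le_left _ _)⟩

theorem cl_of_mem {t : ℝ} (ht : t ∈ Icc (0 : ℝ) 1) : cl t = t := by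
  unfold cl
  rw [min_eq_right ht.2, max_eq_right ht.1]

/-- the radius with logarithmic parameter `t` -/
noncomputable def rad (a b t : ℝ) : ℝ := a * Real.exp (cl t * Real.log (b / a))

/-- the reduced function -/
noncomputable def W (a b : ℝ) (u : ℂ × ℂ → ℝ) (ζ : ℂ) (t : ℝ) : ℝ := u (ζ, (rad a b t : ℂ))

variable {a b B : ℝ} {u : ℂ × ℂ → ℝ}

theorem log_pos' (ha : 0 < a) (hab : a < b) : 0 < Real.log (b / a) :=
  Real.log_pos ((one_lt_div ha).mpr hab)

theorem continuous_rad : Continuous (rad a b) := by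
  unfold rad
  have := continuous_cl
  fun_prop

theorem rad_pos (ha : 0 < a) (t : ℝ) : 0 < rad a b t := by unfold rad; positivity

theorem rad_ge (ha : 0 < a) (hab : a < b) (t : ℝ) : a ≤ rad a b t := by
  unfold rad
  have h1 : 0 ≤ cl t * Real.log (b / a) := mul_nonneg (cl_mem t).1 (log_pos' ha hab).le
  have h2 := Real.one_le_exp h1
  nlinarith

theorem rad_le (ha : 0 < a) (hab : a < b) (t : ℝ) : rad a b t ≤ b := by
  unfold rad
  have h1 : cl t * Real.log (b / a) ≤ Real.log (b / a) := by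
    have := (cl_mem t).2
    have := (log_pos' ha hab).le
    nlinarith
  have h2 := Real.exp_le_exp.mpr h1
  rw [Real.exp_log (div_pos (ha.trans hab) ha)] at h2
  calc a * Real.exp (cl t * Real.log (b / a)) ≤ a * (b / a) := by gcongr
    _ = b := by field_simp

theorem norm_rad (ha : 0 < a) (t : ℝ) : ‖(rad a b t : ℂ)‖ = rad a b t := by
  rw [Complex.norm_real, Real.norm_eq_abs, abs_of_pos (rad_pos ha t)]

theorem rad_mem (ha : 0 < a) (hab : a < b) (ζ : ℂ) (t : ℝ) : (ζ, (rad a b t : ℂ)) ∈ Cl a b := by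
  constructor
  · simp only
    rw [norm_rad ha]
    exact rad_ge ha hab t
  · simp only
    rw [norm_rad ha]
    exact rad_le ha hab t

theorem rad_zero : rad a b 0 = a := by simp [rad, cl]

theorem rad_one (ha : 0 < a) (hab : a < b) : rad a b 1 = b := by
  simp only [rad, cl, min_self, max_eq_right zero_le_one, one_mul]
  rw [Real.exp_log (div_pos (ha.trans hab) ha)]
  field_simp

theorem rad_symm (ha : 0 < a) (hab : a < b) {t : ℝ} (ht : t ∈ Icc (0 : ℝ) 1) :
    a * b / rad a b t = rad a b (1 - t) := by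
  have ht' : 1 - t ∈ Icc (0 : ℝ) 1 := ⟨by linarith [ht.2], by linarith [ht.1]⟩
  unfold rad
  rw [cl_of_mem ht, cl_of_mem ht', sub_mul, one_mul, Real.exp_sub,
    Real.exp_log (div_pos (ha.trans hab) ha)]
  field_simp

theorem Geo.continuous_W (h : Geo a b B u) : Continuous fun q : ℂ × ℝ => W a b u q.1 q.2 := by
  have h1 : Continuous fun q : ℂ × ℝ => ((q.1, (rad a b q.2 : ℂ)) : ℂ × ℂ) := by
    have := continuous_rad (a := a) (b := b)
    fun_prop
  exact h.cont.comp_continuous h1 fun q => rad_mem h.ha h.hab q.1 q.2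

theorem Geo.u_eq_W (h : Geo a b B u) {ζ z : ℂ} {t : ℝ} (hz : ‖z‖ = rad a b t) :
    u (ζ, z) = W a b u ζ t := by
  unfold W
  apply h.eq_of_norm (rad_mem h.ha h.hab ζ t)
  rw [hz, norm_rad h.ha]

theorem Geo.W_neg (h : Geo a b B u) (ζ : ℂ) (t : ℝ) : W a b u (-ζ) t = W a b u ζ t :=
  h.neg (rad_mem h.ha h.hab ζ t)

theorem Geo.W_sym (h : Geo a b B u) (ζ : ℂ) {t : ℝ} (ht : t ∈ Icc (0 : ℝ) 1) :
    W a b u (I * ζ) (1 - t) = W a b u ζ t := by
  have h1 := h.sym (rad_mem h.ha h.hab ζ t)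
  have h2 : W a b u ζ t = u (ζ, (rad a b t : ℂ)) := rfl
  rw [h2, ← h1]
  symm
  apply h.u_eq_W
  rw [norm_div, norm_mul, norm_rad h.ha, Complex.norm_real, Complex.norm_real, Real.norm_eq_abs,
    Real.norm_eq_abs, abs_of_pos h.ha, abs_of_pos h.hb, rad_symm h.ha h.hab ht]

theorem Geo.W_zero (h : Geo a b B u) (ζ : ℂ) :
    W a b u ζ 0 = ‖ζ‖ ^ 2 + B * Real.cos (2 * π * ζ.im) := by
  apply h.bd1
  rw [norm_rad h.ha, rad_zero]

theorem Geo.W_one (h : Geo a b B u) (ζ : ℂ) :
    W a b u ζ 1 = ‖ζ‖ ^ 2 + B * Real.cos (2 * π * ζ.re) := by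
  apply h.bd2
  rw [norm_rad h.ha, rad_one h.ha h.hab]

/-- `g ↦ PI g 1` as the real part of a holomorphic function -/
theorem exists_holo {g : ℂ → ℝ} (hg : ContinuousOn g (sphere (0 : ℂ) 1)) :
    ∃ H : ℂ → ℂ, DifferentiableOn ℂ H (ball 0 1) ∧ ∀ w ∈ ball (0 : ℂ) 1, (H w).re = PI g 1 w := by
  have hi := circleIntegrable_of_continuousOn one_pos hg
  refine ⟨fun w => circleAverage (fun ζ ↦ herglotzRieszKernel 0 w ζ • (g ζ : ℂ)) 0 1,
    (analyticOnNhd_circleAverage_herglotzRieszKernel_smul (circleIntegrable_ofReal hi)).differentiableOn,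
    fun w hw => (PI_eq_re hw hi).symm⟩

theorem PI_const_mem {g : ℂ → ℝ} {R : ℝ} (hR : 0 < R) (hg : ContinuousOn g (sphere (0 : ℂ) R))
    {w : ℂ} (hw : w ∈ ball (0 : ℂ) R) {c : ℝ} (hc : ∀ z ∈ sphere (0 : ℂ) R, g z ≤ c) :
    PI g R w ≤ c := by
  have hi := circleIntegrable_of_continuousOn hR hg
  have hKint : CircleIntegrable (poissonKernel 0 w) 0 R :=
    (continuousOn_poissonKernel hw).circleIntegrable'
  have h1 : PI g R w ≤ circleAverage (fun z => c * poissonKernel 0 w z) 0 R := by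
    apply circleAverage_mono (circleIntegrable_poissonKernel_mul hw hi)
      (CircleIntegrable.const_mul' hKint c)
    intro z hz
    rw [abs_of_pos hR] at hz
    rw [mul_comm c]
    exact mul_le_mul_of_nonneg_left (hc z hz) (poissonKernel_nonneg hw hz)
  rw [circleAverage_const_mul, circleAverage_poissonKernel hw, mul_one] at h1
  exact h1

theorem PI_neg {g : ℂ → ℝ} {R : ℝ} {w : ℂ} : PI (fun z => -g z) R w = -PI g R w := by
  unfold PI
  have : (fun z => poissonKernel 0 w z * -g z) = fun z => (-1) * (poissonKernel 0 w z * g z) := by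
    ext z
    ring
  rw [this, circleAverage_const_mul]
  ring

theorem le_PI_const_mem {g : ℂ → ℝ} {R : ℝ} (hR : 0 < R) (hg : ContinuousOn g (sphere (0 : ℂ) R))
    {w : ℂ} (hw : w ∈ ball (0 : ℂ) R) {c : ℝ} (hc : ∀ z ∈ sphere (0 : ℂ) R, c ≤ g z) :
    c ≤ PI g R w := by
  have := PI_const_mem hR (g := fun z => -g z) hg.neg hw (c := -c)
    (fun z hz => neg_le_neg (hc z hz))
  rw [PI_neg] at this
  linarith

theorem rad_mem_Dom (ha : 0 < a) (hab : a < b) (ζ z : ℂ) {t : ℝ} (ht : t ∈ Ioo (0 : ℝ) 1)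
    (hz : ‖z‖ = rad a b t) : (ζ, z) ∈ Dom a b := by
  have hL := log_pos' ha hab
  have ht' : t ∈ Icc (0 : ℝ) 1 := ⟨ht.1.le, ht.2.le⟩
  constructor
  · simp only
    rw [hz]
    unfold rad
    rw [cl_of_mem ht']
    have h1 : 0 < t * Real.log (b / a) := mul_pos ht.1 hL
    have h2 := Real.one_lt_exp_iff.mpr h1
    nlinarith
  · simp only
    rw [hz]
    unfold rad
    rw [cl_of_mem ht']
    have h1 : t * Real.log (b / a) < Real.log (b / a) := by
      have := ht.2
      nlinarith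
    have h2 := Real.exp_lt_exp.mpr h1
    rw [Real.exp_log (div_pos (ha.trans hab) ha)] at h2
    calc a * Real.exp (t * Real.log (b / a)) < a * (b / a) := by gcongr
      _ = b := by field_simp

/-- Sub-mean value inequality along the discs `ξ ↦ (ζ₀ + r ξ, exp T(ξ))`, interior version. -/
theorem Geo.KL_aux (h : Geo a b B u) {s : ℂ → ℝ} (hs : ContinuousOn s (sphere (0 : ℂ) 1))
    {δ : ℝ} (hδ : 0 < δ) (h01 : ∀ ξ ∈ sphere (0 : ℂ) 1, s ξ ∈ Icc δ (1 - δ)) (ζ₀ : ℂ) (r : ℝ) :
    W a b u ζ₀ (circleAverage s 0 1) ≤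
      circleAverage (fun ξ => W a b u (ζ₀ + r * ξ) (s ξ)) 0 1 := by
  obtain ⟨H, hH, hHre⟩ := exists_holo hs
  have hWc := h.continuous_W
  have hPI : ∀ w ∈ ball (0 : ℂ) 1, PI s 1 w ∈ Icc δ (1 - δ) := fun w hw =>
    ⟨le_PI_const_mem one_pos hs hw fun z hz => (h01 z hz).1,
      PI_const_mem one_pos hs hw fun z hz => (h01 z hz).2⟩
  have hPEc := continuousOn_PE one_pos hs
  let g : ℂ → ℝ := fun w => W a b u (ζ₀ + r * w) (PE s 1 w)
  have hgc : ContinuousOn g (closedBall 0 1) := by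
    have h1 : ContinuousOn (fun w : ℂ => ((ζ₀ + r * w, PE s 1 w) : ℂ × ℝ)) (closedBall 0 1) :=
      ContinuousOn.prodMk (Continuous.continuousOn (by fun_prop)) hPEc
    exact hWc.comp_continuousOn h1
  have hguc : UniformContinuousOn g (closedBall 0 1) :=
    (isCompact_closedBall 0 1).uniformContinuousOn_of_continuous hgc
  -- on the sphere
  have hsph : circleAverage g 0 1 = circleAverage (fun ξ => W a b u (ζ₀ + r * ξ) (s ξ)) 0 1 := by
    apply circleAverage_congr_sphere
    intro ξ hξ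
    rw [abs_one] at hξ
    simp only [g]
    rw [PE_of_not_mem]
    rw [mem_ball, not_lt]
    exact (mem_sphere.mp hξ).ge
  -- the inequality for ρ < 1
  have hρ : ∀ ρ : ℝ, 0 < ρ → ρ < 1 →
      W a b u ζ₀ (circleAverage s 0 1) ≤ circleAverage (fun ξ => g (ρ * ξ)) 0 1 := by
    intro ρ hρ0 hρ1
    set L := Real.log (b / a) with hL
    let γ : ℂ → ℂ × ℂ := fun ξ => (ζ₀ + r * (ρ * ξ), a * Complex.exp (L * H (ρ * ξ)))
    have hmem : ∀ ξ : ℂ, ‖ξ‖ ≤ 1 → (ρ * ξ : ℂ) ∈ ball (0 : ℂ) 1 := by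
      intro ξ hξ
      rw [mem_ball_zero_iff, norm_mul, Complex.norm_real, Real.norm_eq_abs, abs_of_pos hρ0]
      nlinarith
    have hnorm : ∀ ξ : ℂ, ‖ξ‖ ≤ 1 → ‖(γ ξ).2‖ = rad a b (PI s 1 (ρ * ξ)) := by
      intro ξ hξ
      have hm := hmem ξ hξ
      have h1 := hPI _ hm
      simp only [γ]
      rw [norm_mul, Complex.norm_real, Real.norm_eq_abs, abs_of_pos h.ha, Complex.norm_exp]
      unfold rad
      rw [cl_of_mem ⟨by linarith [h1.1], by linarith [h1.2]⟩, re_ofReal_mul, hHre _ hm, ← hL,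
        mul_comm L]
    have hU : IsOpen ((fun ξ : ℂ => (ρ * ξ : ℂ)) ⁻¹' ball (0 : ℂ) 1) :=
      isOpen_ball.preimage (by fun_prop)
    have hsub : closedBall (0 : ℂ) 1 ⊆ (fun ξ : ℂ => (ρ * ξ : ℂ)) ⁻¹' ball (0 : ℂ) 1 := by
      intro ξ hξ
      exact hmem ξ (by simpa using hξ)
    have hγd : DifferentiableOn ℂ γ ((fun ξ : ℂ => (ρ * ξ : ℂ)) ⁻¹' ball (0 : ℂ) 1) := by
      have h1 : DifferentiableOn ℂ (fun ξ : ℂ => H (ρ * ξ))
          ((fun ξ : ℂ => (ρ * ξ : ℂ)) ⁻¹' ball (0 : ℂ) 1) :=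
        hH.comp (Differentiable.differentiableOn (by fun_prop)) fun ξ hξ => hξ
      apply DifferentiableOn.prodMk
      · apply Differentiable.differentiableOn
        fun_prop
      · exact ((h1.const_mul (L : ℂ)).cexp).const_mul (a : ℂ)
    have hmemΩ : ∀ ξ ∈ closedBall (0 : ℂ) 1, γ ξ ∈ Dom a b := by
      intro ξ hξ
      have hξ' : ‖ξ‖ ≤ 1 := by simpa using hξ
      have h1 := hPI _ (hmem ξ hξ')
      exact rad_mem_Dom h.ha h.hab _ _ (t := PI s 1 (ρ * ξ))
        ⟨by linarith [h1.1], by linarith [h1.2]⟩ (hnorm ξ hξ')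
    have key := h.psh.holo (isOpen_Dom a b) hU hsub hγd hmemΩ
    have e0 : u (γ 0) = W a b u ζ₀ (circleAverage s 0 1) := by
      have h1 := hnorm 0 (by simp)
      have h2 : γ 0 = (ζ₀, (γ 0).2) := by
        ext
        · simp [γ]
        · rfl
      rw [h2, h.u_eq_W h1, mul_zero, PI_zero one_pos]
    have e1 : circleAverage (fun ξ => u (γ ξ)) 0 1 = circleAverage (fun ξ => g (ρ * ξ)) 0 1 := by
      apply circleAverage_congr_sphere
      intro ξ hξ
      rw [abs_one] at hξ
      have hξ' : ‖ξ‖ ≤ 1 := by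
        have : ‖ξ‖ = 1 := by simpa using hξ
        exact this.le
      have h1 := hnorm ξ hξ'
      simp only [g]
      rw [PE_of_mem (hmem ξ hξ'), ← h.u_eq_W h1]
    rw [e0, e1] at key
    exact key
  -- let ρ → 1
  rw [← hsph]
  apply le_of_forall_pos_le_add
  intro ε hε
  obtain ⟨δ', hδ', hδ''⟩ := Metric.uniformContinuousOn_iff.mp hguc ε hε
  set ρ : ℝ := 1 - min (1 / 2) (δ' / 2) with hρdef
  have hm1 : 0 < min (1 / 2) (δ' / 2) := by positivity
  have hm2 : min (1 / 2) (δ' / 2) ≤ 1 / 2 := min_le_left _ _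
  have hm3 : min (1 / 2) (δ' / 2) ≤ δ' / 2 := min_le_right _ _
  have hρ0 : 0 < ρ := by rw [hρdef]; linarith
  have hρ1 : ρ < 1 := by rw [hρdef]; linarith
  refine (hρ ρ hρ0 hρ1).trans ?_
  have hmemcb : ∀ ξ ∈ sphere (0 : ℂ) 1, (ρ * ξ : ℂ) ∈ closedBall (0 : ℂ) 1 := by
    intro ξ hξ
    have : ‖ξ‖ = 1 := by simpa using hξ
    rw [mem_closedBall_zero_iff, norm_mul, Complex.norm_real, Real.norm_eq_abs, abs_of_pos hρ0, this]
    linarith
  have hgi : CircleIntegrable g 0 1 :=
    circleIntegrable_of_continuousOn one_pos (hgc.mono sphere_subset_closedBall)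
  have : circleAverage (fun ξ => g (ρ * ξ)) 0 1 ≤ circleAverage (fun ξ => g ξ + ε) 0 1 := by
    apply circleAverage_mono
    · apply circleIntegrable_of_continuousOn one_pos
      exact hgc.comp (Continuous.continuousOn (by fun_prop)) hmemcb
    · exact hgi.add (circleIntegrable_const _ _ _)
    · intro ξ hξ
      rw [abs_one] at hξ
      have hξ1 : ‖ξ‖ = 1 := by simpa using hξ
      have hd : dist ((ρ : ℂ) * ξ) ξ < δ' := by
        rw [dist_eq_norm]
        have : (ρ : ℂ) * ξ - ξ = ((ρ - 1 : ℝ) : ℂ) * ξ := by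
          push_cast
          ring
        rw [this, norm_mul, Complex.norm_real, Real.norm_eq_abs, hξ1, mul_one, hρdef]
        rw [show 1 - min (1 / 2) (δ' / 2) - 1 = -min (1 / 2) (δ' / 2) by ring, abs_neg,
          abs_of_pos hm1]
        linarith
      have h1 := hδ'' _ (hmemcb ξ hξ) ξ (sphere_subset_closedBall hξ) hd
      rw [Real.dist_eq] at h1
      have := (abs_lt.mp h1).2
      linarith
  refine this.trans ?_
  rw [circleAverage_fun_add hgi (circleIntegrable_const _ _ _), circleAverage_const]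

theorem Geo.KL (h : Geo a b B u) {s : ℂ → ℝ} (hs : ContinuousOn s (sphere (0 : ℂ) 1))
    (h01 : ∀ ξ ∈ sphere (0 : ℂ) 1, s ξ ∈ Icc (0 : ℝ) 1) (ζ₀ : ℂ) (r : ℝ) :
    W a b u ζ₀ (circleAverage s 0 1) ≤
      circleAverage (fun ξ => W a b u (ζ₀ + r * ξ) (s ξ)) 0 1 := by
  have hWc := h.continuous_W
  have hsi := circleIntegrable_of_continuousOn one_pos hs
  -- perturbation
  have hlim1 : Tendsto (fun δ : ℝ => W a b u ζ₀ (δ + (1 - 2 * δ) * circleAverage s 0 1)) (𝓝[>] 0)
      (𝓝 (W a b u ζ₀ (circleAverage s 0 1))) := by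
    have h1 : Continuous fun δ : ℝ => W a b u ζ₀ (δ + (1 - 2 * δ) * circleAverage s 0 1) :=
      hWc.comp (by fun_prop : Continuous fun δ : ℝ =>
        ((ζ₀, δ + (1 - 2 * δ) * circleAverage s 0 1) : ℂ × ℝ))
    have h2 := h1.tendsto 0
    simp only [mul_zero, sub_zero, one_mul, zero_add] at h2
    exact h2.mono_left nhdsWithin_le_nhds
  -- uniform continuity
  let G : ℂ × ℝ → ℝ := fun q => W a b u (ζ₀ + r * q.1) q.2
  have hGc : Continuous G :=
    hWc.comp (by fun_prop : Continuous fun q : ℂ × ℝ => ((ζ₀ + r * q.1, q.2) : ℂ × ℝ))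
  have hK : IsCompact (sphere (0 : ℂ) 1 ×ˢ Icc (0 : ℝ) 1) :=
    (isCompact_sphere _ _).prod isCompact_Icc
  have hGuc : UniformContinuousOn G (sphere (0 : ℂ) 1 ×ˢ Icc (0 : ℝ) 1) :=
    hK.uniformContinuousOn_of_continuous hGc.continuousOn
  have hGi : CircleIntegrable (fun ξ => W a b u (ζ₀ + r * ξ) (s ξ)) 0 1 := by
    apply circleIntegrable_of_continuousOn one_pos
    exact hGc.comp_continuousOn (continuousOn_id.prodMk hs)
  apply le_of_forall_pos_le_add
  intro ε hε
  obtain ⟨δ', hδ', hδ''⟩ := Metric.uniformContinuousOn_iff.mp hGuc ε hε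
  refine le_of_tendsto hlim1 ?_
  have hev : ∀ᶠ δ : ℝ in 𝓝[>] 0, δ ∈ Ioo 0 (min (1 / 2) δ') :=
    Ioo_mem_nhdsGT (by positivity)
  filter_upwards [hev] with δ hδ
  have hδ0 : 0 < δ := hδ.1
  have hδ1 : δ < 1 / 2 := hδ.2.trans_le (min_le_left _ _)
  have hδ2 : δ < δ' := hδ.2.trans_le (min_le_right _ _)
  have hsδ : ContinuousOn (fun ξ => δ + (1 - 2 * δ) * s ξ) (sphere (0 : ℂ) 1) :=
    continuousOn_const.add (continuousOn_const.mul hs)
  have hmemδ : ∀ ξ ∈ sphere (0 : ℂ) 1, δ + (1 - 2 * δ) * s ξ ∈ Icc δ (1 - δ) := by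
    intro ξ hξ
    have := h01 ξ hξ
    constructor <;> nlinarith [this.1, this.2]
  have h1 := h.KL_aux hsδ hδ0 hmemδ ζ₀ r
  have h2 : circleAverage (fun ξ => δ + (1 - 2 * δ) * s ξ) 0 1 =
      δ + (1 - 2 * δ) * circleAverage s 0 1 := by
    rw [circleAverage_fun_add (circleIntegrable_const _ _ _) (CircleIntegrable.const_mul' hsi _),
      circleAverage_const, circleAverage_const_mul]
  rw [h2] at h1
  refine h1.trans ?_
  have h3 : circleAverage (fun ξ => W a b u (ζ₀ + r * ξ) (δ + (1 - 2 * δ) * s ξ)) 0 1 ≤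
      circleAverage (fun ξ => W a b u (ζ₀ + r * ξ) (s ξ) + ε) 0 1 := by
    apply circleAverage_mono
    · apply circleIntegrable_of_continuousOn one_pos
      exact hGc.comp_continuousOn (continuousOn_id.prodMk hsδ)
    · exact hGi.add (circleIntegrable_const _ _ _)
    · intro ξ hξ
      rw [abs_one] at hξ
      have hs01 := h01 ξ hξ
      have hm := hmemδ ξ hξ
      have hd : dist ((ξ, δ + (1 - 2 * δ) * s ξ) : ℂ × ℝ) (ξ, s ξ) < δ' := by
        rw [Prod.dist_eq, max_lt_iff]
        simp only [dist_self]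
        refine ⟨hδ', ?_⟩
        rw [Real.dist_eq, abs_lt]
        constructor <;> nlinarith [hs01.1, hs01.2]
      have h4 := hδ'' (ξ, δ + (1 - 2 * δ) * s ξ) ⟨hξ, ⟨by linarith [hm.1], by linarith [hm.2]⟩⟩
        (ξ, s ξ) ⟨hξ, hs01⟩ hd
      rw [Real.dist_eq] at h4
      have := (abs_lt.mp h4).2
      simp only [G] at this
      linarith
  refine h3.trans ?_
  rw [circleAverage_fun_add hGi (circleIntegrable_const _ _ _), circleAverage_const]

/-- A continuous function on `[0,1]` satisfying the mean value inequality for functions on the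
circle is convex. -/
theorem convexOn_of_circle {f : ℝ → ℝ} (hf : Continuous f)
    (h : ∀ s : ℂ → ℝ, Continuous s → (∀ ξ ∈ sphere (0 : ℂ) 1, s ξ ∈ Icc (0 : ℝ) 1) →
      f (circleAverage s 0 1) ≤ circleAverage (fun ξ => f (s ξ)) 0 1) :
    ConvexOn ℝ (Icc (0 : ℝ) 1) f := by
  -- interpolation inequality
  have hint : ∀ x ∈ Icc (0 : ℝ) 1, ∀ y ∈ Icc (0 : ℝ) 1, x < y → ∀ t ∈ Icc x y,
      f t ≤ f x + (f y - f x) / (y - x) * (t - x) := by
    intro x hx y hy hxy
    by_contra hcon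
    push Not at hcon
    obtain ⟨t₀, ht₀, hlt⟩ := hcon
    set k := (f y - f x) / (y - x) with hk
    let g : ℝ → ℝ := fun t => f t - (f x + k * (t - x))
    have hgc : Continuous g := by unfold g; fun_prop
    have hgx : g x = 0 := by simp [g]
    have hgy : g y = 0 := by
      simp only [g, hk]
      have : y - x ≠ 0 := by linarith
      field_simp
      ring
    obtain ⟨tm, htm, hmax⟩ := isCompact_Icc.exists_isMaxOn ⟨t₀, ht₀⟩ hgc.continuousOn
    set M := g tm with hM
    have hMpos : 0 < M := by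
      have h1 : g t₀ ≤ M := hmax ht₀
      have h2 : 0 < g t₀ := by
        simp only [g]
        linarith
      linarith
    have hle : ∀ t ∈ Icc x y, g t ≤ M := fun t ht => hmax ht
    let S : Set ℝ := Icc x y ∩ g ⁻¹' {M}
    have hScl : IsClosed S := isClosed_Icc.inter (isClosed_singleton.preimage hgc)
    have hS : IsCompact S := isCompact_Icc.of_isClosed_subset hScl inter_subset_left
    obtain ⟨m, hmS, hmin⟩ := hS.exists_isLeast ⟨tm, htm, rfl⟩
    have hgm : g m = M := hmS.2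
    have hmx : x < m := by
      rcases hmS.1.1.lt_or_eq with h1 | h1
      · exact h1
      · rw [← h1, hgx] at hgm
        linarith
    have hmy : m < y := by
      rcases hmS.1.2.lt_or_eq with h1 | h1
      · exact h1
      · rw [h1, hgy] at hgm
        linarith
    set d := min (m - x) (y - m) with hd
    have hdpos : 0 < d := lt_min (by linarith) (by linarith)
    have hd1 : d ≤ m - x := min_le_left _ _
    have hd2 : d ≤ y - m := min_le_right _ _
    let s : ℂ → ℝ := fun ξ => m + d * ξ.re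
    have hsc : Continuous s := by unfold s; fun_prop
    have hsmem : ∀ ξ ∈ sphere (0 : ℂ) 1, s ξ ∈ Icc x y := by
      intro ξ hξ
      have h1 : ‖ξ‖ = 1 := by simpa using hξ
      have h2 := abs_le.mp ((Complex.abs_re_le_norm ξ).trans h1.le)
      constructor <;> simp only [s] <;> nlinarith [h2.1, h2.2]
    have havg : circleAverage s 0 1 = m := by
      have e : s = fun ξ : ℂ => m + (d * ξ.re + 0 * ξ.im + 0 * ξ.re ^ 2 + 0 * (ξ.re * ξ.im) +
          0 * ξ.im ^ 2) := by
        ext ξ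
        simp only [s]
        ring
      rw [e, circleAverage_fun_add (circleIntegrable_const _ _ _), circleAverage_const,
        circleAverage_quad]
      · ring
      · apply ContinuousOn.circleIntegrable'
        apply Continuous.continuousOn
        fun_prop
    have h1 := h s hsc fun ξ hξ => ⟨hx.1.trans (hsmem ξ hξ).1, (hsmem ξ hξ).2.trans hy.2⟩
    rw [havg] at h1
    have h2 : circleAverage (fun ξ => g (s ξ)) 0 1 =
        circleAverage (fun ξ => f (s ξ)) 0 1 - (f x + k * (m - x)) := by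
      have e : (fun ξ : ℂ => g (s ξ)) = fun ξ => f (s ξ) - ((f x + k * (m - x)) +
          ((k * d) * ξ.re + 0 * ξ.im + 0 * ξ.re ^ 2 + 0 * (ξ.re * ξ.im) + 0 * ξ.im ^ 2)) := by
        ext ξ
        simp only [g, s]
        ring
      have i1 : CircleIntegrable (fun ξ : ℂ => (k * d) * ξ.re + 0 * ξ.im + 0 * ξ.re ^ 2 +
          0 * (ξ.re * ξ.im) + 0 * ξ.im ^ 2) 0 1 := by
        apply ContinuousOn.circleIntegrable'
        apply Continuous.continuousOn
        fun_prop
      rw [e, circleAverage_fun_sub, circleAverage_fun_add (circleIntegrable_const _ _ _) i1,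
        circleAverage_const, circleAverage_quad]
      · ring
      · apply ContinuousOn.circleIntegrable'
        exact (hf.comp hsc).continuousOn
      · exact (circleIntegrable_const _ _ _).add i1
    have h3 : circleAverage (fun ξ => g (s ξ)) 0 1 < M := by
      apply circleAverage_lt one_pos (z₁ := -1)
      · exact (hgc.comp hsc).continuousOn
      · exact fun ξ hξ => hle _ (hsmem ξ hξ)
      · simp
      · have h4 : s (-1) = m - d := by simp [s, sub_eq_add_neg]
        have h5 : s (-1) ∈ Icc x y := hsmem _ (by simp)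
        rcases (hle _ h5).lt_or_eq with h6 | h6
        · exact h6
        · exfalso
          have := hmin ⟨h5, h6⟩
          rw [h4] at this
          linarith
    have h4 : g m = f m - (f x + k * (m - x)) := rfl
    linarith
  apply LinearOrder.convexOn_of_lt (convex_Icc 0 1)
  intro x hx y hy hxy p q hp hq hpq
  have hp' : p = 1 - q := by linarith
  subst hp'
  have hmem : (1 - q) • x + q • y ∈ Icc x y := by
    simp only [smul_eq_mul]
    have h1 : 0 < q * (y - x) := mul_pos hq (by linarith)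
    have h2 : 0 < (1 - q) * (y - x) := mul_pos hp (by linarith)
    constructor <;> linarith
  have h1 := hint x hx y hy hxy _ hmem
  refine h1.trans_eq ?_
  simp only [smul_eq_mul]
  have : y - x ≠ 0 := by linarith
  field_simp
  ring

theorem Geo.convex_W (h : Geo a b B u) (ζ : ℂ) : ConvexOn ℝ (Icc (0 : ℝ) 1) (W a b u ζ) := by
  apply convexOn_of_circle
  · exact h.continuous_W.comp (by fun_prop : Continuous fun t : ℝ => ((ζ, t) : ℂ × ℝ))
  · intro s hs h01
    have := h.KL hs.continuousOn h01 ζ 0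
    simpa using this

end Pool.Agent.H90
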