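import Pool.Agent.H90.Psh

/-!
# The Levi form and the sub-mean value property
-/

open Complex MeasureTheory Metric Real Set InnerProductSpace Topology Filter

namespace Pool.Agent.H90

theorem taylor2 {E : Type*} [NormedAddCommGroup E] [NormedSpace ℝ E] {V : E → ℝ}
    (hV : ContDiff ℝ 2 V) (p : E) {ε : ℝ} (hε : 0 < ε) :
    ∃ δ > 0, ∀ h : E, ‖h‖ < δ →
      |V (p + h) - V p - fderiv ℝ V p h - (1 / 2) * fderiv ℝ (fderiv ℝ V) p h h| ≤ ε * ‖h‖ ^ 2 := by
  have hd : Differentiable ℝ V := hV.differentiable (by norm_num)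
  have hd1 : ContDiff ℝ 1 (fderiv ℝ V) := hV.fderiv_right (by norm_num)
  have hd2 : Differentiable ℝ (fderiv ℝ V) := hd1.differentiable (by norm_num)
  set D2 := fderiv ℝ (fderiv ℝ V) p with hD2
  have h2 : HasFDerivAt (fderiv ℝ V) D2 p := (hd2 p).hasFDerivAt
  have hsymm : ∀ x y, D2 x y = D2 y x := by
    intro x y
    exact second_derivative_symmetric (f := V) (f' := fderiv ℝ V) (f'' := D2) (x := p)
      (fun y => (hd y).hasFDerivAt) h2 x y
  have h3 := (hasFDerivAt_iff_isLittleO_nhds_zero.mp h2).def hε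
  obtain ⟨δ, hδ, hδ'⟩ := Metric.eventually_nhds_iff.mp h3
  refine ⟨δ, hδ, fun h hh => ?_⟩
  let R : E → ℝ := fun x => V (p + x) - fderiv ℝ V p x - (1 / 2) * D2 x x
  have hR : ∀ x ∈ closedBall (0 : E) ‖h‖, HasFDerivWithinAt R
      (fderiv ℝ V (p + x) - fderiv ℝ V p - D2 x) (closedBall (0 : E) ‖h‖) x := by
    intro x _
    apply HasFDerivAt.hasFDerivWithinAt
    have e1 : HasFDerivAt (fun x => V (p + x)) (fderiv ℝ V (p + x)) x := by
      have := (hd (p + x)).hasFDerivAt.comp x ((hasFDerivAt_id x).const_add p)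
      refine HasFDerivAt.congr_fderiv this ?_
      ext y
      simp
    have e2 : HasFDerivAt (fun x => fderiv ℝ V p x) (fderiv ℝ V p) x := (fderiv ℝ V p).hasFDerivAt
    have e3 := (D2.hasFDerivAt (x := x)).clm_apply (hasFDerivAt_id x)
    have e4 := (e1.sub e2).sub (e3.const_mul (1 / 2 : ℝ))
    refine e4.congr_fderiv ?_
    ext y
    simp only [sub_apply, smul_apply, add_apply, ContinuousLinearMap.comp_apply,
      ContinuousLinearMap.flip_apply, id, ContinuousLinearMap.id_apply, smul_eq_mul]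
    rw [hsymm y x]
    ring
  have hbound : ∀ x ∈ closedBall (0 : E) ‖h‖,
      ‖fderiv ℝ V (p + x) - fderiv ℝ V p - D2 x‖ ≤ ε * ‖h‖ := by
    intro x hx
    have hx' : ‖x‖ ≤ ‖h‖ := by simpa using hx
    have := hδ' (y := x) (by simpa using hx'.trans_lt hh)
    exact this.trans (by gcongr)
  have h4 := (convex_closedBall (0 : E) ‖h‖).norm_image_sub_le_of_norm_hasFDerivWithin_le hR hbound
    (mem_closedBall_self (norm_nonneg h)) (show h ∈ closedBall (0 : E) ‖h‖ by simp)
  simp only [R] at h4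
  simp only [add_zero, map_zero, mul_zero, sub_zero, Real.norm_eq_abs] at h4
  have h5 : V (p + h) - V p - fderiv ℝ V p h - 1 / 2 * (D2 h) h =
      V (p + h) - (fderiv ℝ V p) h - 1 / 2 * (D2 h) h - V p := by ring
  rw [h5]
  calc _ ≤ ε * ‖h‖ * ‖h‖ := h4
    _ = _ := by ring

theorem circleAverage_quad (s a b A B C : ℝ) :
    circleAverage (fun ξ : ℂ => a * ξ.re + b * ξ.im + A * ξ.re ^ 2 + B * (ξ.re * ξ.im) + C * ξ.im ^ 2)
      0 s = s ^ 2 * (A + C) / 2 := by
  rw [circleAverage_def]
  have h1 : ∀ θ : ℝ, (circleMap 0 s θ).re = s * Real.cos θ := by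
    intro θ
    simp [circleMap]
  have h2 : ∀ θ : ℝ, (circleMap 0 s θ).im = s * Real.sin θ := by
    intro θ
    simp [circleMap]
  simp only [h1, h2]
  have e : ∀ θ : ℝ, a * (s * Real.cos θ) + b * (s * Real.sin θ) + A * (s * Real.cos θ) ^ 2 +
      B * (s * Real.cos θ * (s * Real.sin θ)) + C * (s * Real.sin θ) ^ 2 =
      (a * s) * Real.cos θ + (b * s) * Real.sin θ + (A * s ^ 2) * Real.cos θ ^ 2 +
      (B * s ^ 2) * (Real.sin θ * Real.cos θ) + (C * s ^ 2) * Real.sin θ ^ 2 := by
    intro θ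
    ring
  simp only [e]
  have i1 : ∀ f : ℝ → ℝ, Continuous f → IntervalIntegrable f volume 0 (2 * π) :=
    fun f hf => hf.intervalIntegrable _ _
  rw [intervalIntegral.integral_add (i1 _ (by fun_prop)) (i1 _ (by fun_prop)),
    intervalIntegral.integral_add (i1 _ (by fun_prop)) (i1 _ (by fun_prop)),
    intervalIntegral.integral_add (i1 _ (by fun_prop)) (i1 _ (by fun_prop)),
    intervalIntegral.integral_add (i1 _ (by fun_prop)) (i1 _ (by fun_prop))]
  simp only [intervalIntegral.integral_const_mul, integral_cos, integral_sin, integral_cos_sq,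
    integral_sin_sq, integral_sin_mul_cos₁]
  simp
  field_simp

/-- Levi form (four times the complex Hessian) of a real function on `ℂ × ℂ`. -/
noncomputable def levi (V : ℂ × ℂ → ℝ) (p w : ℂ × ℂ) : ℝ :=
  fderiv ℝ (fderiv ℝ V) p w w + fderiv ℝ (fderiv ℝ V) p (I • w) (I • w)

theorem smul_eq_re_im (ξ : ℂ) (w : ℂ × ℂ) : ξ • w = ξ.re • w + ξ.im • (I • w) := by
  ext1
  · simp only [Prod.smul_fst, Prod.fst_add, smul_eq_mul, Complex.real_smul]
    conv_lhs => rw [← Complex.re_add_im ξ]
    ring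
  · simp only [Prod.smul_snd, Prod.snd_add, smul_eq_mul, Complex.real_smul]
    conv_lhs => rw [← Complex.re_add_im ξ]
    ring

/-- Second order expansion of averages over small circles. -/
theorem circleAverage_expansion {V : ℂ × ℂ → ℝ} (hV : ContDiff ℝ 2 V) (p w : ℂ × ℂ) {ε : ℝ}
    (hε : 0 < ε) : ∃ δ > 0, ∀ s, 0 < s → s < δ →
      |circleAverage (fun ξ : ℂ => V (p + ξ • w)) 0 s - V p - s ^ 2 / 4 * levi V p w| ≤
        ε * s ^ 2 := by
  obtain ⟨δ, hδ, h⟩ := taylor2 hV p (ε := ε / (‖w‖ ^ 2 + 1)) (by positivity)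
  refine ⟨δ / (‖w‖ + 1), by positivity, fun s hs hsδ => ?_⟩
  have hw0 := norm_nonneg w
  set D1 := fderiv ℝ V p with hD1
  set D2 := fderiv ℝ (fderiv ℝ V) p with hD2
  let Q : ℂ → ℝ := fun ξ => V p + D1 (ξ • w) + (1 / 2) * D2 (ξ • w) (ξ • w)
  have hcontQ : Continuous Q := by
    unfold Q
    fun_prop
  have hQ : circleAverage Q 0 s = V p + s ^ 2 / 4 * levi V p w := by
    have e : Q = fun ξ : ℂ => V p + (D1 w * ξ.re + D1 (I • w) * ξ.im + (1 / 2 * D2 w w) * ξ.re ^ 2 +
        (1 / 2 * (D2 w (I • w) + D2 (I • w) w)) * (ξ.re * ξ.im) +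
        (1 / 2 * D2 (I • w) (I • w)) * ξ.im ^ 2) := by
      ext ξ
      simp only [Q]
      rw [smul_eq_re_im ξ w]
      simp only [map_add, map_smul, add_apply, smul_apply, smul_eq_mul]
      ring
    rw [e, circleAverage_fun_add (circleIntegrable_const _ _ _), circleAverage_const,
      circleAverage_quad]
    · unfold levi
      ring
    · apply ContinuousOn.circleIntegrable'
      apply Continuous.continuousOn
      fun_prop
  have hVc : Continuous V := hV.continuous
  have hVi : CircleIntegrable (fun ξ : ℂ => V (p + ξ • w)) 0 s := by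
    apply ContinuousOn.circleIntegrable'
    apply Continuous.continuousOn
    fun_prop
  have hQi : CircleIntegrable Q 0 s := by
    apply ContinuousOn.circleIntegrable'
    exact hcontQ.continuousOn
  have h1 : circleAverage (fun ξ : ℂ => V (p + ξ • w)) 0 s - V p - s ^ 2 / 4 * levi V p w =
      circleAverage (fun ξ : ℂ => V (p + ξ • w) - Q ξ) 0 s := by
    rw [circleAverage_fun_sub hVi hQi, hQ]
    ring
  rw [h1]
  calc |circleAverage (fun ξ : ℂ => V (p + ξ • w) - Q ξ) 0 s|
      ≤ circleAverage |fun ξ : ℂ => V (p + ξ • w) - Q ξ| 0 s :=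
        abs_circleAverage_le_circleAverage_abs
    _ ≤ circleAverage (fun _ => ε * s ^ 2) 0 s := by
        refine circleAverage_mono (hVi.sub hQi).abs (circleIntegrable_const _ _ _) ?_
        intro ξ hξ
        have hξ' : ‖ξ‖ = s := by
          rw [abs_of_pos hs] at hξ
          simpa using hξ
        have hn : ‖ξ • w‖ = s * ‖w‖ := by rw [norm_smul, hξ']
        have hlt : ‖ξ • w‖ < δ := by
          rw [hn]
          rw [lt_div_iff₀ (by positivity)] at hsδ
          nlinarith
        have h2 := h _ hlt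
        have h3 : V (p + ξ • w) - Q ξ =
            V (p + ξ • w) - V p - D1 (ξ • w) - 1 / 2 * (D2 (ξ • w)) (ξ • w) := by
          simp only [Q]
          ring
        simp only [Pi.abs_apply]
        rw [h3]
        refine h2.trans ?_
        rw [hn, div_mul_eq_mul_div, div_le_iff₀ (by positivity)]
        have : 0 ≤ ε * s ^ 2 := by positivity
        nlinarith
    _ = ε * s ^ 2 := circleAverage_const _ _ _

theorem levi_nonneg {V : ℂ × ℂ → ℝ} (hV : ContDiff ℝ 2 V) {p w : ℂ × ℂ}
    (h : LSM (fun ξ : ℂ => V (p + ξ • w)) 0) : 0 ≤ levi V p w := by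
  by_contra hneg
  push Not at hneg
  obtain ⟨δ, hδ, h1⟩ := circleAverage_expansion hV p w (ε := -levi V p w / 8) (by linarith)
  obtain ⟨s₀, hs₀, h2⟩ := h
  set s := min (δ / 2) (s₀ / 2) with hs
  have hspos : 0 < s := by positivity
  have h3 := h1 s hspos ((min_le_left _ _).trans_lt (by linarith))
  have h4 := h2 s hspos ((min_le_right _ _).trans_lt (by linarith))
  simp only [zero_smul, add_zero] at h4
  have h5 := (abs_le.mp h3).2
  have : 0 < s ^ 2 := by positivity
  nlinarith

end Pool.Agent.H90
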