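import Pool.Agent.H90.Comp

/-!
# The local comparison principle
-/

open Complex MeasureTheory Metric Real Set InnerProductSpace Topology Filter

namespace Pool.Agent.H90

theorem hess_congr {f g : ℂ × ℂ → ℝ} {p : ℂ × ℂ} (h : f =ᶠ[𝓝 p] g) (a b : ℂ × ℂ) :
    hess f p a b = hess g p a b := by
  unfold hess
  rw [h.fderiv.fderiv_eq]

theorem ma_congr {f g : ℂ × ℂ → ℝ} {p : ℂ × ℂ} (h : f =ᶠ[𝓝 p] g) : ma f p = ma g p := by
  unfold ma
  simp only [hess_congr h]

theorem levi_congr {f g : ℂ × ℂ → ℝ} {p : ℂ × ℂ} (h : f =ᶠ[𝓝 p] g) (w : ℂ × ℂ) :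
    levi f p w = levi g p w := by
  rw [levi_def', levi_def', hess_congr h, hess_congr h]

theorem continuous_hess {f : ℂ × ℂ → ℝ} (hf : Sm f) (a b : ℂ × ℂ) :
    Continuous fun p => hess f p a b := by
  have : (fun p => hess f p a b) = D a (D b f) := by
    ext p
    exact hess_eq_D hf p a b
  rw [this]
  exact ((hf.D b).D a).continuous

theorem continuous_ma {f : ℂ × ℂ → ℝ} (hf : Sm f) : Continuous (ma f) := by
  unfold ma
  have h := continuous_hess hf
  exact (((h _ _).add (h _ _)).mul ((h _ _).add (h _ _))).sub (((h _ _).add (h _ _)).pow 2) |>.sub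
    (((h _ _).sub (h _ _)).pow 2)

theorem levi_nonneg' {V : ℂ × ℂ → ℝ} (hV : Sm V) {N : Set (ℂ × ℂ)} (hN : IsOpen N)
    (hp : PshOn V N) {p : ℂ × ℂ} (hpN : p ∈ N) (w : ℂ × ℂ) : 0 ≤ levi V p w :=
  levi_nonneg (contDiff_infty.mp hV 2) (hp.LSM hN hpN w)

open scoped Manifold ContDiff in
/-- Smooth functions near a compact set can be replaced by globally smooth ones. -/
theorem extend_smooth {K N : Set (ℂ × ℂ)} (hK : IsCompact K) (hN : IsOpen N) (hKN : K ⊆ N) :
    ∃ N' : Set (ℂ × ℂ), IsOpen N' ∧ K ⊆ N' ∧ N' ⊆ N ∧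
      ∀ f : ℂ × ℂ → ℝ, ContDiffOn ℝ (⊤ : ℕ∞) f N →
        ∃ F : ℂ × ℂ → ℝ, Sm F ∧ ∀ p ∈ N', F p = f p := by
  obtain ⟨T, hT, hKT, hTN⟩ := exists_compact_between hK hN hKN
  obtain ⟨χ, h1, h0, -⟩ := exists_contMDiffMap_one_nhds_of_subset_interior
    (n := (⊤ : ℕ∞)) (modelWithCornersSelf ℝ (ℂ × ℂ)) hK.isClosed hKT
  obtain ⟨N₀, hN₀, hKN₀, hN₀1⟩ := eventually_nhdsSet_iff_exists.mp h1
  have hχ : Sm χ := χ.contMDiff.contDiff
  refine ⟨N₀ ∩ N, hN₀.inter hN, subset_inter hKN₀ hKN, inter_subset_right, fun f hf => ?_⟩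
  refine ⟨fun p => χ p * f p, ?_, fun p hp => ?_⟩
  · refine contDiff_iff_contDiffAt.mpr fun q => ?_
    by_cases hq : q ∈ N
    · exact hχ.contDiffAt.mul (hf.contDiffAt (hN.mem_nhds hq))
    · have hqT : q ∈ Tᶜ := fun h => hq (hTN h)
      have : (fun p => χ p * f p) =ᶠ[𝓝 q] fun _ => 0 := by
        filter_upwards [hT.isClosed.isOpen_compl.mem_nhds hqT] with q' hq'
        rw [h0 q' hq', zero_mul]
      exact contDiffAt_const.congr_of_eventuallyEq this
  · change χ p * f p = f p
    rw [hN₀1 p hp.1, one_mul]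

theorem local_comparison {Ω F : Set (ℂ × ℂ)} {u v : ℂ × ℂ → ℝ} (hΩ : IsOpen Ω)
    (hu : ContinuousOn u Ω) (hBT : BTZero u Ω) {c : ℝ} (hc : 0 < c)
    (hv : PshOn (fun p => v p - c * N2 p) Ω) (hF : IsCompact F) (hFΩ : F ⊆ Ω)
    (hle : ∀ p ∈ Ω \ F, v p ≤ u p) : ∀ p ∈ Ω, v p ≤ u p := by
  by_contra hcon
  push Not at hcon
  obtain ⟨p₀, hp₀, hlt⟩ := hcon
  set m := v p₀ - u p₀ with hm
  have hmpos : 0 < m := by linarith
  have hp₀F : p₀ ∈ F := by
    by_contra h
    have := hle p₀ ⟨hp₀, h⟩
    linarith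
  obtain ⟨K, hK, hFK, hKΩ⟩ := exists_compact_between hF hΩ hFΩ
  have hKint : interior K ⊆ K := interior_subset
  have hvc : ContinuousOn v Ω := by
    have h1 : ContinuousOn (fun p => (v p - c * N2 p) + c * N2 p) Ω :=
      hv.cont.add (continuous_const.mul Sm_N2.continuous).continuousOn
    exact h1.congr fun p _ => by ring
  -- smooth approximation of v
  obtain ⟨V₀, N₁, hN₁, hKN₁, hN₁Ω, hV₀, hV₀p, hV₀v⟩ := exists_smooth_approx hΩ hK hKΩ hv
    (η := m / 16) (by positivity)
  set V : ℂ × ℂ → ℝ := fun q => V₀ q + c * N2 q with hVdef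
  have hV : Sm V := hV₀.add (contDiff_const.mul Sm_N2)
  have hVv : ∀ p ∈ N₁, |V p - v p| ≤ m / 16 := by
    intro p hp
    have := hV₀v p hp
    have e : V p - v p = V₀ p - (v p - c * N2 p) := by
      simp only [hVdef]
      ring
    rw [e]
    exact this
  have hVlevi : ∀ p ∈ N₁, ∀ w, 4 * (c * N2 w) ≤ levi V p w := fun p hp w =>
    levi_of_strict hN₁ hV₀ hV₀p hp w
  -- approximation of u
  obtain ⟨N₂₀, U₀, hN₂₀, hKN₂₀, hU₀, hU₀p, hU₀u, hU₀ma⟩ := hBT K hK hKΩ
  obtain ⟨N₂, hN₂, hKN₂, hN₂N₂₀, hext⟩ := extend_smooth hK hN₂₀ hKN₂₀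
  choose U hU hUeq using fun j => hext (U₀ j) (hU₀ j)
  have hUp : ∀ j, PshOn (U j) N₂ := fun j => ((hU₀p j).mono hN₂N₂₀).congr (hUeq j)
  have hUu : TendstoUniformlyOn U u atTop N₂ :=
    (hU₀u.mono hN₂N₂₀).congr (Filter.Eventually.of_forall fun j p hp => (hUeq j p hp).symm)
  have hUma : Tendsto (fun j => ∫ p in K, ma (U j) p) atTop (𝓝 0) := by
    refine hU₀ma.congr fun j => ?_
    apply setIntegral_congr_fun hK.measurableSet
    intro p hp
    apply ma_congr
    filter_upwards [hN₂.mem_nhds (hKN₂ hp)] with q hq using (hUeq j q hq).symm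
  -- the cut-off
  obtain ⟨g, hg, hg0, hg1, hg2, hg3, hg4⟩ := exists_g (m / 2) (τ := m / 4) (by positivity)
  -- the open set where the mass is
  let G : Set (ℂ × ℂ) := interior K ∩ {p | 7 * m / 8 < v p - u p}
  have hGopen : IsOpen G := by
    have h1 : ContinuousOn (fun p => v p - u p) (interior K) :=
      (hvc.sub hu).mono (hKint.trans hKΩ)
    exact h1.isOpen_inter_preimage isOpen_interior isOpen_Ioi
  have hGne : G.Nonempty := ⟨p₀, hFK hp₀F, by
    change 7 * m / 8 < v p₀ - u p₀
    rw [← hm]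
    linarith⟩
  have hGK : G ⊆ K := fun p hp => hKint hp.1
  have hvolpos : 0 < (volume G).toReal := by
    apply ENNReal.toReal_pos
    · exact (hGopen.measure_pos volume hGne).ne'
    · exact ((measure_mono hGK).trans_lt hK.measure_lt_top).ne
  -- the key lower bound
  have key : ∀ j, (∀ p ∈ N₂, |U j p - u p| < m / 16) →
      16 * c ^ 2 * (volume G).toReal ≤ ∫ p in K, ma (U j) p := by
    intro j hj
    let h : ℂ × ℂ → ℝ := fun q => V q + (-1) * U j q
    have hh : Sm h := hV.add (contDiff_const.mul (hU j))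
    have hUj : Sm (fun q => (-1 : ℝ) * U j q) := contDiff_const.mul (hU j)
    have hgh : Sm (fun q => g (h q)) := hg.comp hh
    classical
    let θ : ℂ × ℂ → ℝ := fun q => if q ∈ F then g (h q) else 0
    have hθK : ∀ q ∈ interior K, θ q = g (h q) := by
      intro q hq
      by_cases hqF : q ∈ F
      · simp only [θ, if_pos hqF]
      · simp only [θ, if_neg hqF]
        have hqK := hKint hq
        have h1 := hle q ⟨hKΩ hqK, hqF⟩
        have h2 := (abs_le.mp (hVv q (hKN₁ hqK))).2
        have h3 := (abs_lt.mp (hj q (hKN₂ hqK))).1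
        rw [hg0]
        simp only [h]
        linarith
    have hθF : ∀ q ∈ Fᶜ, θ q = 0 := fun q hq => if_neg hq
    have hFo : IsOpen Fᶜ := hF.isClosed.isOpen_compl
    have hθs : Sm θ := by
      refine contDiff_iff_contDiffAt.mpr fun q => ?_
      by_cases hqF : q ∈ F
      · have : θ =ᶠ[𝓝 q] fun q => g (h q) := by
          filter_upwards [isOpen_interior.mem_nhds (hFK hqF)] with q' hq' using hθK q' hq'
        exact (hgh.contDiffAt).congr_of_eventuallyEq this
      · have : θ =ᶠ[𝓝 q] fun _ => 0 := by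
          filter_upwards [hFo.mem_nhds hqF] with q' hq' using hθF q' hq'
        exact contDiffAt_const.congr_of_eventuallyEq this
    have hθc : HasCompactSupport θ := HasCompactSupport.intro hF fun q hq => hθF q hq
    have hint := integral_ma_sub (hU j) hθs hθc
    set W : ℂ × ℂ → ℝ := fun q => U j q + θ q with hW
    have hWs : Sm W := (hU j).add hθs
    -- off F nothing changes
    have hoff : ∀ q ∈ Fᶜ, ma W q = ma (U j) q := by
      intro q hq
      apply ma_congr
      filter_upwards [hFo.mem_nhds hq] with q' hq'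
      simp only [hW, hθF q' hq', add_zero]
    have hintK : ∫ p in K, (ma W p - ma (U j) p) = 0 := by
      rw [← hint]
      apply setIntegral_eq_integral_of_forall_compl_eq_zero
      intro q hq
      have hqF : q ∈ Fᶜ := fun h => hq (hKint (hFK h))
      rw [hoff q hqF, sub_self]
    have i1 : IntegrableOn (ma W) K := (continuous_ma hWs).continuousOn.integrableOn_compact hK
    have i2 : IntegrableOn (ma (U j)) K :=
      (continuous_ma (hU j)).continuousOn.integrableOn_compact hK
    rw [integral_sub i1 i2, sub_eq_zero] at hintK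
    rw [← hintK]
    -- Levi form of W in the interior of K
    have hWlevi : ∀ p ∈ interior K, ∀ w, deriv g (h p) * (4 * (c * N2 w)) ≤ levi W p w := by
      intro p hp w
      have e : levi W p w = levi (fun q => U j q + g (h q)) p w := by
        apply levi_congr
        filter_upwards [isOpen_interior.mem_nhds hp] with q hq
        simp only [hW, hθK q hq]
      rw [e, levi_add (hU j) hgh, levi_comp hg hh, levi_add hV hUj, levi_const_mul (hU j)]
      have h1 := hVlevi p (hKN₁ (hKint hp)) w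
      have h2 := levi_nonneg' (hU j) hN₂ (hUp j) (hKN₂ (hKint hp)) w
      have h3 := hg1 (h p)
      have h4 := hg2 (h p)
      have h5 := hg3 (h p)
      have h6 : 0 ≤ deriv (deriv g) (h p) * (D w h p ^ 2 + D (I • w) h p ^ 2) := by positivity
      have h7 : deriv g (h p) * (4 * (c * N2 w)) ≤ deriv g (h p) * levi V p w :=
        mul_le_mul_of_nonneg_left h1 h3
      have h8 : 0 ≤ (1 - deriv g (h p)) * levi (U j) p w := mul_nonneg (by linarith) h2
      nlinarith
    have hWnonneg : ∀ p ∈ K, 0 ≤ ma W p := by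
      intro p hp
      by_cases hpF : p ∈ F
      · apply ma_nonneg hWs
        intro w
        have := hWlevi p (hFK hpF) w
        have h2 := hg1 (h p)
        have h3 := N2_nonneg w
        exact le_trans (by positivity) this
      · rw [hoff p hpF]
        exact ma_nonneg (hU j) p fun w => levi_nonneg' (hU j) hN₂ (hUp j) (hKN₂ hp) w
    have hWG : ∀ p ∈ G, 16 * c ^ 2 ≤ ma W p := by
      intro p hp
      apply ma_ge hWs p hc.le
      intro w
      have h1 := hWlevi p hp.1 w
      have hpK := hKint hp.1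
      have h2 : 7 * m / 8 < v p - u p := hp.2
      have h3 := (abs_le.mp (hVv p (hKN₁ hpK))).1
      have h4 := (abs_lt.mp (hj p (hKN₂ hpK))).2
      have h5 : deriv g (h p) = 1 := by
        apply hg4
        simp only [h]
        linarith
      rw [h5] at h1
      unfold N2 at h1
      linarith
    calc 16 * c ^ 2 * (volume G).toReal = ∫ p in G, (16 * c ^ 2 : ℝ) := by
          rw [setIntegral_const, smul_eq_mul, Measure.real, mul_comm]
      _ ≤ ∫ p in G, ma W p := by
          apply setIntegral_mono_on _ (i1.mono_set hGK) hGopen.measurableSet hWG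
          exact integrableOn_const ((measure_mono hGK).trans_lt hK.measure_lt_top).ne
      _ ≤ ∫ p in K, ma W p := by
          apply setIntegral_mono_set i1
          · rw [EventuallyLE, ae_restrict_iff' hK.measurableSet]
            exact Filter.Eventually.of_forall hWnonneg
          · exact LE.le.eventuallyLE hGK
  -- conclusion
  have hev : ∀ᶠ j in atTop, ∀ p ∈ N₂, |U j p - u p| < m / 16 := by
    have := Metric.tendstoUniformlyOn_iff.mp hUu (m / 16) (by positivity)
    filter_upwards [this] with j hj p hp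
    have := hj p hp
    rw [dist_comm, Real.dist_eq] at this
    exact this
  have hlim : 16 * c ^ 2 * (volume G).toReal ≤ 0 :=
    ge_of_tendsto hUma (hev.mono fun j hj => key j hj)
  have : 0 < 16 * c ^ 2 * (volume G).toReal := by positivity
  linarith

end Pool.Agent.H90
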