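import Pool.Agent.H90.Mollify

/-!
# The complex Monge-Ampère operator on smooth functions of two variables
-/

open Complex MeasureTheory Metric Real Set InnerProductSpace Topology Filter

namespace Pool.Agent.H90

/-- directional derivative -/
noncomputable def D (a : ℂ × ℂ) (f : ℂ × ℂ → ℝ) (p : ℂ × ℂ) : ℝ := fderiv ℝ f p a

/-- smoothness -/
abbrev Sm (f : ℂ × ℂ → ℝ) : Prop := ContDiff ℝ (⊤ : ℕ∞) f

theorem Sm.diff {f : ℂ × ℂ → ℝ} (hf : Sm f) : Differentiable ℝ f :=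
  hf.differentiable (by simp)

theorem Sm.fderiv {f : ℂ × ℂ → ℝ} (hf : Sm f) : ContDiff ℝ (⊤ : ℕ∞) (fderiv ℝ f) :=
  hf.fderiv_right (by simp)

theorem Sm.D {f : ℂ × ℂ → ℝ} (hf : Sm f) (a : ℂ × ℂ) : Sm (D a f) :=
  hf.fderiv.clm_apply contDiff_const

theorem hess_eq_D {f : ℂ × ℂ → ℝ} (hf : Sm f) (p a b : ℂ × ℂ) : hess f p a b = D a (D b f) p := by
  have h1 : HasFDerivAt (fderiv ℝ f) (fderiv ℝ (fderiv ℝ f) p) p :=
    ((hf.fderiv.differentiable (by simp)) p).hasFDerivAt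
  have h2 := h1.clm_apply (hasFDerivAt_const b p)
  have h3 : fderiv ℝ (fun q => fderiv ℝ f q b) p = _ := h2.fderiv
  unfold hess
  have : D a (D b f) p = fderiv ℝ (fun q => fderiv ℝ f q b) p a := rfl
  rw [this, h3]
  simp

theorem hess_symm {f : ℂ × ℂ → ℝ} (hf : Sm f) (p a b : ℂ × ℂ) : hess f p a b = hess f p b a := by
  have h1 : HasFDerivAt (fderiv ℝ f) (fderiv ℝ (fderiv ℝ f) p) p :=
    ((hf.fderiv.differentiable (by simp)) p).hasFDerivAt
  exact second_derivative_symmetric (f := f) (f' := fderiv ℝ f) (x := p)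
      (fun y => (hf.diff y).hasFDerivAt) h1 a b

theorem D_comm {f : ℂ × ℂ → ℝ} (hf : Sm f) (a b : ℂ × ℂ) : D a (D b f) = D b (D a f) := by
  ext p
  rw [← hess_eq_D hf, ← hess_eq_D hf, hess_symm hf]

theorem HasCompactSupport.D {θ : ℂ × ℂ → ℝ} (h : HasCompactSupport θ) (a : ℂ × ℂ) :
    HasCompactSupport (D a θ) := h.fderiv_apply (𝕜 := ℝ) a

theorem Sm.integrable_mul {f θ : ℂ × ℂ → ℝ} (hf : Sm f) (hθ : Sm θ) (hc : HasCompactSupport θ) :
    Integrable (fun p => f p * θ p) :=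
  Continuous.integrable_of_hasCompactSupport (hf.continuous.mul hθ.continuous) hc.mul_left

theorem ibp {f θ : ℂ × ℂ → ℝ} (hf : Sm f) (hθ : Sm θ) (hc : HasCompactSupport θ) (a : ℂ × ℂ) :
    ∫ p, f p * D a θ p = - ∫ p, D a f p * θ p := by
  apply integral_mul_fderiv_eq_neg_fderiv_mul_of_integrable
  · exact (hf.D a).integrable_mul hθ hc
  · exact hf.integrable_mul (hθ.D a) (HasCompactSupport.D hc a)
  · exact hf.integrable_mul hθ hc
  · exact fun x _ => hf.diff x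
  · exact fun x _ => hθ.diff x

/-- the product of second derivatives -/
noncomputable def T (f θ : ℂ × ℂ → ℝ) (a b c d : ℂ × ℂ) (p : ℂ × ℂ) : ℝ :=
  hess f p a b * hess θ p c d

theorem T_eq {f θ : ℂ × ℂ → ℝ} (hf : Sm f) (hθ : Sm θ) (a b c d : ℂ × ℂ) :
    T f θ a b c d = fun p => D a (D b f) p * D c (D d θ) p := by
  ext p
  rw [T, hess_eq_D hf, hess_eq_D hθ]

theorem integrable_T {f θ : ℂ × ℂ → ℝ} (hf : Sm f) (hθ : Sm θ) (hc : HasCompactSupport θ)
    (a b c d : ℂ × ℂ) : Integrable (T f θ a b c d) := by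
  rw [T_eq hf hθ]
  exact ((hf.D b).D a).integrable_mul ((hθ.D d).D c)
    (HasCompactSupport.D (HasCompactSupport.D hc d) c)

/-- fourth derivative against `θ` -/
noncomputable def Q4 (f θ : ℂ × ℂ → ℝ) (a b c d : ℂ × ℂ) : ℝ :=
  ∫ p, D d (D c (D a (D b f))) p * θ p

theorem integral_T {f θ : ℂ × ℂ → ℝ} (hf : Sm f) (hθ : Sm θ) (hc : HasCompactSupport θ)
    (a b c d : ℂ × ℂ) : ∫ p, T f θ a b c d p = Q4 f θ a b c d := by
  rw [T_eq hf hθ, ibp ((hf.D b).D a) (hθ.D d) (HasCompactSupport.D hc d),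
    ibp (((hf.D b).D a).D c) hθ hc, neg_neg]
  rfl

theorem Q4_swap12 {f θ : ℂ × ℂ → ℝ} (hf : Sm f) (a b c d : ℂ × ℂ) :
    Q4 f θ a b c d = Q4 f θ b a c d := by
  unfold Q4
  rw [D_comm hf a b]

theorem Q4_swap13 {f θ : ℂ × ℂ → ℝ} (hf : Sm f) (a b c d : ℂ × ℂ) :
    Q4 f θ a b c d = Q4 f θ c b a d := by
  unfold Q4
  rw [D_comm (hf.D b) c a]

theorem Q4_swap34 {f θ : ℂ × ℂ → ℝ} (hf : Sm f) (a b c d : ℂ × ℂ) :
    Q4 f θ a b c d = Q4 f θ a b d c := by
  unfold Q4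
  rw [D_comm ((hf.D b).D a) d c]

theorem integral_group {f θ : ℂ × ℂ → ℝ} (hf : Sm f) (hθ : Sm θ) (hc : HasCompactSupport θ)
    (a b : ℂ × ℂ) :
    Integrable (fun p => T f θ a a b b p + T f θ b b a a p - 2 * T f θ a b a b p) ∧
    ∫ p, (T f θ a a b b p + T f θ b b a a p - 2 * T f θ a b a b p) = 0 := by
  have i1 : Integrable (fun p => T f θ a a b b p + T f θ b b a a p) :=
    (integrable_T hf hθ hc a a b b).add (integrable_T hf hθ hc b b a a)
  have i2 : Integrable (fun p => 2 * T f θ a b a b p) := (integrable_T hf hθ hc a b a b).const_mul 2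
  refine ⟨i1.sub i2, ?_⟩
  rw [integral_sub i1 i2, integral_add (integrable_T hf hθ hc a a b b)
    (integrable_T hf hθ hc b b a a),
    integral_const_mul, integral_T hf hθ hc, integral_T hf hθ hc, integral_T hf hθ hc]
  have e1 : Q4 f θ a a b b = Q4 f θ a b a b := by
    rw [Q4_swap13 hf a a b b, Q4_swap12 hf b a a b]
  have e2 : Q4 f θ b b a a = Q4 f θ a b a b := by
    rw [Q4_swap13 hf b b a a, Q4_swap34 hf a b b a]
  rw [e1, e2]
  ring

theorem integral_group2 {f θ : ℂ × ℂ → ℝ} (hf : Sm f) (hθ : Sm θ) (hc : HasCompactSupport θ)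
    (a b c d : ℂ × ℂ) :
    Integrable (fun p => (T f θ a c b d p - T f θ b c a d p) + (T f θ b d a c p - T f θ a d b c p)) ∧
    ∫ p, ((T f θ a c b d p - T f θ b c a d p) + (T f θ b d a c p - T f θ a d b c p)) = 0 := by
  have i1 : Integrable (fun p => T f θ a c b d p - T f θ b c a d p) :=
    (integrable_T hf hθ hc _ _ _ _).sub (integrable_T hf hθ hc _ _ _ _)
  have i2 : Integrable (fun p => T f θ b d a c p - T f θ a d b c p) :=
    (integrable_T hf hθ hc _ _ _ _).sub (integrable_T hf hθ hc _ _ _ _)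
  refine ⟨i1.add i2, ?_⟩
  rw [integral_add i1 i2, integral_sub (integrable_T hf hθ hc _ _ _ _)
    (integrable_T hf hθ hc _ _ _ _), integral_sub (integrable_T hf hθ hc _ _ _ _)
    (integrable_T hf hθ hc _ _ _ _), integral_T hf hθ hc, integral_T hf hθ hc,
    integral_T hf hθ hc, integral_T hf hθ hc, Q4_swap13 hf a c b d, Q4_swap13 hf b d a c]
  ring

/-- The polarised Monge-Ampère form (times two). -/
noncomputable def ma2 (f θ : ℂ × ℂ → ℝ) (p : ℂ × ℂ) : ℝ :=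
  (hess f p (1, 0) (1, 0) + hess f p (I, 0) (I, 0)) *
    (hess θ p (0, 1) (0, 1) + hess θ p (0, I) (0, I)) +
  (hess f p (0, 1) (0, 1) + hess f p (0, I) (0, I)) *
    (hess θ p (1, 0) (1, 0) + hess θ p (I, 0) (I, 0)) -
  2 * ((hess f p (1, 0) (0, 1) + hess f p (I, 0) (0, I)) *
    (hess θ p (1, 0) (0, 1) + hess θ p (I, 0) (0, I))) -
  2 * ((hess f p (1, 0) (0, I) - hess f p (I, 0) (0, 1)) *
    (hess θ p (1, 0) (0, I) - hess θ p (I, 0) (0, 1)))

theorem zero5 {F1 F2 F3 F4 F5 : ℂ × ℂ → ℝ} (h1 : Integrable F1 ∧ ∫ p, F1 p = 0)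
    (h2 : Integrable F2 ∧ ∫ p, F2 p = 0) (h3 : Integrable F3 ∧ ∫ p, F3 p = 0)
    (h4 : Integrable F4 ∧ ∫ p, F4 p = 0) (h5 : Integrable F5 ∧ ∫ p, F5 p = 0) :
    Integrable (fun p => F1 p + F2 p + F3 p + F4 p - 2 * F5 p) ∧
    ∫ p, (F1 p + F2 p + F3 p + F4 p - 2 * F5 p) = 0 := by
  have j1 : Integrable (fun p => F1 p + F2 p) := h1.1.add h2.1
  have j2 : Integrable (fun p => F1 p + F2 p + F3 p) := j1.add h3.1
  have j3 : Integrable (fun p => F1 p + F2 p + F3 p + F4 p) := j2.add h4.1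
  have j4 : Integrable (fun p => 2 * F5 p) := h5.1.const_mul 2
  refine ⟨j3.sub j4, ?_⟩
  rw [integral_sub j3 j4, integral_add j2 h4.1, integral_add j1 h3.1, integral_add h1.1 h2.1,
    integral_const_mul, h1.2, h2.2, h3.2, h4.2, h5.2]
  ring

theorem integral_ma2 {f θ : ℂ × ℂ → ℝ} (hf : Sm f) (hθ : Sm θ) (hc : HasCompactSupport θ) :
    Integrable (ma2 f θ) ∧ ∫ p, ma2 f θ p = 0 := by
  have h := zero5 (integral_group hf hθ hc (1, 0) (0, 1)) (integral_group hf hθ hc (1, 0) (0, I))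
    (integral_group hf hθ hc (I, 0) (0, 1)) (integral_group hf hθ hc (I, 0) (0, I))
    (integral_group2 hf hθ hc (1, 0) (I, 0) (0, 1) (0, I))
  have e : ma2 f θ = fun p => ((((T f θ (1, 0) (1, 0) (0, 1) (0, 1) p +
      T f θ (0, 1) (0, 1) (1, 0) (1, 0) p - 2 * T f θ (1, 0) (0, 1) (1, 0) (0, 1) p) +
      (T f θ (1, 0) (1, 0) (0, I) (0, I) p +
      T f θ (0, I) (0, I) (1, 0) (1, 0) p - 2 * T f θ (1, 0) (0, I) (1, 0) (0, I) p)) +
      (T f θ (I, 0) (I, 0) (0, 1) (0, 1) p +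
      T f θ (0, 1) (0, 1) (I, 0) (I, 0) p - 2 * T f θ (I, 0) (0, 1) (I, 0) (0, 1) p)) +
      (T f θ (I, 0) (I, 0) (0, I) (0, I) p +
      T f θ (0, I) (0, I) (I, 0) (I, 0) p - 2 * T f θ (I, 0) (0, I) (I, 0) (0, I) p)) -
      2 * ((T f θ (1, 0) (0, 1) (I, 0) (0, I) p - T f θ (I, 0) (0, 1) (1, 0) (0, I) p) +
        (T f θ (I, 0) (0, I) (1, 0) (0, 1) p - T f θ (1, 0) (0, I) (I, 0) (0, 1) p)) := by
    ext p
    simp only [ma2, T]
    ring
  rw [e]
  exact h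

theorem hess_add {f g : ℂ × ℂ → ℝ} (hf : Sm f) (hg : Sm g) (p a b : ℂ × ℂ) :
    hess (fun q => f q + g q) p a b = hess f p a b + hess g p a b := by
  have h1 : fderiv ℝ (fun q => f q + g q) = fun q => fderiv ℝ f q + fderiv ℝ g q := by
    ext1 q
    exact fderiv_fun_add (hf.diff q) (hg.diff q)
  unfold hess
  rw [h1, fderiv_fun_add ((hf.fderiv.differentiable (by simp)) p)
    ((hg.fderiv.differentiable (by simp)) p)]
  simp

theorem hess_const_mul {f : ℂ × ℂ → ℝ} (hf : Sm f) (c : ℝ) (p a b : ℂ × ℂ) :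
    hess (fun q => c * f q) p a b = c * hess f p a b := by
  have h1 : fderiv ℝ (fun q => c * f q) = fun q => c • fderiv ℝ f q := by
    ext1 q
    exact fderiv_const_mul (hf.diff q) c
  unfold hess
  rw [h1, fderiv_fun_const_smul ((hf.fderiv.differentiable (by simp)) p)]
  simp

theorem ma_add {g θ : ℂ × ℂ → ℝ} (hg : Sm g) (hθ : Sm θ) (p : ℂ × ℂ) :
    ma (fun q => g q + θ q) p - ma g p = ma2 (fun q => g q + (1 / 2) * θ q) θ p := by
  have hθ2 : Sm (fun q => (1 / 2 : ℝ) * θ q) := contDiff_const.mul hθ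
  simp only [ma, ma2, hess_add hg hθ, hess_add hg hθ2, hess_const_mul hθ]
  ring

/-- The total Monge-Ampère mass does not change under compactly supported perturbations. -/
theorem integral_ma_sub {g θ : ℂ × ℂ → ℝ} (hg : Sm g) (hθ : Sm θ) (hc : HasCompactSupport θ) :
    ∫ p, (ma (fun q => g q + θ q) p - ma g p) = 0 := by
  simp only [ma_add hg hθ]
  have hθ2 : Sm (fun q => (1 / 2 : ℝ) * θ q) := contDiff_const.mul hθ
  exact (integral_ma2 (hg.add hθ2) hθ hc).2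

end Pool.Agent.H90
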