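import Pool.Agent.H90.Levi

/-!
# Smooth approximation of continuous plurisubharmonic functions
-/

open Complex MeasureTheory Metric Real Set InnerProductSpace Topology Filter
open scoped Convolution

namespace Pool.Agent.H90

instance instHaar2 : (volume : Measure (ℂ × ℂ)).IsAddHaarMeasure := by
  rw [Measure.volume_eq_prod]
  infer_instance

theorem integrable_swap_aux {φ : ℂ × ℂ → ℝ} (hφ : Continuous φ) (hφc : HasCompactSupport φ)
    {F : ℝ → ℂ × ℂ → ℝ} (hF : Continuous (Function.uncurry F)) :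
    Integrable (Function.uncurry fun θ t => φ t * F θ t)
      ((volume.restrict (Set.uIoc 0 (2 * π))).prod volume) := by
  have hcont : Continuous (Function.uncurry fun θ t => φ t * F θ t) := by
    have : (Function.uncurry fun θ t => φ t * F θ t) =
        fun q : ℝ × (ℂ × ℂ) => φ q.2 * Function.uncurry F q := by
      ext ⟨θ, t⟩
      rfl
    rw [this]
    exact (hφ.comp continuous_snd).mul hF
  have hK : IsCompact (tsupport φ) := hφc
  have h1 : IntegrableOn (Function.uncurry fun θ t => φ t * F θ t)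
      (Icc 0 (2 * π) ×ˢ tsupport φ) (volume.prod volume) :=
    hcont.continuousOn.integrableOn_compact (isCompact_Icc.prod hK)
  have hpi : (0 : ℝ) ≤ 2 * π := by positivity
  have h2 : IntegrableOn (Function.uncurry fun θ t => φ t * F θ t)
      (Set.uIoc 0 (2 * π) ×ˢ tsupport φ) (volume.prod volume) := by
    apply h1.mono_set
    have : Set.uIoc 0 (2 * π) ⊆ Icc 0 (2 * π) := by
      rw [uIoc_of_le hpi]
      exact Ioc_subset_Icc_self
    exact Set.prod_mono this Subset.rfl
  rw [IntegrableOn, ← Measure.prod_restrict] at h2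
  have h3 : (volume.restrict (Set.uIoc 0 (2 * π))).prod (volume.restrict (tsupport φ)) =
      ((volume.restrict (Set.uIoc 0 (2 * π))).prod (volume : Measure (ℂ × ℂ))).restrict
        (univ ×ˢ tsupport φ) := by
    rw [← Measure.prod_restrict, Measure.restrict_univ]
  rw [h3] at h2
  rw [← integrableOn_iff_integrable_of_support_subset (s := univ ×ˢ tsupport φ)]
  · exact h2
  · rintro ⟨θ, t⟩ ht
    refine ⟨mem_univ _, subset_tsupport _ ?_⟩
    intro h0
    apply ht
    simp [Function.uncurry, h0]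

/-- The mollification of a function. -/
noncomputable def moll (φ : ℂ × ℂ → ℝ) (g : ℂ × ℂ → ℝ) (x : ℂ × ℂ) : ℝ :=
  ∫ t, φ t * g (x - t)

theorem moll_circleAverage {φ : ℂ × ℂ → ℝ} (hφ : Continuous φ) (hφc : HasCompactSupport φ)
    {g : ℂ × ℂ → ℝ} (hg : Continuous g) (p w : ℂ × ℂ) :
    circleAverage (fun ξ : ℂ => moll φ g (p + ξ • w)) 0 1 =
      ∫ t, φ t * circleAverage (fun ξ : ℂ => g (p - t + ξ • w)) 0 1 := by
  have hF : Continuous (Function.uncurry fun (θ : ℝ) (t : ℂ × ℂ) =>
      g (p + circleMap 0 1 θ • w - t)) := by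
    have : Continuous fun q : ℝ × (ℂ × ℂ) => g (p + circleMap 0 1 q.1 • w - q.2) := by
      have h1 : Continuous fun q : ℝ × (ℂ × ℂ) => circleMap 0 1 q.1 :=
        (continuous_circleMap 0 1).comp continuous_fst
      fun_prop
    exact this
  have hswap := intervalIntegral_integral_swap (integrable_swap_aux hφ hφc hF)
  rw [circleAverage_def]
  simp only [moll]
  rw [hswap, ← integral_smul]
  congr 1
  ext t
  rw [circleAverage_def, intervalIntegral.integral_const_mul, smul_eq_mul, smul_eq_mul]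
  have : ∀ θ : ℝ, p + circleMap 0 1 θ • w - t = p - t + circleMap 0 1 θ • w := by
    intro θ
    abel
  simp only [this]
  ring

theorem continuous_circleAverage_param {g : ℂ × ℂ → ℝ} (hg : Continuous g) (w : ℂ × ℂ) :
    Continuous fun p : ℂ × ℂ => circleAverage (fun ξ : ℂ => g (p + ξ • w)) 0 1 := by
  simp only [circleAverage_def]
  have h2 : Continuous fun q : (ℂ × ℂ) × ℝ => g (q.1 + circleMap 0 1 q.2 • w) := by
    have h1 : Continuous fun q : (ℂ × ℂ) × ℝ => circleMap 0 1 q.2 :=
      (continuous_circleMap 0 1).comp continuous_snd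
    fun_prop
  have h3 : Continuous fun p : ℂ × ℂ => ∫ θ in (0 : ℝ)..2 * π, g (p + circleMap 0 1 θ • w) :=
    intervalIntegral.continuous_parametric_intervalIntegral_of_continuous' h2 0 (2 * π)
  exact h3.const_smul ((2 * π)⁻¹)

theorem moll_submean {φ : ℂ × ℂ → ℝ} (hφ : Continuous φ) (hφc : HasCompactSupport φ)
    (hφ0 : ∀ t, 0 ≤ φ t) {g : ℂ × ℂ → ℝ} (hg : Continuous g) {p w : ℂ × ℂ}
    (h : ∀ t, φ t ≠ 0 → g (p - t) ≤ circleAverage (fun ξ : ℂ => g (p - t + ξ • w)) 0 1) :
    moll φ g p ≤ circleAverage (fun ξ : ℂ => moll φ g (p + ξ • w)) 0 1 := by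
  rw [moll_circleAverage hφ hφc hg, moll]
  apply integral_mono
  · apply Continuous.integrable_of_hasCompactSupport
    · fun_prop
    · exact hφc.mul_right
  · apply Continuous.integrable_of_hasCompactSupport
    · have := (continuous_circleAverage_param hg w).comp (continuous_const.sub continuous_id : Continuous fun t : ℂ × ℂ => p - t)
      exact hφ.mul this
    · exact hφc.mul_right
  · intro t
    by_cases ht : φ t = 0
    · simp [ht]
    · exact mul_le_mul_of_nonneg_left (h t ht) (hφ0 t)

theorem exists_smooth_approx {u : ℂ × ℂ → ℝ} {Ω K : Set (ℂ × ℂ)} (hΩ : IsOpen Ω)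
    (hK : IsCompact K) (hKΩ : K ⊆ Ω) (hu : PshOn u Ω) {η : ℝ} (hη : 0 < η) :
    ∃ v : ℂ × ℂ → ℝ, ∃ N : Set (ℂ × ℂ), IsOpen N ∧ K ⊆ N ∧ N ⊆ Ω ∧ ContDiff ℝ (⊤ : ℕ∞) v ∧
      PshOn v N ∧ ∀ p ∈ N, |v p - u p| ≤ η := by
  obtain ⟨K₁, hK₁, hKK₁, hK₁Ω⟩ := exists_compact_between hK hΩ hKΩ
  obtain ⟨δ, hδ, hδK⟩ := hK.exists_cthickening_subset_open isOpen_interior hKK₁
  -- the extension
  obtain ⟨G, hG⟩ := ContinuousMap.exists_restrict_eq hK₁.isClosed
    (⟨K₁.domRestrict u, (hu.cont.mono hK₁Ω).domRestrict⟩ : C(K₁, ℝ))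
  have hGu : ∀ p ∈ K₁, G p = u p := by
    intro p hp
    exact congrArg (fun f : C(K₁, ℝ) => f ⟨p, hp⟩) hG
  -- uniform continuity
  have hKδ : IsCompact (cthickening δ K) := hK.cthickening
  have huc : UniformContinuousOn G (cthickening δ K) :=
    hKδ.uniformContinuousOn_of_continuous G.continuous.continuousOn
  obtain ⟨ρ, hρ, hρη⟩ := Metric.uniformContinuousOn_iff.mp huc η hη
  set r : ℝ := min (δ / 2) ρ with hr
  have hrpos : 0 < r := by positivity
  have hrδ : r ≤ δ / 2 := min_le_left _ _
  have hrρ : r ≤ ρ := min_le_right _ _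
  let φ : ContDiffBump (0 : ℂ × ℂ) := ⟨r / 2, r, by positivity, by linarith⟩
  have hφr : φ.rOut = r := rfl
  let f : ℂ × ℂ → ℝ := φ.normed volume
  have hf1 : Continuous f := φ.continuous_normed
  have hf2 : HasCompactSupport f := φ.hasCompactSupport_normed
  have hf3 : ∀ t, 0 ≤ f t := fun t => φ.nonneg_normed t
  have hf4 : ∀ t, f t ≠ 0 → ‖t‖ < r := by
    intro t ht
    have : t ∈ Function.support f := ht
    rw [show Function.support f = ball 0 φ.rOut from φ.support_normed_eq] at this
    simpa [hφr] using this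
  have hmoll : moll f G = (f ⋆[ContinuousLinearMap.lsmul ℝ ℝ, volume] G : ℂ × ℂ → ℝ) := by
    ext x
    rfl
  have hNsub : thickening (δ / 2) K ⊆ interior K₁ :=
    (thickening_subset_cthickening_of_le (by linarith) K).trans hδK
  have hsubK : ∀ p ∈ thickening (δ / 2) K, ∀ t : ℂ × ℂ, ‖t‖ < r → p - t ∈ cthickening δ K := by
    intro p hp t ht
    apply thickening_subset_cthickening
    rw [mem_thickening_iff] at hp ⊢
    obtain ⟨z, hz, hpz⟩ := hp
    refine ⟨z, hz, ?_⟩
    have : dist (p - t) p = ‖t‖ := by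
      rw [dist_eq_norm]
      simp
    have := dist_triangle (p - t) p z
    linarith
  refine ⟨moll f G, thickening (δ / 2) K, isOpen_thickening, self_subset_thickening (by positivity) K,
    hNsub.trans (interior_subset.trans hK₁Ω), ?_, ⟨?_, ?_⟩, ?_⟩
  · rw [hmoll]
    exact hf2.contDiff_convolution_left _ φ.contDiff_normed G.continuous.locallyIntegrable
  · rw [hmoll]
    exact (hf2.contDiff_convolution_left (n := 0) _ φ.contDiff_normed
      G.continuous.locallyIntegrable).continuous.continuousOn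
  · intro p w hpw
    apply moll_submean hf1 hf2 hf3 G.continuous
    intro t ht
    have ht' := hf4 t ht
    have hin : ∀ ξ ∈ closedBall (0 : ℂ) 1, p - t + ξ • w ∈ K₁ := by
      intro ξ hξ
      have : p - t + ξ • w = p + ξ • w - t := by abel
      rw [this]
      exact interior_subset (hδK (hsubK _ (hpw ξ hξ) t ht'))
    have h0 : p - t ∈ K₁ := by simpa using hin 0 (by simp)
    rw [hGu _ h0]
    have : circleAverage (fun ξ : ℂ => G (p - t + ξ • w)) 0 1 =
        circleAverage (fun ξ : ℂ => u (p - t + ξ • w)) 0 1 := by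
      apply circleAverage_congr_sphere
      intro ξ hξ
      rw [abs_one] at hξ
      exact hGu _ (hin ξ (sphere_subset_closedBall hξ))
    rw [this]
    exact hu.submean _ _ fun ξ hξ => hK₁Ω (hin ξ hξ)
  · intro p hp
    have hpK : p ∈ K₁ := interior_subset (hNsub hp)
    rw [← hGu p hpK, hmoll, ← Real.dist_eq]
    apply φ.dist_normed_convolution_le G.continuous.aestronglyMeasurable
    intro x hx
    have hx' : ‖p - x‖ < r := by
      rw [← dist_eq_norm, dist_comm]
      simpa [hφr] using hx
    have h1 : x ∈ cthickening δ K := by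
      have := hsubK p hp (p - x) hx'
      simpa using this
    have h2 : p ∈ cthickening δ K := thickening_subset_cthickening_of_le (by linarith) K hp
    refine (hρη x h1 p h2 ?_).le
    rw [dist_comm, dist_eq_norm]
    linarith

end Pool.Agent.H90
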