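import Mathlib

/-!
# Poisson integrals on discs centred at the origin, and local-to-global for subharmonic functions
-/

open Complex MeasureTheory Metric Real Set InnerProductSpace Topology Filter

namespace Pool.Agent.H90

/-- The Poisson integral of `g` over the circle of radius `R` about `0`. -/
noncomputable def PI (g : ℂ → ℝ) (R : ℝ) (w : ℂ) : ℝ :=
  circleAverage (fun z => poissonKernel 0 w z * g z) 0 R

theorem continuousOn_poissonKernel {R : ℝ} {w : ℂ} (hw : w ∈ ball (0 : ℂ) R) :
    ContinuousOn (poissonKernel 0 w) (sphere (0 : ℂ) |R|) := by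
  rw [poissonKernel_eq_re_herglotzRieszKernel]
  exact Complex.continuous_re.comp_continuousOn (continuousOn_herglotzRieszKernel_sphere hw)

theorem poissonKernel_nonneg {R : ℝ} {w z : ℂ} (hw : w ∈ ball (0 : ℂ) R) (hz : z ∈ sphere (0 : ℂ) R) :
    0 ≤ poissonKernel 0 w z := by
  rw [poissonKernel_def]
  have h1 : ‖w - 0‖ < R := by simpa using hw
  have h2 : ‖z - 0‖ = R := by simpa using hz
  apply div_nonneg _ (sq_nonneg _)
  rw [h2]
  have := norm_nonneg (w - 0)
  nlinarith

theorem circleAverage_poissonKernel {R : ℝ} {w : ℂ} (hw : w ∈ ball (0 : ℂ) R) :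
    circleAverage (poissonKernel 0 w) 0 R = 1 := by
  have h := HarmonicOnNhd.circleAverage_poissonKernel_smul (f := fun _ : ℂ => (1 : ℝ)) (c := 0)
    (R := R) (w := w) (harmonicOnNhd_const 1) hw
  rw [← h]
  congr 1
  ext z
  simp

theorem circleIntegrable_poissonKernel_mul {g : ℂ → ℝ} {R : ℝ} {w : ℂ} (hw : w ∈ ball (0 : ℂ) R)
    (hg : CircleIntegrable g 0 R) :
    CircleIntegrable (fun z => poissonKernel 0 w z * g z) 0 R := by
  have := hg.continuousOn_smul (continuousOn_poissonKernel hw)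
  exact this

theorem CircleIntegrable.const_mul' {g : ℂ → ℝ} {c : ℂ} {R : ℝ} (hg : CircleIntegrable g c R)
    (a : ℝ) : CircleIntegrable (fun z => a * g z) c R := by
  have := hg.const_smul (a := a)
  exact this

theorem circleAverage_const_mul (g : ℂ → ℝ) (c : ℂ) (R : ℝ) (a : ℝ) :
    circleAverage (fun z => a * g z) c R = a * circleAverage g c R := by
  have := circleAverage_fun_smul (a := a) (f := g) (c := c) (R := R)
  simpa only [smul_eq_mul] using this

theorem PI_eq_re {g : ℂ → ℝ} {R : ℝ} {w : ℂ} (hw : w ∈ ball (0 : ℂ) R)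
    (hg : CircleIntegrable g 0 R) :
    PI g R w = (circleAverage (fun ζ ↦ herglotzRieszKernel 0 w ζ • (g ζ : ℂ)) 0 R).re := by
  rw [re_circleAverage_herglotzRieszKernel_smul hg hw, PI, poissonKernel_eq_re_herglotzRieszKernel]
  rfl

theorem circleIntegrable_ofReal {g : ℂ → ℝ} {R : ℝ} {c : ℂ} (hg : CircleIntegrable g c R) :
    CircleIntegrable (fun ζ ↦ (g ζ : ℂ)) c R := by
  simp only [CircleIntegrable, intervalIntegrable_iff] at hg ⊢
  exact Complex.ofRealCLM.integrable_comp hg

theorem harmonicOnNhd_PI {g : ℂ → ℝ} {R : ℝ} (hg : CircleIntegrable g 0 R) :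
    HarmonicOnNhd (PI g R) (ball 0 R) := by
  intro w hw
  have h1 := (analyticOnNhd_circleAverage_herglotzRieszKernel_smul (circleIntegrable_ofReal hg)) w hw
  have h2 := h1.harmonicAt_re
  rw [harmonicAt_congr_nhds (f₂ := fun w => (circleAverage (fun ζ ↦ herglotzRieszKernel 0 w ζ • (g ζ : ℂ)) 0 R).re)]
  · exact h2
  · filter_upwards [isOpen_ball.mem_nhds hw] with w' hw'
    exact PI_eq_re hw' hg

theorem PI_zero {g : ℂ → ℝ} {R : ℝ} (hR : 0 < R) : PI g R 0 = circleAverage g 0 R := by
  unfold PI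
  apply circleAverage_congr_sphere
  intro z hz
  have hz' : ‖z‖ = R := by
    rw [abs_of_pos hR] at hz
    simpa using hz
  simp only [poissonKernel_def, sub_zero, norm_zero]
  rw [hz']
  field_simp
  simp

/-- Boundary behaviour of the Poisson integral. -/
theorem tendsto_PI {g : ℂ → ℝ} {R M : ℝ} (hR : 0 < R) (hg : CircleIntegrable g 0 R)
    (hM : ∀ z ∈ sphere (0 : ℂ) R, |g z| ≤ M) {z₀ : ℂ} (hz₀ : z₀ ∈ sphere (0 : ℂ) R)
    (hc : ContinuousWithinAt g (sphere 0 R) z₀) :
    Tendsto (PI g R) (𝓝[ball 0 R] z₀) (𝓝 (g z₀)) := by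
  rw [Metric.tendsto_nhdsWithin_nhds]
  intro ε hε
  have hM0 : 0 ≤ M := (abs_nonneg _).trans (hM z₀ hz₀)
  obtain ⟨δ, hδ, hδ'⟩ := Metric.continuousWithinAt_iff.mp hc (ε / 2) (by positivity)
  -- choose the neighbourhood
  have hz₀' : ‖z₀‖ = R := by simpa using hz₀
  have hlim : Tendsto (fun w : ℂ => 2 * M * ((R ^ 2 - ‖w‖ ^ 2) * (4 / δ ^ 2))) (𝓝 z₀) (𝓝 0) := by
    have : Continuous (fun w : ℂ => 2 * M * ((R ^ 2 - ‖w‖ ^ 2) * (4 / δ ^ 2))) := by fun_prop
    have h := this.tendsto z₀
    rw [hz₀'] at h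
    simpa using h
  obtain ⟨δ₂, hδ₂, hδ₂'⟩ := Metric.tendsto_nhds_nhds.mp hlim (ε / 2) (by positivity)
  refine ⟨min (δ / 2) δ₂, by positivity, fun {w} hw hdist => ?_⟩
  have hw1 : dist w z₀ < δ / 2 := hdist.trans_le (min_le_left _ _)
  have hw2 := hδ₂' (hdist.trans_le (min_le_right _ _))
  have hwR : ‖w‖ < R := by simpa using hw
  have hK := circleAverage_poissonKernel hw
  have hKint : CircleIntegrable (poissonKernel 0 w) 0 R :=
    (continuousOn_poissonKernel hw).circleIntegrable'
  have hsph : ∀ z ∈ sphere (0 : ℂ) |R|, z ∈ sphere (0 : ℂ) R := by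
    intro z hz
    rwa [abs_of_pos hR] at hz
  have hdiff : PI g R w - g z₀ = circleAverage (fun z => poissonKernel 0 w z * (g z - g z₀)) 0 R := by
    have h1 : (fun z => poissonKernel 0 w z * (g z - g z₀)) =
        fun z => poissonKernel 0 w z * g z - g z₀ * poissonKernel 0 w z := by
      ext z
      ring
    rw [h1, circleAverage_fun_sub (circleIntegrable_poissonKernel_mul hw hg)
      (CircleIntegrable.const_mul' hKint _), circleAverage_const_mul, hK]
    simp [PI]
  have hpt : ∀ z ∈ sphere (0 : ℂ) |R|, |poissonKernel 0 w z * (g z - g z₀)| ≤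
      (ε / 2) * poissonKernel 0 w z + 2 * M * ((R ^ 2 - ‖w‖ ^ 2) * (4 / δ ^ 2)) := by
    intro z hz
    have hz := hsph z hz
    have hzR : ‖z‖ = R := by simpa using hz
    have hKn := poissonKernel_nonneg hw hz
    rw [abs_mul, abs_of_nonneg hKn]
    have hRw : 0 ≤ R ^ 2 - ‖w‖ ^ 2 := by nlinarith [norm_nonneg w]
    by_cases hzd : dist z z₀ < δ
    · have h1 := (hδ' hz hzd).le
      rw [Real.dist_eq] at h1
      have h2 : 0 ≤ 2 * M * ((R ^ 2 - ‖w‖ ^ 2) * (4 / δ ^ 2)) := by positivity
      have h3 := mul_le_mul_of_nonneg_left h1 hKn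
      linarith
    · push Not at hzd
      have h1 : |g z - g z₀| ≤ 2 * M := by
        have ha := hM z hz
        have hb := hM z₀ hz₀
        rw [abs_le] at ha hb ⊢
        constructor <;> linarith [ha.1, ha.2, hb.1, hb.2]
      have h2 : δ / 2 ≤ ‖z - w‖ := by
        rw [← dist_eq_norm]
        have := dist_triangle z w z₀
        linarith
      have h3 : poissonKernel 0 w z ≤ (R ^ 2 - ‖w‖ ^ 2) * (4 / δ ^ 2) := by
        rw [poissonKernel_def]
        simp only [sub_zero]
        have hzw : 0 < ‖z - w‖ := (by positivity : (0 : ℝ) < δ / 2).trans_le h2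
        rw [hzR, div_le_iff₀ (by positivity)]
        have h4 : (δ / 2) ^ 2 ≤ ‖z - w‖ ^ 2 := by gcongr
        have h5 : 1 ≤ (4 / δ ^ 2) * ‖z - w‖ ^ 2 := by
          rw [div_mul_eq_mul_div, le_div_iff₀ (by positivity)]
          linarith
        calc R ^ 2 - ‖w‖ ^ 2 = (R ^ 2 - ‖w‖ ^ 2) * 1 := by ring
          _ ≤ (R ^ 2 - ‖w‖ ^ 2) * ((4 / δ ^ 2) * ‖z - w‖ ^ 2) := by gcongr
          _ = _ := by ring
      have h6 : 0 ≤ (ε / 2) * poissonKernel 0 w z := by positivity
      calc poissonKernel 0 w z * |g z - g z₀| ≤ ((R ^ 2 - ‖w‖ ^ 2) * (4 / δ ^ 2)) * (2 * M) := by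
            gcongr
        _ ≤ _ := by linarith
  rw [Real.dist_eq, hdiff]
  have hint : CircleIntegrable (fun z => poissonKernel 0 w z * (g z - g z₀)) 0 R := by
    refine circleIntegrable_poissonKernel_mul hw ?_
    exact hg.sub (circleIntegrable_const _ _ _)
  calc |circleAverage (fun z => poissonKernel 0 w z * (g z - g z₀)) 0 R|
      ≤ circleAverage |fun z => poissonKernel 0 w z * (g z - g z₀)| 0 R :=
        abs_circleAverage_le_circleAverage_abs
    _ ≤ circleAverage (fun z => (ε / 2) * poissonKernel 0 w z + 2 * M * ((R ^ 2 - ‖w‖ ^ 2) * (4 / δ ^ 2))) 0 R := by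
        refine circleAverage_mono ?_ ?_ hpt
        · exact hint.abs
        · exact (CircleIntegrable.const_mul' hKint _).add (circleIntegrable_const _ _ _)
    _ = (ε / 2) + 2 * M * ((R ^ 2 - ‖w‖ ^ 2) * (4 / δ ^ 2)) := by
        rw [circleAverage_fun_add (CircleIntegrable.const_mul' hKint _)
          (circleIntegrable_const _ _ _), circleAverage_const_mul, hK, circleAverage_const]
        simp
    _ < ε := by
        rw [Real.dist_eq, sub_zero] at hw2
        have := le_abs_self (2 * M * ((R ^ 2 - ‖w‖ ^ 2) * (4 / δ ^ 2)))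
        linarith

open Classical in
/-- The Poisson modification of `g` in the disc of radius `R` about `0`. -/
noncomputable def PE (g : ℂ → ℝ) (R : ℝ) (w : ℂ) : ℝ :=
  if w ∈ ball (0 : ℂ) R then PI g R w else g w

theorem PE_of_mem {g : ℂ → ℝ} {R : ℝ} {w : ℂ} (hw : w ∈ ball (0 : ℂ) R) : PE g R w = PI g R w :=
  if_pos hw

theorem PE_of_not_mem {g : ℂ → ℝ} {R : ℝ} {w : ℂ} (hw : w ∉ ball (0 : ℂ) R) : PE g R w = g w :=
  if_neg hw

theorem circleIntegrable_of_continuousOn {g : ℂ → ℝ} {R : ℝ} (hR : 0 < R) {c : ℂ}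
    (hg : ContinuousOn g (sphere c R)) : CircleIntegrable g c R := by
  apply ContinuousOn.circleIntegrable'
  rwa [abs_of_pos hR]

theorem harmonicOnNhd_PE {g : ℂ → ℝ} {R : ℝ} (hg : CircleIntegrable g 0 R) :
    HarmonicOnNhd (PE g R) (ball 0 R) := by
  intro w hw
  rw [harmonicAt_congr_nhds (f₂ := PI g R)]
  · exact harmonicOnNhd_PI hg w hw
  · filter_upwards [isOpen_ball.mem_nhds hw] with w' hw'
    exact PE_of_mem hw'

theorem bound_sphere {g : ℂ → ℝ} {R : ℝ} (hg : ContinuousOn g (sphere (0 : ℂ) R)) :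
    ∃ M, ∀ z ∈ sphere (0 : ℂ) R, |g z| ≤ M := by
  obtain ⟨M, hM⟩ := (isCompact_sphere (0 : ℂ) R).exists_bound_of_continuousOn hg
  exact ⟨M, fun z hz => by simpa using hM z hz⟩

theorem continuousWithinAt_PE_ball {g : ℂ → ℝ} {R : ℝ} (hR : 0 < R)
    (hg : ContinuousOn g (sphere (0 : ℂ) R)) {z₀ : ℂ} (hz₀ : z₀ ∈ sphere (0 : ℂ) R) :
    ContinuousWithinAt (PE g R) (ball 0 R) z₀ := by
  obtain ⟨M, hM⟩ := bound_sphere hg
  have h := tendsto_PI hR (circleIntegrable_of_continuousOn hR hg) hM hz₀ (hg z₀ hz₀)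
  have hz₀' : z₀ ∉ ball (0 : ℂ) R := by
    have : ‖z₀‖ = R := by simpa using hz₀
    simp [this]
  unfold ContinuousWithinAt
  rw [PE_of_not_mem hz₀']
  refine h.congr' ?_
  filter_upwards [self_mem_nhdsWithin] with w hw
  exact (PE_of_mem hw).symm

theorem continuousOn_PE {g : ℂ → ℝ} {R : ℝ} (hR : 0 < R)
    (hg : ContinuousOn g (sphere (0 : ℂ) R)) : ContinuousOn (PE g R) (closedBall 0 R) := by
  intro z hz
  rcases (mem_closedBall.mp hz).lt_or_eq with h | h
  · exact ((harmonicOnNhd_PE (circleIntegrable_of_continuousOn hR hg) z h).1.continuousAt).continuousWithinAt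
  · have h1 := continuousWithinAt_PE_ball hR hg (z₀ := z) h
    have h2 : ContinuousWithinAt (PE g R) (sphere 0 R) z := by
      refine (hg z h).congr (fun y hy => PE_of_not_mem ?_) (PE_of_not_mem ?_)
      · rw [mem_ball, not_lt]; exact (mem_sphere.mp hy).ge
      · rw [mem_ball, not_lt]; exact h.ge
    rw [← ball_union_sphere]
    exact h1.union h2

theorem continuous_PE {g : ℂ → ℝ} {R : ℝ} (hR : 0 < R) (hg : Continuous g) :
    Continuous (PE g R) := by
  have h1 := continuousOn_PE hR (hg.continuousOn (s := sphere (0 : ℂ) R))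
  have h2 : ContinuousOn (PE g R) (ball (0 : ℂ) R)ᶜ :=
    hg.continuousOn.congr fun y hy => PE_of_not_mem hy
  have h3 : ContinuousOn (PE g R) (closedBall (0 : ℂ) R ∪ (ball (0 : ℂ) R)ᶜ) :=
    h1.union_of_isClosed h2 isClosed_closedBall isOpen_ball.isClosed_compl
  rw [← continuousOn_univ]
  refine h3.mono ?_
  intro z _
  by_cases hz : z ∈ ball (0 : ℂ) R
  · exact Or.inl (ball_subset_closedBall hz)
  · exact Or.inr hz

/-- A continuous function on a circle which is `≤ M` and somewhere `< M` has average `< M`. -/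
theorem circleAverage_lt {f : ℂ → ℝ} {c : ℂ} {R M : ℝ} (hR : 0 < R)
    (hf : ContinuousOn f (sphere c R)) (h1 : ∀ z ∈ sphere c R, f z ≤ M) {z₁ : ℂ}
    (hz₁ : z₁ ∈ sphere c R) (h2 : f z₁ < M) : circleAverage f c R < M := by
  have hpi : (0 : ℝ) < 2 * π := two_pi_pos
  have hcm : ∀ θ : ℝ, circleMap c R θ ∈ sphere c R := fun θ => circleMap_mem_sphere c hR.le θ
  have hcont : ContinuousOn (fun θ : ℝ => f (circleMap c R θ)) (Icc 0 (2 * π)) :=
    hf.comp (continuous_circleMap c R).continuousOn fun θ _ => hcm θ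
  obtain ⟨θ, hθ, hθ'⟩ : ∃ θ ∈ Ico 0 (2 * π), circleMap c R θ = z₁ := by
    have h3 : z₁ ∈ range (circleMap c R) := by
      rw [range_circleMap, abs_of_pos hR]
      exact hz₁
    obtain ⟨θ, rfl⟩ := h3
    have := (periodic_circleMap c R).exists_mem_Ico₀ hpi θ
    obtain ⟨y, hy, hy'⟩ := this
    exact ⟨y, hy, hy'.symm⟩
  have hlt : ∫ θ in (0 : ℝ)..2 * π, f (circleMap c R θ) < ∫ θ in (0 : ℝ)..2 * π, M := by
    apply intervalIntegral.integral_lt_integral_of_continuousOn_of_le_of_exists_lt hpi hcont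
      continuousOn_const
    · intro θ _
      exact h1 _ (hcm θ)
    · exact ⟨θ, Ico_subset_Icc_self hθ, by rw [hθ']; exact h2⟩
  have hconst : circleAverage (fun _ : ℂ => M) c R = M := circleAverage_const M c R
  rw [← hconst]
  rw [circleAverage_def, circleAverage_def, smul_eq_mul, smul_eq_mul]
  exact mul_lt_mul_of_pos_left hlt (inv_pos.mpr hpi)

/-- Maximum principle: a continuous function on the closed disc with the local sub-mean value
property which is nonpositive on the boundary circle is nonpositive. -/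
theorem max_principle {h : ℂ → ℝ} {c : ℂ} {R : ℝ} (hc : ContinuousOn h (closedBall c R))
    (hb : ∀ z ∈ sphere c R, h z ≤ 0)
    (hs : ∀ w ∈ ball c R, ∃ s₀ > 0, ∀ s, 0 < s → s < s₀ → h w ≤ circleAverage h w s) :
    ∀ w ∈ closedBall c R, h w ≤ 0 := by
  by_contra hcon
  push Not at hcon
  obtain ⟨w₀, hw₀, hw₀'⟩ := hcon
  obtain ⟨wm, hwm, hmax⟩ := (isCompact_closedBall c R).exists_isMaxOn ⟨w₀, hw₀⟩ hc
  set M := h wm with hM
  have hMpos : 0 < M := hw₀'.trans_le (hmax hw₀)
  have hle : ∀ z ∈ closedBall c R, h z ≤ M := fun z hz => hmax hz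
  let S : Set ℂ := closedBall c R ∩ h ⁻¹' {M}
  have hScl : IsClosed S := hc.preimage_isClosed_of_isClosed isClosed_closedBall isClosed_singleton
  have hS : IsCompact S := (isCompact_closedBall c R).of_isClosed_subset hScl inter_subset_left
  have hSne : S.Nonempty := ⟨wm, hwm, rfl⟩
  obtain ⟨w, hwS, hwmax⟩ := hS.exists_isMaxOn hSne (f := fun z => dist z c)
    (Continuous.continuousOn (by fun_prop))
  have hwM : h w = M := hwS.2
  have hwball : w ∈ ball c R := by
    rcases (mem_closedBall.mp hwS.1).lt_or_eq with h1 | h1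
    · exact h1
    · exfalso
      have := hb w h1
      linarith
  obtain ⟨s₀, hs₀, hs₀'⟩ := hs w hwball
  -- choose a small radius
  set s : ℝ := min (s₀ / 2) ((R - dist w c) / 2) with hsdef
  have hwlt : dist w c < R := hwball
  have hspos : 0 < s := by
    apply lt_min (by positivity)
    linarith
  have hs1 : s < s₀ := (min_le_left _ _).trans_lt (by linarith)
  have hs2 : s < R - dist w c := (min_le_right _ _).trans_lt (by linarith)
  have hsub : sphere w s ⊆ closedBall c R := by
    intro z hz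
    rw [mem_closedBall]
    have := dist_triangle z w c
    rw [mem_sphere] at hz
    linarith
  -- a point of the circle farther from `c` than `w`
  obtain ⟨z₁, hz₁, hz₁'⟩ : ∃ z ∈ sphere w s, dist w c < dist z c := by
    by_cases hwc : w = c
    · refine ⟨w + s, ?_, ?_⟩
      · simp [abs_of_pos hspos]
      · rw [hwc]
        simp [abs_of_pos hspos, hspos]
    · have hne : ‖w - c‖ ≠ 0 := by
        rw [norm_ne_zero_iff]
        exact sub_ne_zero.mpr hwc
      have hpos : 0 < ‖w - c‖ := lt_of_le_of_ne (norm_nonneg _) (Ne.symm hne)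
      refine ⟨w + ((s / ‖w - c‖ : ℝ) : ℂ) * (w - c), ?_, ?_⟩
      · rw [mem_sphere, dist_eq_norm, add_sub_cancel_left, norm_mul, Complex.norm_real,
          Real.norm_eq_abs, abs_of_pos (by positivity)]
        field_simp
      · rw [dist_eq_norm, dist_eq_norm]
        have : w + ((s / ‖w - c‖ : ℝ) : ℂ) * (w - c) - c = ((1 + s / ‖w - c‖ : ℝ) : ℂ) * (w - c) := by
          push_cast
          ring
        rw [this, norm_mul, Complex.norm_real, Real.norm_eq_abs, abs_of_pos (by positivity)]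
        have : (1 + s / ‖w - c‖) * ‖w - c‖ = ‖w - c‖ + s := by field_simp
        rw [this]
        linarith
  have hz₁M : h z₁ < M := by
    rcases (hle z₁ (hsub hz₁)).lt_or_eq with h1 | h1
    · exact h1
    · exfalso
      have := hwmax (show z₁ ∈ S from ⟨hsub hz₁, h1⟩)
      simp only [mem_ofPred_eq] at this
      linarith
  have h3 := circleAverage_lt hspos (hc.mono hsub) (fun z hz => hle z (hsub hz)) hz₁ hz₁M
  have h4 := hs₀' s hspos hs1
  linarith

/-- The local sub-mean value property of a real function at a point. -/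
def LSM (h : ℂ → ℝ) (w : ℂ) : Prop :=
  ∃ s₀ > 0, ∀ s, 0 < s → s < s₀ → h w ≤ circleAverage h w s

theorem LSM_sub_harmonic {g f : ℂ → ℝ} {U : Set ℂ} (hU : IsOpen U) (hg : ContinuousOn g U)
    (hf : HarmonicOnNhd f U) {w : ℂ} (hw : w ∈ U) (hgw : LSM g w) :
    LSM (fun z => g z - f z) w := by
  obtain ⟨s₀, hs₀, h⟩ := hgw
  obtain ⟨r, hr, hrU⟩ := Metric.isOpen_iff.mp hU w hw
  refine ⟨min s₀ r, lt_min hs₀ hr, fun s hs hs' => ?_⟩
  have hs1 : s < s₀ := hs'.trans_le (min_le_left _ _)
  have hs2 : s < r := hs'.trans_le (min_le_right _ _)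
  have hcb : closedBall w s ⊆ U := (closedBall_subset_ball hs2).trans hrU
  have hsp : sphere w s ⊆ U := sphere_subset_closedBall.trans hcb
  have hfc : ContinuousOn f U := fun z hz => (hf z hz).1.continuousAt.continuousWithinAt
  have hfm : circleAverage f w s = f w := by
    apply InnerProductSpace.HarmonicOnNhd.circleAverage_eq
    rw [abs_of_pos hs]
    exact hf.mono hcb
  rw [circleAverage_fun_sub (circleIntegrable_of_continuousOn hs (hg.mono hsp))
    (circleIntegrable_of_continuousOn hs (hfc.mono hsp)), hfm]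
  have := h s hs hs1
  linarith

/-- Local sub-mean value property implies domination by the Poisson modification (centre 0). -/
theorem le_PE {g : ℂ → ℝ} {R : ℝ} (hR : 0 < R) (hg : ContinuousOn g (closedBall 0 R))
    (hs : ∀ w ∈ ball (0 : ℂ) R, LSM g w) : ∀ w ∈ closedBall (0 : ℂ) R, g w ≤ PE g R w := by
  have hgs : ContinuousOn g (sphere (0 : ℂ) R) := hg.mono sphere_subset_closedBall
  have hP := continuousOn_PE hR hgs
  have hH := harmonicOnNhd_PE (circleIntegrable_of_continuousOn hR hgs)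
  have := max_principle (h := fun z => g z - PE g R z) (hg.sub hP) ?_ ?_
  · intro w hw
    have := this w hw
    linarith
  · intro z hz
    rw [PE_of_not_mem, sub_self]
    rw [mem_ball, not_lt]
    exact (mem_sphere.mp hz).ge
  · intro w hw
    exact LSM_sub_harmonic isOpen_ball (hg.mono ball_subset_closedBall) hH hw (hs w hw)

theorem circleAverage_translate (g : ℂ → ℝ) (c : ℂ) (R : ℝ) :
    circleAverage g c R = circleAverage (fun z => g (c + z)) 0 R := by
  have := circleAverage_map_add_const (f := g) (c := c) (R := R)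
  rw [← this]
  congr 1
  ext z
  rw [add_comm]

/-- Local sub-mean value property on a disc implies the global one at the centre. -/
theorem LSM.global {g : ℂ → ℝ} {c : ℂ} {R : ℝ} (hR : 0 < R) (hg : ContinuousOn g (closedBall c R))
    (hs : ∀ w ∈ ball c R, LSM g w) : g c ≤ circleAverage g c R := by
  have hmap : ∀ z : ℂ, z ∈ closedBall (0 : ℂ) R → c + z ∈ closedBall c R := by
    intro z hz
    simpa [dist_eq_norm] using hz
  have hmap' : ∀ z : ℂ, z ∈ ball (0 : ℂ) R → c + z ∈ ball c R := by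
    intro z hz
    simpa [dist_eq_norm] using hz
  have h := le_PE (g := fun z => g (c + z)) hR
    (hg.comp (by fun_prop) fun z hz => hmap z hz) ?_ 0 (mem_closedBall_self hR.le)
  · rw [PE_of_mem (mem_ball_self hR), PI_zero hR] at h
    simp only [add_zero] at h
    rw [circleAverage_translate]
    exact h
  · intro w hw
    obtain ⟨s₀, hs₀, h⟩ := hs (c + w) (hmap' w hw)
    refine ⟨s₀, hs₀, fun s hs hs' => ?_⟩
    have := h s hs hs'
    rw [circleAverage_translate] at this ⊢
    simpa only [add_assoc] using this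

end Pool.Agent.H90
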