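import Pool.Agent.H90.Poisson
import Pool.Agent.H90.Defs

/-!
# Continuous plurisubharmonic functions
-/

open Complex MeasureTheory Metric Real Set InnerProductSpace Topology Filter

namespace Pool.Agent.H90

variable {E : Type*} [NormedAddCommGroup E] [NormedSpace ℂ E]

theorem PshOn.mono {u : E → ℝ} {Ω Ω' : Set E} (h : PshOn u Ω) (h' : Ω' ⊆ Ω) : PshOn u Ω' :=
  ⟨h.cont.mono h', fun p w hpw => h.submean p w fun ξ hξ => h' (hpw ξ hξ)⟩

theorem PshOn.congr {u v : E → ℝ} {Ω : Set E} (h : PshOn u Ω) (h' : ∀ p ∈ Ω, v p = u p) :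
    PshOn v Ω := by
  refine ⟨h.cont.congr h', fun p w hpw => ?_⟩
  have hp : p ∈ Ω := by simpa using hpw 0 (by simp)
  rw [h' p hp]
  have : circleAverage (fun ξ : ℂ => v (p + ξ • w)) 0 1 =
      circleAverage (fun ξ : ℂ => u (p + ξ • w)) 0 1 := by
    apply circleAverage_congr_sphere
    intro ξ hξ
    rw [abs_one] at hξ
    exact h' _ (hpw ξ (sphere_subset_closedBall hξ))
  rw [this]
  exact h.submean p w hpw

theorem continuousOn_line {u : E → ℝ} {Ω : Set E} (h : ContinuousOn u Ω) {p w : E} {s : Set ℂ}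
    (hs : ∀ ξ ∈ s, p + ξ • w ∈ Ω) : ContinuousOn (fun ξ : ℂ => u (p + ξ • w)) s :=
  h.comp (by fun_prop) hs

theorem circleIntegrable_line {u : E → ℝ} {Ω : Set E} (h : ContinuousOn u Ω) {p w : E} {r : ℝ}
    (hr : 0 < r) (hs : ∀ ξ ∈ closedBall (0 : ℂ) r, p + ξ • w ∈ Ω) :
    CircleIntegrable (fun ξ : ℂ => u (p + ξ • w)) 0 r :=
  circleIntegrable_of_continuousOn hr
    (continuousOn_line h fun ξ hξ => hs ξ (sphere_subset_closedBall hξ))

theorem PshOn.add {u v : E → ℝ} {Ω : Set E} (hu : PshOn u Ω) (hv : PshOn v Ω) :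
    PshOn (fun p => u p + v p) Ω := by
  refine ⟨hu.cont.add hv.cont, fun p w hpw => ?_⟩
  rw [circleAverage_fun_add (circleIntegrable_line hu.cont one_pos hpw)
    (circleIntegrable_line hv.cont one_pos hpw)]
  exact add_le_add (hu.submean p w hpw) (hv.submean p w hpw)

theorem PshOn.const_mul {u : E → ℝ} {Ω : Set E} (hu : PshOn u Ω) {c : ℝ} (hc : 0 ≤ c) :
    PshOn (fun p => c * u p) Ω := by
  refine ⟨hu.cont.const_mul c |>.congr fun _ _ => rfl, fun p w hpw => ?_⟩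
  rw [circleAverage_const_mul (fun ξ : ℂ => u (p + ξ • w))]
  exact mul_le_mul_of_nonneg_left (hu.submean p w hpw) hc

theorem pshOn_const (c : ℝ) (Ω : Set E) : PshOn (fun _ => c) Ω :=
  ⟨continuousOn_const, fun p w _ => by rw [circleAverage_const]⟩

theorem PshOn.max {u v : E → ℝ} {Ω : Set E} (hu : PshOn u Ω) (hv : PshOn v Ω) :
    PshOn (fun p => max (u p) (v p)) Ω := by
  refine ⟨hu.cont.sup hv.cont, fun p w hpw => ?_⟩
  have hm : CircleIntegrable (fun ξ : ℂ => Max.max (u (p + ξ • w)) (v (p + ξ • w))) 0 1 :=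
    circleIntegrable_line (hu.cont.sup hv.cont) one_pos hpw
  apply max_le
  · refine (hu.submean p w hpw).trans (circleAverage_mono
      (circleIntegrable_line hu.cont one_pos hpw) hm fun ξ _ => le_max_left _ _)
  · refine (hv.submean p w hpw).trans (circleAverage_mono
      (circleIntegrable_line hv.cont one_pos hpw) hm fun ξ _ => le_max_right _ _)

/-- Composition with a complex affine map. -/
theorem PshOn.comp_affine {F : Type*} [NormedAddCommGroup F] [NormedSpace ℂ F] {u : E → ℝ}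
    {Ω : Set E} (hu : PshOn u Ω) (L : F →L[ℂ] E) (q : E) {Ω' : Set F}
    (h : ∀ p ∈ Ω', q + L p ∈ Ω) : PshOn (fun p => u (q + L p)) Ω' := by
  refine ⟨hu.cont.comp (by fun_prop) h, fun p w hpw => ?_⟩
  have := hu.submean (q + L p) (L w) ?_
  · simpa only [map_add, map_smul, add_assoc] using this
  · intro ξ hξ
    have := h _ (hpw ξ hξ)
    simpa only [map_add, map_smul, add_assoc] using this

theorem circleAverage_scale (f : ℂ → ℝ) (s : ℝ) :
    circleAverage f 0 s = circleAverage (fun ξ => f (s * ξ)) 0 1 := by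
  rw [circleAverage_eq_circleAverage_zero_one]
  simp

theorem exists_disc_subset {Ω : Set E} (hΩ : IsOpen Ω) {p : E} (hp : p ∈ Ω) (w : E) :
    ∃ s₀ > 0, ∀ ξ : ℂ, ‖ξ‖ < s₀ → p + ξ • w ∈ Ω := by
  obtain ⟨r, hr, hrΩ⟩ := Metric.isOpen_iff.mp hΩ p hp
  refine ⟨r / (‖w‖ + 1), by positivity, fun ξ hξ => hrΩ ?_⟩
  rw [mem_ball, dist_eq_norm, add_sub_cancel_left, norm_smul]
  rw [lt_div_iff₀ (by positivity)] at hξ
  nlinarith [norm_nonneg ξ, norm_nonneg w]

theorem PshOn.LSM {u : E → ℝ} {Ω : Set E} (hu : PshOn u Ω) (hΩ : IsOpen Ω) {p : E} (hp : p ∈ Ω)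
    (w : E) : LSM (fun ξ : ℂ => u (p + ξ • w)) 0 := by
  obtain ⟨s₀, hs₀, h⟩ := exists_disc_subset hΩ hp w
  refine ⟨s₀, hs₀, fun s hs hs' => ?_⟩
  rw [circleAverage_scale]
  have := hu.submean p ((s : ℂ) • w) ?_
  · simpa only [zero_smul, add_zero, smul_smul, mul_comm] using this
  · intro ξ hξ
    rw [smul_smul]
    apply h
    rw [norm_mul, Complex.norm_real, Real.norm_eq_abs, abs_of_pos hs]
    have : ‖ξ‖ ≤ 1 := by simpa using hξ
    nlinarith

theorem PshOn.of_LSM {u : E → ℝ} {Ω : Set E} (hc : ContinuousOn u Ω)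
    (h : ∀ p ∈ Ω, ∀ w : E, Pool.Agent.H90.LSM (fun ξ : ℂ => u (p + ξ • w)) 0) : PshOn u Ω := by
  refine ⟨hc, fun p w hpw => ?_⟩
  have := LSM.global (g := fun ξ : ℂ => u (p + ξ • w)) (c := 0) (R := 1) one_pos
    (continuousOn_line hc hpw) ?_
  · simpa using this
  · intro ξ₀ hξ₀
    obtain ⟨s₀, hs₀, h1⟩ := h _ (hpw ξ₀ (ball_subset_closedBall hξ₀)) w
    refine ⟨s₀, hs₀, fun s hs hs' => ?_⟩
    have h2 := h1 s hs hs'
    rw [circleAverage_translate]
    simpa only [zero_smul, add_zero, add_smul, add_assoc] using h2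

end Pool.Agent.H90
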