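import Pool.Agent.H90.Harm

/-!
# Auxiliary estimates: the strict inequality at the origin, even Poisson integrals
-/

open Complex MeasureTheory Metric Real Set InnerProductSpace Topology Filter

namespace Pool.Agent.H90

variable {a b B : ℝ} {u : ℂ × ℂ → ℝ}

theorem circleAverage_quartic (ρ : ℝ) :
    circleAverage (fun ξ : ℂ => (ξ.re ^ 2 - ξ.im ^ 2) ^ 2) 0 ρ = ρ ^ 4 / 2 := by
  rw [circleAverage_def]
  have h1 : ∀ θ : ℝ, ((circleMap 0 ρ θ).re ^ 2 - (circleMap 0 ρ θ).im ^ 2) ^ 2 =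
      ρ ^ 4 / 2 + (ρ ^ 4 / 2) * Real.cos (4 * θ) := by
    intro θ
    have e1 : (circleMap 0 ρ θ).re = ρ * Real.cos θ := by simp [circleMap]
    have e2 : (circleMap 0 ρ θ).im = ρ * Real.sin θ := by simp [circleMap]
    rw [e1, e2]
    have e3 : Real.cos (4 * θ) = 2 * (2 * Real.cos θ ^ 2 - 1) ^ 2 - 1 := by
      rw [show 4 * θ = 2 * (2 * θ) by ring, Real.cos_two_mul, Real.cos_two_mul]
    rw [e3]
    have e4 : Real.sin θ ^ 2 = 1 - Real.cos θ ^ 2 := by
      have := Real.sin_sq_add_cos_sq θ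
      linarith
    have e5 : ((ρ * Real.cos θ) ^ 2 - (ρ * Real.sin θ) ^ 2) = ρ ^ 2 * (2 * Real.cos θ ^ 2 - 1) := by
      rw [mul_pow, mul_pow, e4]
      ring
    rw [e5]
    ring
  simp only [h1]
  rw [intervalIntegral.integral_add (by simp) (Continuous.intervalIntegrable (by fun_prop) _ _),
    intervalIntegral.integral_const_mul]
  have h2 : ∫ x in (0 : ℝ)..2 * π, Real.cos (4 * x) = 0 := by
    rw [intervalIntegral.integral_comp_mul_left (fun x => Real.cos x) (by norm_num : (4 : ℝ) ≠ 0),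
      integral_cos]
    have : Real.sin (4 * (2 * π)) = 0 := by
      rw [show 4 * (2 * π) = (8 : ℕ) * π by push_cast; ring]
      exact Real.sin_nat_mul_pi 8
    rw [this]
    simp
  rw [h2]
  simp
  field_simp

theorem cos_upper {x : ℝ} (hx : |x| ≤ 1 / 10) :
    9 / (10 * π ^ 2) * Real.cos (2 * π * x) ≤ 9 / (10 * π ^ 2) - 9 / 5 * x ^ 2 + 3 / 4000 := by
  have hpi : 0 < π := Real.pi_pos
  have hpi1 : π < 3.15 := Real.pi_lt_d2
  have hpi2 : π ^ 2 < 10 := by nlinarith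
  have hpi3 : 3 < π := Real.pi_gt_three
  have hx2 : x ^ 2 ≤ 1 / 100 := by
    have := abs_le.mp hx
    nlinarith [this.1, this.2]
  have h1 : |2 * π * x| ≤ 1 := by
    rw [abs_mul, abs_of_pos (by positivity : 0 < 2 * π)]
    nlinarith [abs_nonneg x]
  have h2 := (abs_le.mp (Real.cos_bound h1)).2
  have h3 : |2 * π * x| ^ 4 = 16 * π ^ 4 * x ^ 4 := by
    rw [show |2 * π * x| ^ 4 = (|2 * π * x| ^ 2) ^ 2 by ring, sq_abs]
    ring
  rw [h3] at h2
  have h4 : x ^ 4 ≤ 1 / 10000 := by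
    have : x ^ 4 = x ^ 2 * x ^ 2 := by ring
    rw [this]
    nlinarith [sq_nonneg x]
  have h5 : Real.cos (2 * π * x) ≤ 1 - 2 * π ^ 2 * x ^ 2 + 5 / 6 * π ^ 4 * x ^ 4 := by
    nlinarith
  have h6 : 9 / (10 * π ^ 2) * Real.cos (2 * π * x) ≤
      9 / (10 * π ^ 2) * (1 - 2 * π ^ 2 * x ^ 2 + 5 / 6 * π ^ 4 * x ^ 4) := by
    gcongr
  have h7 : 9 / (10 * π ^ 2) * (1 - 2 * π ^ 2 * x ^ 2 + 5 / 6 * π ^ 4 * x ^ 4) =
      9 / (10 * π ^ 2) - 9 / 5 * x ^ 2 + 3 / 4 * π ^ 2 * x ^ 4 := by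
    field_simp
    ring
  rw [h7] at h6
  have h8 : 3 / 4 * π ^ 2 * x ^ 4 ≤ 3 / 4000 := by
    have : π ^ 2 * x ^ 4 ≤ 10 * (1 / 10000) := by
      apply mul_le_mul hpi2.le h4 (by positivity) (by norm_num)
    linarith
  linarith

/-- At the origin the minimum over time is strictly below the boundary value. -/
theorem Geo.E_zero_lt (h : Geo a b (9 / (10 * π ^ 2)) u) :
    E a b u 0 0 < 9 / (10 * π ^ 2) := by
  have h1 := h.kiselev 0 0 (1 / 10)
  have hEc := h.continuous_E 0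
  have h2 : circleAverage (E a b u 0) 0 (1 / 10) ≤
      circleAverage (fun ξ : ℂ => (9 / (10 * π ^ 2) + 7 / 4000) +
        (-90) * (ξ.re ^ 2 - ξ.im ^ 2) ^ 2) 0 (1 / 10) := by
    apply circleAverage_mono
    · exact circleIntegrable_of_continuousOn (by norm_num) hEc.continuousOn
    · apply ContinuousOn.circleIntegrable'
      apply Continuous.continuousOn
      fun_prop
    · intro ξ hξ
      rw [abs_of_pos (by norm_num : (0 : ℝ) < 1 / 10)] at hξ
      have hξ' : ‖ξ‖ = 1 / 10 := by simpa using hξ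
      have hre : |ξ.re| ≤ 1 / 10 := (Complex.abs_re_le_norm ξ).trans hξ'.le
      have him : |ξ.im| ≤ 1 / 10 := (Complex.abs_im_le_norm ξ).trans hξ'.le
      have hsum : ξ.re ^ 2 + ξ.im ^ 2 = 1 / 100 := by
        have : ‖ξ‖ ^ 2 = ξ.re ^ 2 + ξ.im ^ 2 := by
          rw [← Complex.normSq_eq_norm_sq, Complex.normSq_apply]
          ring
        rw [← this, hξ']
        norm_num
      have e0 := h.E_le 0 ξ (t := 0) ⟨le_rfl, zero_le_one⟩
      have e1 := h.E_le 0 ξ (t := 1) ⟨zero_le_one, le_rfl⟩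
      rw [h.W_zero, hξ'] at e0
      rw [h.W_one, hξ'] at e1
      have c0 := cos_upper him
      have c1 := cos_upper hre
      rcases le_total (ξ.re ^ 2) (ξ.im ^ 2) with hc | hc
      · have h3 : 50 * (ξ.re ^ 2 - ξ.im ^ 2) ^ 2 + 1 / 200 ≤ ξ.im ^ 2 := by
          have : 0 ≤ (ξ.im ^ 2 - ξ.re ^ 2) * (1 - 100 * (ξ.im ^ 2 - ξ.re ^ 2)) := by
            apply mul_nonneg (by linarith)
            nlinarith [sq_nonneg ξ.re]
          nlinarith
        linarith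
      · have h3 : 50 * (ξ.re ^ 2 - ξ.im ^ 2) ^ 2 + 1 / 200 ≤ ξ.re ^ 2 := by
          have : 0 ≤ (ξ.re ^ 2 - ξ.im ^ 2) * (1 - 100 * (ξ.re ^ 2 - ξ.im ^ 2)) := by
            apply mul_nonneg (by linarith)
            nlinarith [sq_nonneg ξ.im]
          nlinarith
        linarith
  rw [circleAverage_fun_add (circleIntegrable_const _ _ _), circleAverage_const,
    circleAverage_const_mul, circleAverage_quartic] at h2
  · linarith
  · apply ContinuousOn.circleIntegrable'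
    apply Continuous.continuousOn
    fun_prop

theorem kernel_even {R : ℝ} (hR : 0 < R) {ζ z : ℂ} (hζ : ‖ζ‖ ≤ R / 2) (hz : ‖z‖ = R) :
    |1 / 2 * (poissonKernel 0 ζ z + poissonKernel 0 (-ζ) z) - 1| ≤ 5 * ‖ζ‖ ^ 2 / R ^ 2 := by
  rw [poissonKernel_def, poissonKernel_def]
  simp only [sub_zero, norm_neg, sub_neg_eq_add]
  rw [hz]
  set c := 2 * (z.re * ζ.re + z.im * ζ.im) with hc
  have n1 : ‖z‖ ^ 2 = z.re ^ 2 + z.im ^ 2 := by
    rw [← Complex.normSq_eq_norm_sq, Complex.normSq_apply]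
    ring
  have n2 : ‖ζ‖ ^ 2 = ζ.re ^ 2 + ζ.im ^ 2 := by
    rw [← Complex.normSq_eq_norm_sq, Complex.normSq_apply]
    ring
  have n3 : ‖z - ζ‖ ^ 2 = R ^ 2 + ‖ζ‖ ^ 2 - c := by
    rw [← hz, n1, n2, ← Complex.normSq_eq_norm_sq, Complex.normSq_apply, hc]
    simp only [sub_re, sub_im]
    ring
  have n4 : ‖z + ζ‖ ^ 2 = R ^ 2 + ‖ζ‖ ^ 2 + c := by
    rw [← hz, n1, n2, ← Complex.normSq_eq_norm_sq, Complex.normSq_apply, hc]
    simp only [add_re, add_im]
    ring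
  set x := ‖ζ‖ ^ 2 with hx
  have hx0 : 0 ≤ x := by positivity
  have hx1 : x ≤ R ^ 2 / 4 := by
    have := norm_nonneg ζ
    rw [hx]
    nlinarith
  have hc2 : c ^ 2 ≤ 4 * (R ^ 2 * x) := by
    rw [← hz, n1, n2, hc]
    nlinarith [sq_nonneg (z.re * ζ.im - z.im * ζ.re)]
  have hR2 : 0 < R ^ 2 := by positivity
  have hden : 9 / 16 * (R ^ 2) ^ 2 ≤ (R ^ 2 + x - c) * (R ^ 2 + x + c) := by
    have : (R ^ 2 + x - c) * (R ^ 2 + x + c) = (R ^ 2 - x) ^ 2 + (4 * (R ^ 2 * x) - c ^ 2) := by ring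
    rw [this]
    nlinarith
  have hpos1 : 0 < R ^ 2 + x - c := by
    rw [← n3]
    have : z ≠ ζ := by
      intro h
      rw [← h, hz] at hζ
      linarith
    have := norm_pos_iff.mpr (sub_ne_zero.mpr this)
    positivity
  have hpos2 : 0 < R ^ 2 + x + c := by
    rw [← n4]
    have : z + ζ ≠ 0 := by
      intro h
      have h' : z = -ζ := eq_neg_of_add_eq_zero_left h
      rw [h', norm_neg] at hz
      linarith
    have := norm_pos_iff.mpr this
    positivity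
  rw [n3, n4]
  have e : 1 / 2 * ((R ^ 2 - x) / (R ^ 2 + x - c) + (R ^ 2 - x) / (R ^ 2 + x + c)) - 1 =
      (c ^ 2 - 2 * (R ^ 2 * x) - 2 * x ^ 2) / ((R ^ 2 + x - c) * (R ^ 2 + x + c)) := by
    field_simp
    ring
  rw [e, abs_div, abs_of_pos (mul_pos hpos1 hpos2)]
  rw [div_le_div_iff₀ (mul_pos hpos1 hpos2) hR2]
  have hnum : |c ^ 2 - 2 * (R ^ 2 * x) - 2 * x ^ 2| ≤ 5 / 2 * (R ^ 2 * x) := by
    rw [abs_le]
    constructor <;> nlinarith [sq_nonneg c]
  calc |c ^ 2 - 2 * (R ^ 2 * x) - 2 * x ^ 2| * R ^ 2 ≤ 5 / 2 * (R ^ 2 * x) * R ^ 2 := by gcongr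
    _ ≤ 5 * x * (9 / 16 * (R ^ 2) ^ 2) := by nlinarith [mul_nonneg hx0 (sq_nonneg (R ^ 2))]
    _ ≤ 5 * x * ((R ^ 2 + x - c) * (R ^ 2 + x + c)) := by gcongr

/-- Even parts of Poisson integrals vary quadratically near the origin. -/
theorem PI_even_bound {q : ℂ → ℝ} {R M : ℝ} (hR : 0 < R) (hq : ContinuousOn q (sphere (0 : ℂ) R))
    (hM : ∀ z ∈ sphere (0 : ℂ) R, |q z| ≤ M) {ζ : ℂ} (hζ : ‖ζ‖ ≤ R / 2) :
    |1 / 2 * (PI q R ζ + PI q R (-ζ)) - PI q R 0| ≤ 5 * ‖ζ‖ ^ 2 / R ^ 2 * M := by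
  have hi := circleIntegrable_of_continuousOn hR hq
  have hζb : ζ ∈ ball (0 : ℂ) R := by
    rw [mem_ball_zero_iff]
    linarith
  have hζb' : -ζ ∈ ball (0 : ℂ) R := by
    rw [mem_ball_zero_iff, norm_neg]
    linarith
  have i1 := circleIntegrable_poissonKernel_mul hζb hi
  have i2 := circleIntegrable_poissonKernel_mul hζb' hi
  have e : 1 / 2 * (PI q R ζ + PI q R (-ζ)) - PI q R 0 = circleAverage (fun z =>
      1 / 2 * (poissonKernel 0 ζ z * q z + poissonKernel 0 (-ζ) z * q z) - q z) 0 R := by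
    have i3 : CircleIntegrable (fun z => poissonKernel 0 ζ z * q z + poissonKernel 0 (-ζ) z * q z)
        0 R := i1.add i2
    have h3 : circleAverage (fun z => 1 / 2 * (poissonKernel 0 ζ z * q z +
        poissonKernel 0 (-ζ) z * q z)) 0 R = 1 / 2 * (PI q R ζ + PI q R (-ζ)) := by
      rw [circleAverage_const_mul, circleAverage_fun_add i1 i2]
      rfl
    rw [circleAverage_fun_sub (CircleIntegrable.const_mul' i3 (1 / 2)) hi, PI_zero hR, ← h3]
  rw [e]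
  refine abs_circleAverage_le_circleAverage_abs.trans ?_
  have h1 : circleAverage (fun _ : ℂ => 5 * ‖ζ‖ ^ 2 / R ^ 2 * M) 0 R = 5 * ‖ζ‖ ^ 2 / R ^ 2 * M :=
    circleAverage_const _ _ _
  rw [← h1]
  apply circleAverage_mono
  · exact ((CircleIntegrable.const_mul' (i1.add i2) (1 / 2)).sub hi).abs
  · exact circleIntegrable_const _ _ _
  · intro z hz
    rw [abs_of_pos hR] at hz
    have hz' : ‖z‖ = R := by simpa using hz
    have e2 : 1 / 2 * (poissonKernel 0 ζ z * q z + poissonKernel 0 (-ζ) z * q z) - q z =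
        (1 / 2 * (poissonKernel 0 ζ z + poissonKernel 0 (-ζ) z) - 1) * q z := by ring
    simp only [Pi.abs_apply]
    rw [e2, abs_mul]
    exact mul_le_mul (kernel_even hR hζ hz') (hM z hz) (abs_nonneg _) (by positivity)

theorem second_difference {f : ℂ → ℝ} {x : ℂ} (hf : ContDiffAt ℝ 2 f x) :
    ∃ C ≥ 0, ∃ δ > 0, ∀ l : ℂ, ‖l‖ < δ → |f (x + l) + f (x - l) - 2 * f x| ≤ C * ‖l‖ ^ 2 := by
  have h1 : ContDiffAt ℝ 1 (fderiv ℝ f) x := hf.fderiv_right (by norm_num)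
  have h2 : DifferentiableAt ℝ (fderiv ℝ f) x := h1.differentiableAt (by norm_num)
  obtain ⟨C, hC⟩ := h2.isBigO_sub.bound
  obtain ⟨δ₁, hδ₁, hδ₁'⟩ := Metric.eventually_nhds_iff.mp hC
  have h3 : ∀ᶠ y in 𝓝 x, DifferentiableAt ℝ f y := by
    filter_upwards [hf.eventually (by simp)] with y hy
    exact hy.differentiableAt (by norm_num)
  obtain ⟨δ₂, hδ₂, hδ₂'⟩ := Metric.eventually_nhds_iff.mp h3
  refine ⟨2 * |C|, by positivity, min δ₁ δ₂, by positivity, fun l hl => ?_⟩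
  have hl1 : ‖l‖ < δ₁ := hl.trans_le (min_le_left _ _)
  have hl2 : ‖l‖ < δ₂ := hl.trans_le (min_le_right _ _)
  set D1 := fderiv ℝ f x with hD1
  have hder : ∀ y ∈ closedBall x ‖l‖, HasFDerivWithinAt (fun y => f y - D1 y)
      (fderiv ℝ f y - D1) (closedBall x ‖l‖) y := by
    intro y hy
    apply HasFDerivAt.hasFDerivWithinAt
    have : DifferentiableAt ℝ f y := hδ₂' ((mem_closedBall.mp hy).trans_lt hl2)
    exact this.hasFDerivAt.sub D1.hasFDerivAt
  have hb : ∀ y ∈ closedBall x ‖l‖, ‖fderiv ℝ f y - D1‖ ≤ |C| * ‖l‖ := by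
    intro y hy
    have h4 := hδ₁' ((mem_closedBall.mp hy).trans_lt hl1)
    have h5 : ‖y - x‖ ≤ ‖l‖ := by
      rw [← dist_eq_norm]
      exact mem_closedBall.mp hy
    refine h4.trans ?_
    calc C * ‖y - x‖ ≤ |C| * ‖y - x‖ := by
          gcongr
          exact le_abs_self C
      _ ≤ _ := by gcongr
  have hx : x ∈ closedBall x ‖l‖ := mem_closedBall_self (norm_nonneg _)
  have hp : x + l ∈ closedBall x ‖l‖ := by simp
  have hm : x - l ∈ closedBall x ‖l‖ := by simp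
  have k1 := (convex_closedBall x ‖l‖).norm_image_sub_le_of_norm_hasFDerivWithin_le hder hb hx hp
  have k2 := (convex_closedBall x ‖l‖).norm_image_sub_le_of_norm_hasFDerivWithin_le hder hb hx hm
  have e1 : ‖x + l - x‖ = ‖l‖ := by simp
  have e2 : ‖x - l - x‖ = ‖l‖ := by simp
  rw [e1, Real.norm_eq_abs] at k1
  rw [e2, Real.norm_eq_abs] at k2
  have e3 : f (x + l) + f (x - l) - 2 * f x = (f (x + l) - D1 (x + l) - (f x - D1 x)) +
      (f (x - l) - D1 (x - l) - (f x - D1 x)) := by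
    simp only [map_add, map_sub]
    ring
  rw [e3]
  refine (abs_add_le _ _).trans ?_
  have e4 : 2 * |C| * ‖l‖ ^ 2 = |C| * ‖l‖ * ‖l‖ + |C| * ‖l‖ * ‖l‖ := by ring
  rw [e4]
  exact add_le_add k1 k2

end Pool.Agent.H90
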